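import Pool.Agent.Helper29.C2.Pat

/-!
Amalgamation of patterns.
-/

set_option autoImplicit false

namespace Pool.Agent.Helper29.C2

/-- Distribute descriptions injectively over the elements of the right colours. -/
theorem exists_assign {B Q F : Type} [Fintype B] [Fintype F] (c : B → Q) (U : Q → F → ℕ)
    (h : ∀ q, ∑ φ, U q φ ≤ ∑ b, ind (c b = q)) :
    ∃ g : B → Option F, ∀ q φ, ∑ b, ind (c b = q ∧ g b = some φ) = U q φ := by
  classical
  have hι : ∀ q, Nonempty ((Σ φ : F, Fin (U q φ)) ↪ {b // c b = q}) := by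
    intro q
    refine Function.Embedding.nonempty_of_card_le ?_
    have h1 := h q
    rw [sum_ind_eq_card, Nat.card_eq_fintype_card] at h1
    simpa using h1
  let ι := fun q => (hι q).some
  let Rel : B → F → Prop := fun b φ => ∃ i : Fin (U (c b) φ), (ι (c b) ⟨φ, i⟩).1 = b
  have hRel : ∀ q φ (i : Fin (U q φ)), Rel (ι q ⟨φ, i⟩).1 φ := by
    intro q φ i
    have hq : c (ι q ⟨φ, i⟩).1 = q := (ι q ⟨φ, i⟩).2
    have key : ∀ q', q' = q → ∃ j : Fin (U q' φ), (ι q' ⟨φ, j⟩).1 = (ι q ⟨φ, i⟩).1 := by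
      rintro _ rfl; exact ⟨i, rfl⟩
    exact key _ hq
  have huniq : ∀ b φ φ', Rel b φ → Rel b φ' → φ = φ' := by
    rintro b φ φ' ⟨i, hi⟩ ⟨j, hj⟩
    have := (ι (c b)).injective (Subtype.ext (hi.trans hj.symm))
    exact congrArg Sigma.fst this
  let g : B → Option F := fun b => if h : ∃ φ, Rel b φ then some h.choose else none
  have hg : ∀ b φ, g b = some φ ↔ Rel b φ := by
    intro b φ
    by_cases hb : ∃ φ, Rel b φ
    · simp only [g, dif_pos hb, Option.some.injEq]
      constructor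
      · rintro rfl; exact hb.choose_spec
      · intro h'; exact huniq _ _ _ hb.choose_spec h'
    · simp only [g, dif_neg hb]
      constructor
      · intro h'; cases h'
      · intro h'; exact absurd ⟨φ, h'⟩ hb
  refine ⟨g, fun q φ => ?_⟩
  rw [sum_ind_eq_card]
  have hbij : Function.Bijective (fun i : Fin (U q φ) =>
      (⟨(ι q ⟨φ, i⟩).1, (ι q ⟨φ, i⟩).2, (hg _ _).2 (hRel q φ i)⟩ :
        {b // c b = q ∧ g b = some φ})) := by
    constructor
    · intro i j hij
      have h1 := congrArg Subtype.val hij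
      have h2 := (ι q).injective (Subtype.ext h1)
      simpa using h2
    · rintro ⟨b, hb, hb'⟩
      subst hb
      obtain ⟨i, hi⟩ := (hg _ _).1 hb'
      exact ⟨i, Subtype.ext hi⟩
  rw [← Nat.card_congr (Equiv.ofBijective _ hbij), Nat.card_eq_fintype_card, Fintype.card_fin]

/-- Matching of balanced two-way descriptions. -/
theorem exists_matching {A B Q F : Type} [Fintype A] [Fintype B] [Fintype F]
    (cA : A → Q) (cB : B → Q) (uA : A → Q → F → ℕ) (uB : B → Q → F → ℕ)
    (hA : ∀ a q', ∑ φ, uA a q' φ ≤ 1) (hB : ∀ b q, ∑ φ, uB b q φ ≤ 1)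
    (bal : ∀ q q' φ, ∑ a, ind (cA a = q) * uA a q' φ = ∑ b, ind (cB b = q') * uB b q φ) :
    ∃ M : A → B → Option F,
      (∀ a q' φ, ∑ b, ind (cB b = q' ∧ M a b = some φ) = uA a q' φ) ∧
      (∀ b q φ, ∑ a, ind (cA a = q ∧ M a b = some φ) = uB b q φ) := by
  classical
  have hA1 : ∀ a q' φ, uA a q' φ ≤ 1 := fun a q' φ => (le_sum (fun φ => uA a q' φ) φ).trans (hA a q')
  have hB1 : ∀ b q φ, uB b q φ ≤ 1 := fun b q φ => (le_sum (fun φ => uB b q φ) φ).trans (hB b q)
  have hone : ∀ (p : Prop) (n : ℕ), n ≤ 1 → ind p * n = ind (p ∧ n ≠ 0) := by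
    intro p n hn
    rw [ind_and]
    congr 1
    rcases Nat.eq_zero_or_pos n with h | h
    · subst h; simp
    · have : n = 1 := by omega
      subst this; simp
  have he : ∀ q q' φ, Nonempty ({a // cA a = q ∧ uA a q' φ ≠ 0} ≃
      {b // cB b = q' ∧ uB b q φ ≠ 0}) := by
    intro q q' φ
    refine Finite.card_eq.1 ?_
    rw [← sum_ind_eq_card, ← sum_ind_eq_card]
    have := bal q q' φ
    simp only [hone _ _ (hA1 _ _ _), hone _ _ (hB1 _ _ _)] at this
    exact this
  let e := fun q q' φ => (he q q' φ).some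
  let Rel : A → B → F → Prop := fun a b φ =>
    ∃ h : uA a (cB b) φ ≠ 0, (e (cA a) (cB b) φ ⟨a, rfl, h⟩).1 = b
  have hRel : ∀ a q' φ (h : uA a q' φ ≠ 0), Rel a (e (cA a) q' φ ⟨a, rfl, h⟩).1 φ := by
    intro a q' φ h
    have hq : cB (e (cA a) q' φ ⟨a, rfl, h⟩).1 = q' := (e (cA a) q' φ ⟨a, rfl, h⟩).2.1
    have key : ∀ q'', q'' = q' → ∃ h' : uA a q'' φ ≠ 0, (e (cA a) q'' φ ⟨a, rfl, h'⟩).1 =
        (e (cA a) q' φ ⟨a, rfl, h⟩).1 := by
      rintro _ rfl; exact ⟨h, rfl⟩
    exact key _ hq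
  have huniq : ∀ a b φ φ', Rel a b φ → Rel a b φ' → φ = φ' := by
    rintro a b φ φ' ⟨h, _⟩ ⟨h', _⟩
    by_contra hne
    have h1 := hA a (cB b)
    have h2 : uA a (cB b) φ + uA a (cB b) φ' ≤ ∑ φ, uA a (cB b) φ := by
      rw [← Finset.sum_pair hne]
      exact Finset.sum_le_sum_of_subset (Finset.subset_univ _)
    omega
  let M : A → B → Option F := fun a b => if h : ∃ φ, Rel a b φ then some h.choose else none
  have hM : ∀ a b φ, M a b = some φ ↔ Rel a b φ := by
    intro a b φ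
    by_cases hb : ∃ φ, Rel a b φ
    · simp only [M, dif_pos hb, Option.some.injEq]
      constructor
      · rintro rfl; exact hb.choose_spec
      · intro h'; exact huniq _ _ _ _ hb.choose_spec h'
    · simp only [M, dif_neg hb]
      constructor
      · intro h'; cases h'
      · intro h'; exact absurd ⟨φ, h'⟩ hb
  refine ⟨M, fun a q' φ => ?_, fun b q φ => ?_⟩
  · by_cases h : uA a q' φ = 0
    · rw [h]
      refine Finset.sum_eq_zero fun b _ => ind_neg ?_
      rintro ⟨rfl, h2⟩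
      obtain ⟨h3, _⟩ := (hM _ _ _).1 h2
      exact h3 h
    · have h1 : uA a q' φ = 1 := by have := hA1 a q' φ; omega
      rw [h1]
      have h2 : ∀ b, (cB b = q' ∧ M a b = some φ) ↔ (e (cA a) q' φ ⟨a, rfl, h⟩).1 = b := by
        intro b
        constructor
        · rintro ⟨rfl, h3⟩
          obtain ⟨_, h4⟩ := (hM _ _ _).1 h3
          exact h4
        · rintro rfl
          exact ⟨(e (cA a) q' φ ⟨a, rfl, h⟩).2.1, (hM _ _ _).2 (hRel a q' φ h)⟩
      simp only [h2]
      exact sum_ind_eq _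
  · by_cases h : uB b q φ = 0
    · rw [h]
      refine Finset.sum_eq_zero fun a _ => ind_neg ?_
      rintro ⟨rfl, h2⟩
      obtain ⟨h3, h4⟩ := (hM _ _ _).1 h2
      have h5 := (e (cA a) (cB b) φ ⟨a, rfl, h3⟩).2.2
      rw [h4] at h5
      exact h5 h
    · have h1 : uB b q φ = 1 := by have := hB1 b q φ; omega
      rw [h1]
      obtain ⟨a0, ha0⟩ : ∃ a0, e q (cB b) φ a0 = ⟨b, rfl, h⟩ := (e q (cB b) φ).surjective _
      obtain ⟨a0, rfl, hu⟩ := a0
      have h2 : ∀ a, (cA a = cA a0 ∧ M a b = some φ) ↔ a0 = a := by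
        intro a
        constructor
        · rintro ⟨h3, h4⟩
          obtain ⟨h5, h6⟩ := (hM _ _ _).1 h4
          have key : ∀ q', q' = cA a → ∀ (h' : cA a = q') , (e q' (cB b) φ ⟨a, h', h5⟩).1 = b := by
            rintro _ rfl _; exact h6
          have h7 := key (cA a0) h3.symm h3
          have h8 : e (cA a0) (cB b) φ ⟨a, h3, h5⟩ = e (cA a0) (cB b) φ ⟨a0, rfl, hu⟩ := by
            rw [ha0]; exact Subtype.ext h7
          have h9 := (e (cA a0) (cB b) φ).injective h8
          exact (congrArg Subtype.val h9).symm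
        · rintro rfl
          refine ⟨rfl, (hM _ _ _).2 ⟨hu, ?_⟩⟩
          rw [ha0]
      simp only [h2]
      exact sum_ind_eq _

end Pool.Agent.Helper29.C2
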