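import Pool.Agent.Helper29.C2.Amal

/-!
Amalgamation of patterns, the main lemma.
-/

set_option autoImplicit false

namespace Pool.Agent.Helper29.C2

variable {Q F S : Type} [Fintype Q] [Fintype F] [Fintype S]

/-- The number of links of a description used by a move. -/
def Sys.use (Y : Sys Q F S) (x : S × S) (q' : Q) (φ : F) (t : Bool) : ℕ :=
  Y.O x.1 q' φ t - Y.O x.2 q' φ t

namespace Pat

variable {Y : Sys Q F S} {P : F → Prop} {A B : Type} [Fintype A] [Fintype B]

omit [Fintype S] in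
theorem use_eq (p : Pat Y P A B) (a : A) (q' : Q) (φ : F) (t : Bool) :
    Y.use (p.mA a) q' φ t =
      ∑ b, ind (p.al a b ∧ Y.q (p.mB b).1 = q' ∧ p.f a b = φ ∧ (p.be a b ↔ t = true)) := by
  unfold Sys.use
  rw [p.oA a q' φ t]
  omega

omit [Fintype S] in
/-- Two colours with large classes can be silent. -/
theorem SA_of_big (p : Pat Y P A B) {x y : S × S} {T : ℕ} (hT : 2 * Y.D + 1 ≤ T)
    (hx : T ≤ dist p.mA x) (hy : T ≤ dist p.mB y) : Y.SA P (Y.q x.1) (Y.q y.1) := by
  by_contra hSA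
  have hX : T ≤ ∑ a, ind (Y.q (p.mA a).1 = Y.q x.1) := by
    refine hx.trans (Finset.sum_le_sum fun a _ => ind_mono ?_)
    intro h; rw [h]
  have hY : T ≤ ∑ b, ind (Y.q (p.mB b).1 = Y.q y.1) := by
    refine hy.trans (Finset.sum_le_sum fun a _ => ind_mono ?_)
    intro h; rw [h]
  have hpt : ∀ a b, ind (Y.q (p.mA a).1 = Y.q x.1) * ind (Y.q (p.mB b).1 = Y.q y.1) ≤
      ind (Y.q (p.mA a).1 = Y.q x.1) * ind (p.al a b) +
      ind (Y.q (p.mB b).1 = Y.q y.1) * ind (p.be a b) := by
    intro a b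
    by_cases h1 : Y.q (p.mA a).1 = Y.q x.1
    · by_cases h2 : Y.q (p.mB b).1 = Y.q y.1
      · by_cases h3 : p.al a b
        · simp [ind_pos h1, ind_pos h2, ind_pos h3]
        · by_cases h4 : p.be a b
          · simp [ind_pos h1, ind_pos h2, ind_pos h4]
          · refine absurd ⟨p.f a b, p.hf a b, ?_, ?_⟩ hSA
            · rw [← h1, ← h2]; exact p.sA a b h3
            · rw [← h1, ← h2]; exact p.sB a b h4
      · simp [ind_neg h2]
    · simp [ind_neg h1]
  have hsum : (∑ a, ind (Y.q (p.mA a).1 = Y.q x.1)) * (∑ b, ind (Y.q (p.mB b).1 = Y.q y.1)) ≤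
      (∑ a, ind (Y.q (p.mA a).1 = Y.q x.1)) * Y.D +
      (∑ b, ind (Y.q (p.mB b).1 = Y.q y.1)) * Y.D := by
    rw [Finset.sum_mul_sum]
    calc ∑ a, ∑ b, ind (Y.q (p.mA a).1 = Y.q x.1) * ind (Y.q (p.mB b).1 = Y.q y.1)
        ≤ ∑ a, ∑ b, (ind (Y.q (p.mA a).1 = Y.q x.1) * ind (p.al a b) +
            ind (Y.q (p.mB b).1 = Y.q y.1) * ind (p.be a b)) :=
          Finset.sum_le_sum fun a _ => Finset.sum_le_sum fun b _ => hpt a b
      _ = ∑ a, ∑ b, ind (Y.q (p.mA a).1 = Y.q x.1) * ind (p.al a b) +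
          ∑ b, ∑ a, ind (Y.q (p.mB b).1 = Y.q y.1) * ind (p.be a b) := by
          simp only [Finset.sum_add_distrib]
          congr 1
          exact Finset.sum_comm
      _ ≤ _ := by
          refine Nat.add_le_add ?_ ?_
          · rw [Finset.sum_mul]
            refine Finset.sum_le_sum fun a _ => ?_
            rw [← Finset.mul_sum]
            exact Nat.mul_le_mul_left _ (p.out_le a)
          · rw [Finset.sum_mul]
            refine Finset.sum_le_sum fun b _ => ?_
            rw [← Finset.mul_sum]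
            exact Nat.mul_le_mul_left _ (p.in_le b)
  generalize (∑ a, ind (Y.q (p.mA a).1 = Y.q x.1)) = X at *
  generalize (∑ b, ind (Y.q (p.mB b).1 = Y.q y.1)) = Z at *
  have h1 : 2 * Y.D + 1 ≤ X := hT.trans hX
  have h2 : 2 * Y.D + 1 ≤ Z := hT.trans hY
  rcases le_total X Z with h | h
  · have h3 : (2 * Y.D + 1) * Z ≤ X * Z := Nat.mul_le_mul_right _ h1
    have h4 : X * Y.D ≤ Z * Y.D := Nat.mul_le_mul_right _ h
    nlinarith
  · have h3 : X * (2 * Y.D + 1) ≤ X * Z := Nat.mul_le_mul_left _ h2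
    have h4 : Z * Y.D ≤ X * Y.D := Nat.mul_le_mul_right _ h
    nlinarith

/-- Double counting when no pair of the colours can be silent. -/
theorem count (p : Pat Y P A B) {q q' : Q} (h : ¬ Y.SA P q q') :
    (∑ x, dist p.mA x * (ind (Y.q x.1 = q) * ∑ b, ind (Y.q (p.mB b).1 = q'))) =
      (∑ x, dist p.mA x * (ind (Y.q x.1 = q) * ∑ φ, ∑ t, Y.use x q' φ t)) +
      ∑ y, dist p.mB y * (ind (Y.q y.1 = q') * ∑ φ, Y.use y q φ false) := by
  rw [← sum_comp p.mA (fun x => ind (Y.q x.1 = q) * ∑ b, ind (Y.q (p.mB b).1 = q')),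
    ← sum_comp p.mA (fun x => ind (Y.q x.1 = q) * ∑ φ, ∑ t, Y.use x q' φ t),
    ← sum_comp p.mB (fun y => ind (Y.q y.1 = q') * ∑ φ, Y.use y q φ false)]
  have h1 : ∀ a, ∑ φ, ∑ t, Y.use (p.mA a) q' φ t = ∑ b, ind (p.al a b ∧ Y.q (p.mB b).1 = q') :=
    fun a => p.out_eq a q'
  have h2 : ∀ b, ∑ φ, Y.use (p.mB b) q φ false =
      ∑ a, ind (p.be a b ∧ ¬ p.al a b ∧ Y.q (p.mA a).1 = q) := fun b => p.swap.out_one_eq b q
  simp only [h1, h2, Finset.mul_sum]
  rw [Finset.sum_comm (f := fun b a => ind (Y.q (p.mB b).1 = q') *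
    ind (p.be a b ∧ ¬ p.al a b ∧ Y.q (p.mA a).1 = q)), ← Finset.sum_add_distrib]
  refine Finset.sum_congr rfl fun a _ => ?_
  rw [← Finset.sum_add_distrib]
  refine Finset.sum_congr rfl fun b _ => ?_
  by_cases ha : Y.q (p.mA a).1 = q
  · by_cases hb : Y.q (p.mB b).1 = q'
    · by_cases hal : p.al a b
      · simp [ind, ha, hb, hal]
      · have hbe : p.be a b := by
          by_contra hbe
          refine h ⟨p.f a b, p.hf a b, ?_, ?_⟩
          · rw [← ha, ← hb]; exact p.sA a b hal
          · rw [← ha, ← hb]; exact p.sB a b hbe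
        simp [ind, ha, hb, hal, hbe]
    · simp [ind, ha, hb]
  · simp [ind, ha]

/-- Two-way descriptions balance. -/
theorem balance (p : Pat Y P A B) (q q' : Q) (ψ : F) :
    (∑ x, dist p.mA x * (ind (Y.q x.1 = q) * Y.use x q' ψ true)) =
      ∑ y, dist p.mB y * (ind (Y.q y.1 = q') * Y.use y q (Y.inv ψ) true) := by
  rw [← sum_comp p.mA (fun x => ind (Y.q x.1 = q) * Y.use x q' ψ true),
    ← sum_comp p.mB (fun y => ind (Y.q y.1 = q') * Y.use y q (Y.inv ψ) true)]
  have h2 : ∀ b, Y.use (p.mB b) q (Y.inv ψ) true =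
      ∑ a, ind (p.be a b ∧ Y.q (p.mA a).1 = q ∧ Y.inv (p.f a b) = Y.inv ψ ∧
        (p.al a b ↔ true = true)) := fun b => p.swap.use_eq b q (Y.inv ψ) true
  simp only [p.use_eq, h2, Finset.mul_sum]
  rw [Finset.sum_comm]
  refine Finset.sum_congr rfl fun b _ => Finset.sum_congr rfl fun a _ => ?_
  rw [← ind_and, ← ind_and]
  refine ind_congr ?_
  have hinj : Y.inv (p.f a b) = Y.inv ψ ↔ p.f a b = ψ := by
    constructor
    · intro h
      rw [← Y.inv_inv (p.f a b), h, Y.inv_inv]
    · intro h; rw [h]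
  rw [hinj]
  tauto

/-- The number of elements of a colour, from the distribution. -/
theorem card_colour (p : Pat Y P A B) (q' : Q) :
    ∑ b, ind (Y.q (p.mB b).1 = q') = ∑ y, dist p.mB y * ind (Y.q y.1 = q') :=
  sum_comp p.mB (fun y => ind (Y.q y.1 = q'))

end Pat

section amalg

variable {Y : Sys Q F S} {P : F → Prop}
variable {A0 B0 A1 B1 A2 B2 : Type} [Fintype A0] [Fintype B0] [Fintype A1] [Fintype B1]
  [Fintype A2] [Fintype B2]

/-- If no class of colour `q'` grows and the pair is never silent, the new elements are linked with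
all elements of colour `q'`. -/
theorem full_of_small (p0 : Pat Y P A0 B0) (p2 : Pat Y P A2 B2) {T : ℕ}
    (hL : LeF T (dist p0.mA) (dist p2.mA)) {q' : Q}
    (hsmall : ∀ y : S × S, Y.q y.1 = q' → dist p2.mB y = dist p0.mB y)
    {x : S × S} (hx : dist p0.mA x < dist p2.mA x) (hSA : ¬ Y.SA P (Y.q x.1) q') :
    ∑ φ, ∑ t, Y.use x q' φ t = ∑ b, ind (Y.q (p2.mB b).1 = q') := by
  have hle : ∀ x, dist p0.mA x ≤ dist p2.mA x := fun x => (hL x).le
  have hn : ∑ b, ind (Y.q (p0.mB b).1 = q') = ∑ b, ind (Y.q (p2.mB b).1 = q') := by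
    rw [p0.card_colour, p2.card_colour]
    refine Finset.sum_congr rfl fun y _ => ?_
    by_cases hy : Y.q y.1 = q'
    · rw [hsmall y hy]
    · simp [ind_neg hy]
  have c0 := p0.count hSA
  have c2 := p2.count hSA
  have hW : ∑ y, dist p0.mB y * (ind (Y.q y.1 = q') * ∑ φ, Y.use y (Y.q x.1) φ false) =
      ∑ y, dist p2.mB y * (ind (Y.q y.1 = q') * ∑ φ, Y.use y (Y.q x.1) φ false) := by
    refine Finset.sum_congr rfl fun y _ => ?_
    by_cases hy : Y.q y.1 = q'
    · rw [hsmall y hy]
    · simp [ind_neg hy]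
  rw [hn] at c0
  set n := ∑ b, ind (Y.q (p2.mB b).1 = q') with hndef
  -- split the distribution
  have hsplit : ∀ g : S × S → ℕ, ∑ x, dist p2.mA x * g x =
      ∑ x, dist p0.mA x * g x + ∑ x, (dist p2.mA x - dist p0.mA x) * g x := by
    intro g
    rw [← Finset.sum_add_distrib]
    refine Finset.sum_congr rfl fun x _ => ?_
    rw [← Nat.add_mul, Nat.add_sub_cancel' (hle x)]
  rw [hsplit (fun z => ind (Y.q z.1 = Y.q x.1) * n),
    hsplit (fun z => ind (Y.q z.1 = Y.q x.1) * ∑ φ, ∑ t, Y.use z q' φ t)] at c2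
  have heq : ∑ z, (dist p2.mA z - dist p0.mA z) * (ind (Y.q z.1 = Y.q x.1) * n) =
      ∑ z, (dist p2.mA z - dist p0.mA z) *
        (ind (Y.q z.1 = Y.q x.1) * ∑ φ, ∑ t, Y.use z q' φ t) := by
    omega
  have hterm : ∀ z, (dist p2.mA z - dist p0.mA z) *
        (ind (Y.q z.1 = Y.q x.1) * ∑ φ, ∑ t, Y.use z q' φ t) ≤
      (dist p2.mA z - dist p0.mA z) * (ind (Y.q z.1 = Y.q x.1) * n) := by
    intro z
    by_cases hz : dist p2.mA z = 0
    · simp [hz]
    · obtain ⟨a, rfl⟩ := exists_of_dist hz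
      refine Nat.mul_le_mul_left _ (Nat.mul_le_mul_left _ ?_)
      have := p2.out_eq a q'
      show ∑ φ, ∑ t, (Y.O (p2.mA a).1 q' φ t - Y.O (p2.mA a).2 q' φ t) ≤ n
      rw [this]
      exact Finset.sum_le_sum fun b _ => ind_mono fun h => h.2
  have h1 := eq_of_sum_eq hterm heq.le x
  rw [ind_pos rfl, one_mul, one_mul] at h1
  exact Nat.eq_of_mul_eq_mul_left (by omega) h1

/-- If no class of colour `q'` grows, the new elements have no two-way links to `q'`. -/
theorem two_zero_of_small (p0 : Pat Y P A0 B0) (p2 : Pat Y P A2 B2) {T : ℕ}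
    (hL : LeF T (dist p0.mA) (dist p2.mA)) {q' : Q}
    (hsmall : ∀ y : S × S, Y.q y.1 = q' → dist p2.mB y = dist p0.mB y)
    {x : S × S} (hx : dist p0.mA x < dist p2.mA x) (ψ : F) :
    Y.use x q' ψ true = 0 := by
  have hle : ∀ x, dist p0.mA x ≤ dist p2.mA x := fun x => (hL x).le
  have c0 := p0.balance (Y.q x.1) q' ψ
  have c2 := p2.balance (Y.q x.1) q' ψ
  have hW : ∑ y, dist p0.mB y * (ind (Y.q y.1 = q') * Y.use y (Y.q x.1) (Y.inv ψ) true) =
      ∑ y, dist p2.mB y * (ind (Y.q y.1 = q') * Y.use y (Y.q x.1) (Y.inv ψ) true) := by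
    refine Finset.sum_congr rfl fun y _ => ?_
    by_cases hy : Y.q y.1 = q'
    · rw [hsmall y hy]
    · simp [ind_neg hy]
  have hsplit : ∑ z, dist p2.mA z * (ind (Y.q z.1 = Y.q x.1) * Y.use z q' ψ true) =
      ∑ z, dist p0.mA z * (ind (Y.q z.1 = Y.q x.1) * Y.use z q' ψ true) +
      ∑ z, (dist p2.mA z - dist p0.mA z) *
        (ind (Y.q z.1 = Y.q x.1) * Y.use z q' ψ true) := by
    rw [← Finset.sum_add_distrib]
    refine Finset.sum_congr rfl fun x _ => ?_
    rw [← Nat.add_mul, Nat.add_sub_cancel' (hle x)]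
  have h0 : ∑ z, (dist p2.mA z - dist p0.mA z) *
        (ind (Y.q z.1 = Y.q x.1) * Y.use z q' ψ true) = 0 := by omega
  have h1 := (Finset.sum_eq_zero_iff.1 h0) x (Finset.mem_univ x)
  rw [ind_pos rfl, one_mul] at h1
  rcases Nat.mul_eq_zero.1 h1 with h | h
  · omega
  · exact h

/-- The links of a new element of the left side to the old elements of the right side. -/
theorem side (p0 : Pat Y P A0 B0) (p1 : Pat Y P A1 B1) (p2 : Pat Y P A2 B2) {T : ℕ}
    (hT : 2 * Y.D + 1 ≤ T)
    (hL2 : LeF T (dist p0.mA) (dist p2.mA)) (hR1 : LeF T (dist p0.mB) (dist p1.mB))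
    (hR2 : LeF T (dist p0.mB) (dist p2.mB))
    {x : S × S} (hx : dist p0.mA x < dist p2.mA x) :
    ∃ g : B1 → Option F,
      (∀ q' φ, ∑ b, ind (Y.q (p1.mB b).1 = q' ∧ g b = some φ) = Y.use x q' φ false) ∧
      (∀ b φ, g b = some φ → P φ ∧ Y.sil (Y.q (p1.mB b).1) (Y.q x.1) (Y.inv φ)) ∧
      (∀ b, g b = none → Y.SA P (Y.q x.1) (Y.q (p1.mB b).1)) := by
  have hxT : T ≤ dist p0.mA x := (hL2 x).large hx
  obtain ⟨a2, ha2⟩ : ∃ a2, p2.mA a2 = x := exists_of_dist (by omega)
  -- big or small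
  have hbs : ∀ q' : Q, (∃ y : S × S, Y.q y.1 = q' ∧ T ≤ dist p0.mB y) ∨
      (∀ y : S × S, Y.q y.1 = q' → dist p1.mB y = dist p0.mB y ∧ dist p2.mB y = dist p0.mB y) := by
    intro q'
    by_cases h : ∃ y : S × S, Y.q y.1 = q' ∧ T ≤ dist p0.mB y
    · exact Or.inl h
    · right
      intro y hy
      have hlt : dist p0.mB y < T := by
        by_contra hc
        exact h ⟨y, hy, by omega⟩
      exact ⟨((hR1 y).eq_of_lt hlt).symm, ((hR2 y).eq_of_lt hlt).symm⟩
  have hone : ∀ q', ∑ φ, Y.use x q' φ false =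
      ∑ b, ind (p2.al a2 b ∧ ¬ p2.be a2 b ∧ Y.q (p2.mB b).1 = q') := by
    intro q'
    rw [← ha2]
    exact p2.out_one_eq a2 q'
  have hn12 : ∀ q', (∀ y : S × S, Y.q y.1 = q' → dist p1.mB y = dist p0.mB y ∧
      dist p2.mB y = dist p0.mB y) →
      ∑ b, ind (Y.q (p1.mB b).1 = q') = ∑ b, ind (Y.q (p2.mB b).1 = q') := by
    intro q' h
    rw [p1.card_colour, p2.card_colour]
    refine Finset.sum_congr rfl fun y _ => ?_
    by_cases hy : Y.q y.1 = q'
    · rw [(h y hy).1, (h y hy).2]
    · simp [ind_neg hy]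
  -- room
  have hroom : ∀ q', ∑ φ, Y.use x q' φ false ≤ ∑ b, ind (Y.q (p1.mB b).1 = q') := by
    intro q'
    rcases hbs q' with ⟨y, hy, hyT⟩ | h
    · have h1 : ∑ φ, Y.use x q' φ false ≤ Y.D := by
        rw [hone]
        exact (Finset.sum_le_sum fun b _ => ind_mono fun h => h.1).trans (p2.out_le a2)
      have h2 : dist p1.mB y ≤ ∑ b, ind (Y.q (p1.mB b).1 = q') := by
        refine Finset.sum_le_sum fun b _ => ind_mono ?_
        rintro rfl; exact hy
      have h3 := (hR1 y).le
      omega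
    · rw [hn12 q' h, hone]
      exact Finset.sum_le_sum fun b _ => ind_mono fun h => h.2.2
  obtain ⟨g, hg⟩ := exists_assign (fun b => Y.q (p1.mB b).1) (fun q' φ => Y.use x q' φ false) hroom
  refine ⟨g, hg, ?_, ?_⟩
  · intro b φ hb
    have h1 : Y.use x (Y.q (p1.mB b).1) φ false ≠ 0 := by
      rw [← hg]
      have h0 := le_sum (fun b' => ind (Y.q (p1.mB b').1 = Y.q (p1.mB b).1 ∧ g b' = some φ)) b
      have h00 : ind (Y.q (p1.mB b).1 = Y.q (p1.mB b).1 ∧ g b = some φ) = 1 := ind_pos ⟨rfl, hb⟩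
      rw [h00] at h0
      omega
    rw [← ha2, p2.use_eq] at h1
    obtain ⟨b2, hb2⟩ := exists_of_sum_ind_ne_zero h1
    obtain ⟨_, h3, h4, h5⟩ := hb2
    refine ⟨h4 ▸ p2.hf a2 b2, ?_⟩
    have h6 := p2.sB a2 b2 (fun h => by simpa using h5.1 h)
    rw [h3, h4, ha2] at h6
    exact h6
  · intro b hb
    by_contra hSA
    rcases hbs (Y.q (p1.mB b).1) with ⟨y, hy, hyT⟩ | h
    · refine hSA ?_
      rw [← hy]
      exact p0.SA_of_big hT hxT hyT
    · have hf := full_of_small p0 p2 hL2 (fun y hy => (h y hy).2) hx hSA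
      have hz := two_zero_of_small (q' := Y.q (p1.mB b).1) p0 p2 hL2
        (fun y hy => (h y hy).2) hx
      have h1 : ∑ φ, ∑ t, Y.use x (Y.q (p1.mB b).1) φ t =
          ∑ φ, Y.use x (Y.q (p1.mB b).1) φ false := by
        refine Finset.sum_congr rfl fun φ _ => ?_
        rw [Fintype.sum_bool, hz, zero_add]
      rw [h1, ← hn12 _ h] at hf
      have h2 : ∑ φ, Y.use x (Y.q (p1.mB b).1) φ false =
          ∑ b', ind (Y.q (p1.mB b').1 = Y.q (p1.mB b).1 ∧ g b' ≠ none) := by
        simp only [← hg]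
        rw [Finset.sum_comm]
        refine Finset.sum_congr rfl fun b' _ => ?_
        cases hgb : g b' with
        | none => simp
        | some ψ =>
          have := sum_ind_and_eq ψ (fun _ => Y.q (p1.mB b').1 = Y.q (p1.mB b).1)
          simpa using this
      rw [h2] at hf
      have h3 := eq_of_sum_eq (g := fun b' => ind (Y.q (p1.mB b').1 = Y.q (p1.mB b).1 ∧ g b' ≠ none))
        (h := fun b' => ind (Y.q (p1.mB b').1 = Y.q (p1.mB b).1))
        (fun b' => ind_mono fun h => h.1) hf.ge b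
      have h4 : ind (Y.q (p1.mB b).1 = Y.q (p1.mB b).1 ∧ g b ≠ none) = 0 := ind_neg (by simp [hb])
      have h5 : ind (Y.q (p1.mB b).1 = Y.q (p1.mB b).1) = 1 := ind_pos rfl
      rw [h4, h5] at h3
      omega

/-- **Amalgamation of patterns.** -/
theorem Pat.amalg (p0 : Pat Y P A0 B0) (p1 : Pat Y P A1 B1) (p2 : Pat Y P A2 B2) {T : ℕ}
    (hT : 2 * Y.D + 1 ≤ T)
    (hL1 : LeF T (dist p0.mA) (dist p1.mA)) (hL2 : LeF T (dist p0.mA) (dist p2.mA))
    (hR1 : LeF T (dist p0.mB) (dist p1.mB)) (hR2 : LeF T (dist p0.mB) (dist p2.mB)) :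
    PatOK Y P (fun x => dist p1.mA x + (dist p2.mA x - dist p0.mA x))
      (fun y => dist p1.mB y + (dist p2.mB y - dist p0.mB y)) := by
  classical
  let A' := Σ x : S × S, Fin (dist p2.mA x - dist p0.mA x)
  let B' := Σ y : S × S, Fin (dist p2.mB y - dist p0.mB y)
  let m : A' → S × S := fun a => a.1
  let m' : B' → S × S := fun b => b.1
  have hm : ∀ a : A', dist p0.mA (m a) < dist p2.mA (m a) := by
    rintro ⟨x, i⟩
    have := i.2
    show dist p0.mA x < dist p2.mA x
    omega
  have hm' : ∀ b : B', dist p0.mB (m' b) < dist p2.mB (m' b) := by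
    rintro ⟨x, i⟩
    have := i.2
    show dist p0.mB x < dist p2.mB x
    omega
  have hrep : ∀ a : A', ∃ a2, p2.mA a2 = m a := fun a => exists_of_dist (by have := hm a; omega)
  have hrep' : ∀ b : B', ∃ b2, p2.mB b2 = m' b := fun b => exists_of_dist (by have := hm' b; omega)
  -- one-way links of new elements
  have hs := fun a : A' => side p0 p1 p2 hT hL2 hR1 hR2 (hm a)
  choose g hg1 hg2 hg3 using hs
  have hs' := fun b : B' => side p0.swap p1.swap p2.swap hT hR2 hL1 hL2 (hm' b)
  choose g' hg1' hg2' hg3' using hs'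
  -- two-way links
  have hAtu : ∀ (a : A') q', ∑ φ, Y.use (m a) q' φ true ≤ 1 := fun a q' =>
    (Finset.sum_le_sum fun φ _ => Nat.sub_le _ _).trans (Y.tu (m a).1 q')
  have hBtu0 : ∀ (b : B') q', ∑ φ, Y.use (m' b) q' φ true ≤ 1 := fun b q' =>
    (Finset.sum_le_sum fun φ _ => Nat.sub_le _ _).trans (Y.tu (m' b).1 q')
  have hBtu : ∀ (b : B') q', ∑ φ, Y.use (m' b) q' (Y.inv φ) true ≤ 1 := by
    intro b q'
    have h0 : ∑ φ, Y.use (m' b) q' (Y.inv φ) true = ∑ φ, Y.use (m' b) q' φ true :=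
      Equiv.sum_comp (Function.Involutive.toPerm Y.inv Y.inv_inv)
        (fun φ => Y.use (m' b) q' φ true)
    rw [h0]
    exact hBtu0 b q'
  have hbal : ∀ q q' φ, ∑ a : A', ind (Y.q (m a).1 = q) * Y.use (m a) q' φ true =
      ∑ b : B', ind (Y.q (m' b).1 = q') * Y.use (m' b) q (Y.inv φ) true := by
    intro q q' φ
    rw [sum_comp m (fun x => ind (Y.q x.1 = q) * Y.use x q' φ true),
      sum_comp m' (fun y => ind (Y.q y.1 = q') * Y.use y q (Y.inv φ) true)]
    rw [show dist m = fun x => dist p2.mA x - dist p0.mA x from dist_sigma_fst _,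
      show dist m' = fun x => dist p2.mB x - dist p0.mB x from dist_sigma_fst _]
    have c0 := p0.balance q q' φ
    have c2 := p2.balance q q' φ
    have hsplit : ∀ (D0 D2 G : S × S → ℕ), (∀ x, D0 x ≤ D2 x) →
        ∑ x, D2 x * G x = ∑ x, D0 x * G x + ∑ x, (D2 x - D0 x) * G x := by
      intro D0 D2 G h
      rw [← Finset.sum_add_distrib]
      refine Finset.sum_congr rfl fun x _ => ?_
      rw [← Nat.add_mul, Nat.add_sub_cancel' (h x)]
    rw [hsplit _ _ _ (fun x => (hL2 x).le), hsplit _ _ _ (fun x => (hR2 x).le)] at c2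
    beta_reduce
    omega
  obtain ⟨M, hM1, hM2⟩ := exists_matching (fun a : A' => Y.q (m a).1) (fun b : B' => Y.q (m' b).1)
    (fun a q' φ => Y.use (m a) q' φ true) (fun b q φ => Y.use (m' b) q (Y.inv φ) true)
    hAtu hBtu hbal
  -- permitted facts
  have hMP : ∀ a b φ, M a b = some φ → P φ := by
    intro a b φ h
    have h1 : Y.use (m a) (Y.q (m' b).1) φ true ≠ 0 := by
      have h0 := le_sum (fun b' => ind (Y.q (m' b').1 = Y.q (m' b).1 ∧ M a b' = some φ)) b
      have h00 : ind (Y.q (m' b).1 = Y.q (m' b).1 ∧ M a b = some φ) = 1 := ind_pos ⟨rfl, h⟩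
      rw [h00] at h0
      have := hM1 a (Y.q (m' b).1) φ
      omega
    obtain ⟨a2, ha2⟩ := hrep a
    rw [← ha2, p2.use_eq] at h1
    obtain ⟨b2, _, _, h4, _⟩ := exists_of_sum_ind_ne_zero h1
    exact h4 ▸ p2.hf a2 b2
  have hSAA : ∀ (a : A') (b : B'), Y.SA P (Y.q (m a).1) (Y.q (m' b).1) := fun a b =>
    p0.SA_of_big hT ((hL2 _).large (hm a)) ((hR2 _).large (hm' b))
  choose φ0 hφ0 using hSAA
  -- the facts of mixed pairs
  have hAB : ∀ (a : A') (b : B1), ∃ φ, P φ ∧ (g a b = none → Y.sil (Y.q (m a).1) (Y.q (p1.mB b).1) φ) ∧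
      Y.sil (Y.q (p1.mB b).1) (Y.q (m a).1) (Y.inv φ) ∧ (∀ ψ, g a b = some ψ → φ = ψ) := by
    intro a b
    cases h : g a b with
    | none =>
      obtain ⟨φ, h1, h2, h3⟩ := hg3 a b h
      exact ⟨φ, h1, fun _ => h2, h3, by simp⟩
    | some ψ =>
      obtain ⟨h1, h2⟩ := hg2 a b ψ h
      exact ⟨ψ, h1, by simp, h2, by simp⟩
  choose fAB hf1 hf2 hf3 hf4 using hAB
  have hBA : ∀ (b : B') (a : A1), ∃ φ, P (Y.inv φ) ∧
      (g' b a = none → Y.sil (Y.q (m' b).1) (Y.q (p1.mA a).1) φ) ∧
      Y.sil (Y.q (p1.mA a).1) (Y.q (m' b).1) (Y.inv φ) ∧ (∀ ψ, g' b a = some ψ → φ = ψ) := by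
    intro b a
    cases h : g' b a with
    | none =>
      obtain ⟨φ, h1, h2, h3⟩ := hg3' b a h
      exact ⟨φ, h1, fun _ => h2, h3, by simp⟩
    | some ψ =>
      obtain ⟨h1, h2⟩ := hg2' b a ψ h
      exact ⟨ψ, h1, by simp, h2, by simp⟩
  choose fBA hf1' hf2' hf3' hf4' using hBA
  have huse : ∀ (a : A') q' φ t, Y.O (m a).1 q' φ t = Y.O (m a).2 q' φ t + Y.use (m a) q' φ t := by
    intro a q' φ t
    obtain ⟨a2, ha2⟩ := hrep a
    rw [← ha2, p2.use_eq]
    exact p2.oA a2 q' φ t
  have huse' : ∀ (b : B') q' φ t, Y.O (m' b).1 q' φ t = Y.O (m' b).2 q' φ t +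
      Y.use (m' b) q' φ t := by
    intro b q' φ t
    obtain ⟨b2, hb2⟩ := hrep' b
    have h0 : Y.use (p2.mB b2) q' φ t = ∑ a, ind (p2.be a b2 ∧ Y.q (p2.mA a).1 = q' ∧
      Y.inv (p2.f a b2) = φ ∧ (p2.al a b2 ↔ t = true)) := p2.swap.use_eq b2 q' φ t
    rw [← hb2, h0]
    exact p2.oB b2 q' φ t
  let pt : Pat Y P (A1 ⊕ A') (B1 ⊕ B') :=
    { mA := Sum.elim p1.mA m
      mB := Sum.elim p1.mB m'
      f := Sum.elim (fun a => Sum.elim (p1.f a) (fun b => Y.inv (fBA b a)))
        (fun a => Sum.elim (fAB a) (fun b => (M a b).getD (φ0 a b)))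
      al := Sum.elim (fun a => Sum.elim (p1.al a) (fun _ => False))
        (fun a => Sum.elim (fun b => g a b ≠ none) (fun b => M a b ≠ none))
      be := Sum.elim (fun a => Sum.elim (p1.be a) (fun b => g' b a ≠ none))
        (fun a => Sum.elim (fun _ => False) (fun b => M a b ≠ none))
      hf := by
        rintro (a | a) (b | b)
        · exact p1.hf a b
        · exact hf1' b a
        · exact hf1 a b
        · show P ((M a b).getD (φ0 a b))
          cases h : M a b with
          | none => exact (hφ0 a b).1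
          | some φ => exact hMP a b φ h
      qA := by
        rintro (a | a)
        · exact p1.qA a
        · obtain ⟨a2, ha2⟩ := hrep a
          show Y.q (m a).2 = Y.q (m a).1
          rw [← ha2]; exact p2.qA a2
      qB := by
        rintro (b | b)
        · exact p1.qB b
        · obtain ⟨b2, hb2⟩ := hrep' b
          show Y.q (m' b).2 = Y.q (m' b).1
          rw [← hb2]; exact p2.qB b2
      oA := by
        rintro (a | a) q' φ t
        · rw [Fintype.sum_sum_type]
          simpa using p1.oA a q' φ t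
        · rw [Fintype.sum_sum_type]
          show Y.O (m a).1 q' φ t = Y.O (m a).2 q' φ t + (
            ∑ b, ind (g a b ≠ none ∧ Y.q (p1.mB b).1 = q' ∧ fAB a b = φ ∧ (False ↔ t = true)) +
            ∑ b, ind (M a b ≠ none ∧ Y.q (m' b).1 = q' ∧ (M a b).getD (φ0 a b) = φ ∧
              (M a b ≠ none ↔ t = true)))
          rw [huse a q' φ t]
          congr 1
          cases t with
          | false =>
            rw [← hg1 a q' φ]
            have h0 : ∑ b, ind (M a b ≠ none ∧ Y.q (m' b).1 = q' ∧ (M a b).getD (φ0 a b) = φ ∧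
              (M a b ≠ none ↔ false = true)) = 0 := by
              refine Finset.sum_eq_zero fun b _ => ind_neg ?_
              rintro ⟨h1, _, _, h2⟩
              exact absurd (h2.1 h1) (by simp)
            rw [h0, add_zero]
            refine Finset.sum_congr rfl fun b _ => ind_congr ?_
            constructor
            · rintro ⟨h1, h2⟩
              exact ⟨by simp [h2], h1, hf4 a b φ h2, by simp⟩
            · rintro ⟨h1, h2, h3, _⟩
              refine ⟨h2, ?_⟩
              cases h : g a b with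
              | none => exact absurd h h1
              | some ψ => rw [← h3, hf4 a b ψ h]
          | true =>
            rw [← hM1 a q' φ]
            have h0 : ∑ b, ind (g a b ≠ none ∧ Y.q (p1.mB b).1 = q' ∧ fAB a b = φ ∧
              (False ↔ true = true)) = 0 := by
              refine Finset.sum_eq_zero fun b _ => ind_neg ?_
              rintro ⟨_, _, _, h2⟩
              exact h2.2 rfl
            rw [h0, zero_add]
            refine Finset.sum_congr rfl fun b _ => ind_congr ?_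
            cases h : M a b with
            | none => simp
            | some ψ => simp
      oB := by
        rintro (b | b) q' φ t
        · rw [Fintype.sum_sum_type]
          simpa using p1.oB b q' φ t
        · rw [Fintype.sum_sum_type]
          show Y.O (m' b).1 q' φ t = Y.O (m' b).2 q' φ t + (
            ∑ a, ind (g' b a ≠ none ∧ Y.q (p1.mA a).1 = q' ∧ Y.inv (Y.inv (fBA b a)) = φ ∧
              (False ↔ t = true)) +
            ∑ a, ind (M a b ≠ none ∧ Y.q (m a).1 = q' ∧ Y.inv ((M a b).getD (φ0 a b)) = φ ∧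
              (M a b ≠ none ↔ t = true)))
          simp only [Y.inv_inv]
          rw [huse' b q' φ t]
          congr 1
          cases t with
          | false =>
            rw [← hg1' b q' φ]
            have h0 : ∑ a, ind (M a b ≠ none ∧ Y.q (m a).1 = q' ∧
                Y.inv ((M a b).getD (φ0 a b)) = φ ∧ (M a b ≠ none ↔ false = true)) = 0 := by
              refine Finset.sum_eq_zero fun a _ => ind_neg ?_
              rintro ⟨h1, _, _, h2⟩
              exact absurd (h2.1 h1) (by simp)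
            rw [h0, add_zero]
            refine Finset.sum_congr rfl fun a _ => ind_congr ?_
            constructor
            · rintro ⟨h1, h2⟩
              exact ⟨by simp [h2], h1, hf4' b a φ h2, by simp⟩
            · rintro ⟨h1, h2, h3, _⟩
              refine ⟨h2, ?_⟩
              cases h : g' b a with
              | none => exact absurd h h1
              | some ψ => rw [← h3, hf4' b a ψ h]
          | true =>
            have h1 := hM2 b q' (Y.inv φ)
            simp only [Y.inv_inv] at h1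
            rw [← h1]
            have h0 : ∑ a, ind (g' b a ≠ none ∧ Y.q (p1.mA a).1 = q' ∧ fBA b a = φ ∧
              (False ↔ true = true)) = 0 := by
              refine Finset.sum_eq_zero fun a _ => ind_neg ?_
              rintro ⟨_, _, _, h2⟩
              exact h2.2 rfl
            rw [h0, zero_add]
            refine Finset.sum_congr rfl fun a _ => ind_congr ?_
            have hinv : ∀ ψ, ψ = Y.inv φ ↔ Y.inv ψ = φ := by
              intro ψ
              constructor
              · rintro rfl; exact Y.inv_inv φ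
              · rintro rfl; exact (Y.inv_inv ψ).symm
            cases h : M a b with
            | none => simp
            | some ψ => simp [hinv]
      sA := by
        rintro (a | a) (b | b) h
        · exact p1.sA a b h
        · exact hf3' b a
        · exact hf2 a b (not_not.1 h)
        · show Y.sil _ _ ((M a b).getD (φ0 a b))
          have h0 : M a b = none := not_not.1 h
          rw [h0]
          exact (hφ0 a b).2.1
      sB := by
        rintro (a | a) (b | b) h
        · exact p1.sB a b h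
        · show Y.sil _ _ (Y.inv (Y.inv (fBA b a)))
          rw [Y.inv_inv]
          exact hf2' b a (not_not.1 h)
        · exact hf3 a b
        · show Y.sil _ _ (Y.inv ((M a b).getD (φ0 a b)))
          have h0 : M a b = none := not_not.1 h
          rw [h0]
          exact (hφ0 a b).2.2 }
  refine ⟨A1 ⊕ A', B1 ⊕ B', inferInstance, inferInstance, pt, ?_, ?_⟩
  · funext x
    show dist (Sum.elim p1.mA m) x = _
    rw [dist_sum, show dist m = fun x => dist p2.mA x - dist p0.mA x from dist_sigma_fst _]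
  · funext x
    show dist (Sum.elim p1.mB m') x = _
    rw [dist_sum, show dist m' = fun x => dist p2.mB x - dist p0.mB x from dist_sigma_fst _]

end amalg

end Pool.Agent.Helper29.C2
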