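import Pool.Agent.Helper29.C2.Syn
import Pool.Agent.Helper20.Spectra.Defs

/-!
Classes of backgrounds for the two-variable logic with counting quantifiers, and their spectra.

A background is a structure with binary relations `R l`, `l : Λ`. The spectra over a class `K` of
backgrounds come from sentences with two variables and counting quantifiers which use the background
relations of a member of `K` and, freely, further unary and binary relations.
-/

set_option autoImplicit false

namespace Pool.Agent.Helper29.C2

/-- Monadic second-order formulas in set variables `X 0, X 1, …` over the background relations and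
the unary relations. -/
inductive Mso (Λ U : Type) : Type
  /-- `X i ⊆ X j` -/
  | sub (i j : ℕ) : Mso Λ U
  /-- `X i` has exactly one element -/
  | sing (i : ℕ) : Mso Λ U
  /-- all elements of `X i` satisfy `P` -/
  | un (P : U) (i : ℕ) : Mso Λ U
  /-- the background relation `l` holds for some element of `X i` and some element of `X j` -/
  | ord (l : Λ) (i j : ℕ) : Mso Λ U
  | neg (φ : Mso Λ U) : Mso Λ U
  | and (φ ψ : Mso Λ U) : Mso Λ U
  /-- for some set `X i` -/
  | ex (i : ℕ) (φ : Mso Λ U) : Mso Λ U

variable {Λ Λ' W U A : Type}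

/-- Satisfaction of monadic second-order formulas. -/
def MSat (ord : Λ → A → A → Prop) (un : U → A → Prop) : Mso Λ U → (ℕ → Set A) → Prop
  | Mso.sub i j, X => X i ⊆ X j
  | Mso.sing i, X => ∃! x, x ∈ X i
  | Mso.un P i, X => ∀ x ∈ X i, un P x
  | Mso.ord l i j, X => ∃ x ∈ X i, ∃ y ∈ X j, ord l x y
  | Mso.neg φ, X => ¬ MSat ord un φ X
  | Mso.and φ ψ, X => MSat ord un φ X ∧ MSat ord un ψ X
  | Mso.ex i φ, X => ∃ S : Set A, MSat ord un φ (Function.update X i S)

/-- Ultimately periodic sets. -/
def UltPeriodic (S : Set ℕ) : Prop := ∃ p N : ℕ, 1 ≤ p ∧ ∀ n, N ≤ n → (n ∈ S ↔ n + p ∈ S)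

/-- The spectra of the two-variable sentences with counting quantifiers over the class `K`. -/
def C2Spectrum (K : ∀ A : Type, (Λ → A → A → Prop) → Prop) (S : Set ℕ) : Prop :=
  ∃ (U V : Type) (_ : Finite U) (_ : Finite V) (Φ : Fm Λ U V),
    S = {n : ℕ | 1 ≤ n ∧ ∃ M : Str Λ U V (Fin n), K (Fin n) M.ord ∧ ∀ e, Sat M Φ e}

/-- Over the class `K`, all sets of sizes of models of a two-variable sentence `Φ` with counting
quantifiers together with a monadic second-order sentence `Ψ` on the background and the unary
relations are ultimately periodic. -/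
def Tame (K : ∀ A : Type, (Λ → A → A → Prop) → Prop) : Prop :=
  ∀ (U V : Type) [Finite U] [Finite V] (Φ : Fm Λ U V) (Ψ : Mso Λ U),
    UltPeriodic {n | 1 ≤ n ∧ ∃ M : Str Λ U V (Fin n), K (Fin n) M.ord ∧
      (∀ e, Sat M Φ e) ∧ MSat M.ord M.un Ψ (fun _ => ∅)}

/-- Over the class `K`, one spectrum of a two-variable sentence with counting quantifiers is
universal: all first-order spectra are its preimages under polynomials; and all these spectra are
rudimentary if and only if the first-order spectra are exactly the rudimentary sets of positive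
integers. -/
def Wild (K : ∀ A : Type, (Λ → A → A → Prop) → Prop) : Prop :=
  (∃ S : Set ℕ, C2Spectrum K S ∧ ∀ A : Set ℕ, Pool.Agent.Helper20.Spectra.IsSpectrum A ↔
    ∃ h : Polynomial ℕ, A = {n : ℕ | 1 ≤ n ∧ h.eval n ∈ S}) ∧
  ((∀ A : Set ℕ, C2Spectrum K A → Pool.Agent.Helper20.Spectra.IsRudimentary A) ↔
    ∀ A : Set ℕ, Pool.Agent.Helper20.Spectra.IsSpectrum A ↔
      (Pool.Agent.Helper20.Spectra.IsRudimentary A ∧ 0 ∉ A))

/-! ### Sum-generated backgrounds -/

/-- Terms: one-point structures and ordered sums `a ⊕ b` of colour `l`. -/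
inductive BT (Λ : Type) : Type
  | pt : BT Λ
  | sum : Λ → BT Λ → BT Λ → BT Λ

/-- The elements of a term. -/
def BT.El : BT Λ → Type
  | pt => Unit
  | sum _ a b => El a ⊕ El b

/-- The relations of a term: in a sum `a ⊕ b` of colour `l`, the relation `l` and no other holds
from all elements of `a` to all elements of `b`, and no relation holds from `b` to `a`. -/
def BT.Rel : (t : BT Λ) → Λ → El t → El t → Prop
  | pt, _, _, _ => False
  | sum _ a _, l, Sum.inl x, Sum.inl y => Rel a l x y
  | sum m _ _, l, Sum.inl _, Sum.inr _ => m = l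
  | sum _ _ _, _, Sum.inr _, Sum.inl _ => False
  | sum _ _ b, l, Sum.inr x, Sum.inr y => Rel b l x y

/-- The relations `R l` are, up to isomorphism, the relations of a term. -/
def SumGenerated (R : Λ → A → A → Prop) : Prop :=
  ∃ (t : BT Λ) (e : A ≃ t.El), ∀ l x y, R l x y ↔ t.Rel l (e x) (e y)

/-- Quantifier-free definitions of relations `Λ'` from relations `Λ` and unary relations `W`: whether
`R' l x y` holds is a function of the unary relations of `x` and of `y`, the relations from `x` to
`y` and from `y` to `x`, and whether `x = y`. -/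
abbrev QI (Λ W Λ' : Type) : Type :=
  Λ' → (W → Prop) → (W → Prop) → (Λ → Prop) → (Λ → Prop) → Prop → Prop

/-- The defined relations. -/
def interp (T : QI Λ W Λ') (R : Λ → A → A → Prop) (w : W → A → Prop) (l : Λ') (x y : A) : Prop :=
  T l (fun P => w P x) (fun P => w P y) (fun j => R j x y) (fun j => R j y x) (x = y)

/-- Quantifier-free definable, by `T`, in a sum-generated background with unary relations. -/
def SGDef (T : QI Λ W Λ') (R' : Λ' → A → A → Prop) : Prop :=
  ∃ (R : Λ → A → A → Prop) (w : W → A → Prop), SumGenerated R ∧ R' = interp T R w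

/-! ### Classes of backgrounds -/

/-- Strict linear orders. -/
structure IsLin (R : A → A → Prop) : Prop where
  irr : ∀ x, ¬ R x x
  trans : ∀ x y z, R x y → R y z → R x z
  total : ∀ x y, x ≠ y → R x y ∨ R y x

/-- `k` strict linear orders and `m` equivalence relations. -/
def KM (k m : ℕ) (A : Type) (R : Fin k ⊕ Fin m → A → A → Prop) : Prop :=
  (∀ i, IsLin (R (Sum.inl i))) ∧ ∀ j, Equivalence (R (Sum.inr j))

/-- Nested equivalence relations `R 0 ⊆ R 1 ⊆ …`. -/
structure Nested (m : ℕ) (R : Fin m → A → A → Prop) : Prop where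
  eqv : ∀ i, Equivalence (R i)
  nest : ∀ i j, i ≤ j → ∀ x y, R i x y → R j x y

/-- A linear order `R none` and nested equivalence relations `R (some 0) ⊆ R (some 1) ⊆ …` whose
classes are intervals. -/
structure NestConv (m : ℕ) (R : Option (Fin m) → A → A → Prop) : Prop where
  lin : IsLin (R none)
  eqv : ∀ i, Equivalence (R (some i))
  conv : ∀ i x y z, R none x y → R none y z → R (some i) x z → R (some i) x y
  nest : ∀ i j, i ≤ j → ∀ x y, R (some i) x y → R (some j) x y

/-- Two linear orders without four elements in the pattern 2413 or 3142. -/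
structure Separable (R : Bool → A → A → Prop) : Prop where
  lin : ∀ b, IsLin (R b)
  av1 : ∀ a b c d, R true a b → R true b c → R true c d → R false c a → R false a d →
    ¬ R false d b
  av2 : ∀ a b c d, R true a b → R true b c → R true c d → R false b d → R false d a →
    ¬ R false a c

/-- Strict partial orders without an induced `N` (series-parallel partial orders). -/
structure NFree (lt : A → A → Prop) : Prop where
  irr : ∀ x, ¬ lt x x
  trans : ∀ x y z, lt x y → lt y z → lt x z
  nfree : ∀ a b c d, lt a c → lt b c → lt b d →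
    lt a b ∨ lt b a ∨ lt a d ∨ lt d a ∨ lt c d ∨ lt d c

/-- Graphs without an induced path on four vertices. -/
structure Cograph (E : A → A → Prop) : Prop where
  irr : ∀ x, ¬ E x x
  symm : ∀ x y, E x y → E y x
  p4 : ∀ a b c d, E a b → E b c → E c d → E a c ∨ E a d ∨ E b d

/-- Ordered forests: `R true x y`: `y` is a proper descendant of `x`; `R false x y`: `x` is to the
left of `y`. -/
structure OrdForest (R : Bool → A → A → Prop) : Prop where
  irr : ∀ b x, ¬ R b x x
  trans : ∀ x y z, R true x y → R true y z → R true x z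
  total : ∀ x y, x ≠ y → ∃ b, R b x y ∨ R b y x
  excl : ∀ x y, R true x y → ¬ R false x y ∧ ¬ R false y x
  asymm : ∀ b x y, R b x y → ¬ R b y x
  transL : ∀ x y z, R false x y → R false y z → R false x z
  up1 : ∀ x x' y, R false x y → R true x x' → R false x' y
  up2 : ∀ x y y', R false x y → R true y y' → R false x y'

/-- Strict partial orders. -/
structure POrd (A : Type) (R : Unit → A → A → Prop) : Prop where
  irr : ∀ x, ¬ R () x x
  trans : ∀ x y z, R () x y → R () y z → R () x z

/-- Strict partial orders of height at most `h`: no chain `v 0 < v 1 < … < v h`. -/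
structure POrdH (h : ℕ) (A : Type) (R : Unit → A → A → Prop) : Prop where
  po : POrd A R
  height : ∀ v : Fin (h + 1) → A, ¬ ∀ i j, i < j → R () (v i) (v j)

/-- Strict partial orders of width at most `w`: among `w + 1` different elements two are
comparable. -/
structure POrdW (w : ℕ) (A : Type) (R : Unit → A → A → Prop) : Prop where
  po : POrd A R
  width : ∀ v : Fin (w + 1) → A, Function.Injective v → ∃ i j, R () (v i) (v j)

/-- The pair of orders `R true`, `R false` does not contain the pattern `π`: there are no elements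
`v 0, …, v (k - 1)`, increasing in the first order, whose second order is that of
`π 0, …, π (k - 1)`. -/
def Avoids {k : ℕ} (π : Equiv.Perm (Fin k)) (R : Bool → A → A → Prop) : Prop :=
  ¬ ∃ v : Fin k → A, (∀ i j, i < j → R true (v i) (v j)) ∧ ∀ i j, π i < π j → R false (v i) (v j)

/-- Pairs of linear orders avoiding the pattern `π`. -/
def PairAv {k : ℕ} (π : Equiv.Perm (Fin k)) (A : Type) (R : Bool → A → A → Prop) : Prop :=
  (∀ b, IsLin (R b)) ∧ Avoids π R

/-- Graphs. -/
structure Graph (A : Type) (R : Unit → A → A → Prop) : Prop where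
  irr : ∀ x, ¬ R () x x
  symm : ∀ x y, R () x y → R () y x

/-- Graphs without an induced copy of `P`. -/
structure GraphFree {V : Type} (P : SimpleGraph V) (A : Type) (R : Unit → A → A → Prop) :
    Prop where
  gr : Graph A R
  free : ∀ f : V → A, Function.Injective f → ¬ ∀ i j, (R () (f i) (f j) ↔ P.Adj i j)

/-- For some `r`, three vertices `a`, `b`, `c` of `P` lie in the same cliques with `r` vertices, and
in at least one. -/
def Alike {V : Type} (P : SimpleGraph V) : Prop :=
  ∃ (r : ℕ) (a b c : V), a ≠ b ∧ a ≠ c ∧ b ≠ c ∧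
    (∃ S : Finset V, P.IsNClique r S ∧ a ∈ S ∧ b ∈ S ∧ c ∈ S) ∧
    ∀ S : Finset V, P.IsNClique r S → (a ∈ S ∨ b ∈ S ∨ c ∈ S) → a ∈ S ∧ b ∈ S ∧ c ∈ S

end Pool.Agent.Helper29.C2
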