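import Pool.Agent.Helper29.C2.Sizes
import Pool.Agent.Helper29.C2.Defs

/-!
Sum-generated backgrounds, systems and their models.
-/

set_option autoImplicit false

namespace Pool.Agent.Helper29.C2

namespace BT

variable {Λ C Z : Type}

instance fintypeEl : (t : BT Λ) → Fintype (El t)
  | pt => inferInstanceAs (Fintype Unit)
  | sum _ a b => @instFintypeSum _ _ (fintypeEl a) (fintypeEl b)

/-- The number of elements. -/
def size : BT Λ → ℕ
  | pt => 1
  | sum _ a b => a.size + b.size

theorem card_El (t : BT Λ) : Fintype.card (El t) = t.size := by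
  induction t with
  | pt => rfl
  | sum l a b iha ihb =>
    show Fintype.card (El a ⊕ El b) = _
    rw [Fintype.card_sum, iha, ihb]; rfl

/-- The run of a bottom-up automaton on a term with coloured leaves. -/
def run (δ : Λ → Z → Z → Z) (z0 : C → Z) : (t : BT Λ) → (El t → C) → Z
  | pt, c => z0 (c ())
  | sum l a b, c => δ l (run δ z0 a (fun x => c (Sum.inl x))) (run δ z0 b (fun x => c (Sum.inr x)))

end BT

/-- A system: colours `C`, facts `F` of pairs, tests `M` with values counted up to `K`. -/
structure CSys (Λ C F M : Type) where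
  inv : F → F
  inv_inv : ∀ f, inv (inv f) = f
  P : Λ → F → Prop
  K : ℕ
  θ : M → C → C → F → Prop
  ok : C → (M → ℕ) → Prop

variable {Λ C F M Z : Type}

/-- The capped number of partners satisfying a test. -/
noncomputable def CSys.cnt (G : CSys Λ C F M) {A : Type} [Fintype A] (c : A → C) (f : A → A → F)
    (x : A) (m : M) : ℕ :=
  min G.K (∑ y, ind (y ≠ x ∧ G.θ m (c x) (c y) (f x y)))

/-- Models of a system over a term. -/
structure CSys.Model (G : CSys Λ C F M) (t : BT Λ) (c : t.El → C) (f : t.El → t.El → F) : Prop where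
  hinv : ∀ x y, x ≠ y → f y x = G.inv (f x y)
  hP : ∀ l x y, t.Rel l x y → G.P l (f x y)
  hok : ∀ x, G.ok (c x) (G.cnt c f x)

/-- Colours with capped counts and hue. -/
@[ext] structure QT (C M : Type) (K H : ℕ) : Type where
  c : C
  cap : M → Fin (K + 1)
  hue : Fin H

instance (K H : ℕ) [Finite C] [Finite M] : Finite (QT C M K H) :=
  Finite.of_injective (fun q => (q.c, q.cap, q.hue)) fun q q' h => by
    simp only [Prod.mk.injEq] at h
    exact QT.ext h.1 h.2.1 h.2.2

noncomputable instance (K H : ℕ) [Finite C] [Finite M] : Fintype (QT C M K H) :=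
  Fintype.ofFinite _

/-- States: a colour and the numbers of the open links. -/
@[ext] structure StT (C F M : Type) [Finite C] [Fintype F] [Finite M] (K H D : ℕ) : Type where
  q : QT C M K H
  o : QT C M K H → F → Bool → Fin (D + 1)
  bnd : ∑ q', ∑ f, ∑ t, (o q' f t : ℕ) ≤ D
  tu : ∀ q', ∑ f, (o q' f true : ℕ) ≤ 1

section states

variable [Finite C] [Fintype F] [Finite M]

instance (K H D : ℕ) : Finite (StT C F M K H D) :=
  Finite.of_injective (fun s => (s.q, s.o)) fun s s' h => by
    simp only [Prod.mk.injEq] at h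
    exact StT.ext h.1 h.2

noncomputable instance (K H D : ℕ) : Fintype (StT C F M K H D) := Fintype.ofFinite _

/-- The system of patterns. -/
noncomputable def CSys.sys (G : CSys Λ C F M) (H D : ℕ) :
    Sys (QT C M G.K H) F (StT C F M G.K H D) where
  inv := G.inv
  inv_inv := G.inv_inv
  sil q q' φ := ∀ m, (q.cap m : ℕ) < G.K → ¬ G.θ m q.c q'.c φ
  D := D
  q s := s.q
  O s q' f t := s.o q' f t
  inj s s' h1 h2 := StT.ext h1 (by
    funext a b c
    exact Fin.ext (congrFun (congrFun (congrFun h2 a) b) c))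
  bnd s := s.bnd
  tu s := s.tu

/-- A state is a valid state of a leaf. -/
def CSys.valid (G : CSys Λ C F M) {H D : ℕ} (s : StT C F M G.K H D) : Prop :=
  G.ok s.q.c (fun m => (s.q.cap m : ℕ)) ∧
    ∀ m, min G.K (∑ q', ∑ f, ∑ t, (s.o q' f t : ℕ) * ind (G.θ m s.q.c q'.c f)) = s.q.cap m

/-- The tree language of a system with an automaton. -/
noncomputable def CSys.tl (G : CSys Λ C F M) (H D : ℕ) (δ : Λ → Z → Z → Z) (z0 : C → Z) :
    TL (QT C M G.K H) F (StT C F M G.K H D) {s : StT C F M G.K H D // G.valid s} (Λ × Z × Z) Z where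
  Y := G.sys H D
  P l := G.P l.1
  sl s := s.1
  zl s := z0 s.1.q.c
  zo l := δ l.1 l.2.1 l.2.2
  zL l := l.2.1
  zR l := l.2.2

end states

end Pool.Agent.Helper29.C2
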