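import Pool.Agent.Helper29.C2.Interp

/-!
Graphs without an induced path on four vertices split; decompositions give sum-generated backgrounds.
-/

set_option autoImplicit false

namespace Pool.Agent.Helper29.C2

variable {Λ Λ' U V A : Type}

/-- A symmetric relation `E` and its complement `F`, without an induced path on four vertices. -/
structure P4F (E F : A → A → Prop) : Prop where
  symE : ∀ x y, E x y → E y x
  symF : ∀ x y, F x y → F y x
  tot : ∀ x y, x ≠ y → E x y ∨ F x y
  dis : ∀ x y, E x y → F x y → False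
  p4 : ∀ a b c d, E a b → E b c → E c d → F a c → F a d → F b d → False

theorem P4F.compl {E F : A → A → Prop} (h : P4F E F) : P4F F E where
  symE := h.symF
  symF := h.symE
  tot x y hxy := (h.tot x y hxy).symm
  dis x y h1 h2 := h.dis x y h2 h1
  p4 a b c d h1 h2 h3 h4 h5 h6 := h.p4 b d a c h6 (h.symE _ _ h5) h4 (h.symF _ _ h1) h2
    (h.symF _ _ h3)

/-- A split of a finite set. -/
def Splits (E F : A → A → Prop) (s : Finset A) : Prop :=
  ∃ p : A → Prop, (∃ x ∈ s, p x) ∧ (∃ y ∈ s, ¬ p y) ∧
    ((∀ x ∈ s, ∀ y ∈ s, p x → ¬ p y → F x y) ∨ ∀ x ∈ s, ∀ y ∈ s, p x → ¬ p y → E x y)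

theorem P4F.step {E F : A → A → Prop} (h : P4F E F) {s : Finset A} {v : A} (hv : v ∉ s)
    (p : A → Prop) (h1 : ∃ x ∈ s, p x) (h2 : ∃ y ∈ s, ¬ p y)
    (h3 : ∀ x ∈ s, ∀ y ∈ s, p x → ¬ p y → F x y) (s' : Finset A)
    (hs' : ∀ x, x ∈ s' ↔ (x = v ∨ x ∈ s)) : Splits E F s' := by
  classical
  let r : A → A → Prop := fun x y => x ∈ s ∧ y ∈ s ∧ E x y
  have hne : ∀ x ∈ s, v ≠ x := fun x hx e => hv (e ▸ hx)
  have hside : ∀ x y, Relation.ReflTransGen r x y → (p x ↔ p y) := by
    intro x y hxy
    induction hxy with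
    | refl => exact Iff.rfl
    | tail _ hbc ih =>
      rw [ih]
      obtain ⟨hb, hc, hE⟩ := hbc
      constructor
      · intro hp
        by_contra hq
        exact h.dis _ _ hE (h3 _ hb _ hc hp hq)
      · intro hp
        by_contra hq
        exact h.dis _ _ (h.symE _ _ hE) (h3 _ hc _ hb hp hq)
  have hmem : ∀ x y, x ∈ s → Relation.ReflTransGen r x y → y ∈ s := by
    intro x y hx hxy
    induction hxy with
    | refl => exact hx
    | tail _ hbc _ => exact hbc.2.1
  by_cases hc1 : ∃ b ∈ s, ∀ y, Relation.ReflTransGen r b y → F v y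
  · obtain ⟨b, hb, hall⟩ := hc1
    refine ⟨fun y => Relation.ReflTransGen r b y, ⟨b, (hs' b).2 (Or.inr hb),
      Relation.ReflTransGen.refl⟩, ⟨v, (hs' v).2 (Or.inl rfl), fun hbv =>
      hv (hmem b v hb hbv)⟩, Or.inl ?_⟩
    intro x _ y hy hbx hby
    have hxs := hmem b x hb hbx
    rcases (hs' y).1 hy with rfl | hys
    · exact h.symF _ _ (hall x hbx)
    · rcases h.tot x y (fun e => hby (e ▸ hbx)) with hE | hF
      · exact absurd (hbx.tail ⟨hxs, hys, hE⟩) hby
      · exact hF
  push Not at hc1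
  have hc1' : ∀ b ∈ s, ∃ y, Relation.ReflTransGen r b y ∧ y ∈ s ∧ E v y := by
    intro b hb
    obtain ⟨y, hy, hF⟩ := hc1 b hb
    have hys := hmem b y hb hy
    exact ⟨y, hy, hys, (h.tot v y (hne y hys)).resolve_right hF⟩
  by_cases hc2 : ∀ u ∈ s, E v u
  · refine ⟨fun y => y = v, ⟨v, (hs' v).2 (Or.inl rfl), rfl⟩, ?_, Or.inr ?_⟩
    · obtain ⟨x, hx, _⟩ := h1
      exact ⟨x, (hs' x).2 (Or.inr hx), (hne x hx).symm⟩
    · rintro x _ y hy rfl hyx
      exact hc2 y (((hs' y).1 hy).resolve_left hyx)
  push Not at hc2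
  obtain ⟨u, hu, hEu⟩ := hc2
  have hFu : F v u := (h.tot v u (hne u hu)).resolve_left hEu
  obtain ⟨w, huw, _, hEw⟩ := hc1' u hu
  -- adjacent vertices
  have hadj : ∀ w, Relation.ReflTransGen r u w → E v w →
      ∃ a b, Relation.ReflTransGen r u a ∧ r a b ∧ F v a ∧ E v b := by
    intro w huw
    induction huw with
    | refl => exact fun hE => absurd hE hEu
    | @tail b c hub hbc ih =>
      intro hE
      by_cases hEb : E v b
      · exact ih hEb
      · exact ⟨b, c, hub, hbc, (h.tot v b (hne b hbc.1)).resolve_left hEb, hE⟩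
  obtain ⟨a, b, hua, hab, hFa, hEb⟩ := hadj w huw hEw
  have hub := hua.tail hab
  obtain ⟨g, hg, hgu⟩ : ∃ g ∈ s, ¬ (p g ↔ p u) := by
    by_cases hp : p u
    · obtain ⟨y, hy, hpy⟩ := h2
      exact ⟨y, hy, fun h4 => hpy (h4.2 hp)⟩
    · obtain ⟨x, hx, hpx⟩ := h1
      exact ⟨x, hx, fun h4 => hp (h4.1 hpx)⟩
  obtain ⟨z, hgz, hzs, hEz⟩ := hc1' g hg
  have hz : ¬ (p z ↔ p u) := by rw [← hside g z hgz]; exact hgu
  have hFF : ∀ c, c ∈ s → (p u ↔ p c) → F c z := by
    intro c hcs hc
    by_cases hp : p c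
    · exact h3 c hcs z hzs hp (fun h5 => hz ⟨fun _ => hc.2 hp, fun _ => h5⟩)
    · refine h.symF _ _ (h3 z hzs c hcs ?_ hp)
      by_contra hpz
      exact hz ⟨fun h5 => absurd h5 hpz, fun h5 => absurd (hc.1 h5) hp⟩
  exact (h.p4 a b v z hab.2.2 (h.symE _ _ hEb) hEz (h.symF _ _ hFa)
    (hFF a hab.1 (hside u a hua)) (hFF b hab.2.1 (hside u b hub))).elim

theorem Splits.symm {E F : A → A → Prop} {s : Finset A} (h : Splits F E s) : Splits E F s := by
  obtain ⟨p, h1, h2, h3⟩ := h
  exact ⟨p, h1, h2, h3.symm⟩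

/-- **Graphs without an induced path on four vertices split.** -/
theorem P4F.splits {E F : A → A → Prop} (h : P4F E F) : ∀ (n : ℕ) (s : Finset A),
    s.card = n + 2 → Splits E F s := by
  classical
  intro n
  induction n with
  | zero =>
    intro s hs
    obtain ⟨x, y, hxy, rfl⟩ := Finset.card_eq_two.1 hs
    refine ⟨fun z => z = x, ⟨x, by simp, rfl⟩, ⟨y, by simp, hxy.symm⟩, ?_⟩
    rcases h.tot x y hxy with hE | hF
    · right
      rintro a ha b hb rfl hab
      simp only [Finset.mem_insert, Finset.mem_singleton] at hb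
      rcases hb with rfl | rfl
      · exact absurd rfl hab
      · exact hE
    · left
      rintro a ha b hb rfl hab
      simp only [Finset.mem_insert, Finset.mem_singleton] at hb
      rcases hb with rfl | rfl
      · exact absurd rfl hab
      · exact hF
  | succ n ih =>
    intro s hs
    obtain ⟨v, hv⟩ : s.Nonempty := Finset.card_pos.1 (by omega)
    have hc : (s.erase v).card = n + 2 := by
      rw [Finset.card_erase_of_mem hv]; omega
    have hs' : ∀ x, x ∈ s ↔ (x = v ∨ x ∈ s.erase v) := by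
      intro x
      rw [Finset.mem_erase]
      constructor
      · intro hx
        by_cases e : x = v
        · exact Or.inl e
        · exact Or.inr ⟨e, hx⟩
      · rintro (rfl | hx)
        · exact hv
        · exact hx.2
    obtain ⟨p, h1, h2, h3⟩ := ih (s.erase v) hc
    rcases h3 with h3 | h3
    · exact h.step (Finset.notMem_erase v s) p h1 h2 h3 s hs'
    · exact (h.compl.step (Finset.notMem_erase v s) p h1 h2 h3 s hs').symm

/-! ### Decompositions -/

/-- The type of a pair at a node of colour `l`. -/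
def Good (T : QI Λ Empty Λ') (R' : Λ' → A → A → Prop) (l : Λ) (x y : A) : Prop :=
  ∀ l', (R' l' x y ↔ T l' (fun P => P.elim) (fun P => P.elim) (fun j => l = j) (fun _ => False)
      False) ∧
    (R' l' y x ↔ T l' (fun P => P.elim) (fun P => P.elim) (fun _ => False) (fun j => l = j) False)

theorem T_congr (T : QI Λ Empty Λ') (l' : Λ') {a b a' b' : Empty → Prop} {f g f' g' : Λ → Prop}
    {e e' : Prop} (hf : ∀ j, f j ↔ f' j) (hg : ∀ j, g j ↔ g' j) (he : e ↔ e') :
    T l' a b f g e ↔ T l' a' b' f' g' e' := by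
  obtain rfl : a = a' := funext fun P => P.elim
  obtain rfl : b = b' := funext fun P => P.elim
  obtain rfl : f = f' := funext fun j => propext (hf j)
  obtain rfl : g = g' := funext fun j => propext (hg j)
  obtain rfl : e = e' := propext he
  exact Iff.rfl

/-- **Decomposable structures are definable in sum-generated structures.** -/
theorem sgDef_of_split [Finite A] [Nonempty A] (T : QI Λ Empty Λ') (R' : Λ' → A → A → Prop)
    (hrefl : ∀ l' x, R' l' x x ↔ T l' (fun P => P.elim) (fun P => P.elim) (fun _ => False)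
      (fun _ => False) True)
    (hsplit : ∀ s : Finset A, 2 ≤ s.card → ∃ (p : A → Prop) (l : Λ), (∃ x ∈ s, p x) ∧
      (∃ y ∈ s, ¬ p y) ∧ ∀ x ∈ s, ∀ y ∈ s, p x → ¬ p y → Good T R' l x y) :
    SGDef T R' := by
  classical
  have key : ∀ (n : ℕ) (s : Finset A), s.card = n + 1 → ∃ (t : BT Λ) (e : s ≃ t.El),
      ∀ l' (x y : s), R' l' x.1 y.1 ↔ interp T (fun j x y => t.Rel j (e x) (e y))
        (fun P => P.elim) l' x y := by
    intro n
    induction n using Nat.strong_induction_on with
    | _ n ih =>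
      intro s hs
      by_cases hn : n = 0
      · subst hn
        obtain ⟨a, rfl⟩ := Finset.card_eq_one.1 hs
        have hu : ∀ x : ({a} : Finset A), x = ⟨a, by simp⟩ := fun x =>
          Subtype.ext (Finset.mem_singleton.1 x.2)
        refine ⟨BT.pt, ⟨fun _ => (), fun _ => ⟨a, by simp⟩, fun x => (hu x).symm, fun _ => rfl⟩,
          fun l' x y => ?_⟩
        rw [hu x, hu y, hrefl]
        exact T_congr T l' (fun j => Iff.rfl) (fun j => Iff.rfl) ⟨fun _ => rfl, fun _ => trivial⟩
      · obtain ⟨p, l, ⟨x0, hx0, hpx0⟩, ⟨y0, hy0, hpy0⟩, hg⟩ := hsplit s (by omega)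
        set s1 := s.filter p with hs1
        set s2 := s.filter (fun x => ¬ p x) with hs2
        have hsum : s1.card + s2.card = s.card := Finset.card_filter_add_card_filter_not _
        have h1 : 0 < s1.card := Finset.card_pos.2 ⟨x0, by simp [hs1, hx0, hpx0]⟩
        have h2 : 0 < s2.card := Finset.card_pos.2 ⟨y0, by simp [hs2, hy0, hpy0]⟩
        obtain ⟨t1, e1, h3⟩ := ih (s1.card - 1) (by omega) s1 (by omega)
        obtain ⟨t2, e2, h4⟩ := ih (s2.card - 1) (by omega) s2 (by omega)
        have m1 : ∀ x : s, p x.1 → x.1 ∈ s1 := fun x hx => Finset.mem_filter.2 ⟨x.2, hx⟩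
        have m2 : ∀ x : s, ¬ p x.1 → x.1 ∈ s2 := fun x hx => Finset.mem_filter.2 ⟨x.2, hx⟩
        let e : s ≃ (BT.sum l t1 t2).El :=
          { toFun := fun x => if h : p x.1 then Sum.inl (e1 ⟨x.1, m1 x h⟩)
              else Sum.inr (e2 ⟨x.1, m2 x h⟩)
            invFun := fun z => match z with
              | Sum.inl z => ⟨(e1.symm z).1, (Finset.mem_filter.1 (e1.symm z).2).1⟩
              | Sum.inr z => ⟨(e2.symm z).1, (Finset.mem_filter.1 (e2.symm z).2).1⟩
            left_inv := by
              intro x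
              by_cases h : p x.1
              · simp only [dif_pos h]
                exact Subtype.ext (by simp)
              · simp only [dif_neg h]
                exact Subtype.ext (by simp)
            right_inv := by
              rintro (z | z)
              · have h : p (e1.symm z).1 := (Finset.mem_filter.1 (e1.symm z).2).2
                simp only [dif_pos h]
                exact congrArg Sum.inl (by simp)
              · have h : ¬ p (e2.symm z).1 := (Finset.mem_filter.1 (e2.symm z).2).2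
                simp only [dif_neg h]
                exact congrArg Sum.inr (by simp) }
        have hel : ∀ (x : s) (h : p x.1), e x = Sum.inl (e1 ⟨x.1, m1 x h⟩) := fun x h => dif_pos h
        have her : ∀ (x : s) (h : ¬ p x.1), e x = Sum.inr (e2 ⟨x.1, m2 x h⟩) := fun x h =>
          dif_neg h
        refine ⟨BT.sum l t1 t2, e, fun l' x y => ?_⟩
        by_cases hx : p x.1 <;> by_cases hy : p y.1
        · rw [h3 l' ⟨x.1, m1 x hx⟩ ⟨y.1, m1 y hy⟩]
          refine T_congr T l' (fun j => ?_) (fun j => ?_)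
            ⟨fun h => Subtype.ext (by simpa using h), fun h => by subst h; rfl⟩
          · show _ ↔ (BT.sum l t1 t2).Rel j (e x) (e y)
            rw [hel x hx, hel y hy]; exact Iff.rfl
          · show _ ↔ (BT.sum l t1 t2).Rel j (e y) (e x)
            rw [hel x hx, hel y hy]; exact Iff.rfl
        · rw [(hg x.1 x.2 y.1 y.2 hx hy l').1]
          refine T_congr T l' (fun j => ?_) (fun j => ?_) ⟨fun h => h.elim, fun h => hy (h ▸ hx)⟩
          · show _ ↔ (BT.sum l t1 t2).Rel j (e x) (e y)
            rw [hel x hx, her y hy]; exact Iff.rfl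
          · show _ ↔ (BT.sum l t1 t2).Rel j (e y) (e x)
            rw [hel x hx, her y hy]; exact Iff.rfl
        · rw [(hg y.1 y.2 x.1 x.2 hy hx l').2]
          refine T_congr T l' (fun j => ?_) (fun j => ?_) ⟨fun h => h.elim, fun h => hx (h ▸ hy)⟩
          · show _ ↔ (BT.sum l t1 t2).Rel j (e x) (e y)
            rw [her x hx, hel y hy]; exact Iff.rfl
          · show _ ↔ (BT.sum l t1 t2).Rel j (e y) (e x)
            rw [her x hx, hel y hy]; exact Iff.rfl
        · rw [h4 l' ⟨x.1, m2 x hx⟩ ⟨y.1, m2 y hy⟩]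
          refine T_congr T l' (fun j => ?_) (fun j => ?_)
            ⟨fun h => Subtype.ext (by simpa using h), fun h => by subst h; rfl⟩
          · show _ ↔ (BT.sum l t1 t2).Rel j (e x) (e y)
            rw [her x hx, her y hy]; exact Iff.rfl
          · show _ ↔ (BT.sum l t1 t2).Rel j (e y) (e x)
            rw [her x hx, her y hy]; exact Iff.rfl
  have := Fintype.ofFinite A
  have hpos : 0 < (Finset.univ : Finset A).card := Finset.card_pos.2 Finset.univ_nonempty
  obtain ⟨t, e, h⟩ := key ((Finset.univ : Finset A).card - 1) Finset.univ (by omega)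
  let e' : A ≃ t.El := (Equiv.subtypeUnivEquiv (fun x => Finset.mem_univ x)).symm.trans e
  refine ⟨fun j x y => t.Rel j (e' x) (e' y), fun P => P.elim, ⟨t, e', fun _ _ _ => Iff.rfl⟩, ?_⟩
  funext l' x y
  refine propext ((h l' ⟨x, Finset.mem_univ x⟩ ⟨y, Finset.mem_univ y⟩).trans ?_)
  exact T_congr T l' (fun j => Iff.rfl) (fun j => Iff.rfl)
    ⟨fun h => congrArg Subtype.val h, fun h => Subtype.ext h⟩

end Pool.Agent.Helper29.C2
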