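import Pool.Agent.Helper29.C2.Defs

/-!
Finite linear orders: positions, successors, enumerations.
-/

set_option autoImplicit false

namespace Pool.Agent.Helper29.C2

/-- Positions in a finite linear order. -/
structure IsPos {A : Type} (R : A → A → Prop) (m : ℕ) (pos : A → ℕ) : Prop where
  lt_iff : ∀ x y, R x y ↔ pos x < pos y
  lt : ∀ x, pos x < m
  inj : Function.Injective pos
  surj : ∀ i, i < m → ∃ x, pos x = i

theorem exists_pos {A : Type} [Finite A] {R : A → A → Prop} (h : IsLin R) :
    ∃ pos : A → ℕ, IsPos R (Nat.card A) pos := by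
  classical
  have := Fintype.ofFinite A
  let pos : A → ℕ := fun x => (Finset.univ.filter (fun y => R y x)).card
  have hmono : ∀ x y, R x y → pos x < pos y := by
    intro x y hxy
    refine Finset.card_lt_card ?_
    refine Finset.ssubset_iff_subset_ne.2 ⟨?_, ?_⟩
    · intro z hz
      simp only [Finset.mem_filter, Finset.mem_univ, true_and] at hz ⊢
      exact h.trans _ _ _ hz hxy
    · intro e
      have : x ∈ Finset.univ.filter (fun z => R z y) := by simp [hxy]
      rw [← e] at this
      simp only [Finset.mem_filter, Finset.mem_univ, true_and] at this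
      exact h.irr x this
  have hiff : ∀ x y, R x y ↔ pos x < pos y := by
    intro x y
    refine ⟨hmono x y, fun hlt => ?_⟩
    by_cases hxy : x = y
    · subst hxy; omega
    · rcases h.total x y hxy with h1 | h1
      · exact h1
      · have := hmono _ _ h1; omega
  have hinj : Function.Injective pos := by
    intro x y hxy
    by_contra hne
    rcases h.total x y hne with h1 | h1
    · have := hmono _ _ h1; omega
    · have := hmono _ _ h1; omega
  have hlt : ∀ x, pos x < Nat.card A := by
    intro x
    rw [Nat.card_eq_fintype_card, ← Finset.card_univ]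
    refine Finset.card_lt_card ?_
    refine Finset.ssubset_iff_subset_ne.2 ⟨Finset.subset_univ _, ?_⟩
    intro e
    have : x ∈ Finset.univ.filter (fun z => R z x) := by rw [e]; exact Finset.mem_univ _
    simp only [Finset.mem_filter, Finset.mem_univ, true_and] at this
    exact h.irr x this
  refine ⟨pos, hiff, hlt, hinj, ?_⟩
  have hbij : Function.Bijective (fun x : A => (⟨pos x, hlt x⟩ : Fin (Nat.card A))) := by
    rw [Fintype.bijective_iff_injective_and_card]
    refine ⟨fun x y hxy => hinj (congrArg Fin.val hxy), ?_⟩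
    rw [Fintype.card_fin, Nat.card_eq_fintype_card]
  intro i hi
  obtain ⟨x, hx⟩ := hbij.2 ⟨i, hi⟩
  exact ⟨x, congrArg Fin.val hx⟩

/-- Axioms of a successor relation which can be written with two variables. -/
structure SuccAx {A : Type} (R S : A → A → Prop) : Prop where
  sub : ∀ x y, S x y → R x y
  inj : ∀ z x y, S x z → S y z → x = y
  last : ∀ x y, (¬ ∃ z, S x z) → (¬ ∃ z, S y z) → x = y

theorem SuccAx.iff {A : Type} {R S : A → A → Prop} {m : ℕ} {pos : A → ℕ} (hp : IsPos R m pos)
    (h : SuccAx R S) (x y : A) : S x y ↔ pos y = pos x + 1 := by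
  have key : ∀ d x, pos x + d + 1 = m → ∀ y, S x y ↔ pos y = pos x + 1 := by
    intro d
    induction d using Nat.strong_induction_on with
    | _ d ih =>
      intro x hx y
      rcases Nat.eq_zero_or_pos d with hd | hd
      · constructor
        · intro hS
          have h1 := (hp.lt_iff x y).1 (h.sub x y hS)
          have h2 := hp.lt y
          omega
        · intro h1
          have h2 := hp.lt y
          omega
      · -- `x` has an image
        have him : ∃ z, S x z := by
          by_contra hno
          obtain ⟨w, hw⟩ := hp.surj (m - 1) (by have := hp.lt x; omega)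
          have hw2 : ¬ ∃ z, S w z := by
            rintro ⟨z, hz⟩
            have h1 := (hp.lt_iff w z).1 (h.sub w z hz)
            have h2 := hp.lt z
            omega
          have h3 := h.last x w hno hw2
          rw [h3] at hx
          omega
        obtain ⟨z, hz⟩ := him
        have hzpos : pos z = pos x + 1 := by
          have h1 := (hp.lt_iff x z).1 (h.sub x z hz)
          by_contra hne
          obtain ⟨w, hw⟩ := hp.surj (pos z - 1) (by have := hp.lt z; omega)
          have h2 := (ih (m - 1 - pos w) (by have := hp.lt z; omega) w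
            (by have := hp.lt w; omega) z).2 (by omega)
          have h3 := h.inj z x w hz h2
          rw [← h3] at hw
          omega
        constructor
        · intro hS
          have h1 := (hp.lt_iff x y).1 (h.sub x y hS)
          by_contra hne
          obtain ⟨w, hw⟩ := hp.surj (pos y - 1) (by have := hp.lt y; omega)
          have h2 := (ih (m - 1 - pos w) (by have := hp.lt y; omega) w
            (by have := hp.lt w; omega) y).2 (by omega)
          have h3 := h.inj y x w hS h2
          rw [← h3] at hw
          omega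
        · intro h1
          have : y = z := hp.inj (by omega)
          rw [this]
          exact hz
  exact key (m - 1 - pos x) x (by have := hp.lt x; omega) y

theorem succAx_of_pos {A : Type} {R S : A → A → Prop} {m : ℕ} {pos : A → ℕ} (hp : IsPos R m pos)
    (h : ∀ x y, S x y ↔ pos y = pos x + 1) : SuccAx R S where
  sub x y hS := (hp.lt_iff x y).2 (by have := (h x y).1 hS; omega)
  inj z x y h1 h2 := hp.inj (by have := (h x z).1 h1; have := (h y z).1 h2; omega)
  last x y h1 h2 := by
    have key : ∀ x, (¬ ∃ z, S x z) → pos x = m - 1 := by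
      intro x hx
      by_contra hne
      obtain ⟨w, hw⟩ := hp.surj (pos x + 1) (by have := hp.lt x; omega)
      exact hx ⟨w, (h x w).2 hw⟩
    exact hp.inj ((key x h1).trans (key y h2).symm)

theorem exists_suc {A : Type} {R S : A → A → Prop} {m : ℕ} {pos : A → ℕ} (hp : IsPos R m pos)
    (h : ∀ x y, S x y ↔ pos y = pos x + 1) (x : A) : (∃ y, S x y) ↔ pos x + 1 < m := by
  constructor
  · rintro ⟨y, hy⟩
    have := (h x y).1 hy
    have := hp.lt y
    omega
  · intro h1
    obtain ⟨y, hy⟩ := hp.surj _ h1
    exact ⟨y, (h x y).2 hy⟩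

theorem exists_prd {A : Type} {R S : A → A → Prop} {m : ℕ} {pos : A → ℕ} (hp : IsPos R m pos)
    (h : ∀ x y, S x y ↔ pos y = pos x + 1) (y : A) : (∃ x, S x y) ↔ 0 < pos y := by
  constructor
  · rintro ⟨x, hx⟩
    have := (h x y).1 hx
    omega
  · intro h1
    obtain ⟨x, hx⟩ := hp.surj (pos y - 1) (by have := hp.lt y; omega)
    exact ⟨x, (h x y).2 (by omega)⟩

theorem le_of_incr {σ : ℕ → ℕ} {n : ℕ} (h : ∀ i j, i < j → j < n → σ i < σ j) (i : ℕ)
    (hi : i < n) : i ≤ σ i := by
  induction i with
  | zero => exact Nat.zero_le _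
  | succ i ih =>
    have h1 := h i (i + 1) (by omega) hi
    have h2 := ih (by omega)
    omega

/-- Two increasing enumerations of the same set coincide. -/
theorem enum_eq {A : Type} {X : A → Prop} {p1 p2 : A → ℕ}
    (agree : ∀ x y, X x → X y → (p1 x < p1 y ↔ p2 x < p2 y)) {n n' : ℕ} {x1 x2 : ℕ → A}
    (h1 : ∀ i, i < n → X (x1 i)) (h1m : ∀ i j, i < j → j < n → p1 (x1 i) < p1 (x1 j))
    (h1s : ∀ x, X x → ∃ i, i < n ∧ x = x1 i)
    (h2 : ∀ i, i < n' → X (x2 i)) (h2m : ∀ i j, i < j → j < n' → p2 (x2 i) < p2 (x2 j))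
    (h2s : ∀ x, X x → ∃ i, i < n' ∧ x = x2 i) :
    n = n' ∧ ∀ i, i < n → x1 i = x2 i := by
  have hσ : ∀ i, ∃ j, i < n → (j < n' ∧ x1 i = x2 j) := by
    intro i
    by_cases hi : i < n
    · obtain ⟨j, h3, h4⟩ := h2s _ (h1 i hi)
      exact ⟨j, fun _ => ⟨h3, h4⟩⟩
    · exact ⟨0, fun h => absurd h hi⟩
  have hτ : ∀ i, ∃ j, i < n' → (j < n ∧ x2 i = x1 j) := by
    intro i
    by_cases hi : i < n'
    · obtain ⟨j, h3, h4⟩ := h1s _ (h2 i hi)
      exact ⟨j, fun _ => ⟨h3, h4⟩⟩
    · exact ⟨0, fun h => absurd h hi⟩
  choose σ hσ using hσ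
  choose τ hτ using hτ
  have mσ : ∀ i j, i < j → j < n → σ i < σ j := by
    intro i j hij hj
    obtain ⟨a1, a2⟩ := hσ i (by omega)
    obtain ⟨b1, b2⟩ := hσ j hj
    have h3 := (agree _ _ (h1 i (by omega)) (h1 j hj)).1 (h1m i j hij hj)
    rw [a2, b2] at h3
    by_contra hc
    rcases Nat.eq_or_lt_of_le (Nat.not_lt.1 hc) with h4 | h4
    · rw [h4] at h3; omega
    · have := h2m _ _ h4 a1; omega
  have mτ : ∀ i j, i < j → j < n' → τ i < τ j := by
    intro i j hij hj
    obtain ⟨a1, a2⟩ := hτ i (by omega)
    obtain ⟨b1, b2⟩ := hτ j hj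
    have h3 := (agree _ _ (h2 i (by omega)) (h2 j hj)).2 (h2m i j hij hj)
    rw [a2, b2] at h3
    by_contra hc
    rcases Nat.eq_or_lt_of_le (Nat.not_lt.1 hc) with h4 | h4
    · rw [h4] at h3; omega
    · have := h1m _ _ h4 a1; omega
  have inj1 : ∀ i j, i < n → j < n → x1 i = x1 j → i = j := by
    intro i j hi hj e
    rcases lt_trichotomy i j with h3 | h3 | h3
    · have := h1m i j h3 hj; rw [e] at this; omega
    · exact h3
    · have := h1m j i h3 hi; rw [e] at this; omega
  have hfix : ∀ i, i < n → σ i = i := by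
    intro i hi
    obtain ⟨a1, a2⟩ := hσ i hi
    obtain ⟨b1, b2⟩ := hτ (σ i) a1
    have h3 := inj1 i (τ (σ i)) hi b1 (a2.trans b2)
    have h4 := le_of_incr mσ i hi
    have h5 := le_of_incr mτ (σ i) a1
    omega
  refine ⟨?_, fun i hi => ?_⟩
  · apply le_antisymm
    · by_contra hc
      have h3 := (hσ n' (by omega)).1
      rw [hfix n' (by omega)] at h3
      omega
    · by_contra hc
      have h3 := (hτ n (by omega)).1
      have h4 := le_of_incr mτ n (by omega)
      omega
  · have h3 := (hσ i hi).2
    rwa [hfix i hi] at h3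

end Pool.Agent.Helper29.C2
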