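import Pool.Agent.Helper29.C2.Word
import Pool.Agent.Helper29.C2.Pos

/-!
Structures with two linear orders coding tilings.
-/

set_option autoImplicit false

namespace Pool.Agent.Helper29.C2

open Pool.Agent.Helper29.Prefix

/-- The axioms. `T`: top elements; `P1`, `P2`: the first and the second part of the first order;
`le ℓ`: the letter is `ℓ`. -/
structure WAx {q : ℕ} (W : Wang (Fin q)) {A : Type} (R1 R2 S1 S2 : A → A → Prop)
    (T P1 P2 : A → Prop) (le : Lt q → A → Prop) : Prop where
  s1 : SuccAx R1 S1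
  s2 : SuccAx R2 S2
  le1 : ∀ x, ∃ ℓ, le ℓ x
  le2 : ∀ x ℓ ℓ', le ℓ x → le ℓ' x → ℓ = ℓ'
  r0 : ∀ y, (¬ ∃ x, S2 x y) → T y ∧ ∃ γ, le (some (γ, Mk.D)) y ∧ W.l γ ∧ W.c γ
  r1 : ∀ x, (¬ ∃ y, S2 x y) → ¬ T x ∧ le none x
  r2 : ∀ x y, S2 x y → (T x ↔ ¬ T y)
  r3 : ∀ x y, S2 x y → T x → ∀ ℓ, le ℓ x ↔ le ℓ y
  r4 : ∀ x y, (T x ↔ T y) → (R1 x y ↔ R2 x y)
  r5 : ∀ y, (¬ ∃ x, S1 x y) → P1 y
  r6 : ∀ x, (¬ ∃ y, S1 x y) → ¬ P1 x ∧ ¬ P2 x
  r7 : ∀ x, P1 x → T x ∧ ¬ P2 x
  r7' : ∀ x, ¬ P1 x → ¬ P2 x → ¬ T x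
  r8 : ∀ x y, S1 x y → P1 x → ((P1 y ∧ ¬ le none x) ∨ (¬ P1 y ∧ le none x ∧ (P2 y → T y)))
  r8' : ∀ x y, S1 x y → P2 x → ¬ P1 y ∧ (P2 y → (T x ↔ ¬ T y)) ∧ (¬ P2 y → ¬ T x)
  r8'' : ∀ x y, S1 x y → ¬ P1 x → ¬ P2 x → ¬ P1 y ∧ ¬ P2 y
  r9 : ∀ x y, S1 x y → P2 x → T x → ∀ ℓ ℓ', le ℓ y → le ℓ' x → vOK W ℓ ℓ'
  r10 : ∀ x y, S2 x y → ¬ T x → ∀ ℓ ℓ', le ℓ x → le ℓ' y → hOK W ℓ ℓ' (¬ P1 x ∧ ¬ P2 x)
  r12 : ∀ x, P1 x → ∀ z, le (some z) x → W.b z.1
  r13 : ∀ x, ¬ P1 x → ¬ P2 x → ∀ z, le (some z) x → W.t z.1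

/-- An initial segment of the positions. -/
theorem exists_cut {A : Type} {R S : A → A → Prop} {m : ℕ} {pos : A → ℕ} (hp : IsPos R m pos)
    (hS : ∀ x y, S x y ↔ pos y = pos x + 1) {P : A → Prop}
    (h : ∀ x y, S x y → P y → P x) : ∃ a, a ≤ m ∧ ∀ x, P x ↔ pos x < a := by
  classical
  have hdown : ∀ d x y, pos y = pos x + d → P y → P x := by
    intro d
    induction d with
    | zero => intro x y e hy; have := hp.inj (show pos y = pos x by omega); rwa [← this]
    | succ d ih =>
      intro x y e hy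
      obtain ⟨z, hz⟩ := hp.surj (pos x + 1) (by have := hp.lt y; omega)
      exact h x z ((hS x z).2 hz) (ih z y (by omega) hy)
  by_cases hex : ∃ i, i < m ∧ ∀ x, pos x = i → ¬ P x
  · refine ⟨Nat.find hex, (Nat.find_spec hex).1.le, fun x => ⟨fun hx => ?_, fun hx => ?_⟩⟩
    · by_contra hc
      obtain ⟨z, hz⟩ := hp.surj _ (Nat.find_spec hex).1
      exact (Nat.find_spec hex).2 z hz (hdown (pos x - pos z) z x (by omega) hx)
    · have h1 := Nat.find_min hex hx
      push Not at h1
      obtain ⟨z, hz, hPz⟩ := h1 (hp.lt x)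
      rwa [← hp.inj hz]
  · push Not at hex
    refine ⟨m, le_rfl, fun x => ⟨fun _ => hp.lt x, fun hx => ?_⟩⟩
    obtain ⟨z, hz, hPz⟩ := hex (pos x) hx
    rwa [← hp.inj hz]

/-- **Soundness of the coding.** -/
theorem WAx.tiles {q : ℕ} {W : Wang (Fin q)} {A : Type} [Finite A] [Nonempty A]
    {R1 R2 S1 S2 : A → A → Prop} {T P1 P2 : A → Prop} {le : Lt q → A → Prop}
    (hR1 : IsLin R1) (hR2 : IsLin R2) (h : WAx W R1 R2 S1 S2 T P1 P2 le) :
    ∃ N, 1 ≤ N ∧ Nat.card A = 2 * (N * (N + 1)) ∧ Tiles W N := by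
  classical
  obtain ⟨p1, hp1⟩ := exists_pos hR1
  obtain ⟨p2, hp2⟩ := exists_pos hR2
  have hS1 := fun x y => h.s1.iff hp1 x y
  have hS2 := fun x y => h.s2.iff hp2 x y
  set m := Nat.card A with hm
  have hmpos : 0 < m := Nat.card_pos
  have suc1 := exists_suc hp1 hS1
  have suc2 := exists_suc hp2 hS2
  have prd1 := exists_prd hp1 hS1
  have prd2 := exists_prd hp2 hS2
  -- enumerations
  have he1 : ∀ i, ∃ x, i < m → p1 x = i := by
    intro i
    by_cases hi : i < m
    · obtain ⟨x, hx⟩ := hp1.surj i hi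
      exact ⟨x, fun _ => hx⟩
    · exact ⟨Classical.arbitrary A, fun h' => absurd h' hi⟩
  have he2 : ∀ i, ∃ x, i < m → p2 x = i := by
    intro i
    by_cases hi : i < m
    · obtain ⟨x, hx⟩ := hp2.surj i hi
      exact ⟨x, fun _ => hx⟩
    · exact ⟨Classical.arbitrary A, fun h' => absurd h' hi⟩
  choose e1 he1 using he1
  choose e2 he2 using he2
  -- tops in the second order
  have hTpar : ∀ i, i < m → (T (e2 i) ↔ i % 2 = 0) := by
    intro i
    induction i with
    | zero =>
      intro hi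
      have h1 := (h.r0 (e2 0) (by rw [prd2, he2 0 hi]; omega)).1
      exact ⟨fun _ => rfl, fun _ => h1⟩
    | succ i ih =>
      intro hi
      have h1 := h.r2 (e2 i) (e2 (i + 1)) ((hS2 _ _).2 (by rw [he2 _ hi, he2 i (by omega)]))
      have h2 := ih (by omega)
      by_cases hT : T (e2 (i + 1))
      · have h3 : ¬ T (e2 i) := fun h4 => (h1.1 h4) hT
        rw [h2] at h3
        exact ⟨fun _ => by omega, fun _ => hT⟩
      · have h3 : T (e2 i) := h1.2 hT
        rw [h2] at h3
        exact ⟨fun h4 => absurd h4 hT, fun h4 => by omega⟩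
  have hTp : ∀ x, T x ↔ p2 x % 2 = 0 := by
    intro x
    have h1 := hTpar (p2 x) (hp2.lt x)
    rwa [show e2 (p2 x) = x from hp2.inj (he2 _ (hp2.lt x))] at h1
  obtain ⟨n, hn⟩ : ∃ n, m = 2 * n := by
    have h1 := (h.r1 (e2 (m - 1)) (by rw [suc2, he2 _ (by omega)]; omega)).1
    rw [hTp, he2 _ (by omega)] at h1
    exact ⟨m / 2, by omega⟩
  -- the parts of the first order
  obtain ⟨a, ham, ha⟩ := exists_cut hp1 hS1 (P := P1) (by
    intro x y hxy hy
    by_contra hx
    by_cases hx2 : P2 x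
    · exact (h.r8' x y hxy hx2).1 hy
    · exact (h.r8'' x y hxy hx hx2).1 hy)
  obtain ⟨b, hbm, hb⟩ := exists_cut hp1 hS1 (P := fun x => P1 x ∨ P2 x) (by
    intro x y hxy hy
    by_contra hx
    push Not at hx
    have h1 := h.r8'' x y hxy hx.1 hx.2
    rcases hy with hy | hy
    · exact h1.1 hy
    · exact h1.2 hy)
  have ha1 : 1 ≤ a := by
    have h1 := h.r5 (e1 0) (by rw [prd1, he1 0 hmpos]; omega)
    rw [ha, he1 0 hmpos] at h1
    omega
  have hbm' : b < m := by
    have h1 := h.r6 (e1 (m - 1)) (by rw [suc1, he1 _ (by omega)]; omega)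
    have h2 : ¬ (P1 (e1 (m - 1)) ∨ P2 (e1 (m - 1))) := by tauto
    rw [hb, he1 _ (by omega)] at h2
    omega
  have hab : a ≤ b := by
    by_contra hc
    have h1 : P1 (e1 b) := (ha _).2 (by rw [he1 b (by omega)]; omega)
    have h2 : P1 (e1 b) ∨ P2 (e1 b) := Or.inl h1
    rw [hb, he1 b (by omega)] at h2
    omega
  have hP2 : ∀ x, P2 x ↔ a ≤ p1 x ∧ p1 x < b := by
    intro x
    constructor
    · intro h1
      have h2 : P1 x ∨ P2 x := Or.inr h1
      rw [hb] at h2
      refine ⟨?_, h2⟩
      by_contra hc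
      exact (h.r7 x ((ha x).2 (by omega))).2 h1
    · rintro ⟨h1, h2⟩
      rcases (hb x).2 h2 with h3 | h3
      · rw [ha] at h3; omega
      · exact h3
  have hP3 : ∀ x, (¬ P1 x ∧ ¬ P2 x) ↔ b ≤ p1 x := by
    intro x
    have h1 := hb x
    constructor
    · intro h2
      by_contra hc
      rcases h1.2 (by omega) with h3 | h3
      · exact h2.1 h3
      · exact h2.2 h3
    · intro h2
      have h3 : ¬ (P1 x ∨ P2 x) := fun h4 => by have := h1.1 h4; omega
      exact ⟨fun h4 => h3 (Or.inl h4), fun h4 => h3 (Or.inr h4)⟩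
  -- alternation in the second part
  have halt : ∀ j, a + j < b → (T (e1 (a + j)) ↔ j % 2 = 0) := by
    intro j
    induction j with
    | zero =>
      intro hj
      have hS : S1 (e1 (a - 1)) (e1 (a + 0)) := (hS1 _ _).2 (by
        rw [he1 _ (by omega), he1 _ (by omega)]; omega)
      have hPx : P1 (e1 (a - 1)) := (ha _).2 (by rw [he1 _ (by omega)]; omega)
      have hPy : P2 (e1 (a + 0)) := (hP2 _).2 (by rw [he1 _ (by omega)]; omega)
      rcases h.r8 _ _ hS hPx with h1 | h1
      · rw [ha, he1 _ (by omega)] at h1; omega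
      · exact ⟨fun _ => rfl, fun _ => h1.2.2 hPy⟩
    | succ j ih =>
      intro hj
      have hS : S1 (e1 (a + j)) (e1 (a + (j + 1))) := (hS1 _ _).2 (by
        rw [he1 _ (by omega), he1 _ (by omega)]; omega)
      have hPx : P2 (e1 (a + j)) := (hP2 _).2 (by rw [he1 _ (by omega)]; omega)
      have hPy : P2 (e1 (a + (j + 1))) := (hP2 _).2 (by rw [he1 _ (by omega)]; omega)
      have h1 := (h.r8' _ _ hS hPx).2.1 hPy
      have h2 := ih (by omega)
      by_cases hT : T (e1 (a + (j + 1)))
      · have h3 : ¬ T (e1 (a + j)) := fun h4 => (h1.1 h4) hT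
        rw [h2] at h3
        exact ⟨fun _ => by omega, fun _ => hT⟩
      · have h3 : T (e1 (a + j)) := h1.2 hT
        rw [h2] at h3
        exact ⟨fun h4 => absurd h4 hT, fun h4 => by omega⟩
  obtain ⟨k, hk⟩ : ∃ k, b = a + 2 * k := by
    rcases Nat.eq_or_lt_of_le hab with h1 | h1
    · exact ⟨0, by omega⟩
    · have hS : S1 (e1 (b - 1)) (e1 b) := (hS1 _ _).2 (by
        rw [he1 _ (by omega), he1 _ (by omega)]; omega)
      have hPx : P2 (e1 (b - 1)) := (hP2 _).2 (by rw [he1 _ (by omega)]; omega)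
      have hPy : ¬ P2 (e1 b) := by rw [hP2, he1 _ (by omega)]; omega
      have h2 := (h.r8' _ _ hS hPx).2.2 hPy
      have h3 := halt (b - 1 - a) (by omega)
      rw [show a + (b - 1 - a) = b - 1 by omega] at h3
      rw [h3] at h2
      exact ⟨(b - a) / 2, by omega⟩
  -- tops in the first order
  let u : ℕ → ℕ := fun i => if i < a then i else a + 2 * (i - a)
  let v : ℕ → ℕ := fun i => if i < k then a + 2 * i + 1 else a + k + i
  have hu : ∀ i, u i = if i < a then i else a + 2 * (i - a) := fun _ => rfl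
  have hv : ∀ i, v i = if i < k then a + 2 * i + 1 else a + k + i := fun _ => rfl
  have hTu : ∀ x, T x ↔ (p1 x < a ∨ (a ≤ p1 x ∧ p1 x < b ∧ (p1 x - a) % 2 = 0)) := by
    intro x
    rcases Nat.lt_or_ge (p1 x) a with h1 | h1
    · exact ⟨fun _ => Or.inl h1, fun _ => (h.r7 x ((ha x).2 h1)).1⟩
    · rcases Nat.lt_or_ge (p1 x) b with h2 | h2
      · have h3 := halt (p1 x - a) (by omega)
        rw [show a + (p1 x - a) = p1 x by omega,
          show e1 (p1 x) = x from hp1.inj (he1 _ (hp1.lt x))] at h3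
        rw [h3]
        constructor
        · intro h4; exact Or.inr ⟨h1, h2, h4⟩
        · rintro (h4 | h4)
          · omega
          · exact h4.2.2
      · have h3 := h.r7' x ((hP3 x).2 h2).1 ((hP3 x).2 h2).2
        constructor
        · intro h4; exact absurd h4 h3
        · rintro (h4 | h4)
          · omega
          · omega
  have hum : ∀ i, i < a + k → u i < m := by
    intro i hi
    rw [hu]
    split_ifs <;> omega
  have hbotn : m - a - k + (a + k) = m := by omega
  have hvm : ∀ i, i < m - a - k → v i < m := by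
    intro i hi
    rw [hv]
    split_ifs <;> omega
  have htops := enum_eq (X := T) (p1 := p1) (p2 := p2)
    (fun x y hx hy => by
      rw [← hp1.lt_iff, ← hp2.lt_iff]
      exact h.r4 x y ⟨fun _ => hy, fun _ => hx⟩)
    (n := a + k) (n' := n) (x1 := fun i => e1 (u i)) (x2 := fun i => e2 (2 * i))
    (fun i hi => by
      have h1 := hum i hi
      rw [hTu, he1 _ h1]
      rw [hu]
      split_ifs <;> omega)
    (fun i j hij hj => by
      have h1 := hum i (by omega)
      have h2 := hum j hj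
      simp only [he1 _ h1, he1 _ h2]
      rw [hu, hu]
      split_ifs <;> omega)
    (fun x hx => by
      rw [hTu] at hx
      rcases hx with hx | hx
      · refine ⟨p1 x, by omega, ?_⟩
        have h1 : u (p1 x) = p1 x := by rw [hu, if_pos hx]
        show x = e1 (u (p1 x))
        rw [h1]
        exact (hp1.inj (he1 _ (hp1.lt x))).symm
      · refine ⟨a + (p1 x - a) / 2, by omega, ?_⟩
        have h1 : u (a + (p1 x - a) / 2) = p1 x := by
          rw [hu, if_neg (by omega)]
          omega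
        show x = e1 (u _)
        rw [h1]
        exact (hp1.inj (he1 _ (hp1.lt x))).symm)
    (fun i hi => by
      rw [hTp, he2 _ (by omega)]; omega)
    (fun i j hij hj => by
      simp only [he2 (2 * i) (by omega), he2 (2 * j) (by omega)]
      omega)
    (fun x hx => by
      rw [hTp] at hx
      have := hp2.lt x
      refine ⟨p2 x / 2, by omega, ?_⟩
      show x = e2 (2 * (p2 x / 2))
      rw [show 2 * (p2 x / 2) = p2 x by omega]
      exact (hp2.inj (he2 _ (hp2.lt x))).symm)
  obtain ⟨hnak, htop⟩ := htops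
  have hbots := enum_eq (X := fun x => ¬ T x) (p1 := p1) (p2 := p2)
    (fun x y hx hy => by
      rw [← hp1.lt_iff, ← hp2.lt_iff]
      exact h.r4 x y ⟨fun h1 => absurd h1 hx, fun h1 => absurd h1 hy⟩)
    (n := m - a - k) (n' := n) (x1 := fun i => e1 (v i)) (x2 := fun i => e2 (2 * i + 1))
    (fun i hi => by
      have h1 := hvm i hi
      rw [hTu, he1 _ h1]
      rw [hv]
      split_ifs <;> omega)
    (fun i j hij hj => by
      have h1 := hvm i (by omega)
      have h2 := hvm j hj
      simp only [he1 _ h1, he1 _ h2]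
      rw [hv, hv]
      split_ifs <;> omega)
    (fun x hx => by
      rw [hTu] at hx
      have hxm := hp1.lt x
      rcases Nat.lt_or_ge (p1 x) b with hb1 | hb1
      · refine ⟨(p1 x - a - 1) / 2, by omega, ?_⟩
        have h1 : v ((p1 x - a - 1) / 2) = p1 x := by
          rw [hv, if_pos (by omega)]
          omega
        show x = e1 (v _)
        rw [h1]
        exact (hp1.inj (he1 _ (hp1.lt x))).symm
      · refine ⟨p1 x - a - k, by omega, ?_⟩
        have h1 : v (p1 x - a - k) = p1 x := by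
          rw [hv, if_neg (by omega)]
          omega
        show x = e1 (v _)
        rw [h1]
        exact (hp1.inj (he1 _ (hp1.lt x))).symm)
    (fun i hi => by
      rw [hTp, he2 _ (by omega)]; omega)
    (fun i j hij hj => by
      simp only [he2 (2 * i + 1) (by omega), he2 (2 * j + 1) (by omega)]
      omega)
    (fun x hx => by
      rw [hTp] at hx
      have := hp2.lt x
      refine ⟨p2 x / 2, by omega, ?_⟩
      show x = e2 (2 * (p2 x / 2) + 1)
      rw [show 2 * (p2 x / 2) + 1 = p2 x by omega]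
      exact (hp2.inj (he2 _ (hp2.lt x))).symm)
  obtain ⟨_, hbot⟩ := hbots
  -- the word
  choose L0 hL0 using h.le1
  let L : ℕ → Lt q := fun p => L0 (e2 (2 * p))
  have hLt : ∀ p, le (L p) (e2 (2 * p)) := fun p => hL0 _
  have hLt1 : ∀ p, p < n → le (L p) (e1 (u p)) := by
    intro p hp
    have h0 : e1 (u p) = e2 (2 * p) := htop p (by omega)
    rw [h0]
    exact hLt p
  have hLb : ∀ p, p < n → le (L p) (e2 (2 * p + 1)) := by
    intro p hp
    have hS : S2 (e2 (2 * p)) (e2 (2 * p + 1)) := (hS2 _ _).2 (by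
      rw [he2 _ (by omega), he2 _ (by omega)])
    exact (h.r3 _ _ hS ((hTp _).2 (by rw [he2 _ (by omega)]; omega)) (L p)).1 (hLt p)
  have hLb1 : ∀ p, p < n → le (L p) (e1 (v p)) := by
    intro p hp
    have h0 : e1 (v p) = e2 (2 * p + 1) := hbot p (by omega)
    rw [h0]
    exact hLb p hp
  have hword : Word W a k L :=
    { apos := ha1
      first := by
        obtain ⟨_, γ, h2, h3, h4⟩ := h.r0 (e2 0) (by rw [prd2, he2 0 hmpos]; omega)
        exact ⟨γ, h.le2 _ _ _ (hLt 0) h2, h3, h4⟩
      p1 := by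
        intro p hp e
        have hS : S1 (e1 p) (e1 (p + 1)) := (hS1 _ _).2 (by
          rw [he1 _ (by omega), he1 _ (by omega)])
        have h1 := hLt1 p (by omega)
        rw [show u p = p by rw [hu, if_pos (by omega)], e] at h1
        rcases h.r8 _ _ hS ((ha _).2 (by rw [he1 _ (by omega)]; omega)) with h2 | h2
        · exact h2.2 h1
        · exact h2.1 ((ha _).2 (by rw [he1 _ (by omega)]; omega))
      p1' := by
        have hS : S1 (e1 (a - 1)) (e1 a) := (hS1 _ _).2 (by
          rw [he1 _ (by omega), he1 _ (by omega)]; omega)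
        have h1 := hLt1 (a - 1) (by omega)
        rw [show u (a - 1) = a - 1 by rw [hu, if_pos (by omega)]] at h1
        rcases h.r8 _ _ hS ((ha _).2 (by rw [he1 _ (by omega)]; omega)) with h2 | h2
        · have h3 := (ha _).1 h2.1
          rw [he1 _ (by omega)] at h3
          omega
        · exact h.le2 _ _ _ h1 h2.2.1
      bot := by
        intro p hp z hz
        have h1 := hLt1 p (by omega)
        rw [show u p = p by rw [hu, if_pos (by omega)], hz] at h1
        exact h.r12 _ ((ha _).2 (by rw [he1 _ (by omega)]; exact hp)) z h1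
      top := by
        intro p hp1' hp2' z hz
        have h1 := hLb1 p (by omega)
        rw [show v p = a + k + p by rw [hv, if_neg (by omega)], hz] at h1
        have h2 := (hP3 (e1 (a + k + p))).2 (by rw [he1 _ (by omega)]; omega)
        exact h.r13 _ h2.1 h2.2 z h1
      last := by
        have h1 := hLb (n - 1) (by omega)
        have h2 := (h.r1 (e2 (2 * (n - 1) + 1)) (by
          rw [suc2, he2 _ (by omega)]; omega)).2
        rw [hnak]
        exact h.le2 _ _ _ h1 h2
      hor := by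
        intro p hp
        have hS : S2 (e2 (2 * p + 1)) (e2 (2 * (p + 1))) := (hS2 _ _).2 (by
          rw [he2 _ (by omega), he2 _ (by omega)]; omega)
        have h1 := h.r10 _ _ hS (by rw [hTp, he2 _ (by omega)]; omega) _ _ (hLb p (by omega))
          (hLt (p + 1))
        have h2 : (¬ P1 (e2 (2 * p + 1)) ∧ ¬ P2 (e2 (2 * p + 1))) ↔ k ≤ p := by
          have h3 : e1 (v p) = e2 (2 * p + 1) := hbot p (by omega)
          rw [← h3, hP3, he1 _ (hvm p (by omega)), hv]
          split_ifs <;> omega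
        rwa [propext h2] at h1
      ver := by
        intro p hp
        have hS : S1 (e1 (a + 2 * p)) (e1 (a + 2 * p + 1)) := (hS1 _ _).2 (by
          rw [he1 _ (by omega), he1 _ (by omega)])
        have h1 := hLb1 p (by omega)
        rw [show v p = a + 2 * p + 1 by rw [hv, if_pos (by omega)]] at h1
        have h2 := hLt1 (p + a) (by omega)
        rw [show u (p + a) = a + 2 * p by rw [hu, if_neg (by omega)]; omega] at h2
        exact h.r9 _ _ hS ((hP2 _).2 (by rw [he1 _ (by omega)]; omega))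
          ((hTu _).2 (by rw [he1 _ (by omega)]; omega)) _ _ h1 h2 }
  obtain ⟨N, hN1, hN2, hN3, hN4⟩ := hword.tiles
  exact ⟨N, hN1, by rw [hn, ← hnak, hN3], hN4⟩

/-- The first order of the coding of a word. -/
def ps (a k i : ℕ) : ℕ :=
  if i % 2 = 0 then (if i / 2 < a then i / 2 else a + 2 * (i / 2 - a))
  else (if i / 2 < k then a + 2 * (i / 2) + 1 else a + k + i / 2)

/-- **Completeness of the coding.** -/
theorem Word.wAx {q : ℕ} {W : Wang (Fin q)} {a k : ℕ} {L : ℕ → Lt q} (h : Word W a k L) :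
    IsLin (fun x y : Fin (2 * (a + k)) => ps a k x < ps a k y) ∧
    IsLin (fun x y : Fin (2 * (a + k)) => x.1 < y.1) ∧
    WAx W (A := Fin (2 * (a + k))) (fun x y => ps a k x < ps a k y) (fun x y => x.1 < y.1)
      (fun x y => ps a k y = ps a k x + 1) (fun x y => y.1 = x.1 + 1)
      (fun x => x.1 % 2 = 0) (fun x => ps a k x < a) (fun x => a ≤ ps a k x ∧ ps a k x < a + 2 * k)
      (fun ℓ x => L (x.1 / 2) = ℓ) := by
  have hps : ∀ i, ps a k i = if i % 2 = 0 then (if i / 2 < a then i / 2 else a + 2 * (i / 2 - a))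
    else (if i / 2 < k then a + 2 * (i / 2) + 1 else a + k + i / 2) := fun _ => rfl
  have hlt : ∀ i, i < 2 * (a + k) → ps a k i < 2 * (a + k) := by
    intro i hi
    rw [hps]
    split_ifs <;> omega
  have hinj : ∀ i j, i < 2 * (a + k) → j < 2 * (a + k) → ps a k i = ps a k j → i = j := by
    intro i j hi hj
    rw [hps, hps]
    split_ifs <;> omega
  have hsurj : ∀ i, i < 2 * (a + k) → ∃ j, j < 2 * (a + k) ∧ ps a k j = i := by
    intro i hi
    rcases Nat.lt_or_ge i a with h1 | h1
    · refine ⟨2 * i, by omega, ?_⟩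
      rw [hps]
      split_ifs <;> omega
    · rcases Nat.lt_or_ge i (a + 2 * k) with h2 | h2
      · by_cases h3 : (i - a) % 2 = 0
        · refine ⟨2 * (a + (i - a) / 2), by omega, ?_⟩
          rw [hps]
          split_ifs <;> omega
        · refine ⟨2 * ((i - a) / 2) + 1, by omega, ?_⟩
          rw [hps]
          split_ifs <;> omega
      · refine ⟨2 * (i - a - k) + 1, by omega, ?_⟩
        rw [hps]
        split_ifs <;> omega
  have hpos1 : IsPos (fun x y : Fin (2 * (a + k)) => ps a k x < ps a k y) (2 * (a + k))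
      (fun x => ps a k x) :=
    { lt_iff := fun _ _ => Iff.rfl
      lt := fun x => hlt x x.2
      inj := fun x y e => Fin.ext (hinj x y x.2 y.2 e)
      surj := fun i hi => by
        obtain ⟨j, hj, e⟩ := hsurj i hi
        exact ⟨⟨j, hj⟩, e⟩ }
  have hpos2 : IsPos (fun x y : Fin (2 * (a + k)) => x.1 < y.1) (2 * (a + k)) (fun x => x.1) :=
    { lt_iff := fun _ _ => Iff.rfl
      lt := fun x => x.2
      inj := fun x y e => Fin.ext e
      surj := fun i hi => ⟨⟨i, hi⟩, rfl⟩ }
  have hap := h.apos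
  have suc1 := exists_suc hpos1 (S := fun x y : Fin (2 * (a + k)) => ps a k y = ps a k x + 1)
    (fun _ _ => Iff.rfl)
  have suc2 := exists_suc hpos2 (S := fun x y : Fin (2 * (a + k)) => y.1 = x.1 + 1)
    (fun _ _ => Iff.rfl)
  have prd1 := exists_prd hpos1 (S := fun x y : Fin (2 * (a + k)) => ps a k y = ps a k x + 1)
    (fun _ _ => Iff.rfl)
  have prd2 := exists_prd hpos2 (S := fun x y : Fin (2 * (a + k)) => y.1 = x.1 + 1)
    (fun _ _ => Iff.rfl)
  refine ⟨⟨fun x => lt_irrefl _, fun x y z => lt_trans, fun x y hxy => ?_⟩,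
    ⟨fun x => lt_irrefl _, fun x y z => lt_trans, fun x y hxy => ?_⟩, ?_⟩
  · have : ps a k x ≠ ps a k y := fun e => hxy (Fin.ext (hinj _ _ x.2 y.2 e))
    omega
  · have : x.1 ≠ y.1 := fun e => hxy (Fin.ext e)
    omega
  · refine
      { s1 := succAx_of_pos hpos1 (fun _ _ => Iff.rfl)
        s2 := succAx_of_pos hpos2 (fun _ _ => Iff.rfl)
        le1 := fun x => ⟨_, rfl⟩
        le2 := fun x ℓ ℓ' e e' => e.symm.trans e'
        r0 := ?_, r1 := ?_, r2 := ?_, r3 := ?_, r4 := ?_, r5 := ?_, r6 := ?_, r7 := ?_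
        r7' := ?_, r8 := ?_, r8' := ?_, r8'' := ?_, r9 := ?_, r10 := ?_, r12 := ?_, r13 := ?_ }
    · intro y hy
      rw [prd2] at hy
      have hy0 : y.1 = 0 := by omega
      obtain ⟨γ, h1, h2, h3⟩ := h.first
      refine ⟨by rw [hy0], γ, ?_, h2, h3⟩
      rw [hy0]
      exact h1
    · intro x hx
      rw [suc2] at hx
      have hx2 := x.2
      refine ⟨by omega, ?_⟩
      rw [show x.1 / 2 = a + k - 1 by omega]
      exact h.last
    · intro x y hxy
      have hxy' : y.1 = x.1 + 1 := hxy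
      omega
    · intro x y hxy hT ℓ
      have hxy' : y.1 = x.1 + 1 := hxy
      rw [show y.1 / 2 = x.1 / 2 by omega]
    · intro x y hT
      have hx2 := x.2
      have hy2 := y.2
      show ps a k x < ps a k y ↔ x.1 < y.1
      rw [hps, hps]
      split_ifs <;> omega
    · intro y hy
      rw [prd1] at hy
      show ps a k y < a
      omega
    · intro x hx
      rw [suc1] at hx
      have := hlt x x.2
      constructor
      · show ¬ (ps a k x < a)
        omega
      · show ¬ (a ≤ ps a k x ∧ ps a k x < a + 2 * k)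
        omega
    · intro x hx
      have hx' : ps a k x < a := hx
      refine ⟨?_, fun h2 => ?_⟩
      · by_contra hc
        rw [hps] at hx'
        rw [if_neg hc] at hx'
        split_ifs at hx' <;> omega
      · omega
    · intro x hx1 hx2 hT
      have hx1' : ¬ (ps a k x < a) := hx1
      have hx2' : ¬ (a ≤ ps a k x ∧ ps a k x < a + 2 * k) := hx2
      have := x.2
      rw [hps, if_pos hT] at hx1' hx2'
      split_ifs at hx1' hx2' <;> omega
    · intro x y hxy hx
      have hxy' : ps a k y = ps a k x + 1 := hxy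
      have hx' : ps a k x < a := hx
      have hxe : x.1 % 2 = 0 ∧ x.1 / 2 = ps a k x := by
        have h0 := hps x
        split_ifs at h0 <;> omega
      rcases Nat.lt_or_ge (ps a k y) a with h1 | h1
      · refine Or.inl ⟨h1, ?_⟩
        rw [hxe.2]
        exact h.p1 _ (by omega)
      · refine Or.inr ⟨by omega, ?_, fun h2 => ?_⟩
        · rw [hxe.2, show ps a k x = a - 1 by omega]
          exact h.p1'
        · have h0 := hps y
          split_ifs at h0 <;> omega
    · intro x y hxy hx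
      have hxy' : ps a k y = ps a k x + 1 := hxy
      have hx' : a ≤ ps a k x ∧ ps a k x < a + 2 * k := hx
      have hx0 := hps x
      have hy0 := hps y
      have hx2 := x.2
      have hy2 := y.2
      refine ⟨by omega, fun h2 => ?_, fun h2 => ?_⟩
      · split_ifs at hx0 hy0 <;> omega
      · intro hT
        rw [if_pos hT] at hx0
        split_ifs at hx0 hy0 <;> omega
    · intro x y hxy hx1 hx2
      have hxy' : ps a k y = ps a k x + 1 := hxy
      have hx1' : ¬ (ps a k x < a) := hx1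
      have hx2' : ¬ (a ≤ ps a k x ∧ ps a k x < a + 2 * k) := hx2
      constructor
      · show ¬ (ps a k y < a)
        omega
      · show ¬ (a ≤ ps a k y ∧ ps a k y < a + 2 * k)
        omega
    · intro x y hxy hx hT ℓ ℓ' hℓ hℓ'
      have hxy' : ps a k y = ps a k x + 1 := hxy
      have hx' : a ≤ ps a k x ∧ ps a k x < a + 2 * k := hx
      have hx0 := hps x
      have hy0 := hps y
      rw [if_pos hT] at hx0
      have hd : x.1 / 2 = y.1 / 2 + a ∧ y.1 / 2 < k := by
        split_ifs at hx0 hy0 <;> omega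
      subst hℓ hℓ'
      rw [hd.1]
      exact h.ver _ hd.2
    · intro x y hxy hT ℓ ℓ' hℓ hℓ'
      have hxy' : y.1 = x.1 + 1 := hxy
      have hT' : ¬ (x.1 % 2 = 0) := hT
      have hy2 := y.2
      subst hℓ hℓ'
      have h1 := h.hor (x.1 / 2) (by omega)
      rw [show y.1 / 2 = x.1 / 2 + 1 by omega]
      have h2 : (¬ (ps a k x < a) ∧ ¬ (a ≤ ps a k x ∧ ps a k x < a + 2 * k)) ↔
          k ≤ x.1 / 2 := by
        rw [hps, if_neg hT']
        split_ifs <;> omega
      rwa [propext h2]
    · intro x hx z hz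
      have hx' : ps a k x < a := hx
      have hxe : x.1 / 2 < a := by
        have h0 := hps x
        split_ifs at h0 <;> omega
      exact h.bot _ hxe z hz
    · intro x hx1 hx2 z hz
      have hx1' : ¬ (ps a k x < a) := hx1
      have hx2' : ¬ (a ≤ ps a k x ∧ ps a k x < a + 2 * k) := hx2
      have hx2 := x.2
      refine h.top (x.1 / 2) ?_ (by omega) z hz
      have h0 := hps x
      split_ifs at h0 <;> omega

end Pool.Agent.Helper29.C2
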