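import Pool.Agent.Helper29.C2.Syn
import Pool.Agent.Helper29.C2.WModel

/-!
Definability by two-variable formulas with counting quantifiers.
-/

set_option autoImplicit false

namespace Pool.Agent.Helper29.C2

open Pool.Agent.Helper29.Prefix

variable {Λ U V : Type}

/-- Uniform definability on finite structures; `x` is the variable `true`, `y` is `false`. -/
def Df (P : ∀ (A : Type), Str Λ U V A → A → A → Prop) : Prop :=
  ∃ φ : Fm Λ U V, ∀ (A : Type) [Finite A] (M : Str Λ U V A) (e : Bool → A),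
    Sat M φ e ↔ P A M (e true) (e false)

namespace Df

variable {P Q : ∀ (A : Type), Str Λ U V A → A → A → Prop}

theorem congr (h : Df P) (hPQ : ∀ (A : Type) [Finite A] (M : Str Λ U V A) x y, Q A M x y ↔ P A M x y) :
    Df Q := by
  obtain ⟨φ, h⟩ := h
  exact ⟨φ, fun A _ M e => (h A M e).trans (hPQ A M _ _).symm⟩

theorem eq : Df (Λ := Λ) (U := U) (V := V) (fun _ _ x y => x = y) :=
  ⟨Fm.eq, fun _ _ _ _ => Iff.rfl⟩

theorem ord (l : Λ) : Df (Λ := Λ) (U := U) (V := V) (fun _ M x y => M.ord l x y) :=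
  ⟨Fm.ord l true, fun _ _ _ _ => Iff.rfl⟩

theorem unx (p : U) : Df (Λ := Λ) (U := U) (V := V) (fun _ M x _ => M.un p x) :=
  ⟨Fm.un p true, fun _ _ _ _ => Iff.rfl⟩

theorem uny (p : U) : Df (Λ := Λ) (U := U) (V := V) (fun _ M _ y => M.un p y) :=
  ⟨Fm.un p false, fun _ _ _ _ => Iff.rfl⟩

theorem bin (E : V) : Df (Λ := Λ) (U := U) (V := V) (fun _ M x y => M.bin E x y) :=
  ⟨Fm.bin E true false, fun _ _ _ _ => Iff.rfl⟩

theorem not (h : Df P) : Df (fun A M x y => ¬ P A M x y) := by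
  obtain ⟨φ, h⟩ := h
  exact ⟨Fm.neg φ, fun A _ M e => not_congr (h A M e)⟩

theorem and (h : Df P) (h' : Df Q) : Df (fun A M x y => P A M x y ∧ Q A M x y) := by
  obtain ⟨φ, h⟩ := h
  obtain ⟨ψ, h'⟩ := h'
  exact ⟨Fm.and φ ψ, fun A _ M e => and_congr (h A M e) (h' A M e)⟩

theorem or (h : Df P) (h' : Df Q) : Df (fun A M x y => P A M x y ∨ Q A M x y) :=
  ((h.not.and h'.not).not).congr (fun A _ M x y => by tauto)

theorem imp (h : Df P) (h' : Df Q) : Df (fun A M x y => P A M x y → Q A M x y) :=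
  (h.not.or h').congr (fun A _ M x y => by tauto)

theorem iff (h : Df P) (h' : Df Q) : Df (fun A M x y => (P A M x y ↔ Q A M x y)) :=
  ((h.imp h').and (h'.imp h)).congr (fun A _ M x y => by tauto)

theorem const (p : Prop) : Df (Λ := Λ) (U := U) (V := V) (fun _ _ _ _ => p) := by
  by_cases hp : p
  · exact (eq.or eq.not).congr (fun A _ M x y => by simp only [hp, true_iff]; tauto)
  · exact (eq.and eq.not).congr (fun A _ M x y => by simp only [hp, false_iff]; tauto)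

/-- There are at least `k` elements `x`. -/
theorem gex (k : ℕ) (h : Df P) : Df (fun A M _ y => k ≤ Nat.card {a : A // P A M a y}) := by
  obtain ⟨φ, h⟩ := h
  refine ⟨Fm.ex k true φ, fun A _ M e => ?_⟩
  show k ≤ Nat.card {a : A // Sat M φ (Function.update e true a)} ↔ _
  have : ∀ a, Sat M φ (Function.update e true a) ↔ P A M a (e false) := by
    intro a
    rw [h]
    simp
  simp only [this]

/-- There are at least `k` elements `y`. -/
theorem gey (k : ℕ) (h : Df P) : Df (fun A M x _ => k ≤ Nat.card {a : A // P A M x a}) := by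
  obtain ⟨φ, h⟩ := h
  refine ⟨Fm.ex k false φ, fun A _ M e => ?_⟩
  show k ≤ Nat.card {a : A // Sat M φ (Function.update e false a)} ↔ _
  have : ∀ a, Sat M φ (Function.update e false a) ↔ P A M (e true) a := by
    intro a
    rw [h]
    simp
  simp only [this]

theorem one_le_card {A : Type} [Finite A] (p : A → Prop) : 1 ≤ Nat.card {a // p a} ↔ ∃ a, p a := by
  rw [Nat.one_le_iff_ne_zero, Nat.card_ne_zero]
  constructor
  · rintro ⟨⟨a, ha⟩, _⟩; exact ⟨a, ha⟩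
  · rintro ⟨a, ha⟩; exact ⟨⟨⟨a, ha⟩⟩, inferInstance⟩

theorem not_two_le_card {A : Type} [Finite A] (p : A → Prop) :
    ¬ 2 ≤ Nat.card {a // p a} ↔ ∀ a b, p a → p b → a = b := by
  rw [Nat.not_le, Nat.lt_succ_iff, Finite.card_le_one_iff_subsingleton]
  constructor
  · intro h a b ha hb
    exact congrArg Subtype.val (h.elim ⟨a, ha⟩ ⟨b, hb⟩)
  · intro h
    exact ⟨fun x y => Subtype.ext (h _ _ x.2 y.2)⟩

theorem exx (h : Df P) : Df (fun A M _ y => ∃ a, P A M a y) :=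
  (h.gex 1).congr (fun A _ M x y => (one_le_card _).symm)

theorem exy (h : Df P) : Df (fun A M x _ => ∃ a, P A M x a) :=
  (h.gey 1).congr (fun A _ M x y => (one_le_card _).symm)

theorem lex (h : Df P) : Df (fun A M _ y => ∀ a b, P A M a y → P A M b y → a = b) :=
  (h.gex 2).not.congr (fun A _ M x y => (not_two_le_card _).symm)

theorem all_finset {γ : Type} (s : Finset γ) {P : γ → ∀ (A : Type), Str Λ U V A → A → A → Prop}
    (h : ∀ c, Df (P c)) : Df (fun A M x y => ∀ c ∈ s, P c A M x y) := by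
  classical
  induction s using Finset.induction_on with
  | empty => exact (const True).congr (fun A _ M x y => by simp)
  | insert c s hc ih => exact ((h c).and ih).congr (fun A _ M x y => by simp)

theorem all_fin {γ : Type} [Finite γ] {P : γ → ∀ (A : Type), Str Λ U V A → A → A → Prop}
    (h : ∀ c, Df (P c)) : Df (fun A M x y => ∀ c, P c A M x y) := by
  have := Fintype.ofFinite γ
  exact (all_finset Finset.univ h).congr (fun A _ M x y => by simp)

theorem ex_fin {γ : Type} [Finite γ] {P : γ → ∀ (A : Type), Str Λ U V A → A → A → Prop}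
    (h : ∀ c, Df (P c)) : Df (fun A M x y => ∃ c, P c A M x y) :=
  (all_fin (fun c => (h c).not)).not.congr (fun A _ M x y => by push Not; rfl)

end Df

/-- **The coding axioms are a two-variable sentence with counting.** -/
theorem wAx_def {q : ℕ} (W : Wang (Fin q)) {Λ : Type} (l1 l2 : Λ) :
    ∃ Φ : Fm Λ (Lt q ⊕ Fin 3) (Fin 2), ∀ (A : Type) [Finite A]
      (M : Str Λ (Lt q ⊕ Fin 3) (Fin 2) A), (∀ e, Sat M Φ e) ↔
        WAx W (M.ord l1) (M.ord l2) (M.bin 0) (M.bin 1) (M.un (Sum.inr 0)) (M.un (Sum.inr 1))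
          (M.un (Sum.inr 2)) (fun ℓ => M.un (Sum.inl ℓ)) := by
  have S1 : Df (Λ := Λ) (U := Lt q ⊕ Fin 3) (V := Fin 2) (fun _ M x y => M.bin 0 x y) := Df.bin 0
  have S2 : Df (Λ := Λ) (U := Lt q ⊕ Fin 3) (V := Fin 2) (fun _ M x y => M.bin 1 x y) := Df.bin 1
  have R1 : Df (Λ := Λ) (U := Lt q ⊕ Fin 3) (V := Fin 2) (fun _ M x y => M.ord l1 x y) := Df.ord l1
  have R2 : Df (Λ := Λ) (U := Lt q ⊕ Fin 3) (V := Fin 2) (fun _ M x y => M.ord l2 x y) := Df.ord l2
  have ux : ∀ p, Df (Λ := Λ) (U := Lt q ⊕ Fin 3) (V := Fin 2) (fun _ M x _ => M.un p x) := Df.unx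
  have uy : ∀ p, Df (Λ := Λ) (U := Lt q ⊕ Fin 3) (V := Fin 2) (fun _ M _ y => M.un p y) := Df.uny
  have c : ∀ p : Prop, Df (Λ := Λ) (U := Lt q ⊕ Fin 3) (V := Fin 2) (fun _ _ _ _ => p) := Df.const
  have key :=
    ((S1.imp R1).and ((S1.lex).and ((S1.exy.not).lex))).and <|
    ((S2.imp R2).and ((S2.lex).and ((S2.exy.not).lex))).and <|
    (Df.ex_fin (fun ℓ : Lt q => ux (Sum.inl ℓ))).and <|
    (Df.all_fin (fun ℓ : Lt q => Df.all_fin (fun ℓ' : Lt q =>
      (ux (Sum.inl ℓ)).imp ((ux (Sum.inl ℓ')).imp (c (ℓ = ℓ')))))).and <|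
    ((S2.exx.not).imp ((uy (Sum.inr 0)).and (Df.ex_fin (fun γ : Fin q =>
      (uy (Sum.inl (some (γ, Mk.D)))).and (c (W.l γ ∧ W.c γ)))))).and <|
    ((S2.exy.not).imp ((ux (Sum.inr 0)).not.and (ux (Sum.inl none)))).and <|
    (S2.imp ((ux (Sum.inr 0)).iff (uy (Sum.inr 0)).not)).and <|
    (S2.imp ((ux (Sum.inr 0)).imp (Df.all_fin (fun ℓ : Lt q =>
      (ux (Sum.inl ℓ)).iff (uy (Sum.inl ℓ)))))).and <|
    (((ux (Sum.inr 0)).iff (uy (Sum.inr 0))).imp (R1.iff R2)).and <|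
    ((S1.exx.not).imp (uy (Sum.inr 1))).and <|
    ((S1.exy.not).imp ((ux (Sum.inr 1)).not.and (ux (Sum.inr 2)).not)).and <|
    ((ux (Sum.inr 1)).imp ((ux (Sum.inr 0)).and (ux (Sum.inr 2)).not)).and <|
    ((ux (Sum.inr 1)).not.imp ((ux (Sum.inr 2)).not.imp (ux (Sum.inr 0)).not)).and <|
    (S1.imp ((ux (Sum.inr 1)).imp (((uy (Sum.inr 1)).and (ux (Sum.inl none)).not).or
      ((uy (Sum.inr 1)).not.and ((ux (Sum.inl none)).and
        ((uy (Sum.inr 2)).imp (uy (Sum.inr 0)))))))).and <|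
    (S1.imp ((ux (Sum.inr 2)).imp ((uy (Sum.inr 1)).not.and
      (((uy (Sum.inr 2)).imp ((ux (Sum.inr 0)).iff (uy (Sum.inr 0)).not)).and
        ((uy (Sum.inr 2)).not.imp (ux (Sum.inr 0)).not))))).and <|
    (S1.imp ((ux (Sum.inr 1)).not.imp ((ux (Sum.inr 2)).not.imp
      ((uy (Sum.inr 1)).not.and (uy (Sum.inr 2)).not)))).and <|
    (S1.imp ((ux (Sum.inr 2)).imp ((ux (Sum.inr 0)).imp (Df.all_fin (fun ℓ : Lt q =>
      Df.all_fin (fun ℓ' : Lt q => (uy (Sum.inl ℓ)).imp ((ux (Sum.inl ℓ')).imp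
        (c (vOK W ℓ ℓ'))))))))).and <|
    (S2.imp ((ux (Sum.inr 0)).not.imp (Df.all_fin (fun ℓ : Lt q =>
      Df.all_fin (fun ℓ' : Lt q => (ux (Sum.inl ℓ)).imp ((uy (Sum.inl ℓ')).imp
        ((((ux (Sum.inr 1)).not.and (ux (Sum.inr 2)).not).imp (c (hOK W ℓ ℓ' True))).and
        (((ux (Sum.inr 1)).not.and (ux (Sum.inr 2)).not).not.imp
          (c (hOK W ℓ ℓ' False)))))))))).and <|
    ((ux (Sum.inr 1)).imp (Df.all_fin (fun z : Fin q × Mk =>
      (ux (Sum.inl (some z))).imp (c (W.b z.1))))).and <|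
    ((ux (Sum.inr 1)).not.imp ((ux (Sum.inr 2)).not.imp (Df.all_fin (fun z : Fin q × Mk =>
      (ux (Sum.inl (some z))).imp (c (W.t z.1))))))
  obtain ⟨Φ, hΦ⟩ := key
  refine ⟨Φ, fun A _ M => ?_⟩
  have h1 : (∀ e : Bool → A, Sat M Φ e) ↔ ∀ x y : A, Sat M Φ (fun b => if b = true then x else y) := by
    constructor
    · intro h x y; exact h _
    · intro h e
      have h2 := h (e true) (e false)
      have h3 : (fun b => if b = true then e true else e false) = e := by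
        funext b
        cases b <;> simp
      rwa [h3] at h2
  rw [h1]
  simp only [hΦ]
  simp only [if_true, Bool.false_eq_true, if_false]
  have hpr : ∀ (p : Prop) (ℓ ℓ' : Lt q), hOK W ℓ ℓ' p ↔
      ((p → hOK W ℓ ℓ' True) ∧ (¬ p → hOK W ℓ ℓ' False)) := by
    intro p ℓ ℓ'
    by_cases hp : p
    · simp [hp]
    · simp [hp]
  constructor
  · intro h
    have g := fun x y => h x y
    refine
      { s1 := ⟨fun x y => (g x y).1.1, fun z x y hx hy => (g x z).1.2.1 x y hx hy,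
          fun x y hx hy => (g x y).1.2.2 x y hx hy⟩
        s2 := ⟨fun x y => (g x y).2.1.1, fun z x y hx hy => (g x z).2.1.2.1 x y hx hy,
          fun x y hx hy => (g x y).2.1.2.2 x y hx hy⟩
        le1 := fun x => (g x x).2.2.1
        le2 := fun x => (g x x).2.2.2.1
        r0 := fun y => (g y y).2.2.2.2.1
        r1 := fun x => (g x x).2.2.2.2.2.1
        r2 := fun x y => (g x y).2.2.2.2.2.2.1
        r3 := fun x y => (g x y).2.2.2.2.2.2.2.1
        r4 := fun x y => (g x y).2.2.2.2.2.2.2.2.1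
        r5 := fun y => (g y y).2.2.2.2.2.2.2.2.2.1
        r6 := fun x => (g x x).2.2.2.2.2.2.2.2.2.2.1
        r7 := fun x => (g x x).2.2.2.2.2.2.2.2.2.2.2.1
        r7' := fun x => (g x x).2.2.2.2.2.2.2.2.2.2.2.2.1
        r8 := fun x y => (g x y).2.2.2.2.2.2.2.2.2.2.2.2.2.1
        r8' := fun x y => (g x y).2.2.2.2.2.2.2.2.2.2.2.2.2.2.1
        r8'' := fun x y => (g x y).2.2.2.2.2.2.2.2.2.2.2.2.2.2.2.1
        r9 := fun x y => (g x y).2.2.2.2.2.2.2.2.2.2.2.2.2.2.2.2.1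
        r10 := fun x y hS hT ℓ ℓ' hℓ hℓ' => (hpr _ _ _).2
          ((g x y).2.2.2.2.2.2.2.2.2.2.2.2.2.2.2.2.2.1 hS hT ℓ ℓ' hℓ hℓ')
        r12 := fun x => (g x x).2.2.2.2.2.2.2.2.2.2.2.2.2.2.2.2.2.2.1
        r13 := fun x => (g x x).2.2.2.2.2.2.2.2.2.2.2.2.2.2.2.2.2.2.2 }
  · intro h x y
    exact ⟨⟨h.s1.sub x y, fun a b => h.s1.inj y a b, h.s1.last⟩,
      ⟨h.s2.sub x y, fun a b => h.s2.inj y a b, h.s2.last⟩, h.le1 x, h.le2 x, h.r0 y, h.r1 x,
      h.r2 x y, h.r3 x y, h.r4 x y, h.r5 y, h.r6 x, h.r7 x, h.r7' x, h.r8 x y, h.r8' x y,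
      h.r8'' x y, h.r9 x y, fun hS hT ℓ ℓ' hℓ hℓ' => (hpr _ _ _).1 (h.r10 x y hS hT ℓ ℓ' hℓ hℓ'),
      h.r12 x, h.r13 x⟩

end Pool.Agent.Helper29.C2
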