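import Pool.Agent.Helper29.C2.Main

/-!
Two-variable logic with counting and one equivalence relation.
-/

set_option autoImplicit false

namespace Pool.Agent.Helper29.C2

open Pool.Agent.Helper20.Spectra Pool.Agent.Helper20

variable {U V A : Type}

/-- `A` is the set of the sizes of the finite models of a two-variable sentence with counting
quantifiers, over structures with `k` equivalence relations and any unary and binary relations. -/
def EqSpectrum (k : ℕ) (A : Set ℕ) : Prop :=
  ∃ (U V : Type) (_ : Finite U) (_ : Finite V) (Φ : Fm (Fin k) U V), ∀ n, n ∈ A ↔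
    (1 ≤ n ∧ ∃ M : Str (Fin k) U V (Fin n), (∀ i, Equivalence (M.ord i)) ∧ ∀ e, Sat M Φ e)

/-- Disjunction. -/
def Fm.or {Λ : Type} (φ ψ : Fm Λ U V) : Fm Λ U V := Fm.neg (Fm.and (Fm.neg φ) (Fm.neg ψ))

theorem sat_or {Λ : Type} (M : Str Λ U V A) (φ ψ : Fm Λ U V) (e : Bool → A) :
    Sat M (φ.or ψ) e ↔ (Sat M φ e ∨ Sat M ψ e) := by
  show ¬ (¬ _ ∧ ¬ _) ↔ _
  tauto

/-- The equivalence relation in terms of the order and the two colours. -/
def tr : Fm (Fin 1) U V → Fm Bool U V
  | Fm.eq => Fm.eq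
  | Fm.ord _ v => Fm.or Fm.eq (Fm.or (Fm.ord true v) (Fm.ord true (!v)))
  | Fm.un P v => Fm.un P v
  | Fm.bin E v w => Fm.bin E v w
  | Fm.neg φ => Fm.neg (tr φ)
  | Fm.and φ ψ => Fm.and (tr φ) (tr ψ)
  | Fm.ex k v φ => Fm.ex k v (tr φ)

/-- The relation `equal or in the same class`. -/
def same (R : Bool → A → A → Prop) (x y : A) : Prop := x = y ∨ R true x y ∨ R true y x

theorem sat_tr (M : Str Bool U V A) (φ : Fm (Fin 1) U V) (e : Bool → A) :
    Sat M (tr φ) e ↔ Sat ⟨fun _ => same M.ord, M.un, M.bin⟩ φ e := by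
  induction φ generalizing e with
  | eq => exact Iff.rfl
  | ord l v =>
    rw [tr, sat_or, sat_or]
    show e true = e false ∨ M.ord true (e v) (e (!v)) ∨ M.ord true (e (!v)) (e (!!v)) ↔
      e v = e (!v) ∨ M.ord true (e v) (e (!v)) ∨ M.ord true (e (!v)) (e v)
    rw [Bool.not_not]
    cases v
    · rw [show (e false = e (!false)) = (e true = e false) from
        propext ⟨Eq.symm, Eq.symm⟩]
    · exact Iff.rfl
  | un P v => exact Iff.rfl
  | bin E v w => exact Iff.rfl
  | neg φ ih => exact not_congr (ih e)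
  | and φ ψ ih1 ih2 => exact and_congr (ih1 e) (ih2 e)
  | ex k v φ ih =>
    show k ≤ Nat.card {a : A // Sat M (tr φ) (Function.update e v a)} ↔
      k ≤ Nat.card {a : A // Sat _ φ (Function.update e v a)}
    simp only [ih]

/-- `X i` and `X j` are singletons in the same class. -/
def mSame (i j : ℕ) : Mso Bool U :=
  Mso.neg (Mso.and (Mso.neg (Mso.sub i j)) (Mso.and (Mso.neg (Mso.ord true i j))
    (Mso.neg (Mso.ord true j i))))

/-- `same` is transitive. -/
def mTrans : Mso Bool U :=
  Mso.neg (Mso.ex 0 (Mso.ex 1 (Mso.ex 2 (Mso.and (Mso.sing 0) (Mso.and (Mso.sing 1)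
    (Mso.and (Mso.sing 2) (Mso.and (mSame 0 1) (Mso.and (mSame 1 2) (Mso.neg (mSame 0 2))))))))))

theorem mSame_iff (R : Bool → A → A → Prop) (un : U → A → Prop) (X : ℕ → Set A) (i j : ℕ)
    (x y : A) (hx : X i = {x}) (hy : X j = {y}) : MSat R un (mSame i j) X ↔ same R x y := by
  show ¬ (¬ (X i ⊆ X j) ∧ ¬ (∃ a ∈ X i, ∃ b ∈ X j, R true a b) ∧
    ¬ (∃ a ∈ X j, ∃ b ∈ X i, R true a b)) ↔ _
  rw [hx, hy]
  simp only [Set.singleton_subset_iff, Set.mem_singleton_iff, exists_eq_left]
  unfold same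
  tauto

theorem mTrans_iff (R : Bool → A → A → Prop) (un : U → A → Prop) (X : ℕ → Set A) :
    MSat R un mTrans X ↔ ∀ x y z, same R x y → same R y z → same R x z := by
  constructor
  · intro h x y z hxy hyz
    by_contra hxz
    refine h ⟨{x}, {y}, {z}, ?_⟩
    have e0 : Function.update (Function.update (Function.update X 0 {x}) 1 {y}) 2 {z} 0 = {x} := by
      simp
    have e1 : Function.update (Function.update (Function.update X 0 {x}) 1 {y}) 2 {z} 1 = {y} := by
      simp
    have e2 : Function.update (Function.update (Function.update X 0 {x}) 1 {y}) 2 {z} 2 = {z} := by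
      simp
    refine ⟨?_, ?_, ?_, ?_, ?_, ?_⟩
    · show ∃! a, a ∈ _
      rw [e0]; exact ⟨x, rfl, fun _ h => h⟩
    · show ∃! a, a ∈ _
      rw [e1]; exact ⟨y, rfl, fun _ h => h⟩
    · show ∃! a, a ∈ _
      rw [e2]; exact ⟨z, rfl, fun _ h => h⟩
    · exact (mSame_iff R un _ 0 1 x y e0 e1).2 hxy
    · exact (mSame_iff R un _ 1 2 y z e1 e2).2 hyz
    · exact fun h2 => hxz ((mSame_iff R un _ 0 2 x z e0 e2).1 h2)
  · rintro h ⟨S0, S1, S2, h0, h1, h2, h3, h4, h5⟩
    have g : ∀ (S : Set A), (∃! a, a ∈ S) → ∃ a, S = {a} := by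
      rintro S ⟨a, ha, hu⟩
      exact ⟨a, Set.eq_singleton_iff_unique_mem.2 ⟨ha, hu⟩⟩
    obtain ⟨x, hx⟩ := g _ h0
    obtain ⟨y, hy⟩ := g _ h1
    obtain ⟨z, hz⟩ := g _ h2
    exact h5 ((mSame_iff R un _ 0 2 x z hx hz).2 (h x y z
      ((mSame_iff R un _ 0 1 x y hx hy).1 h3) ((mSame_iff R un _ 1 2 y z hy hz).1 h4)))

theorem exists_full (n : ℕ) : ∃ t : BT Bool, t.size = n + 1 ∧
    ∀ x y : t.El, x ≠ y → (t.Rel true x y ∨ t.Rel true y x) := by
  induction n with
  | zero => exact ⟨BT.pt, rfl, fun x y h => absurd rfl h⟩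
  | succ n ih =>
    obtain ⟨t, ht, h⟩ := ih
    refine ⟨BT.sum true t BT.pt, by show t.size + 1 = _; rw [ht], ?_⟩
    rintro (x | x) (y | y) hxy
    · exact h x y (fun e => hxy (by rw [e]))
    · exact Or.inl rfl
    · exact Or.inr rfl
    · exact absurd rfl (show ¬ ((Sum.inr x : t.El ⊕ Unit) = Sum.inr y) from hxy)

/-- Every equivalence relation comes from a term. -/
theorem exists_eqTerm : ∀ (n : ℕ) (A : Type) [Finite A] [Nonempty A] (E : A → A → Prop),
    Equivalence E → Nat.card A = n → ∃ (t : BT Bool) (e : A ≃ t.El), ∀ x y,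
      E x y ↔ (x = y ∨ t.Rel true (e x) (e y) ∨ t.Rel true (e y) (e x)) := by
  intro n
  induction n using Nat.strong_induction_on with
  | _ n ih =>
    intro A _ _ E hE hn
    classical
    obtain ⟨a⟩ := ‹Nonempty A›
    by_cases hall : ∀ x, E a x
    · -- one class
      obtain ⟨t, ht, h⟩ := exists_full (n - 1)
      have hpos : 0 < Nat.card A := Nat.card_pos_iff.2 ⟨⟨a⟩, inferInstance⟩
      have hc : Nat.card A = Nat.card t.El := by
        rw [Nat.card_eq_fintype_card (α := t.El), t.card_El, ht]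
        omega
      obtain ⟨e⟩ := Finite.card_eq.1 hc
      refine ⟨t, e, fun x y => ⟨fun _ => ?_, fun _ => hE.trans (hE.symm (hall x)) (hall y)⟩⟩
      by_cases hxy : x = y
      · exact Or.inl hxy
      · exact Or.inr (h (e x) (e y) (fun h' => hxy (e.injective h')))
    · push Not at hall
      obtain ⟨b, hb⟩ := hall
      have : Nonempty {x // E a x} := ⟨⟨a, hE.refl a⟩⟩
      have : Nonempty {x // ¬ E a x} := ⟨⟨b, hb⟩⟩
      have hsum : Nat.card {x // E a x} + Nat.card {x // ¬ E a x} = n := by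
        rw [← hn, ← Nat.card_sum]
        exact Nat.card_congr (Equiv.sumCompl (fun x => E a x))
      have h1 : 0 < Nat.card {x // E a x} := Nat.card_pos
      have h2 : 0 < Nat.card {x // ¬ E a x} := Nat.card_pos
      obtain ⟨t1, e1, h3⟩ := ih _ (show Nat.card {x // E a x} < n by omega) {x // E a x}
        (fun x y => E x y) ⟨fun x => hE.refl _, fun h => hE.symm h, fun h h' => hE.trans h h'⟩ rfl
      obtain ⟨t2, e2, h4⟩ := ih _ (show Nat.card {x // ¬ E a x} < n by omega) {x // ¬ E a x}
        (fun x y => E x y) ⟨fun x => hE.refl _, fun h => hE.symm h, fun h h' => hE.trans h h'⟩ rfl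
      let e : A ≃ (BT.sum false t1 t2).El :=
        (Equiv.sumCompl (fun x => E a x)).symm.trans (Equiv.sumCongr e1 e2)
      have hel : ∀ (x : A) (hx : E a x), e x = Sum.inl (e1 ⟨x, hx⟩) := by
        intro x hx
        show (Equiv.sumCongr e1 e2) ((Equiv.sumCompl (fun x => E a x)).symm x) = _
        rw [Equiv.sumCompl_symm_apply_of_pos hx]
        rfl
      have her : ∀ (x : A) (hx : ¬ E a x), e x = Sum.inr (e2 ⟨x, hx⟩) := by
        intro x hx
        show (Equiv.sumCongr e1 e2) ((Equiv.sumCompl (fun x => E a x)).symm x) = _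
        rw [Equiv.sumCompl_symm_apply_of_neg hx]
        rfl
      refine ⟨BT.sum false t1 t2, e, fun x y => ?_⟩
      by_cases hx : E a x <;> by_cases hy : E a y
      · rw [hel x hx, hel y hy]
        have h5 := h3 ⟨x, hx⟩ ⟨y, hy⟩
        simp only [Subtype.mk.injEq] at h5
        exact h5
      · rw [hel x hx, her y hy]
        constructor
        · intro h5; exact absurd (hE.trans hx h5) hy
        · rintro (h5 | h5 | h5)
          · rw [h5] at hx; exact absurd hx hy
          · exact absurd (show false = true from h5) (by simp)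
          · exact h5.elim
      · rw [her x hx, hel y hy]
        constructor
        · intro h5; exact absurd (hE.trans hy (hE.symm h5)) hx
        · rintro (h5 | h5 | h5)
          · rw [← h5] at hy; exact absurd hy hx
          · exact h5.elim
          · exact absurd (show false = true from h5) (by simp)
      · rw [her x hx, her y hy]
        have h5 := h4 ⟨x, hx⟩ ⟨y, hy⟩
        simp only [Subtype.mk.injEq] at h5
        exact h5

theorem EqSpectrum.mono {k k' : ℕ} (h : k ≤ k') {A : Set ℕ} (hA : EqSpectrum k A) :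
    EqSpectrum k' A := by
  obtain ⟨U, V, hU, hV, Φ, hA⟩ := hA
  refine ⟨U, V, hU, hV, Φ.map (Fin.castLE h), fun n => ?_⟩
  rw [hA n]
  refine and_congr_right (fun _ => ?_)
  constructor
  · rintro ⟨M, h1, h2⟩
    let M' : Str (Fin k') U V (Fin n) :=
      { ord := fun i => if hi : i.1 < k then M.ord ⟨i.1, hi⟩ else fun x y => x = y
        un := M.un
        bin := M.bin }
    refine ⟨M', fun i => ?_, fun e => ?_⟩
    · show Equivalence (if hi : i.1 < k then M.ord ⟨i.1, hi⟩ else fun x y => x = y)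
      split_ifs with hi
      · exact h1 _
      · exact ⟨fun x => rfl, fun h => h.symm, fun h h' => h.trans h'⟩
    · rw [sat_map]
      have h3 : (⟨fun l => M'.ord (Fin.castLE h l), M'.un, M'.bin⟩ : Str (Fin k) U V (Fin n)) =
          M := by
        have h4 : (fun l => M'.ord (Fin.castLE h l)) = M.ord := by
          funext l
          show (if hi : (Fin.castLE h l).1 < k then M.ord ⟨(Fin.castLE h l).1, hi⟩
            else fun x y => x = y) = M.ord l
          rw [dif_pos (by simp)]
          rfl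
        rw [h4]
      rw [h3]
      exact h2 e
  · rintro ⟨M, h1, h2⟩
    exact ⟨⟨fun l => M.ord (Fin.castLE h l), M.un, M.bin⟩, fun i => h1 _, fun e =>
      (sat_map _ _ _ _).1 (h2 e)⟩

/-- **At most one equivalence relation: ultimately periodic.** -/
theorem EqSpectrum.ultPeriodic {k : ℕ} (hk : k ≤ 1) {A : Set ℕ} (hA : EqSpectrum k A) :
    OP.UltPeriodic A := by
  obtain ⟨U, V, hU, hV, Φ, hA⟩ := hA.mono hk
  convert tame_sumGenerated (tr Φ) mTrans using 1
  ext n
  rw [hA n]
  refine and_congr_right (fun hn => ?_)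
  constructor
  · rintro ⟨M, h1, h2⟩
    have : Nonempty (Fin n) := ⟨⟨0, hn⟩⟩
    obtain ⟨t, e, he⟩ := exists_eqTerm _ (Fin n) (M.ord 0) (h1 0) rfl
    let M' : Str Bool U V (Fin n) := ⟨fun l x y => t.Rel l (e x) (e y), M.un, M.bin⟩
    have hs : same M'.ord = M.ord 0 := by
      funext x y
      exact propext (he x y).symm
    refine ⟨M', ⟨t, e, fun _ _ _ => Iff.rfl⟩, fun a => ?_, ?_⟩
    · rw [sat_tr]
      have h3 : (⟨fun _ => same M'.ord, M'.un, M'.bin⟩ : Str (Fin 1) U V (Fin n)) = M := by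
        have h4 : (fun _ : Fin 1 => same M'.ord) = M.ord := by
          funext l
          rw [hs, show l = 0 from Subsingleton.elim _ _]
        rw [h4]
      rw [h3]
      exact h2 a
    · rw [mTrans_iff, hs]
      exact fun x y z h3 h4 => (h1 0).trans h3 h4
  · rintro ⟨M, h1, h2, h3⟩
    rw [mTrans_iff] at h3
    refine ⟨⟨fun _ => same M.ord, M.un, M.bin⟩, fun _ => ⟨fun x => Or.inl rfl, ?_, ?_⟩,
      fun a => (sat_tr _ _ _).1 (h2 a)⟩
    · intro x y h
      rcases h with h | h | h
      · exact Or.inl h.symm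
      · exact Or.inr (Or.inr h)
      · exact Or.inr (Or.inl h)
    · intro x y z h h'
      exact h3 x y z h h'

end Pool.Agent.Helper29.C2
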