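import Pool.Agent.Helper29.C2.Named2
import Pool.Agent.Helper80.LE.Main

/-!
Two-variable logic with counting over backgrounds: the classification.
-/

set_option autoImplicit false

namespace Pool.Agent.Helper29.C2

open Pool.Agent.Helper20.Spectra Pool.Agent.Helper20 Pool.Agent.Helper80.NF

theorem univ_oneOne : PV.Univ (C2Spec OneOne) := by
  refine univ_mono (fun S hS => ?_) Pool.Agent.Helper80.LE.univ_ordEq
  refine c2Spec_reduct id ?_ ?_ hS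
  · rintro n o' _ ⟨h1, h2⟩
    exact ⟨⟨h1.irr, h1.trans, h1.total⟩, h2⟩
  · rintro n o _ ⟨h1, h2⟩
    exact ⟨o, ⟨⟨h1.irr, h1.tr, h1.tot⟩, h2⟩, rfl⟩

theorem wild_km {k m : ℕ} (hkm : 2 ≤ k + m) :
    (∃ U : Set ℕ, C2Spectrum (KM k m) U ∧ ∀ A : Set ℕ, IsSpectrum A ↔
      ∃ h : Polynomial ℕ, A = {n : ℕ | 1 ≤ n ∧ h.eval n ∈ U}) ∧
    ((∀ A : Set ℕ, C2Spectrum (KM k m) A → IsRudimentary A) ↔
      ∀ A : Set ℕ, IsSpectrum A ↔ (IsRudimentary A ∧ 0 ∉ A)) :=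
  PV.wild_of_univ (km_univ univ_oneOne hkm) fun _ h => isSpectrum_of_c2Spec (univ3_KM k m) h

end Pool.Agent.Helper29.C2
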