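import Pool.Agent.Helper29.C2.Named

/-!
Nested equivalence relations; reducts of tame classes; one linear order or one equivalence relation.
-/

set_option autoImplicit false

namespace Pool.Agent.Helper29.C2

open Pool.Agent.Helper20.Spectra Pool.Agent.Helper20

variable {Λ Λ' U V A : Type}

/-- **Nested equivalence relations.** -/
theorem tame_nested (m : ℕ) : Tame (fun A (R : Fin m → A → A → Prop) => Nested m R) := by
  refine tame_of_univN (Λ := Fin (m + 1)) (fun i _ _ f g e =>
    e ∨ ∃ j : Fin (m + 1), j.1 ≤ i.1 ∧ (f j ∨ g j)) (r := 3) ?_ ?_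
  · refine ⟨fun o _ => (∀ i, o i 0 0 ∧ (o i 0 1 → o i 1 0) ∧ (o i 0 1 → o i 1 2 → o i 0 2)) ∧
      (∀ i j, i ≤ j → o i 0 1 → o j 0 1), fun A R => ?_⟩
    constructor
    · intro h v
      exact ⟨fun i => ⟨(h.eqv i).refl _, fun h1 => (h.eqv i).symm h1,
          fun h1 h2 => (h.eqv i).trans h1 h2⟩, fun i j hij => h.nest i j hij _ _⟩
    · intro h
      exact ⟨fun i => ⟨fun x => ((h (fun _ => x)).1 i).1, fun {x y} => ((h ![x, y, x]).1 i).2.1,
          fun {x y z} => ((h ![x, y, z]).1 i).2.2⟩,
        fun i j hij x y => (h ![x, y, x]).2 i j hij⟩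
  · intro n R' hn h
    have : Nonempty (Fin n) := ⟨⟨0, hn⟩⟩
    refine sgDef_of_split _ _ (fun i x => ?_) (fun s hs => ?_)
    · exact ⟨fun _ => Or.inl trivial, fun _ => (h.eqv i).refl _⟩
    · classical
      obtain ⟨r, hr⟩ : s.Nonempty := Finset.card_pos.1 (by omega)
      let E' : ℕ → Fin n → Fin n → Prop := fun j x y =>
        if hj : j < m then R' ⟨j, hj⟩ x y else True
      have hE'm : ∀ j x y, m ≤ j → E' j x y := fun j x y hj => by
        show (if hj : j < m then R' ⟨j, hj⟩ x y else True)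
        rw [dif_neg (by omega)]; trivial
      have hE' : ∀ j (hj : j < m) x y, E' j x y ↔ R' ⟨j, hj⟩ x y := fun j hj x y => by
        show (if hj : j < m then R' ⟨j, hj⟩ x y else True) ↔ _
        rw [dif_pos hj]
      have hex : ∃ j, ∀ y ∈ s, E' j r y := ⟨m, fun y _ => hE'm m r y le_rfl⟩
      let c := Nat.find hex
      have hc : ∀ y ∈ s, E' c r y := Nat.find_spec hex
      have hcm : c ≤ m := Nat.find_min' hex (fun y _ => hE'm m r y le_rfl)
      have hcross : ∀ (q : Fin n → Prop),
          (∀ x ∈ s, q x → ∀ y ∈ s, ¬ q y → ∀ i : Fin m, i.1 < c → ¬ R' i x y) →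
          ∀ x ∈ s, ∀ y ∈ s, q x → ¬ q y → Good (fun (i : Fin m) _ _ f g e =>
            e ∨ ∃ j : Fin (m + 1), j.1 ≤ i.1 ∧ (f j ∨ g j)) R'
            (⟨c, by omega⟩ : Fin (m + 1)) x y := by
        intro q h2 x hx y hy hqx hqy i
        have h4 : R' i x y ↔ c ≤ i.1 := by
          constructor
          · intro h5
            by_contra h6
            exact h2 x hx hqx y hy hqy i (by omega) h5
          · intro h5
            have hcm' : c < m := by have := i.2; omega
            have h6 := (hE' c hcm' r x).1 (hc x hx)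
            have h7 := (hE' c hcm' r y).1 (hc y hy)
            exact h.nest ⟨c, hcm'⟩ i h5 x y ((h.eqv _).trans ((h.eqv _).symm h6) h7)
        have h5 : R' i y x ↔ c ≤ i.1 := by
          rw [← h4]
          exact ⟨fun h' => (h.eqv i).symm h', fun h' => (h.eqv i).symm h'⟩
        constructor
        · rw [h4]
          constructor
          · intro h6
            exact Or.inr ⟨⟨c, by omega⟩, h6, Or.inl rfl⟩
          · rintro (h6 | ⟨j, h6, h7 | h7⟩)
            · exact h6.elim
            · rw [← h7] at h6; exact h6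
            · exact h7.elim
        · rw [h5]
          constructor
          · intro h6
            exact Or.inr ⟨⟨c, by omega⟩, h6, Or.inr rfl⟩
          · rintro (h6 | ⟨j, h6, h7 | h7⟩)
            · exact h6.elim
            · exact h7.elim
            · rw [← h7] at h6; exact h6
      by_cases hc0 : c = 0
      · refine ⟨fun y => y = r, ⟨c, by omega⟩, ⟨r, hr, rfl⟩, ?_, hcross _ ?_⟩
        · obtain ⟨y, hy, hyr⟩ := Finset.exists_mem_ne (s := s) (by omega) r
          exact ⟨y, hy, hyr⟩
        · intro x _ _ y _ _ i hi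
          omega
      · have hlt : c - 1 < c := by omega
        have hnot := Nat.find_min hex hlt
        push Not at hnot
        obtain ⟨y0, hy0, hy0'⟩ := hnot
        have hcm' : c - 1 < m := by omega
        have hE := hE' (c - 1) hcm'
        refine ⟨fun y => E' (c - 1) r y, ⟨c, by omega⟩, ⟨r, hr, (hE r r).2 ((h.eqv _).refl _)⟩,
          ⟨y0, hy0, hy0'⟩, hcross _ ?_⟩
        intro x hx hqx y hy hqy i hi h1
        refine hqy ((hE r y).2 ((h.eqv _).trans ((hE r x).1 hqx) ?_))
        exact h.nest i ⟨c - 1, hcm'⟩ (show i.1 ≤ c - 1 by omega) x y h1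

/-! ### Reducts -/

/-- Background relations renamed. -/
def Mso.map (g : Λ → Λ') : Mso Λ U → Mso Λ' U
  | Mso.sub i j => Mso.sub i j
  | Mso.sing i => Mso.sing i
  | Mso.un P i => Mso.un P i
  | Mso.ord l i j => Mso.ord (g l) i j
  | Mso.neg φ => Mso.neg (φ.map g)
  | Mso.and φ ψ => Mso.and (φ.map g) (ψ.map g)
  | Mso.ex i φ => Mso.ex i (φ.map g)

theorem msat_map (g : Λ → Λ') (R : Λ' → A → A → Prop) (un : U → A → Prop) (φ : Mso Λ U)
    (X : ℕ → Set A) : MSat R un (φ.map g) X ↔ MSat (fun l => R (g l)) un φ X := by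
  induction φ generalizing X with
  | sub i j => exact Iff.rfl
  | sing i => exact Iff.rfl
  | un P i => exact Iff.rfl
  | ord l i j => exact Iff.rfl
  | neg φ ih => exact not_congr (ih X)
  | and φ ψ ih1 ih2 => exact and_congr (ih1 X) (ih2 X)
  | ex i φ ih => exact exists_congr fun S => ih _

/-- Reducts of tame classes are tame. -/
theorem Tame.reduct (g : Λ → Λ') {K : ∀ A : Type, (Λ → A → A → Prop) → Prop}
    {K' : ∀ A : Type, (Λ' → A → A → Prop) → Prop} (h : Tame K')
    (h1 : ∀ (n : ℕ) (o' : Λ' → Fin n → Fin n → Prop), 1 ≤ n → K' (Fin n) o' →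
      K (Fin n) (fun l => o' (g l)))
    (h2 : ∀ (n : ℕ) (o : Λ → Fin n → Fin n → Prop), 1 ≤ n → K (Fin n) o →
      ∃ o', K' (Fin n) o' ∧ (fun l => o' (g l)) = o) : Tame K := by
  intro U V _ _ Φ Ψ
  convert h U V (Φ.map g) (Ψ.map g) using 1
  ext n
  refine and_congr_right fun hn => ?_
  constructor
  · rintro ⟨M, h3, h4, h5⟩
    obtain ⟨o', h6, h7⟩ := h2 n M.ord hn h3
    refine ⟨⟨o', M.un, M.bin⟩, h6, fun e => ?_, ?_⟩
    · rw [sat_map]
      show Sat ⟨fun l => o' (g l), M.un, M.bin⟩ Φ e
      rw [h7]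
      exact h4 e
    · rw [msat_map]
      show MSat (fun l => o' (g l)) M.un Ψ _
      rw [h7]
      exact h5
  · rintro ⟨M, h3, h4, h5⟩
    exact ⟨⟨fun l => M.ord (g l), M.un, M.bin⟩, h1 n _ hn h3,
      fun e => (sat_map _ _ _ _).1 (h4 e), (msat_map g M.ord M.un Ψ _).1 h5⟩

/-- **At most one linear order or equivalence relation.** -/
theorem tame_km {k m : ℕ} (hkm : k + m ≤ 1) : Tame (KM k m) := by
  rcases Nat.eq_zero_or_pos k with rfl | hk
  · -- no linear order
    refine (tame_nested m).reduct (fun l => match l with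
      | Sum.inl i => i.elim0
      | Sum.inr j => j) ?_ ?_
    · intro n o' _ h
      exact ⟨fun i => i.elim0, fun j => h.eqv j⟩
    · rintro n o _ ⟨_, h2⟩
      refine ⟨fun j => o (Sum.inr j), ⟨h2, fun i j _ x y hxy => ?_⟩, ?_⟩
      · obtain rfl : i = j := by
          apply Fin.ext
          have := i.2
          have := j.2
          omega
        exact hxy
      · funext l
        rcases l with i | j
        · exact i.elim0
        · rfl
  · obtain rfl : m = 0 := by omega
    obtain rfl : k = 1 := by omega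
    refine (tame_nestConv 0).reduct (fun _ => none) ?_ ?_
    · intro n o' _ h
      exact ⟨fun _ => h.lin, fun j => j.elim0⟩
    · rintro n o _ ⟨h1, _⟩
      refine ⟨fun l => match l with
        | none => o (Sum.inl 0)
        | some i => i.elim0, ⟨h1 0, fun i => i.elim0, fun i => i.elim0, fun i => i.elim0⟩, ?_⟩
      funext l
      rcases l with i | j
      · obtain rfl : i = 0 := Subsingleton.elim _ _
        rfl
      · exact j.elim0

/-- **General form.** -/
theorem tame_sgDef (Λ W Λ' : Type) [Finite Λ] [Finite W] (T : QI Λ W Λ') (κ : Mso Λ' Empty) :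
    Tame (fun A (R' : Λ' → A → A → Prop) =>
      SGDef T R' ∧ MSat R' (fun P => P.elim) κ (fun _ => ∅)) := by
  intro U V _ _ Φ Ψ
  exact tame_interp T (fun n R' => SGDef T R' ∧ MSat R' (fun P => P.elim) κ (fun _ => ∅)) κ
    (fun n R' _ => Iff.rfl) Φ Ψ

end Pool.Agent.Helper29.C2
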