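import Pool.Agent.Helper29.C2.Cog

/-!
Named classes of backgrounds: N-free partial orders, P4-free graphs, separable pairs of linear orders,
ordered forests, linear orders with nested convex equivalence relations.
-/

set_option autoImplicit false

namespace Pool.Agent.Helper29.C2

open Pool.Agent.Helper20.Spectra Pool.Agent.Helper20

variable {Λ Λ' U V A : Type}

/-! ### Universal conditions are monadic second-order conditions -/

/-- Existential quantifiers over the set variables `0, …, r - 1`. -/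
def mexs : ℕ → Mso Λ U → Mso Λ U
  | 0, φ => φ
  | n + 1, φ => mexs n (Mso.ex n φ)

theorem msat_exs (R : Λ → A → A → Prop) (un : U → A → Prop) (r : ℕ) (φ : Mso Λ U)
    (X : ℕ → Set A) : MSat R un (mexs r φ) X ↔
      ∃ Y : ℕ → Set A, (∀ i, r ≤ i → Y i = X i) ∧ MSat R un φ Y := by
  induction r generalizing φ with
  | zero =>
    constructor
    · intro h
      exact ⟨X, fun _ _ => rfl, h⟩
    · rintro ⟨Y, h1, h2⟩
      obtain rfl : Y = X := funext fun i => h1 i (Nat.zero_le i)
      exact h2
  | succ r ih =>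
    show MSat R un (mexs r (Mso.ex r φ)) X ↔ _
    rw [ih]
    constructor
    · rintro ⟨Y, h1, S, h2⟩
      exact ⟨Function.update Y r S, fun i hi => by
        rw [Function.update_of_ne (by omega)]; exact h1 i (by omega), h2⟩
    · rintro ⟨Y, h1, h2⟩
      refine ⟨Function.update Y r (X r), fun i hi => ?_, Y r, ?_⟩
      · by_cases hir : i = r
        · subst hir; simp
        · rw [Function.update_of_ne hir]; exact h1 i (by omega)
      · show MSat R un φ (Function.update (Function.update Y r (X r)) r (Y r))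
        rw [Function.update_idem, Function.update_eq_self]; exact h2

/-- Universal conditions with `r` variables. -/
def UnivN (r : ℕ) (K : ∀ A : Type, (Λ' → A → A → Prop) → Prop) : Prop :=
  ∃ B : (Λ' → Fin r → Fin r → Prop) → (Fin r → Fin r → Prop) → Prop,
    ∀ (A : Type) (R : Λ' → A → A → Prop),
      K A R ↔ ∀ v : Fin r → A, B (fun l i j => R l (v i) (v j)) (fun i j => v i = v j)

theorem exists_mso_univ [Finite Λ'] {r : ℕ} {K : ∀ A : Type, (Λ' → A → A → Prop) → Prop}
    (hK : UnivN r K) : ∃ κ : Mso Λ' U, ∀ (A : Type) (R : Λ' → A → A → Prop) (un : U → A → Prop)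
      (X : ℕ → Set A), MSat R un κ X ↔ K A R := by
  classical
  obtain ⟨B, hB⟩ := hK
  obtain ⟨χ, hχ⟩ := exists_mso (Λ := Λ') (U := U)
    (B := Fin r ⊕ ((Λ' × Fin r × Fin r) ⊕ (Fin r × Fin r)))
    (fun c => match c with
      | Sum.inl i => Mso.sing i
      | Sum.inr (Sum.inl (l, i, j)) => Mso.ord l i j
      | Sum.inr (Sum.inr (i, j)) => Mso.sub i j)
    (fun t => (∀ i, t (Sum.inl i)) → B (fun l i j => t (Sum.inr (Sum.inl (l, i, j))))
      (fun i j => t (Sum.inr (Sum.inr (i, j)))))
  refine ⟨Mso.neg (mexs r (Mso.neg χ)), fun A R un X => ?_⟩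
  rw [hB]
  show ¬ MSat R un (mexs r (Mso.neg χ)) X ↔ _
  rw [msat_exs]
  constructor
  · intro h v
    by_contra hcon
    refine h ⟨fun i => if hi : i < r then {v ⟨i, hi⟩} else X i, fun i hi => dif_neg (by omega), ?_⟩
    show ¬ MSat R un χ _
    rw [hχ]
    intro h2
    refine hcon ?_
    have hY : ∀ i : Fin r, (if hi : (i : ℕ) < r then ({v ⟨i, hi⟩} : Set A) else X i) = {v i} :=
      fun i => dif_pos i.2
    have h3 := h2 (fun i => by
      show ∃! x, x ∈ (if hi : (i : ℕ) < r then ({v ⟨i, hi⟩} : Set A) else X i)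
      rw [hY]
      exact ⟨v i, rfl, fun _ h => h⟩)
    convert h3 using 1
    · funext l i j
      show _ = ∃ x ∈ (if hi : (i : ℕ) < r then ({v ⟨i, hi⟩} : Set A) else X i),
        ∃ y ∈ (if hj : (j : ℕ) < r then ({v ⟨j, hj⟩} : Set A) else X j), R l x y
      rw [hY, hY]
      simp
    · funext i j
      show _ = ((if hi : (i : ℕ) < r then ({v ⟨i, hi⟩} : Set A) else X i) ⊆
        (if hj : (j : ℕ) < r then ({v ⟨j, hj⟩} : Set A) else X j))
      rw [hY, hY]
      simp
  · rintro h ⟨Y, _, h2⟩
    refine h2 ?_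
    show MSat R un χ _
    rw [hχ]
    intro h3
    have h4 : ∀ i : Fin r, ∃ x, Y i = {x} := by
      intro i
      obtain ⟨x, hx, hu⟩ := h3 i
      exact ⟨x, Set.eq_singleton_iff_unique_mem.2 ⟨hx, hu⟩⟩
    choose v hv using h4
    have h5 := h v
    convert h5 using 1
    · funext l i j
      show (∃ x ∈ Y i, ∃ y ∈ Y j, R l x y) = _
      rw [hv, hv]
      simp
    · funext i j
      show (Y i ⊆ Y j) = _
      rw [hv, hv]
      simp

theorem tame_of_univN [Finite Λ] [Finite Λ'] (T : QI Λ Empty Λ') {r : ℕ}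
    {K : ∀ A : Type, (Λ' → A → A → Prop) → Prop} (hK : UnivN r K)
    (hSG : ∀ n R', 1 ≤ n → K (Fin n) R' → SGDef T R') : Tame K := by
  intro U V _ _ Φ Ψ
  obtain ⟨κ, hκ⟩ := exists_mso_univ (U := Empty) hK
  refine tame_interp T (fun n R' => K (Fin n) R') κ (fun n R' hn => ?_) Φ Ψ
  rw [hκ]
  exact ⟨fun h => ⟨hSG n R' hn h, h⟩, fun h => h.2⟩

/-! ### Series splits -/

theorem exists_minimal {lt : A → A → Prop} (irr : ∀ x, ¬ lt x x)
    (trans : ∀ x y z, lt x y → lt y z → lt x z) (s : Finset A) (hs : s.Nonempty) :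
    ∃ x0 ∈ s, ∀ y ∈ s, ¬ lt y x0 := by
  have : IsStrictOrder A lt := { irrefl := irr, trans := trans }
  have hwf : (s : Set A).WellFoundedOn lt := s.finite_toSet.wellFoundedOn
  obtain ⟨x, hx⟩ := hs
  obtain ⟨m, hm, hmm⟩ := hwf.has_min (s := Set.univ) ⟨⟨x, hx⟩, trivial⟩
  exact ⟨m.1, m.2, fun y hy hlt => hmm ⟨y, hy⟩ trivial hlt⟩

theorem series_split {lt : A → A → Prop} (irr : ∀ x, ¬ lt x x)
    (trans : ∀ x y z, lt x y → lt y z → lt x z) (s : Finset A) (p : A → Prop)
    (h1 : ∃ x ∈ s, p x) (h2 : ∃ y ∈ s, ¬ p y)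
    (h3 : ∀ x ∈ s, ∀ y ∈ s, p x → ¬ p y → lt x y ∨ lt y x) :
    ∃ q : A → Prop, (∃ x ∈ s, q x) ∧ (∃ y ∈ s, ¬ q y) ∧
      ∀ x ∈ s, ∀ y ∈ s, q x → ¬ q y → lt x y := by
  classical
  let r : A → A → Prop := fun x y => x ∈ s ∧ y ∈ s ∧ ¬ (lt x y ∨ lt y x)
  obtain ⟨x0, hx0, hmin⟩ : ∃ x0 ∈ s, ∀ y ∈ s, ¬ lt y x0 :=
    exists_minimal irr trans s ⟨h1.choose, h1.choose_spec.1⟩
  have hmem : ∀ x y, x ∈ s → Relation.ReflTransGen r x y → y ∈ s := by
    intro x y hx hxy
    induction hxy with
    | refl => exact hx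
    | tail _ hbc _ => exact hbc.2.1
  have hside : ∀ x y, Relation.ReflTransGen r x y → (p x ↔ p y) := by
    intro x y hxy
    induction hxy with
    | refl => exact Iff.rfl
    | tail _ hbc ih =>
      rw [ih]
      obtain ⟨hb, hc, hE⟩ := hbc
      constructor
      · intro hp
        by_contra hq
        exact hE (h3 _ hb _ hc hp hq)
      · intro hp
        by_contra hq
        exact hE ((h3 _ hc _ hb hp hq).symm)
  refine ⟨fun y => Relation.ReflTransGen r x0 y, ⟨x0, hx0, Relation.ReflTransGen.refl⟩, ?_, ?_⟩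
  · by_contra hcon
    push Not at hcon
    obtain ⟨x, hx, hpx⟩ := h1
    obtain ⟨y, hy, hpy⟩ := h2
    exact hpy ((hside _ _ (hcon y hy)).1 ((hside _ _ (hcon x hx)).2 hpx))
  · intro x _ y hy hx0x hy0
    have hE : ∀ z, Relation.ReflTransGen r x0 z → lt z y ∨ lt y z := by
      intro z hz
      by_contra hcon
      exact hy0 (hz.tail ⟨hmem _ _ hx0 hz, hy, hcon⟩)
    induction hx0x with
    | refl => exact (hE x0 Relation.ReflTransGen.refl).resolve_right (hmin y hy)
    | @tail b c hb hbc ih =>
      rcases hE c (hb.tail hbc) with h | h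
      · exact h
      · exact absurd (Or.inl (trans _ _ _ (ih hbc.1) h)) hbc.2.2

/-! ### P4-free graphs -/

theorem Cograph.p4F {E : A → A → Prop} (h : Cograph E) :
    P4F E (fun x y => x ≠ y ∧ ¬ E x y) where
  symE := h.symm
  symF x y h1 := ⟨h1.1.symm, fun h2 => h1.2 (h.symm _ _ h2)⟩
  tot x y hxy := by
    by_cases h1 : E x y
    · exact Or.inl h1
    · exact Or.inr ⟨hxy, h1⟩
  dis x y h1 h2 := h2.2 h1
  p4 a b c d h1 h2 h3 h4 h5 h6 := by
    rcases h.p4 a b c d h1 h2 h3 with h7 | h7 | h7
    · exact h4.2 h7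
    · exact h5.2 h7
    · exact h6.2 h7

/-- **P4-free graphs.** -/
theorem tame_cograph : Tame (fun A (R : Unit → A → A → Prop) => Cograph (R ())) := by
  refine tame_of_univN (Λ := Bool) (fun _ _ _ f g _ => f true ∨ g true) (r := 4) ?_ ?_
  · refine ⟨fun o _ => (∀ i, ¬ o () i i) ∧ (∀ i j, o () i j → o () j i) ∧
      (o () 0 1 → o () 1 2 → o () 2 3 → o () 0 2 ∨ o () 0 3 ∨ o () 1 3), fun A R => ?_⟩
    constructor
    · intro h v
      exact ⟨fun i => h.irr _, fun i j => h.symm _ _, h.p4 _ _ _ _⟩
    · intro h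
      exact ⟨fun x => (h (fun _ => x)).1 0, fun x y => (h ![x, y, x, y]).2.1 0 1,
        fun a b c d => (h ![a, b, c, d]).2.2⟩
  · intro n R' hn h
    have : Nonempty (Fin n) := ⟨⟨0, hn⟩⟩
    refine sgDef_of_split _ _ (fun _ x => ?_) (fun s hs => ?_)
    · exact ⟨fun h1 => (h.irr x h1).elim, fun h1 => (h1.elim id id).elim⟩
    · obtain ⟨p, h1, h2, h3⟩ := h.p4F.splits (s.card - 2) s (by omega)
      rcases h3 with h3 | h3
      · refine ⟨p, false, h1, h2, fun x hx y hy hpx hpy _ => ?_⟩
        have := (h3 x hx y hy hpx hpy).2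
        have h4 : ¬ R' () y x := fun h5 => this (h.symm _ _ h5)
        exact ⟨by simpa using this, by simpa using h4⟩
      · refine ⟨p, true, h1, h2, fun x hx y hy hpx hpy _ => ?_⟩
        have := h3 x hx y hy hpx hpy
        have h4 : R' () y x := h.symm _ _ this
        exact ⟨by simpa using this, by simpa using h4⟩

/-! ### N-free partial orders -/

theorem NFree.cograph {lt : A → A → Prop} (h : NFree lt) :
    Cograph (fun x y => lt x y ∨ lt y x) where
  irr x h1 := h1.elim (h.irr x) (h.irr x)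
  symm x y h1 := h1.symm
  p4 a b c d h1 h2 h3 := by
    rcases h1 with h1 | h1 <;> rcases h2 with h2 | h2 <;> rcases h3 with h3 | h3
    · exact Or.inl (Or.inl (h.trans _ _ _ h1 h2))
    · exact Or.inl (Or.inl (h.trans _ _ _ h1 h2))
    · have := h.nfree a c b d h1 h2 h3
      tauto
    · exact Or.inr (Or.inr (Or.inr (h.trans _ _ _ h3 h2)))
    · exact Or.inr (Or.inr (Or.inl (h.trans _ _ _ h2 h3)))
    · have := h.nfree d b c a h3 h2 h1
      tauto
    · exact Or.inl (Or.inr (h.trans _ _ _ h2 h1))
    · exact Or.inl (Or.inr (h.trans _ _ _ h2 h1))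

/-- **N-free (series-parallel) partial orders.** -/
theorem tame_nfree : Tame (fun A (R : Unit → A → A → Prop) => NFree (R ())) := by
  refine tame_of_univN (Λ := Bool) (fun _ _ _ f _ _ => f true) (r := 4) ?_ ?_
  · refine ⟨fun o _ => (∀ i, ¬ o () i i) ∧ (o () 0 1 → o () 1 2 → o () 0 2) ∧
      (o () 0 2 → o () 1 2 → o () 1 3 →
        o () 0 1 ∨ o () 1 0 ∨ o () 0 3 ∨ o () 3 0 ∨ o () 2 3 ∨ o () 3 2), fun A R => ?_⟩
    constructor
    · intro h v
      exact ⟨fun i => h.irr _, h.trans _ _ _, h.nfree _ _ _ _⟩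
    · intro h
      exact ⟨fun x => (h (fun _ => x)).1 0, fun x y z => (h ![x, y, z, x]).2.1,
        fun a b c d => (h ![a, b, c, d]).2.2⟩
  · intro n R' hn h
    have : Nonempty (Fin n) := ⟨⟨0, hn⟩⟩
    refine sgDef_of_split _ _ (fun _ x => ?_) (fun s hs => ?_)
    · exact ⟨fun h1 => (h.irr x h1).elim, fun h1 => h1.elim⟩
    · obtain ⟨p, h1, h2, h3⟩ := h.cograph.p4F.splits (s.card - 2) s (by omega)
      rcases h3 with h3 | h3
      · refine ⟨p, false, h1, h2, fun x hx y hy hpx hpy _ => ?_⟩
        have := (h3 x hx y hy hpx hpy).2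
        push Not at this
        exact ⟨by simpa using this.1, by simpa using this.2⟩
      · obtain ⟨q, h4, h5, h6⟩ := series_split h.irr h.trans s p h1 h2 h3
        refine ⟨q, true, h4, h5, fun x hx y hy hpx hpy _ => ?_⟩
        have h7 := h6 x hx y hy hpx hpy
        have h8 : ¬ R' () y x := fun h9 => h.irr _ (h.trans _ _ _ h7 h9)
        exact ⟨by simpa using h7, by simpa using h8⟩

/-! ### Separable pairs of linear orders -/

theorem Separable.asymm {R : Bool → A → A → Prop} (h : Separable R) (b : Bool) (x y : A)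
    (h1 : R b x y) : ¬ R b y x := fun h2 => (h.lin b).irr _ ((h.lin b).trans _ _ _ h1 h2)

theorem Separable.p4F {R : Bool → A → A → Prop} (h : Separable R) :
    P4F (fun x y => (R true x y ∧ R false x y) ∨ (R true y x ∧ R false y x))
      (fun x y => (R true x y ∧ R false y x) ∨ (R true y x ∧ R false x y)) where
  symE x y h1 := h1.symm
  symF x y h1 := h1.symm
  tot x y hxy := by
    rcases (h.lin true).total x y hxy with h1 | h1 <;>
      rcases (h.lin false).total x y hxy with h2 | h2 <;> tauto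
  dis x y h1 h2 := by
    have a1 := h.asymm true x y
    have a2 := h.asymm false x y
    tauto
  p4 a b c d h1 h2 h3 h4 h5 h6 := by
    have tt := (h.lin true).trans
    have tf := (h.lin false).trans
    have at' := h.asymm true
    have af := h.asymm false
    rcases h1 with ⟨h1, h1'⟩ | ⟨h1, h1'⟩
    · -- a < b
      have h7 : R true c b ∧ R false c b := by
        rcases h2 with h2 | h2
        · rcases h4 with h4 | h4
          · exact absurd h4.2 (af _ _ (tf _ _ _ h1' h2.2))
          · exact absurd h4.1 (at' _ _ (tt _ _ _ h1 h2.1))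
        · exact h2
      have h8 : R true c d ∧ R false c d := by
        rcases h3 with h3 | h3
        · exact h3
        · rcases h6 with h6 | h6
          · exact absurd h6.1 (at' _ _ (tt _ _ _ h3.1 h7.1))
          · exact absurd h6.2 (af _ _ (tf _ _ _ h3.2 h7.2))
      rcases h4 with ⟨h4, h4'⟩ | ⟨h4, h4'⟩
      · -- a <₁ c, c <₂ a
        have h9 := tt _ _ _ h4 h8.1
        have h10 : R false d a := by
          rcases h5 with h5 | h5
          · exact h5.2
          · exact absurd h5.1 (at' _ _ h9)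
        have h11 := tf _ _ _ h10 h1'
        have h12 : R true b d := by
          rcases h6 with h6 | h6
          · exact h6.1
          · exact absurd h6.2 (af _ _ h11)
        exact h.av2 a c b d h4 h7.1 h12 h8.2 h10 h1'
      · -- c <₁ a, a <₂ c
        have h9 := tf _ _ _ h4' h8.2
        have h10 : R true d a := by
          rcases h5 with h5 | h5
          · exact absurd h5.2 (af _ _ h9)
          · exact h5.1
        have h11 := tt _ _ _ h10 h1
        have h12 : R false b d := by
          rcases h6 with h6 | h6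
          · exact absurd h6.1 (at' _ _ h11)
          · exact h6.2
        exact h.av1 c d a b h8.1 h10 h1 h4' h7.2 h12
    · -- b < a
      have h7 : R true b c ∧ R false b c := by
        rcases h2 with h2 | h2
        · exact h2
        · rcases h4 with h4 | h4
          · exact absurd h4.1 (at' _ _ (tt _ _ _ h2.1 h1))
          · exact absurd h4.2 (af _ _ (tf _ _ _ h2.2 h1'))
      have h8 : R true d c ∧ R false d c := by
        rcases h3 with h3 | h3
        · rcases h6 with h6 | h6
          · exact absurd h6.2 (af _ _ (tf _ _ _ h7.2 h3.2))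
          · exact absurd h6.1 (at' _ _ (tt _ _ _ h7.1 h3.1))
        · exact h3
      rcases h4 with ⟨h4, h4'⟩ | ⟨h4, h4'⟩
      · -- a <₁ c, c <₂ a
        have h9 := tf _ _ _ h8.2 h4'
        have h10 : R true a d := by
          rcases h5 with h5 | h5
          · exact h5.1
          · exact absurd h5.2 (af _ _ h9)
        have h11 := tt _ _ _ h1 h10
        have h12 : R false d b := by
          rcases h6 with h6 | h6
          · exact h6.2
          · exact absurd h6.1 (at' _ _ h11)
        exact h.av1 b a d c h1 h10 h8.1 h12 h7.2 h4'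
      · -- c <₁ a, a <₂ c
        have h9 := tt _ _ _ h8.1 h4
        have h10 : R false a d := by
          rcases h5 with h5 | h5
          · exact absurd h5.1 (at' _ _ h9)
          · exact h5.2
        have h11 := tf _ _ _ h1' h10
        have h12 : R true d b := by
          rcases h6 with h6 | h6
          · exact absurd h6.2 (af _ _ h11)
          · exact h6.1
        exact h.av2 d b c a h12 h7.1 h4 h1' h10 h8.2

/-- The definition of the two orders from the two relations of a sum-generated background. -/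
def sepT : QI Bool Empty Bool := fun l _ _ f g _ => f true ∨ (if l then f false else g false)

theorem Separable.sgDef {n : ℕ} (hn : 1 ≤ n) {R' : Bool → Fin n → Fin n → Prop}
    (h : Separable R') : SGDef sepT R' := by
  have : Nonempty (Fin n) := ⟨⟨0, hn⟩⟩
  refine sgDef_of_split _ _ (fun l x => ?_) (fun s hs => ?_)
  · cases l <;> exact ⟨fun h1 => ((h.lin _).irr x h1).elim, fun h1 => (h1.elim id id).elim⟩
  · obtain ⟨p, h1, h2, h3⟩ := h.p4F.splits (s.card - 2) s (by omega)
    rcases h3 with h3 | h3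
    · obtain ⟨q, h4, h5, h6⟩ := series_split (lt := fun x y => R' true x y ∧ R' false y x)
        (fun x hx => (h.lin _).irr _ hx.1)
        (fun x y z h7 h8 => ⟨(h.lin _).trans _ _ _ h7.1 h8.1, (h.lin _).trans _ _ _ h8.2 h7.2⟩)
        s p h1 h2 h3
      refine ⟨q, false, h4, h5, fun x hx y hy hpx hpy l => ?_⟩
      obtain ⟨h7, h8⟩ := h6 x hx y hy hpx hpy
      have h9 := h.asymm _ _ _ h7
      have h10 := h.asymm _ _ _ h8
      cases l
      · exact ⟨by simpa [sepT] using h10, by simpa [sepT] using h8⟩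
      · exact ⟨by simpa [sepT] using h7, by simpa [sepT] using h9⟩
    · obtain ⟨q, h4, h5, h6⟩ := series_split (lt := fun x y => R' true x y ∧ R' false x y)
        (fun x hx => (h.lin _).irr _ hx.1)
        (fun x y z h7 h8 => ⟨(h.lin _).trans _ _ _ h7.1 h8.1, (h.lin _).trans _ _ _ h7.2 h8.2⟩)
        s p h1 h2 h3
      refine ⟨q, true, h4, h5, fun x hx y hy hpx hpy l => ?_⟩
      obtain ⟨h7, h8⟩ := h6 x hx y hy hpx hpy
      have h9 := h.asymm _ _ _ h7
      have h10 := h.asymm _ _ _ h8
      cases l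
      · exact ⟨by simpa [sepT] using h8, by simpa [sepT] using h10⟩
      · exact ⟨by simpa [sepT] using h7, by simpa [sepT] using h9⟩

/-- **Separable pairs of linear orders.** -/
theorem tame_separable : Tame (fun A (R : Bool → A → A → Prop) => Separable R) := by
  refine tame_of_univN (Λ := Bool) sepT (r := 4) ?_ (fun n R' hn h => h.sgDef hn)
  refine ⟨fun o e => (∀ b i, ¬ o b i i) ∧ (∀ b, o b 0 1 → o b 1 2 → o b 0 2) ∧
    (∀ b, ¬ e 0 1 → o b 0 1 ∨ o b 1 0) ∧
    (o true 0 1 → o true 1 2 → o true 2 3 → o false 2 0 → o false 0 3 → ¬ o false 3 1) ∧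
    (o true 0 1 → o true 1 2 → o true 2 3 → o false 1 3 → o false 3 0 → ¬ o false 0 2),
    fun A R => ?_⟩
  constructor
  · intro h v
    exact ⟨fun b i => (h.lin b).irr _, fun b => (h.lin b).trans _ _ _,
      fun b => (h.lin b).total _ _, h.av1 _ _ _ _, h.av2 _ _ _ _⟩
  · intro h
    exact ⟨fun b => ⟨fun x => (h (fun _ => x)).1 b 0, fun x y z => (h ![x, y, z, x]).2.1 b,
      fun x y => (h ![x, y, x, x]).2.2.1 b⟩, fun a b c d => (h ![a, b, c, d]).2.2.2.1,
      fun a b c d => (h ![a, b, c, d]).2.2.2.2⟩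

/-! ### Ordered forests -/

/-- **Ordered forests.** -/
theorem tame_ordForest : Tame (fun A (R : Bool → A → A → Prop) => OrdForest R) := by
  refine tame_of_univN (Λ := Bool) (fun l _ _ f _ _ => f l) (r := 3) ?_ ?_
  · refine ⟨fun o e => (∀ b i, ¬ o b i i) ∧ (o true 0 1 → o true 1 2 → o true 0 2) ∧
      (¬ e 0 1 → ∃ b, o b 0 1 ∨ o b 1 0) ∧ (o true 0 1 → ¬ o false 0 1 ∧ ¬ o false 1 0) ∧
      (∀ b, o b 0 1 → ¬ o b 1 0) ∧ (o false 0 1 → o false 1 2 → o false 0 2) ∧
      (o false 0 2 → o true 0 1 → o false 1 2) ∧ (o false 0 1 → o true 1 2 → o false 0 2),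
      fun A R => ?_⟩
    constructor
    · intro h v
      exact ⟨fun b i => h.irr b _, h.trans _ _ _, h.total _ _, h.excl _ _, fun b => h.asymm b _ _,
        h.transL _ _ _, h.up1 _ _ _, h.up2 _ _ _⟩
    · intro h
      exact ⟨fun b x => (h (fun _ => x)).1 b 0, fun x y z => (h ![x, y, z]).2.1,
        fun x y => (h ![x, y, x]).2.2.1, fun x y => (h ![x, y, x]).2.2.2.1,
        fun b x y => (h ![x, y, x]).2.2.2.2.1 b, fun x y z => (h ![x, y, z]).2.2.2.2.2.1,
        fun x y z => (h ![x, y, z]).2.2.2.2.2.2.1, fun x y z => (h ![x, y, z]).2.2.2.2.2.2.2⟩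
  · intro n R' hn h
    have : Nonempty (Fin n) := ⟨⟨0, hn⟩⟩
    refine sgDef_of_split _ _ (fun l x => ?_) (fun s hs => ?_)
    · exact ⟨fun h1 => (h.irr _ x h1).elim, fun h1 => h1.elim⟩
    · classical
      let lt : Fin n → Fin n → Prop := fun x y => R' true x y ∨ R' false x y
      have hirr : ∀ x, ¬ lt x x := fun x hx => hx.elim (h.irr _ x) (h.irr _ x)
      have htr : ∀ x y z, lt x y → lt y z → lt x z := by
        rintro x y z (h1 | h1) (h2 | h2)
        · exact Or.inl (h.trans _ _ _ h1 h2)
        · by_cases hxz : x = z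
          · subst hxz; exact absurd h2 (h.excl _ _ h1).2
          · obtain ⟨b, hb⟩ := h.total x z hxz
            rcases hb with hb | hb
            · cases b
              · exact Or.inr hb
              · exact Or.inl hb
            · cases b
              · exact absurd (h.up2 _ _ _ hb h1) (h.asymm _ _ _ h2)
              · exact absurd h2 (h.excl _ _ (h.trans _ _ _ hb h1)).2
        · exact Or.inr (h.up2 _ _ _ h1 h2)
        · exact Or.inr (h.transL _ _ _ h1 h2)
      obtain ⟨r, hr, hmin⟩ : ∃ r ∈ s, ∀ y ∈ s, ¬ lt y r :=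
        exists_minimal hirr htr s (Finset.card_pos.1 (by omega))
      have hr' : ∀ y ∈ s, y ≠ r → R' true r y ∨ R' false r y := by
        intro y hy hyr
        obtain ⟨b, hb | hb⟩ := h.total r y hyr.symm
        · cases b
          · exact Or.inr hb
          · exact Or.inl hb
        · exact absurd (show lt y r by cases b; exacts [Or.inr hb, Or.inl hb]) (hmin y hy)
      by_cases hall : ∀ y ∈ s, y ≠ r → R' true r y
      · refine ⟨fun y => y = r, true, ⟨r, hr, rfl⟩, ?_, ?_⟩
        · obtain ⟨y, hy, hyr⟩ := Finset.exists_mem_ne (s := s) (by omega) r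
          exact ⟨y, hy, hyr⟩
        · rintro x _ y hy rfl hyr l
          have h1 := hall y hy hyr
          cases l
          · exact ⟨⟨fun h2 => absurd h2 (h.excl _ _ h1).1, fun h2 => by cases h2⟩,
              ⟨fun h2 => absurd h2 (h.excl _ _ h1).2, fun h2 => h2.elim⟩⟩
          · exact ⟨⟨fun _ => rfl, fun _ => h1⟩, ⟨fun h2 => absurd h2 (h.asymm _ _ _ h1),
              fun h2 => h2.elim⟩⟩
      · push Not at hall
        obtain ⟨y0, hy0, hy0r, hy0t⟩ := hall
        refine ⟨fun y => y = r ∨ R' true r y, false, ⟨r, hr, Or.inl rfl⟩,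
          ⟨y0, hy0, fun h1 => h1.elim hy0r hy0t⟩, ?_⟩
        intro x hx y hy hpx hpy l
        have h1 : R' false r y := by
          rcases hr' y hy (fun e => hpy (Or.inl e)) with h2 | h2
          · exact absurd (Or.inr h2) hpy
          · exact h2
        have h2 : R' false x y := by
          rcases hpx with rfl | hpx
          · exact h1
          · exact h.up1 _ _ _ h1 hpx
        have h3 : ¬ R' true x y := fun h4 => (h.excl _ _ h4).1 h2
        have h4 : ¬ R' true y x := fun h4 => (h.excl _ _ h4).2 h2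
        cases l
        · exact ⟨⟨fun _ => rfl, fun _ => h2⟩, ⟨fun h5 => absurd h5 (h.asymm _ _ _ h2),
            fun h5 => h5.elim⟩⟩
        · exact ⟨⟨fun h5 => absurd h5 h3, fun h5 => by cases h5⟩, ⟨fun h5 => absurd h5 h4,
            fun h5 => h5.elim⟩⟩

/-! ### Nested convex equivalence relations -/

/-- **A linear order with nested convex equivalence relations.** -/
theorem tame_nestConv (m : ℕ) :
    Tame (fun A (R : Option (Fin m) → A → A → Prop) => NestConv m R) := by
  refine tame_of_univN (Λ := Fin (m + 1)) (fun l _ _ f g e => match l with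
    | none => ∃ j, f j
    | some i => e ∨ ∃ j : Fin (m + 1), j.1 ≤ i.1 ∧ (f j ∨ g j)) (r := 3) ?_ ?_
  · refine ⟨fun o e => (¬ o none 0 0 ∧ (o none 0 1 → o none 1 2 → o none 0 2) ∧
      (¬ e 0 1 → o none 0 1 ∨ o none 1 0)) ∧
      (∀ i, o (some i) 0 0 ∧ (o (some i) 0 1 → o (some i) 1 0) ∧
        (o (some i) 0 1 → o (some i) 1 2 → o (some i) 0 2)) ∧
      (∀ i, o none 0 1 → o none 1 2 → o (some i) 0 2 → o (some i) 0 1) ∧
      (∀ i j, i ≤ j → o (some i) 0 1 → o (some j) 0 1), fun A R => ?_⟩
    constructor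
    · intro h v
      exact ⟨⟨h.lin.irr _, h.lin.trans _ _ _, h.lin.total _ _⟩,
        fun i => ⟨(h.eqv i).refl _, fun h1 => (h.eqv i).symm h1,
          fun h1 h2 => (h.eqv i).trans h1 h2⟩, fun i => h.conv i _ _ _,
        fun i j hij => h.nest i j hij _ _⟩
    · intro h
      exact ⟨⟨fun x => (h (fun _ => x)).1.1, fun x y z => (h ![x, y, z]).1.2.1,
        fun x y => (h ![x, y, x]).1.2.2⟩,
        fun i => ⟨fun x => ((h (fun _ => x)).2.1 i).1, fun {x y} => ((h ![x, y, x]).2.1 i).2.1,
          fun {x y z} => ((h ![x, y, z]).2.1 i).2.2⟩, fun i x y z => (h ![x, y, z]).2.2.1 i,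
        fun i j hij x y => (h ![x, y, x]).2.2.2 i j hij⟩
  · intro n R' hn h
    have : Nonempty (Fin n) := ⟨⟨0, hn⟩⟩
    refine sgDef_of_split _ _ (fun l x => ?_) (fun s hs => ?_)
    · cases l with
      | none => exact ⟨fun h1 => (h.lin.irr _ h1).elim, fun ⟨_, h1⟩ => h1.elim⟩
      | some i => exact ⟨fun _ => Or.inl trivial, fun _ => (h.eqv i).refl _⟩
    · classical
      obtain ⟨r, hr, hmin⟩ : ∃ r ∈ s, ∀ y ∈ s, ¬ R' none y r :=
        exists_minimal h.lin.irr h.lin.trans s (Finset.card_pos.1 (by omega))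
      have hr' : ∀ y ∈ s, y ≠ r → R' none r y := fun y hy hyr =>
        (h.lin.total r y hyr.symm).resolve_right (hmin y hy)
      let E' : ℕ → Fin n → Fin n → Prop := fun j x y =>
        if hj : j < m then R' (some ⟨j, hj⟩) x y else True
      have hE'm : ∀ j x y, m ≤ j → E' j x y := fun j x y hj => by
        show (if hj : j < m then R' (some ⟨j, hj⟩) x y else True)
        rw [dif_neg (by omega)]; trivial
      have hE' : ∀ j (hj : j < m) x y, E' j x y ↔ R' (some ⟨j, hj⟩) x y := fun j hj x y => by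
        show (if hj : j < m then R' (some ⟨j, hj⟩) x y else True) ↔ _
        rw [dif_pos hj]
      have hex : ∃ j, ∀ y ∈ s, E' j r y := ⟨m, fun y _ => hE'm m r y le_rfl⟩
      let c := Nat.find hex
      have hc : ∀ y ∈ s, E' c r y := Nat.find_spec hex
      have hcm : c ≤ m := Nat.find_min' hex (fun y _ => hE'm m r y le_rfl)
      -- the pairs across
      have hcross : ∀ (q : Fin n → Prop), q r → (∀ x ∈ s, q x → ∀ y ∈ s, ¬ q y → R' none x y) →
          (∀ x ∈ s, q x → ∀ y ∈ s, ¬ q y → ∀ i : Fin m, i.1 < c → ¬ R' (some i) x y) →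
          ∀ x ∈ s, ∀ y ∈ s, q x → ¬ q y → Good (fun l _ _ f g e => match l with
            | none => ∃ j, f j
            | some i => e ∨ ∃ j : Fin (m + 1), j.1 ≤ i.1 ∧ (f j ∨ g j)) R'
            (⟨c, by omega⟩ : Fin (m + 1)) x y := by
        intro q _ h1 h2 x hx y hy hqx hqy l
        have h3 := h1 x hx hqx y hy hqy
        cases l with
        | none =>
          exact ⟨⟨fun _ => ⟨_, rfl⟩, fun _ => h3⟩,
            ⟨fun h4 => absurd (h.lin.trans _ _ _ h3 h4) (h.lin.irr _), fun ⟨_, h4⟩ => h4.elim⟩⟩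
        | some i =>
          have h4 : R' (some i) x y ↔ c ≤ i.1 := by
            constructor
            · intro h5
              by_contra h6
              exact h2 x hx hqx y hy hqy i (by omega) h5
            · intro h5
              have hcm' : c < m := by have := i.2; omega
              have h6 := (hE' c hcm' r x).1 (hc x hx)
              have h7 := (hE' c hcm' r y).1 (hc y hy)
              exact h.nest ⟨c, hcm'⟩ i h5 x y ((h.eqv _).trans ((h.eqv _).symm h6) h7)
          have h5 : R' (some i) y x ↔ c ≤ i.1 := by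
            rw [← h4]
            exact ⟨fun h => (‹NestConv m R'›.eqv i).symm h, fun h => (‹NestConv m R'›.eqv i).symm h⟩
          constructor
          · rw [h4]
            constructor
            · intro h6
              exact Or.inr ⟨⟨c, by omega⟩, h6, Or.inl rfl⟩
            · rintro (h6 | ⟨j, h6, h7 | h7⟩)
              · exact h6.elim
              · rw [← h7] at h6; exact h6
              · exact h7.elim
          · rw [h5]
            constructor
            · intro h6
              exact Or.inr ⟨⟨c, by omega⟩, h6, Or.inr rfl⟩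
            · rintro (h6 | ⟨j, h6, h7 | h7⟩)
              · exact h6.elim
              · exact h7.elim
              · rw [← h7] at h6; exact h6
      by_cases hc0 : c = 0
      · refine ⟨fun y => y = r, ⟨c, by omega⟩, ⟨r, hr, rfl⟩, ?_, hcross _ rfl ?_ ?_⟩
        · obtain ⟨y, hy, hyr⟩ := Finset.exists_mem_ne (s := s) (by omega) r
          exact ⟨y, hy, hyr⟩
        · rintro x _ rfl y hy hyr
          exact hr' y hy hyr
        · intro x _ _ y _ _ i hi
          omega
      · have hlt : c - 1 < c := by omega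
        have hnot := Nat.find_min hex hlt
        push Not at hnot
        obtain ⟨y0, hy0, hy0'⟩ := hnot
        have hcm' : c - 1 < m := by omega
        have hE := hE' (c - 1) hcm'
        refine ⟨fun y => E' (c - 1) r y, ⟨c, by omega⟩, ⟨r, hr, (hE r r).2 ((h.eqv _).refl _)⟩,
          ⟨y0, hy0, hy0'⟩, hcross _ ((hE r r).2 ((h.eqv _).refl _)) ?_ ?_⟩
        · intro x hx hqx y hy hqy
          have hxy : x ≠ y := fun e => hqy (e ▸ hqx)
          rcases h.lin.total x y hxy with h1 | h1
          · exact h1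
          · by_cases hyr : y = r
            · exact absurd ((hE r y).2 (hyr ▸ (h.eqv _).refl _)) hqy
            · exact absurd ((hE r y).2 (h.conv _ _ _ _ (hr' y hy hyr) h1 ((hE r x).1 hqx))) hqy
        · intro x hx hqx y hy hqy i hi h1
          refine hqy ((hE r y).2 ((h.eqv _).trans ((hE r x).1 hqx) ?_))
          exact h.nest i ⟨c - 1, hcm'⟩ (show i.1 ≤ c - 1 by omega) x y h1

end Pool.Agent.Helper29.C2
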