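import Pool.Agent.Helper29.C2.Final
import Pool.Agent.Helper29.SK.Pattern2
import Pool.Agent.Helper80.PO.Main
import Pool.Agent.Helper74.P2.Form
import Pool.Agent.Helper80.GF.Tame

/-!
Two-variable logic with counting over backgrounds: one partial order.
-/

set_option autoImplicit false

namespace Pool.Agent.Helper29.C2

open Pool.Agent.Helper20.Spectra Pool.Agent.Helper20 Pool.Agent.Helper80.NF

variable {Λ : Type}

theorem Wild.of_univ [Finite Λ] {K : ∀ A : Type, (Λ → A → A → Prop) → Prop} {r : ℕ}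
    (hK : UnivN r K) (h : PV.Univ (C2Spectrum K)) : Wild K :=
  PV.wild_of_univ h fun _ hS => c2Spectrum_isSpectrum hK hS

theorem wild_km' {k m : ℕ} (hkm : 2 ≤ k + m) : Wild (KM k m) := wild_km hkm

theorem wild_pairAv' {k : ℕ} {π : Equiv.Perm (Fin k)} (h : ¬ SK.Short π) : Wild (PairAv π) :=
  SK.wild_pairAv h

theorem c2_iff {K K' : ∀ A : Type, (Λ → A → A → Prop) → Prop} (h : ∀ A R, K A R ↔ K' A R)
    {S : Set ℕ} : C2Spectrum K S ↔ C2Spectrum K' S := by
  have e : K = K' := by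
    funext A R
    exact propext (h A R)
  rw [e]

theorem pOrd_iff (A : Type) (R : Unit → A → A → Prop) :
    Pool.Agent.Helper80.PO.POrd A R ↔ POrd A R :=
  ⟨fun h => ⟨h.irr, h.trans⟩, fun h => ⟨h.irr, h.trans⟩⟩

theorem pOrdH_iff (h : ℕ) (A : Type) (R : Unit → A → A → Prop) :
    Pool.Agent.Helper80.PO.POrdH h A R ↔ POrdH h A R :=
  ⟨fun h => ⟨⟨h.irr, h.trans⟩, h.height⟩, fun h => ⟨h.po.irr, h.po.trans, h.height⟩⟩

theorem eq_of_iff {K K' : ∀ A : Type, (Λ → A → A → Prop) → Prop} (h : ∀ A R, K A R ↔ K' A R) :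
    K = K' := by
  funext A R
  exact propext (h A R)

/-- **Height.** -/
theorem pOrdH_result (h : ℕ) :
    (h ≤ 2 → ∀ S, C2Spectrum (POrdH h) S → UltPeriodic S) ∧ (3 ≤ h → Wild (POrdH h)) := by
  rw [← eq_of_iff (pOrdH_iff h)]
  refine ⟨fun hh S hS => ?_, fun hh => Wild.of_univ (Pool.Agent.Helper80.PO.univN_pOrdH h)
    (Pool.Agent.Helper80.PO.univ_pOrdH hh)⟩
  exact (Pool.Agent.Helper80.PO.one_partial_order).1 h hh S hS

/-- **All partial orders.** -/
theorem wild_pOrd : Wild POrd := by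
  rw [← eq_of_iff pOrd_iff]
  exact Wild.of_univ Pool.Agent.Helper80.PO.univN_pOrd Pool.Agent.Helper80.PO.univ_pOrd

/-! ### Width -/

theorem univN_pOrdW (w : ℕ) : UnivN (w + 4) (POrdW w) := by
  refine ⟨fun o e => ¬ o () 0 0 ∧ (o () 0 1 → o () 1 2 → o () 0 2) ∧
    ((∀ i j : Fin (w + 1), e (Fin.castLE (by omega) i) (Fin.castLE (by omega) j) → i = j) →
      ∃ i j : Fin (w + 1), o () (Fin.castLE (by omega) i) (Fin.castLE (by omega) j)),
    fun A R => ?_⟩
  constructor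
  · intro H v
    exact ⟨H.po.irr _, H.po.trans _ _ _, fun h => H.width (fun i => v (Fin.castLE (by omega) i))
      (fun i j hij => h i j hij)⟩
  · intro H
    refine ⟨⟨fun x => (H (fun _ => x)).1, fun x y z => ?_⟩, fun v hv => ?_⟩
    · have h1 := (H (fun i => if i.1 = 0 then x else if i.1 = 1 then y else z)).2.1
      have h2 : 2 % (w + 4) = 2 := Nat.mod_eq_of_lt (by omega)
      simpa [h2] using h1
    · have key : ∀ i : Fin (w + 1), (fun i : Fin (w + 4) =>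
          if hi : i.1 < w + 1 then v ⟨i.1, hi⟩ else v 0) (Fin.castLE (by omega) i) = v i := by
        intro i
        show (if hi : i.1 < w + 1 then v ⟨i.1, hi⟩ else v 0) = v i
        rw [dif_pos i.2]
      obtain ⟨i, j, hij⟩ := (H (fun i => if hi : i.1 < w + 1 then v ⟨i.1, hi⟩ else v 0)).2.2
        (fun i j hij => hv (by rw [← key i, ← key j]; exact hij))
      refine ⟨i, j, ?_⟩
      rw [← key i, ← key j]
      exact hij

theorem tame_pOrdW {w : ℕ} (hw : w ≤ 1) : Tame (POrdW w) := by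
  obtain rfl | rfl : w = 0 ∨ w = 1 := by omega
  · intro U V _ _ Φ Ψ
    have key : ∀ n, ¬ (1 ≤ n ∧ ∃ M : Str Unit U V (Fin n), POrdW 0 (Fin n) M.ord ∧
        (∀ e, Sat M Φ e) ∧ MSat M.ord M.un Ψ (fun _ => ∅)) := by
      rintro n ⟨hn, M, h1, _⟩
      obtain ⟨i, j, hij⟩ := h1.width (fun _ => ⟨0, hn⟩) (fun i j _ => Fin.ext (by omega))
      exact h1.po.irr _ hij
    exact ⟨1, 0, le_rfl, fun n _ => iff_of_false (key n) (key (n + 1))⟩
  · refine (tame_km (k := 1) (m := 0) (by omega)).reduct (fun _ => Sum.inl 0) ?_ ?_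
    · rintro n o' _ ⟨h1, _⟩
      refine ⟨⟨(h1 0).irr, (h1 0).trans⟩, fun v hv => ?_⟩
      rcases (h1 0).total (v 0) (v 1) (fun e => absurd (hv e) (by decide)) with h | h
      · exact ⟨0, 1, h⟩
      · exact ⟨1, 0, h⟩
    · intro n o _ h
      refine ⟨Sum.elim (fun _ => o ()) (fun j => j.elim0), ⟨fun _ => ⟨h.po.irr, h.po.trans,
        fun x y hxy => ?_⟩, fun j => j.elim0⟩, rfl⟩
      obtain ⟨i, j, hij⟩ := h.width ![x, y] (by
        intro i j hij
        fin_cases i <;> fin_cases j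
        · rfl
        · exact absurd hij hxy
        · exact absurd hij.symm hxy
        · rfl)
      fin_cases i <;> fin_cases j
      · exact absurd hij (h.po.irr _)
      · exact Or.inl hij
      · exact Or.inr hij
      · exact absurd hij (h.po.irr _)

/-- **Width.** -/
theorem wild_pOrdW {w : ℕ} (hw : 2 ≤ w) : Wild (POrdW w) := by
  refine Wild.of_univ (univN_pOrdW w) (univ_mono (fun S hS => hS)
    (Pool.Agent.Helper74.P2.univ_po (POrdW w) (fun A R h => ⟨h.po.irr, h.po.trans⟩)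
      (fun A R h => ⟨⟨h.po.irr, h.po.trans⟩, fun v hv => ?_⟩)))
  have ne : ∀ i j : Fin (w + 1), i ≠ j → v i ≠ v j := fun i j hij e => hij (hv e)
  let a : Fin (w + 1) := ⟨0, by omega⟩
  let b : Fin (w + 1) := ⟨1, by omega⟩
  let c : Fin (w + 1) := ⟨2, by omega⟩
  have hab : a ≠ b := by simp [a, b]
  have hbc : b ≠ c := by simp [b, c]
  have hac : a ≠ c := by simp [a, c]
  rcases h.wid (v a) (v b) (v c) (ne _ _ hab) (ne _ _ hbc) (ne _ _ hac) with
    h1 | h1 | h1 | h1 | h1 | h1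
  · exact ⟨a, b, h1⟩
  · exact ⟨b, a, h1⟩
  · exact ⟨b, c, h1⟩
  · exact ⟨c, b, h1⟩
  · exact ⟨a, c, h1⟩
  · exact ⟨c, a, h1⟩

/-! ### Graphs -/

theorem gAll_iff (A : Type) (R : Unit → A → A → Prop) :
    Pool.Agent.Helper80.GF.GAll A R ↔ Graph A R :=
  ⟨fun h => ⟨h.irr, h.symm⟩, fun h => ⟨h.irr, h.symm⟩⟩

theorem gFree_iff {V : Type} (P : SimpleGraph V) (A : Type) (R : Unit → A → A → Prop) :
    Pool.Agent.Helper80.GF.GFree P A R ↔ GraphFree P A R :=
  ⟨fun h => ⟨⟨h.irr, h.symm⟩, h.free⟩, fun h => ⟨h.gr.irr, h.gr.symm, h.free⟩⟩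

theorem alike_iff {V : Type} (P : SimpleGraph V) : Pool.Agent.Helper80.GF.Alike P ↔ Alike P := by
  constructor
  · rintro ⟨r, a, b, c, h⟩
    exact ⟨r, a, b, c, h.ab, h.ac, h.bc, h.ex, h.all⟩
  · rintro ⟨r, a, b, c, h1, h2, h3, h4, h5⟩
    exact ⟨r, a, b, c, h1, h2, h3, h4, h5⟩

/-- **Graphs.** -/
theorem graphs_result :
    (∀ S, C2Spectrum Graph S → UltPeriodic S) ∧
    (∀ (m : ℕ) (P : SimpleGraph (Fin m)), Nonempty (P ↪g SimpleGraph.pathGraph 4) →
      Tame (GraphFree P)) ∧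
    (∀ (m : ℕ) (P : SimpleGraph (Fin m)), Alike P ∨ Alike Pᶜ → Wild (GraphFree P)) ∧
    (∀ r : ℕ, 3 ≤ r → Wild (GraphFree (⊤ : SimpleGraph (Fin r))) ∧
      Wild (GraphFree (⊥ : SimpleGraph (Fin r)))) := by
  obtain ⟨h1, h2, h3, h4⟩ := Pool.Agent.Helper80.GF.graphs
  have h5 : ∀ (m : ℕ) (P : SimpleGraph (Fin m)), Alike P ∨ Alike Pᶜ → Wild (GraphFree P) := by
    intro m P hP
    rw [← eq_of_iff (gFree_iff P)]
    rw [← alike_iff, ← alike_iff] at hP
    exact PV.wild_of_univ (h3 m P hP).2 fun _ hS => (h3 m P hP).1 _ hS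
  refine ⟨?_, fun m P hP => ?_, h5, fun r hr => ⟨h5 r _ (Or.inl ?_), h5 r _ (Or.inr ?_)⟩⟩
  · rw [← eq_of_iff gAll_iff]
    exact h1
  · rcases Nat.eq_zero_or_pos m with rfl | hm
    · intro U V _ _ Φ Ψ
      have key : ∀ n, ¬ (1 ≤ n ∧ ∃ M : Str Unit U V (Fin n), GraphFree P (Fin n) M.ord ∧
          (∀ e, Sat M Φ e) ∧ MSat M.ord M.un Ψ (fun _ => ∅)) := by
        rintro n ⟨_, M, hM, _⟩
        exact hM.free (fun i => i.elim0) (fun i => i.elim0) (fun i => i.elim0)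
      exact ⟨1, 0, le_rfl, fun n _ => iff_of_false (key n) (key (n + 1))⟩
    · rw [← eq_of_iff (gFree_iff P)]
      exact h2 m P hm hP
  · exact (alike_iff _).1 (h4 r hr)
  · rw [compl_bot]
    exact (alike_iff _).1 (h4 r hr)

end Pool.Agent.Helper29.C2
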