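import Pool.Agent.Helper29.C2.ToModel

/-!
From models to valid annotated trees.
-/

set_option autoImplicit false

namespace Pool.Agent.Helper29.C2

/-- Greedy colouring. -/
theorem exists_colouring {A : Type} [Fintype A] (conf : A → A → Prop)
    (hsymm : ∀ a b, conf a b → conf b a) (N : ℕ) (h : ∀ a, ∑ b, ind (conf a b) ≤ N) :
    ∃ hue : A → Fin (N + 1), ∀ a b, a ≠ b → conf a b → hue a ≠ hue b := by
  classical
  suffices hs : ∀ s : Finset A, ∃ hue : A → Fin (N + 1), ∀ a ∈ s, ∀ b ∈ s, a ≠ b → conf a b →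
      hue a ≠ hue b by
    obtain ⟨hue, h1⟩ := hs Finset.univ
    exact ⟨hue, fun a b => h1 a (Finset.mem_univ a) b (Finset.mem_univ b)⟩
  intro s
  induction s using Finset.induction_on with
  | empty => exact ⟨fun _ => 0, by simp⟩
  | insert a s ha ih =>
    obtain ⟨hue, h1⟩ := ih
    obtain ⟨k, hk⟩ : ∃ k, k ∉ (Finset.univ.filter (fun b => conf a b)).image hue := by
      by_contra hcon
      push Not at hcon
      have h2 : (Finset.univ : Finset (Fin (N + 1))) ⊆
          (Finset.univ.filter (fun b => conf a b)).image hue := fun k _ => hcon k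
      have h3 := Finset.card_le_card h2
      rw [Finset.card_univ, Fintype.card_fin] at h3
      have h4 := Finset.card_image_le (s := Finset.univ.filter (fun b => conf a b)) (f := hue)
      have h5 := h a
      rw [sum_ind_eq_card, Nat.card_eq_fintype_card, Fintype.card_subtype] at h5
      omega
    have hk' : ∀ b, conf a b → hue b ≠ k := by
      intro b hb e
      exact hk (Finset.mem_image.2 ⟨b, by simp [hb], e⟩)
    refine ⟨Function.update hue a k, ?_⟩
    intro x hx y hy hxy hc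
    by_cases hxa : x = a
    · subst hxa
      have hya : y ≠ x := Ne.symm hxy
      rw [Function.update_self, Function.update_of_ne hya]
      exact (hk' y hc).symm
    · by_cases hya : y = a
      · subst hya
        rw [Function.update_self, Function.update_of_ne hxa]
        exact hk' x (hsymm _ _ hc)
      · rw [Function.update_of_ne hxa, Function.update_of_ne hya]
        exact h1 x ((Finset.mem_insert.1 hx).resolve_left hxa) y
          ((Finset.mem_insert.1 hy).resolve_left hya) hxy hc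

theorem sum_ind_le_one {A : Type} [Fintype A] {p : A → Prop} (h : ∀ a b, p a → p b → a = b) :
    ∑ a, ind (p a) ≤ 1 := by
  classical
  by_cases hex : ∃ a, p a
  · obtain ⟨a, ha⟩ := hex
    calc ∑ b, ind (p b) ≤ ∑ b, ind (a = b) := Finset.sum_le_sum fun b _ => ind_mono fun hb =>
          h a b ha hb
      _ = 1 := sum_ind_eq a
  · push Not at hex
    rw [Finset.sum_eq_zero fun b _ => ind_neg (hex b)]
    omega

theorem sum_range {A B : Type} [Fintype A] [Fintype B] {ι : B → A} (hι : Function.Injective ι)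
    (V : A → Prop) : ∑ y, ind (y ∈ Set.range ι ∧ V y) = ∑ b, ind (V (ι b)) := by
  have h1 : ∀ y, ind (y ∈ Set.range ι ∧ V y) = ∑ b, ind (ι b = y ∧ V (ι b)) := by
    intro y
    by_cases hy : y ∈ Set.range ι
    · obtain ⟨b0, rfl⟩ := hy
      have h2 : ∀ b, ind (ι b = ι b0 ∧ V (ι b)) = ind (b0 = b ∧ V (ι b0)) := by
        intro b
        refine ind_congr ?_
        constructor
        · rintro ⟨e, hv⟩
          exact ⟨(hι e).symm, e ▸ hv⟩
        · rintro ⟨rfl, hv⟩
          exact ⟨rfl, hv⟩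
      simp only [h2]
      have h3 : ∀ b, ind (b0 = b ∧ V (ι b0)) = ind (b0 = b) * ind (V (ι b0)) := fun b =>
        ind_and _ _
      simp only [h3]
      rw [sum_ind_mul b0 (fun _ => ind (V (ι b0)))]
      exact ind_congr ⟨fun h => h.2, fun h => ⟨⟨b0, rfl⟩, h⟩⟩
    · rw [ind_neg (fun h => hy h.1)]
      refine (Finset.sum_eq_zero fun b _ => ind_neg ?_).symm
      rintro ⟨e, _⟩
      exact hy ⟨b, e⟩
  simp only [h1]
  rw [Finset.sum_comm]
  refine Finset.sum_congr rfl fun b _ => ?_
  have h3 : ∀ y, ind (ι b = y ∧ V (ι b)) = ind (ι b = y) * ind (V (ι b)) := fun b => ind_and _ _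
  simp only [h3]
  exact sum_ind_mul (ι b) (fun _ => ind (V (ι b)))

variable {Λ C F M Z : Type} [Finite C] [Fintype F] [Fintype M]

/-- Choice of the outgoing links. -/
theorem exists_out (G : CSys Λ C F M) {A : Type} [Fintype A] (c : A → C) (f : A → A → F) :
    ∃ out : A → A → Prop, (∀ x y, out x y → y ≠ x) ∧
      (∀ x, ∑ y, ind (out x y) ≤ G.K * Fintype.card M) ∧
      (∀ x m, min G.K (∑ y, ind (out x y ∧ G.θ m (c x) (c y) (f x y))) = G.cnt c f x m) ∧
      (∀ x y, y ≠ x → ¬ out x y → ∀ m, G.cnt c f x m < G.K → ¬ G.θ m (c x) (c y) (f x y)) := by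
  classical
  let W : A → M → Finset A := fun x m =>
    Finset.univ.filter (fun y => y ≠ x ∧ G.θ m (c x) (c y) (f x y))
  have hW : ∀ x m, (W x m).card = ∑ y, ind (y ≠ x ∧ G.θ m (c x) (c y) (f x y)) := by
    intro x m
    rw [sum_ind_eq_card, Nat.card_eq_fintype_card, Fintype.card_subtype]
  have hsub : ∀ x m, ∃ W' ⊆ W x m, W'.card = min G.K (W x m).card := fun x m =>
    Finset.exists_subset_card_eq (min_le_right _ _)
  choose W' hW1 hW2 using hsub
  refine ⟨fun x y => ∃ m, y ∈ W' x m, ?_, ?_, ?_, ?_⟩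
  · rintro x y ⟨m, hm⟩
    exact ((Finset.mem_filter.1 (hW1 x m hm)).2).1
  · intro x
    calc ∑ y, ind (∃ m, y ∈ W' x m) ≤ ∑ y, ∑ m, ind (y ∈ W' x m) := by
          refine Finset.sum_le_sum fun y _ => ?_
          by_cases hy : ∃ m, y ∈ W' x m
          · obtain ⟨m, hm⟩ := hy
            have := le_sum (fun m => ind (y ∈ W' x m)) m
            rw [ind_pos hm] at this
            exact (ind_le_one _).trans this
          · rw [ind_neg hy]; exact Nat.zero_le _
      _ = ∑ m, (W' x m).card := by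
          rw [Finset.sum_comm]
          refine Finset.sum_congr rfl fun m _ => ?_
          rw [sum_ind_eq_card, Nat.card_eq_fintype_card, Fintype.card_coe]
      _ ≤ ∑ _m : M, G.K := Finset.sum_le_sum fun m _ => by rw [hW2]; exact min_le_left _ _
      _ = G.K * Fintype.card M := by simp [mul_comm]
  · intro x m
    unfold CSys.cnt
    rw [← hW]
    have h1 : ∑ y, ind ((∃ m, y ∈ W' x m) ∧ G.θ m (c x) (c y) (f x y)) ≤ (W x m).card := by
      rw [hW]
      refine Finset.sum_le_sum fun y _ => ind_mono ?_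
      rintro ⟨⟨m', hm'⟩, h⟩
      exact ⟨((Finset.mem_filter.1 (hW1 x m' hm')).2).1, h⟩
    have h2 : (W' x m).card ≤ ∑ y, ind ((∃ m, y ∈ W' x m) ∧ G.θ m (c x) (c y) (f x y)) := by
      have h3 : (W' x m).card = ∑ y, ind (y ∈ W' x m) := by
        rw [sum_ind_eq_card, Nat.card_eq_fintype_card, Fintype.card_coe]
      rw [h3]
      refine Finset.sum_le_sum fun y _ => ind_mono ?_
      intro hy
      exact ⟨⟨m, hy⟩, ((Finset.mem_filter.1 (hW1 x m hy)).2).2⟩
    rw [hW2] at h2
    beta_reduce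
    omega
  · intro x y hyx hout m hlt hθ
    unfold CSys.cnt at hlt
    rw [← hW] at hlt
    have h1 : W' x m = W x m := by
      refine Finset.eq_of_subset_of_card_le (hW1 x m) ?_
      rw [hW2]
      omega
    refine hout ⟨m, ?_⟩
    rw [h1]
    exact Finset.mem_filter.2 ⟨Finset.mem_univ _, hyx, hθ⟩

/-- Global data of a model. -/
structure Glob (G : CSys Λ C F M) (H D : ℕ) (A : Type) [Fintype A] where
  q : A → QT C M G.K H
  f : A → A → F
  out : A → A → Prop
  hinv : ∀ x y, x ≠ y → f y x = G.inv (f x y)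
  hne : ∀ x y, out x y → y ≠ x
  hD : ∀ x, ∑ y, ind (out x y) ≤ D
  hok : ∀ x, G.ok (q x).c (fun m => ((q x).cap m : ℕ))
  hcap : ∀ x m, min G.K (∑ y, ind (out x y ∧ G.θ m (q x).c (q y).c (f x y))) = (q x).cap m
  hsil : ∀ x y, y ≠ x → ¬ out x y → (G.sys H D).sil (q x) (q y) (f x y)
  htu : ∀ x y y', out x y → out y x → out x y' → out y' x → q y = q y' → y = y'

/-- Models give global data. -/
theorem exists_glob (G : CSys Λ C F M) {t : BT Λ} {c : t.El → C} {f : t.El → t.El → F}
    (h : G.Model t c f) :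
    ∃ g : Glob G ((G.K * Fintype.card M) * (G.K * Fintype.card M) + 1) (G.K * Fintype.card M) t.El,
      (∀ x, (g.q x).c = c x) ∧ g.f = f := by
  classical
  obtain ⟨out, h1, h2, h3, h4⟩ := exists_out G c f
  set D := G.K * Fintype.card M with hDdef
  -- conflicts
  obtain ⟨hue, hhue⟩ := exists_colouring (A := t.El)
    (fun y y' => ∃ x, (out x y ∧ out y x) ∧ (out x y' ∧ out y' x))
    (fun y y' ⟨x, h5, h6⟩ => ⟨x, h6, h5⟩) (D * D) (by
      intro y
      calc ∑ y', ind (∃ x, (out x y ∧ out y x) ∧ (out x y' ∧ out y' x))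
          ≤ ∑ y', ∑ x, ind (out y x) * ind (out x y') := by
            refine Finset.sum_le_sum fun y' _ => ?_
            by_cases hy : ∃ x, (out x y ∧ out y x) ∧ (out x y' ∧ out y' x)
            · obtain ⟨x, ⟨_, h6⟩, h7, _⟩ := hy
              have h8 := le_sum (fun x => ind (out y x) * ind (out x y')) x
              simp only [ind_pos h6, ind_pos h7, mul_one] at h8
              exact (ind_le_one _).trans h8
            · rw [ind_neg hy]; exact Nat.zero_le _
        _ = ∑ x, ind (out y x) * ∑ y', ind (out x y') := by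
            rw [Finset.sum_comm]
            exact Finset.sum_congr rfl fun x _ => (Finset.mul_sum _ _ _).symm
        _ ≤ ∑ x, ind (out y x) * D := Finset.sum_le_sum fun x _ => Nat.mul_le_mul_left _ (h2 x)
        _ = (∑ x, ind (out y x)) * D := (Finset.sum_mul _ _ _).symm
        _ ≤ D * D := Nat.mul_le_mul_right _ (h2 y))
  have hcnt : ∀ x m, G.cnt c f x m < G.K + 1 := fun x m => by
    unfold CSys.cnt
    omega
  refine ⟨{ q := fun x => ⟨c x, fun m => ⟨G.cnt c f x m, hcnt x m⟩, hue x⟩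
            f := f
            out := out
            hinv := h.hinv
            hne := h1
            hD := h2
            hok := h.hok
            hcap := h3
            hsil := fun x y hyx hout m hlt => h4 x y hyx hout m hlt
            htu := ?_ }, fun _ => rfl, rfl⟩
  intro x y y' a1 a2 a3 a4 e
  by_contra hne
  exact hhue y y' hne ⟨x, ⟨a1, a2⟩, a3, a4⟩ (congrArg (fun s => s.hue) e)

namespace Glob

variable {G : CSys Λ C F M} {H D : ℕ} {A : Type} [Fintype A] (g : Glob G H D A)

/-- The state of `x` with respect to a set containing `x`. -/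
noncomputable def stat (R : A → Prop) (x : A) : StT C F M G.K H D where
  q := g.q x
  o q' φ b := ⟨∑ y, ind ((¬ R y ∧ g.out x y) ∧ g.q y = q' ∧ g.f x y = φ ∧ (g.out y x ↔ b = true)),
    Nat.lt_succ_of_le ((Finset.sum_le_sum fun y _ => ind_mono fun h => h.1.2).trans (g.hD x))⟩
  bnd := by
    have h1 := sum_desc (fun y => ¬ R y ∧ g.out x y) g.q (g.f x) (fun y => g.out y x)
      (fun _ _ => True)
    simp only [ind_True, mul_one] at h1
    refine le_trans h1.le ?_
    exact (Finset.sum_le_sum fun y _ => ind_mono fun h => h.1.2).trans (g.hD x)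
  tu q' := by
    have h1 : ∑ φ, (∑ y, ind ((¬ R y ∧ g.out x y) ∧ g.q y = q' ∧ g.f x y = φ ∧
        (g.out y x ↔ true = true))) = ∑ y, ind ((¬ R y ∧ g.out x y) ∧ g.q y = q' ∧ g.out y x) := by
      rw [Finset.sum_comm]
      refine Finset.sum_congr rfl fun y _ => ?_
      rw [← sum_ind_and_eq (g.f x y) (fun _ => (¬ R y ∧ g.out x y) ∧ g.q y = q' ∧ g.out y x)]
      exact Finset.sum_congr rfl fun φ _ => ind_congr (by tauto)
    refine le_trans h1.le (sum_ind_le_one ?_)
    rintro y y' ⟨⟨_, h2⟩, h3, h4⟩ ⟨⟨_, h5⟩, h6, h7⟩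
    exact g.htu x y y' h2 h4 h5 h7 (h3.trans h6.symm)

theorem stat_o (R : A → Prop) (x : A) (q' : QT C M G.K H) (φ : F) (b : Bool) :
    ((g.stat R x).o q' φ b : ℕ) =
      ∑ y, ind ((¬ R y ∧ g.out x y) ∧ g.q y = q' ∧ g.f x y = φ ∧ (g.out y x ↔ b = true)) := rfl

/-- A single element has a valid state. -/
theorem stat_valid (x : A) : G.valid (g.stat (fun y => y = x) x) := by
  refine ⟨g.hok x, fun m => ?_⟩
  refine Eq.trans ?_ (g.hcap x m)
  congr 1
  have h1 := sum_desc (fun y => ¬ (y = x) ∧ g.out x y) g.q (g.f x) (fun y => g.out y x)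
    (fun q' φ => G.θ m (g.q x).c q'.c φ)
  refine Eq.trans h1 ?_
  refine Finset.sum_congr rfl fun y _ => ind_congr ?_
  constructor
  · rintro ⟨⟨_, h2⟩, h3⟩; exact ⟨h2, h3⟩
  · rintro ⟨h2, h3⟩; exact ⟨⟨g.hne x y h2, h2⟩, h3⟩

/-- Splitting of the open links at a node. -/
theorem stat_split {B : Type} [Fintype B] {ι : B → A} (hι : Function.Injective ι)
    {R R' : A → Prop} (hR : ∀ y, R' y ↔ (R y ∨ y ∈ Set.range ι)) (hd : ∀ b, ¬ R (ι b)) (x : A)
    (q' : QT C M G.K H) (φ : F) (t : Bool) :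
    ((g.stat R x).o q' φ t : ℕ) = (g.stat R' x).o q' φ t +
      ∑ b, ind (g.out x (ι b) ∧ g.q (ι b) = q' ∧ g.f x (ι b) = φ ∧ (g.out (ι b) x ↔ t = true)) := by
  rw [stat_o, stat_o, ← sum_range hι (fun y => g.out x y ∧ g.q y = q' ∧ g.f x y = φ ∧
    (g.out y x ↔ t = true)), ← Finset.sum_add_distrib]
  refine Finset.sum_congr rfl fun y _ => ?_
  rw [ind_split ((¬ R y ∧ g.out x y) ∧ g.q y = q' ∧ g.f x y = φ ∧ (g.out y x ↔ t = true))
    (y ∉ Set.range ι)]
  congr 1
  · refine ind_congr ?_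
    rw [hR y]
    tauto
  · refine ind_congr ?_
    constructor
    · rintro ⟨h1, h2⟩
      exact ⟨not_not.1 h2, h1.1.2, h1.2⟩
    · rintro ⟨⟨b, rfl⟩, h2⟩
      exact ⟨⟨⟨hd b, h2.1⟩, h2.2⟩, not_not.2 ⟨b, rfl⟩⟩

/-- **From models to valid trees.** -/
theorem exists_tree (δ : Λ → Z → Z → Z) (z0 : C → Z) (t : BT Λ) :
    ∀ (ι : t.El → A), Function.Injective ι → (∀ l x y, t.Rel l x y → G.P l (g.f (ι x) (ι y))) →
    ∃ u : Tr {s : StT C F M G.K H D // G.valid s} (NL (StT C F M G.K H D) (Λ × Z × Z)),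
      (G.tl H D δ z0).OK u ∧ u.size = t.size ∧
      (G.tl H D δ z0).ms u = dist (fun x => g.stat (fun y => y ∈ Set.range ι) (ι x)) ∧
      (G.tl H D δ z0).st u = t.run δ z0 (fun x => (g.q (ι x)).c) := by
  induction t with
  | pt =>
    intro ι _ _
    have hR : (fun y => y ∈ Set.range ι) = fun y => y = ι () := by
      funext y
      refine propext ⟨?_, ?_⟩
      · rintro ⟨⟨⟩, rfl⟩; rfl
      · rintro rfl; exact ⟨_, rfl⟩
    refine ⟨Tr.leaf ⟨g.stat (fun y => y = ι ()) (ι ()), g.stat_valid _⟩, trivial, rfl, ?_, rfl⟩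
    rw [hR]
    funext s
    show ind (g.stat (fun y => y = ι ()) (ι ()) = s) =
      ∑ x : Unit, ind (g.stat (fun y => y = ι ()) (ι x) = s)
    simp
  | sum l ta tb iha ihb =>
    intro ι hι hP
    have hia : Function.Injective (fun x : ta.El => ι (Sum.inl x)) := fun x y h =>
      Sum.inl_injective (hι h)
    have hib : Function.Injective (fun x : tb.El => ι (Sum.inr x)) := fun x y h =>
      Sum.inr_injective (hι h)
    obtain ⟨ua, a1, a2, a3, a4⟩ := iha (fun x => ι (Sum.inl x)) hia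
      (fun m x y h => hP m (Sum.inl x) (Sum.inl y) h)
    obtain ⟨ub, b1, b2, b3, b4⟩ := ihb (fun x => ι (Sum.inr x)) hib
      (fun m x y h => hP m (Sum.inr x) (Sum.inr y) h)
    have hRa : ∀ y, y ∈ Set.range ι ↔ (y ∈ Set.range (fun x : ta.El => ι (Sum.inl x)) ∨
        y ∈ Set.range (fun x : tb.El => ι (Sum.inr x))) := by
      intro y
      constructor
      · rintro ⟨x | x, rfl⟩
        · exact Or.inl ⟨x, rfl⟩
        · exact Or.inr ⟨x, rfl⟩
      · rintro (⟨x, rfl⟩ | ⟨x, rfl⟩)
        · exact ⟨_, rfl⟩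
        · exact ⟨_, rfl⟩
    have hRb : ∀ y, y ∈ Set.range ι ↔ (y ∈ Set.range (fun x : tb.El => ι (Sum.inr x)) ∨
        y ∈ Set.range (fun x : ta.El => ι (Sum.inl x))) := fun y => (hRa y).trans or_comm
    have hda : ∀ b : tb.El, ¬ ι (Sum.inr b) ∈ Set.range (fun x : ta.El => ι (Sum.inl x)) := by
      rintro b ⟨x, hx⟩
      exact Sum.inl_ne_inr (hι hx)
    have hdb : ∀ b : ta.El, ¬ ι (Sum.inl b) ∈ Set.range (fun x : tb.El => ι (Sum.inr x)) := by
      rintro b ⟨x, hx⟩
      exact Sum.inr_ne_inl (hι hx)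
    have hne : ∀ (x : ta.El) (y : tb.El), ι (Sum.inl x) ≠ ι (Sum.inr y) := fun x y h =>
      Sum.inl_ne_inr (hι h)
    let p : Pat (G.sys H D) (G.P l) ta.El tb.El :=
      { mA := fun x => (g.stat (fun y => y ∈ Set.range (fun x : ta.El => ι (Sum.inl x)))
          (ι (Sum.inl x)), g.stat (fun y => y ∈ Set.range ι) (ι (Sum.inl x)))
        mB := fun x => (g.stat (fun y => y ∈ Set.range (fun x : tb.El => ι (Sum.inr x)))
          (ι (Sum.inr x)), g.stat (fun y => y ∈ Set.range ι) (ι (Sum.inr x)))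
        f := fun x y => g.f (ι (Sum.inl x)) (ι (Sum.inr y))
        al := fun x y => g.out (ι (Sum.inl x)) (ι (Sum.inr y))
        be := fun x y => g.out (ι (Sum.inr y)) (ι (Sum.inl x))
        hf := fun x y => hP l (Sum.inl x) (Sum.inr y) rfl
        qA := fun _ => rfl
        qB := fun _ => rfl
        oA := fun x q' φ t => g.stat_split hib hRa hda (ι (Sum.inl x)) q' φ t
        oB := fun x q' φ t => by
          refine (g.stat_split hia hRb hdb (ι (Sum.inr x)) q' φ t).trans ?_
          congr 1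
          refine Finset.sum_congr rfl fun y _ => ind_congr ?_
          rw [g.hinv _ _ (hne y x)]
          rfl
        sA := fun x y h => g.hsil _ _ (hne x y).symm h
        sB := fun x y h => by
          have h1 := g.hsil _ _ (hne x y) h
          rw [g.hinv _ _ (hne x y)] at h1
          exact h1 }
    refine ⟨Tr.node ((l, (G.tl H D δ z0).st ua, (G.tl H D δ z0).st ub),
      (dist p.mA, dist p.mB)) ua ub, ⟨a1, b1, ⟨_, _, _, _, p, rfl, rfl⟩, ?_, ?_, rfl, rfl⟩,
      ?_, ?_, ?_⟩
    · intro s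
      rw [a3]
      exact sum_comp p.mA (fun x => ind (x.1 = s))
    · intro s
      rw [b3]
      exact sum_comp p.mB (fun x => ind (x.1 = s))
    · simp only [Tr.size, BT.size, a2, b2]
    · funext s
      show (∑ x, dist p.mA x * ind (x.2 = s)) + ∑ x, dist p.mB x * ind (x.2 = s) =
        ∑ x : ta.El ⊕ tb.El, ind (g.stat (fun y => y ∈ Set.range ι) (ι x) = s)
      rw [Fintype.sum_sum_type, ← sum_comp p.mA (fun x => ind (x.2 = s)),
        ← sum_comp p.mB (fun x => ind (x.2 = s))]
    · show δ l _ _ = δ l _ _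
      rw [a4, b4]

end Glob

/-- **Sizes of models of a system.** -/
theorem CSys.sizes_ultPeriodic [Nonempty F] [Finite Λ] [Finite Z] (G : CSys Λ C F M)
    (δ : Λ → Z → Z → Z) (z0 : C → Z) (acc : Z → Prop) :
    Helper20.OP.UltPeriodic {n | ∃ (t : BT Λ) (c : t.El → C) (f : t.El → t.El → F),
      G.Model t c f ∧ acc (t.run δ z0 c) ∧ t.size = n} := by
  set D := G.K * Fintype.card M with hD
  set H := D * D + 1 with hH
  have key := (G.tl H D δ z0).sizes_ultPeriodic acc
    (fun s => ∀ q' φ b, ((s.o q' φ b : ℕ) = 0))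
  convert key using 1
  ext n
  constructor
  · rintro ⟨t, c, f, hm, ha, rfl⟩
    obtain ⟨g, hg1, hg2⟩ := exists_glob G hm
    obtain ⟨u, u1, u2, u3, u4⟩ := g.exists_tree δ z0 t id Function.injective_id
      (fun l x y h => by rw [hg2]; exact hm.hP l x y h)
    refine ⟨u, ⟨u1, ?_, ?_⟩, u2⟩
    · rw [u4]
      rw [show (fun x : t.El => (g.q (id x)).c) = c from funext hg1]
      exact ha
    · intro s hs q' φ b
      rw [u3] at hs
      obtain ⟨x, rfl⟩ := exists_of_dist hs
      rw [g.stat_o]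
      refine Finset.sum_eq_zero fun y _ => ind_neg ?_
      rintro ⟨⟨h1, _⟩, _⟩
      exact h1 ⟨y, rfl⟩
  · rintro ⟨u, ⟨u1, u2, u3⟩, rfl⟩
    obtain ⟨t, o, h1, h2, h3⟩ := exists_open G H D δ z0 u u1
    refine ⟨t, fun x => (o.σ x).1.q.c, o.f, o.model ?_, ?_, h1⟩
    · intro x q' φ b
      refine u3 (o.τ x) ?_ q' φ b
      rw [← h2]
      exact dist_ne_zero _ x
    · rw [h3]; exact u2

end Pool.Agent.Helper29.C2
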