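import Mathlib

/-!
Indicator sums, distributions of maps, and the truncated order on numbers.
-/

set_option autoImplicit false

namespace Pool.Agent.Helper29.C2

/-- The indicator of a proposition. -/
noncomputable def ind (p : Prop) : ℕ := by
  classical exact if p then 1 else 0

theorem ind_pos {p : Prop} (h : p) : ind p = 1 := by simp [ind, h]

theorem ind_neg {p : Prop} (h : ¬ p) : ind p = 0 := by simp [ind, h]

@[simp] theorem ind_True : ind True = 1 := ind_pos trivial

@[simp] theorem ind_False : ind False = 0 := ind_neg id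

theorem ind_ne_zero {p : Prop} : ind p ≠ 0 ↔ p := by
  by_cases h : p <;> simp [ind, h]

theorem ind_le_one (p : Prop) : ind p ≤ 1 := by
  by_cases h : p <;> simp [ind, h]

theorem ind_mono {p p' : Prop} (h : p → p') : ind p ≤ ind p' := by
  by_cases hp : p
  · simp [ind, hp, h hp]
  · simp [ind, hp]

theorem ind_congr {p p' : Prop} (h : p ↔ p') : ind p = ind p' := by
  rw [propext h]

theorem ind_and (p p' : Prop) : ind (p ∧ p') = ind p * ind p' := by
  by_cases h : p <;> by_cases h' : p' <;> simp [ind, h, h']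

theorem ind_or_le (p p' : Prop) : ind (p ∨ p') ≤ ind p + ind p' := by
  by_cases h : p <;> by_cases h' : p' <;> simp [ind, h, h']

theorem ind_split (p r : Prop) : ind p = ind (p ∧ r) + ind (p ∧ ¬ r) := by
  by_cases h : p <;> by_cases h' : r <;> simp [ind, h, h']

section

variable {A B X : Type} [Fintype A] [Fintype B] [Fintype X]

/-- A sum over the possible values of one variable. -/
theorem sum_ind_eq (a : X) : ∑ x : X, ind (a = x) = 1 := by
  classical
  rw [Finset.sum_eq_single a]
  · exact ind_pos rfl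
  · intro b _ hb; exact ind_neg (Ne.symm hb)
  · intro h; exact absurd (Finset.mem_univ a) h

theorem sum_ind_mul (a : X) (g : X → ℕ) : ∑ x : X, ind (a = x) * g x = g a := by
  classical
  rw [Finset.sum_eq_single a]
  · rw [ind_pos rfl, one_mul]
  · intro b _ hb; rw [ind_neg (Ne.symm hb), zero_mul]
  · intro h; exact absurd (Finset.mem_univ a) h

theorem sum_ind_and_eq (a : X) (p : X → Prop) : ∑ x : X, ind (p x ∧ a = x) = ind (p a) := by
  have := sum_ind_mul a (fun x => ind (p x))
  rw [← this]
  refine Finset.sum_congr rfl fun x _ => ?_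
  rw [ind_and, mul_comm]

theorem sum_ind_eq_card (p : A → Prop) : ∑ a, ind (p a) = Nat.card {a // p a} := by
  classical
  rw [Nat.card_eq_fintype_card, Fintype.card_subtype, Finset.card_filter]
  refine Finset.sum_congr rfl fun x _ => ?_
  by_cases h : p x <;> simp [ind, h]

theorem sum_ind_le_card (p : A → Prop) : ∑ a, ind (p a) ≤ Fintype.card A := by
  calc ∑ a, ind (p a) ≤ ∑ _a : A, 1 := Finset.sum_le_sum fun a _ => ind_le_one _
    _ = Fintype.card A := by simp

theorem exists_of_sum_ne_zero {g : A → ℕ} (h : ∑ a, g a ≠ 0) : ∃ a, g a ≠ 0 := by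
  by_contra hc
  push Not at hc
  exact h (Finset.sum_eq_zero fun a _ => hc a)

theorem exists_of_sum_ind_ne_zero {p : A → Prop} (h : ∑ a, ind (p a) ≠ 0) : ∃ a, p a := by
  obtain ⟨a, ha⟩ := exists_of_sum_ne_zero h
  exact ⟨a, ind_ne_zero.1 ha⟩

theorem le_sum (g : A → ℕ) (a : A) : g a ≤ ∑ a, g a :=
  Finset.single_le_sum (f := g) (fun _ _ => Nat.zero_le _) (Finset.mem_univ a)

/-- If the terms are bounded and the sums are equal, all terms are equal. -/
theorem eq_of_sum_eq {g h : A → ℕ} (hle : ∀ a, g a ≤ h a) (hs : ∑ a, h a ≤ ∑ a, g a) (a : A) :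
    g a = h a := by
  have h1 : ∑ a, g a = ∑ a, h a := le_antisymm (Finset.sum_le_sum fun a _ => hle a) hs
  exact (Finset.sum_eq_sum_iff_of_le (fun a _ => hle a)).1 h1 a (Finset.mem_univ a)

/-- The distribution of a map. -/
noncomputable def dist (m : A → X) (x : X) : ℕ := ∑ a, ind (m a = x)

omit [Fintype X] in
theorem exists_of_dist {m : A → X} {x : X} (h : dist m x ≠ 0) : ∃ a, m a = x :=
  exists_of_sum_ind_ne_zero h

omit [Fintype X] in
theorem dist_ne_zero (m : A → X) (a : A) : dist m (m a) ≠ 0 := by
  have := le_sum (fun a' => ind (m a' = m a)) a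
  simp only [ind_pos] at this
  unfold dist
  omega

theorem sum_comp (m : A → X) (g : X → ℕ) : ∑ a, g (m a) = ∑ x, dist m x * g x := by
  unfold dist
  simp only [Finset.sum_mul]
  rw [Finset.sum_comm]
  refine Finset.sum_congr rfl fun a _ => ?_
  rw [sum_ind_mul]

omit [Fintype X] in
theorem dist_sum (m : A → X) (m' : B → X) (x : X) :
    dist (Sum.elim m m') x = dist m x + dist m' x := by
  simp [dist, Fintype.sum_sum_type]

omit [Fintype X] in
theorem dist_equiv (e : B ≃ A) (m : A → X) : dist (m ∘ e) = dist m := by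
  funext x
  unfold dist
  exact Equiv.sum_comp e (fun a => ind (m a = x))

/-- Every function is a distribution. -/
theorem dist_sigma_fst (G : X → ℕ) :
    dist (fun a : (Σ x : X, Fin (G x)) => a.1) = G := by
  funext x
  unfold dist
  rw [Fintype.sum_sigma]
  simp only [Finset.sum_const, Finset.card_univ, Fintype.card_fin, smul_eq_mul]
  have := sum_ind_mul x G
  rw [← this]
  refine Finset.sum_congr rfl fun y _ => ?_
  rw [mul_comm]
  congr 1
  exact ind_congr ⟨Eq.symm, Eq.symm⟩

omit [Fintype X] in
/-- Maps with the same distribution are conjugate. -/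
theorem exists_equiv_of_dist {m : A → X} {m' : B → X} (h : dist m = dist m') :
    ∃ e : A ≃ B, ∀ a, m' (e a) = m a := by
  classical
  have hc : ∀ x, Nonempty ({a // m a = x} ≃ {b // m' b = x}) := by
    intro x
    have h1 := congrFun h x
    unfold dist at h1
    rw [sum_ind_eq_card, sum_ind_eq_card] at h1
    exact Finite.card_eq.1 h1
  let e := fun x => (hc x).some
  refine ⟨(Equiv.sigmaFiberEquiv m).symm.trans
    ((Equiv.sigmaCongrRight e).trans (Equiv.sigmaFiberEquiv m')), fun a => ?_⟩
  simp only [Equiv.trans_apply]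
  exact (e (m a) ⟨a, rfl⟩).2

theorem sum_dist (m : A → X) : ∑ x, dist m x = Fintype.card A := by
  have := sum_comp m (fun _ => 1)
  simp only [mul_one] at this
  rw [← this]; simp

end

/-! ### The truncated order -/

/-- The truncated order on numbers. -/
def Le (T a b : ℕ) : Prop := a = b ∨ (T ≤ a ∧ a ≤ b)

theorem Le.refl (T a : ℕ) : Le T a a := Or.inl rfl

theorem Le.trans {T a b c : ℕ} (h1 : Le T a b) (h2 : Le T b c) : Le T a c := by
  unfold Le at *; omega

theorem Le.le {T a b : ℕ} (h : Le T a b) : a ≤ b := by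
  unfold Le at *; omega

theorem Le.eq_of_lt {T a b : ℕ} (h : Le T a b) (h2 : a < T) : a = b := by
  unfold Le at *; omega

theorem Le.eq_of_lt' {T a b : ℕ} (h : Le T a b) (h2 : b < T) : a = b := by
  unfold Le at *; omega

theorem Le.large {T a b : ℕ} (h : Le T a b) (h2 : a < b) : T ≤ a := by
  unfold Le at *; omega

theorem Le.large' {T a b : ℕ} (h : Le T a b) (h2 : a ≠ b) : T ≤ a := by
  unfold Le at *; omega

theorem Le.add {T a b c d : ℕ} (h1 : Le T a b) (h2 : Le T c d) : Le T (a + c) (b + d) := by
  unfold Le at *; omega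

theorem Le.amalg {T a b c : ℕ} (h1 : Le T a b) (h2 : Le T a c) : Le T a (b + c - a) := by
  unfold Le at *; omega

theorem Le.sum {A : Type} {T : ℕ} {f g : A → ℕ} (s : Finset A) (h : ∀ a, Le T (f a) (g a)) :
    Le T (∑ a ∈ s, f a) (∑ a ∈ s, g a) := by
  classical
  induction s using Finset.induction_on with
  | empty => simp [Le.refl]
  | insert a s ha ih => rw [Finset.sum_insert ha, Finset.sum_insert ha]; exact (h a).add ih

instance (T : ℕ) : IsPreorder ℕ (Le T) where
  refl := Le.refl T
  trans _ _ _ h1 h2 := h1.trans h2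

theorem le_wqo (T : ℕ) : WellQuasiOrdered (Le T) := by
  intro f
  -- pigeonhole on the truncations, then monotone
  obtain ⟨g, hg⟩ := (wellQuasiOrdered_le (α := ℕ)).exists_monotone_subseq f
  let k : ℕ → Fin (T + 1) := fun n => ⟨min (f (g n)) T, by omega⟩
  obtain ⟨m, n, hmn, he⟩ := Finite.exists_ne_map_eq_of_infinite k
  have key : ∀ m n, m < n → k m = k n → Le T (f (g m)) (f (g n)) := by
    intro m n h1 h2
    have h3 := hg m n h1.le
    have h4 := congrArg Fin.val h2
    simp only [k] at h4
    unfold Le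
    omega
  rcases lt_or_gt_of_ne hmn with h | h
  · exact ⟨g m, g n, g.strictMono h, key m n h he⟩
  · exact ⟨g n, g m, g.strictMono h, key n m h he.symm⟩

/-- The pointwise truncated order. -/
def LeF {X : Type} (T : ℕ) (F G : X → ℕ) : Prop := ∀ x, Le T (F x) (G x)

theorem leF_wqo {X : Type} [Finite X] (T : ℕ) : WellQuasiOrdered (LeF (X := X) T) :=
  WellQuasiOrdered.pi (r := fun _ => Le T) fun _ => le_wqo T

instance {X : Type} (T : ℕ) : IsPreorder (X → ℕ) (LeF T) where
  refl _ _ := Le.refl T _
  trans _ _ _ h1 h2 x := (h1 x).trans (h2 x)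

end Pool.Agent.Helper29.C2
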