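import Pool.Agent.Helper29.C2.KM

/-!
Backgrounds which are quantifier-free definable in sum-generated backgrounds with unary relations.
-/

set_option autoImplicit false

namespace Pool.Agent.Helper29.C2

open Pool.Agent.Helper20.Spectra Pool.Agent.Helper20

variable {Λ Λ' W U V A : Type}

/-! ### Two-variable formulas -/

theorem exists_chi [Finite Λ] [Finite W] (T : QI Λ W Λ') (l : Λ') (v : Bool) :
    ∃ χ : Fm Λ (W ⊕ U) V, ∀ (A : Type) (M : Str Λ (W ⊕ U) V A) (e : Bool → A), Sat M χ e ↔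
      T l (fun P => M.un (Sum.inl P) (e v)) (fun P => M.un (Sum.inl P) (e (!v)))
        (fun j => M.ord j (e v) (e (!v))) (fun j => M.ord j (e (!v)) (e v)) (e v = e (!v)) := by
  obtain ⟨χ, hχ⟩ := Pool.Agent.Helper80.NF.exists_fm (Λ := Λ) (U := W ⊕ U) (V := V)
    (B := (W ⊕ W) ⊕ ((Λ ⊕ Λ) ⊕ Unit))
    (fun b => match b with
      | Sum.inl (Sum.inl P) => Fm.un (Sum.inl P) v
      | Sum.inl (Sum.inr P) => Fm.un (Sum.inl P) (!v)
      | Sum.inr (Sum.inl (Sum.inl j)) => Fm.ord j v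
      | Sum.inr (Sum.inl (Sum.inr j)) => Fm.ord j (!v)
      | Sum.inr (Sum.inr _) => Fm.eq)
    (fun t => T l (fun P => t (Sum.inl (Sum.inl P))) (fun P => t (Sum.inl (Sum.inr P)))
      (fun j => t (Sum.inr (Sum.inl (Sum.inl j)))) (fun j => t (Sum.inr (Sum.inl (Sum.inr j))))
      (t (Sum.inr (Sum.inr ()))))
  refine ⟨χ, fun A M e => ?_⟩
  rw [hχ]
  have h1 : (fun j => M.ord j (e (!v)) (e (!!v))) = fun j => M.ord j (e (!v)) (e v) := by
    rw [Bool.not_not]
  have h2 : (e true = e false) = (e v = e (!v)) := by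
    cases v
    · exact propext ⟨Eq.symm, Eq.symm⟩
    · rfl
  show T l (fun P => M.un (Sum.inl P) (e v)) (fun P => M.un (Sum.inl P) (e (!v)))
        (fun j => M.ord j (e v) (e (!v))) (fun j => M.ord j (e (!v)) (e (!!v)))
        (e true = e false) ↔ _
  rw [h1, h2]

/-- The translation of two-variable formulas. -/
theorem exists_trFm [Finite Λ] [Finite W] (T : QI Λ W Λ') (Φ : Fm Λ' U V) :
    ∃ Φ' : Fm Λ (W ⊕ U) V, ∀ (A : Type) (R : Λ → A → A → Prop) (w : W → A → Prop)
      (un : U → A → Prop) (bin : V → A → A → Prop) (e : Bool → A),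
      Sat ⟨R, Sum.elim w un, bin⟩ Φ' e ↔ Sat ⟨interp T R w, un, bin⟩ Φ e := by
  induction Φ with
  | eq => exact ⟨Fm.eq, fun _ _ _ _ _ _ => Iff.rfl⟩
  | ord l v =>
    obtain ⟨χ, hχ⟩ := exists_chi (U := U) (V := V) T l v
    exact ⟨χ, fun A R w un bin e => hχ A _ e⟩
  | un P v => exact ⟨Fm.un (Sum.inr P) v, fun _ _ _ _ _ _ => Iff.rfl⟩
  | bin E v w => exact ⟨Fm.bin E v w, fun _ _ _ _ _ _ => Iff.rfl⟩
  | neg φ ih =>
    obtain ⟨φ', h⟩ := ih
    exact ⟨Fm.neg φ', fun A R w un bin e => not_congr (h A R w un bin e)⟩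
  | and φ ψ ih1 ih2 =>
    obtain ⟨φ', h1⟩ := ih1
    obtain ⟨ψ', h2⟩ := ih2
    exact ⟨Fm.and φ' ψ', fun A R w un bin e => and_congr (h1 A R w un bin e) (h2 A R w un bin e)⟩
  | ex k v φ ih =>
    obtain ⟨φ', h⟩ := ih
    refine ⟨Fm.ex k v φ', fun A R w un bin e => ?_⟩
    show k ≤ Nat.card {a : A // Sat _ φ' (Function.update e v a)} ↔
      k ≤ Nat.card {a : A // Sat _ φ (Function.update e v a)}
    simp only [h]

/-! ### Monadic second-order formulas -/

/-- Conjunction of a list. -/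
def mAndL : List (Mso Λ U) → Mso Λ U
  | [] => Mso.sub 0 0
  | φ :: l => Mso.and φ (mAndL l)

/-- Disjunction of a list. -/
def mOrL (l : List (Mso Λ U)) : Mso Λ U := Mso.neg (mAndL (l.map Mso.neg))

theorem msat_andL (ord : Λ → A → A → Prop) (un : U → A → Prop) (X : ℕ → Set A)
    (l : List (Mso Λ U)) : MSat ord un (mAndL l) X ↔ ∀ φ ∈ l, MSat ord un φ X := by
  induction l with
  | nil => exact ⟨fun _ _ h => absurd h (List.not_mem_nil), fun _ => fun x hx => hx⟩
  | cons a l ih =>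
    rw [List.forall_mem_cons, ← ih]
    exact Iff.rfl

theorem msat_orL (ord : Λ → A → A → Prop) (un : U → A → Prop) (X : ℕ → Set A)
    (l : List (Mso Λ U)) : MSat ord un (mOrL l) X ↔ ∃ φ ∈ l, MSat ord un φ X := by
  show ¬ MSat ord un (mAndL (l.map Mso.neg)) X ↔ _
  rw [msat_andL]
  constructor
  · intro h
    by_contra h1
    refine h fun φ hφ => ?_
    obtain ⟨ψ, hψ, rfl⟩ := List.mem_map.1 hφ
    exact fun h2 => h1 ⟨ψ, hψ, h2⟩
  · rintro ⟨ψ, hψ, h2⟩ h
    exact h (Mso.neg ψ) (List.mem_map.2 ⟨ψ, hψ, rfl⟩) h2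

/-- Every condition on the truth values of finitely many formulas is expressed by a formula. -/
theorem exists_mso {B : Type} [Finite B] (at' : B → Mso Λ U) (S : (B → Prop) → Prop) :
    ∃ φ : Mso Λ U, ∀ (A : Type) (ord : Λ → A → A → Prop) (un : U → A → Prop) (X : ℕ → Set A),
      MSat ord un φ X ↔ S (fun b => MSat ord un (at' b) X) := by
  classical
  haveI := Fintype.ofFinite B
  let lit : (B → Bool) → B → Mso Λ U := fun v b => if v b then at' b else Mso.neg (at' b)
  let cell : (B → Bool) → Mso Λ U := fun v =>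
    mAndL ((Finset.univ : Finset B).toList.map (lit v))
  refine ⟨mOrL (((Finset.univ : Finset (B → Bool)).filter
    fun v => S (fun b => v b = true)).toList.map cell), ?_⟩
  intro A ord un X
  have hcell : ∀ v : B → Bool, MSat ord un (cell v) X ↔
      ∀ b, (v b = true ↔ MSat ord un (at' b) X) := by
    intro v
    simp only [cell]
    rw [msat_andL]
    constructor
    · intro h b
      have := h (lit v b) (List.mem_map.2 ⟨b, Finset.mem_toList.2 (Finset.mem_univ b), rfl⟩)
      simp only [lit] at this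
      by_cases hb : v b = true
      · rw [if_pos hb] at this
        exact ⟨fun _ => this, fun _ => hb⟩
      · rw [if_neg hb] at this
        exact ⟨fun h => absurd h hb, fun h => absurd h this⟩
    · intro h φ hφ
      obtain ⟨b, -, rfl⟩ := List.mem_map.1 hφ
      simp only [lit]
      by_cases hb : v b = true
      · rw [if_pos hb]; exact (h b).1 hb
      · rw [if_neg hb]; exact fun h' => hb ((h b).2 h')
  rw [msat_orL]
  constructor
  · rintro ⟨φ, hφ, hs⟩
    obtain ⟨v, hv, rfl⟩ := List.mem_map.1 hφ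
    have hv' := (Finset.mem_filter.1 (Finset.mem_toList.1 hv)).2
    have := (hcell v).1 hs
    have e1 : (fun b => v b = true) = fun b => MSat ord un (at' b) X :=
      funext fun b => propext (this b)
    rwa [e1] at hv'
  · intro h
    refine ⟨cell (fun b => decide (MSat ord un (at' b) X)), List.mem_map.2 ⟨_, ?_, rfl⟩,
      (hcell _).2 fun b => by simp⟩
    rw [Finset.mem_toList, Finset.mem_filter]
    refine ⟨Finset.mem_univ _, ?_⟩
    simpa using h

theorem exists_mchi [Finite Λ] [Finite W] (T : QI Λ W Λ') (l : Λ') (a b : ℕ) :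
    ∃ χ : Mso Λ (W ⊕ U), ∀ (A : Type) (R : Λ → A → A → Prop) (w : W → A → Prop)
      (un : U → A → Prop) (X : ℕ → Set A) (x y : A), X a = {x} → X b = {y} →
      (MSat R (Sum.elim w un) χ X ↔ interp T R w l x y) := by
  obtain ⟨χ, hχ⟩ := exists_mso (Λ := Λ) (U := W ⊕ U)
    (B := (W ⊕ W) ⊕ ((Λ ⊕ Λ) ⊕ Unit))
    (fun c => match c with
      | Sum.inl (Sum.inl P) => Mso.un (Sum.inl P) a
      | Sum.inl (Sum.inr P) => Mso.un (Sum.inl P) b
      | Sum.inr (Sum.inl (Sum.inl j)) => Mso.ord j a b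
      | Sum.inr (Sum.inl (Sum.inr j)) => Mso.ord j b a
      | Sum.inr (Sum.inr _) => Mso.sub a b)
    (fun t => T l (fun P => t (Sum.inl (Sum.inl P))) (fun P => t (Sum.inl (Sum.inr P)))
      (fun j => t (Sum.inr (Sum.inl (Sum.inl j)))) (fun j => t (Sum.inr (Sum.inl (Sum.inr j))))
      (t (Sum.inr (Sum.inr ()))))
  refine ⟨χ, fun A R w un X x y hx hy => ?_⟩
  rw [hχ]
  show T l (fun P => ∀ z ∈ X a, w P z) (fun P => ∀ z ∈ X b, w P z)
    (fun j => ∃ z ∈ X a, ∃ z' ∈ X b, R j z z') (fun j => ∃ z ∈ X b, ∃ z' ∈ X a, R j z z')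
    (X a ⊆ X b) ↔ T l _ _ _ _ _
  rw [hx, hy]
  simp only [Set.mem_singleton_iff, forall_eq, exists_eq_left, Set.singleton_subset_iff]

/-- The translation of monadic second-order formulas. -/
theorem exists_trMso [Finite Λ] [Finite W] (T : QI Λ W Λ') (Ψ : Mso Λ' U) :
    ∃ Ψ' : Mso Λ (W ⊕ U), ∀ (A : Type) (R : Λ → A → A → Prop) (w : W → A → Prop)
      (un : U → A → Prop) (X : ℕ → Set A),
      MSat R (Sum.elim w un) Ψ' X ↔ MSat (interp T R w) un Ψ X := by
  induction Ψ with
  | sub i j => exact ⟨Mso.sub i j, fun _ _ _ _ _ => Iff.rfl⟩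
  | sing i => exact ⟨Mso.sing i, fun _ _ _ _ _ => Iff.rfl⟩
  | un P i => exact ⟨Mso.un (Sum.inr P) i, fun _ _ _ _ _ => Iff.rfl⟩
  | ord l i j =>
    obtain ⟨χ, hχ⟩ := exists_mchi (U := U) T l (i + j + 1) (i + j + 2)
    refine ⟨Mso.ex (i + j + 1) (Mso.ex (i + j + 2) (Mso.and (Mso.sing (i + j + 1))
      (Mso.and (Mso.sing (i + j + 2)) (Mso.and (Mso.sub (i + j + 1) i)
        (Mso.and (Mso.sub (i + j + 2) j) χ))))), fun A R w un X => ?_⟩
    have ea : ∀ S S' : Set A, Function.update (Function.update X (i + j + 1) S) (i + j + 2) S'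
        (i + j + 1) = S := by
      intro S S'
      rw [Function.update_of_ne (by omega), Function.update_self]
    have eb : ∀ S S' : Set A, Function.update (Function.update X (i + j + 1) S) (i + j + 2) S'
        (i + j + 2) = S' := by
      intro S S'
      rw [Function.update_self]
    have ei : ∀ S S' : Set A, Function.update (Function.update X (i + j + 1) S) (i + j + 2) S'
        i = X i := by
      intro S S'
      rw [Function.update_of_ne (by omega), Function.update_of_ne (by omega)]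
    have ej : ∀ S S' : Set A, Function.update (Function.update X (i + j + 1) S) (i + j + 2) S'
        j = X j := by
      intro S S'
      rw [Function.update_of_ne (by omega), Function.update_of_ne (by omega)]
    constructor
    · rintro ⟨S, S', h1, h2, h3, h4, h5⟩
      change ∃! x, x ∈ _ at h1
      change ∃! x, x ∈ _ at h2
      change (_ : Set A) ⊆ _ at h3
      change (_ : Set A) ⊆ _ at h4
      rw [ea] at h1 h3
      rw [eb] at h2 h4
      rw [ei] at h3
      rw [ej] at h4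
      obtain ⟨x, hx, hux⟩ := h1
      obtain ⟨y, hy, huy⟩ := h2
      have h6 : S = {x} := Set.eq_singleton_iff_unique_mem.2 ⟨hx, hux⟩
      have h7 : S' = {y} := Set.eq_singleton_iff_unique_mem.2 ⟨hy, huy⟩
      exact ⟨x, h3 hx, y, h4 hy, (hχ A R w un _ x y ((ea S S').trans h6)
        ((eb S S').trans h7)).1 h5⟩
    · rintro ⟨x, hx, y, hy, h⟩
      refine ⟨{x}, {y}, ?_, ?_, ?_, ?_, ?_⟩
      · show ∃! z, z ∈ _
        rw [ea]
        exact ⟨x, rfl, fun _ h => h⟩
      · show ∃! z, z ∈ _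
        rw [eb]
        exact ⟨y, rfl, fun _ h => h⟩
      · show (_ : Set A) ⊆ _
        rw [ea, ei]
        exact Set.singleton_subset_iff.2 hx
      · show (_ : Set A) ⊆ _
        rw [eb, ej]
        exact Set.singleton_subset_iff.2 hy
      · exact (hχ A R w un _ x y (ea _ _) (eb _ _)).2 h
  | neg φ ih =>
    obtain ⟨φ', h⟩ := ih
    exact ⟨Mso.neg φ', fun A R w un X => not_congr (h A R w un X)⟩
  | and φ ψ ih1 ih2 =>
    obtain ⟨φ', h1⟩ := ih1
    obtain ⟨ψ', h2⟩ := ih2
    exact ⟨Mso.and φ' ψ', fun A R w un X => and_congr (h1 A R w un X) (h2 A R w un X)⟩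
  | ex i φ ih =>
    obtain ⟨φ', h⟩ := ih
    exact ⟨Mso.ex i φ', fun A R w un X => exists_congr fun S => h A R w un _⟩

/-- Unary relations renamed. -/
def Mso.mapU {U' : Type} (g : U → U') : Mso Λ U → Mso Λ U'
  | Mso.sub i j => Mso.sub i j
  | Mso.sing i => Mso.sing i
  | Mso.un P i => Mso.un (g P) i
  | Mso.ord l i j => Mso.ord l i j
  | Mso.neg φ => Mso.neg (φ.mapU g)
  | Mso.and φ ψ => Mso.and (φ.mapU g) (ψ.mapU g)
  | Mso.ex i φ => Mso.ex i (φ.mapU g)

theorem msat_mapU {U' : Type} (g : U → U') (R : Λ → A → A → Prop) (un : U' → A → Prop)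
    (φ : Mso Λ U) (X : ℕ → Set A) :
    MSat R un (φ.mapU g) X ↔ MSat R (fun P => un (g P)) φ X := by
  induction φ generalizing X with
  | sub i j => exact Iff.rfl
  | sing i => exact Iff.rfl
  | un P i => exact Iff.rfl
  | ord l i j => exact Iff.rfl
  | neg φ ih => exact not_congr (ih X)
  | and φ ψ ih1 ih2 => exact and_congr (ih1 X) (ih2 X)
  | ex i φ ih => exact exists_congr fun S => ih _

/-- **Tame theorem** for classes of backgrounds which are quantifier-free definable in sum-generated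
backgrounds with unary relations. -/
theorem tame_interp [Finite Λ] [Finite W] [Finite U] [Finite V] (T : QI Λ W Λ')
    (K : ∀ n : ℕ, (Λ' → Fin n → Fin n → Prop) → Prop) (κ : Mso Λ' Empty)
    (hK : ∀ n R', 1 ≤ n → (K n R' ↔ SGDef T R' ∧ MSat R' (fun P => P.elim) κ (fun _ => ∅)))
    (Φ : Fm Λ' U V) (Ψ : Mso Λ' U) :
    OP.UltPeriodic {n | 1 ≤ n ∧ ∃ M : Str Λ' U V (Fin n), K n M.ord ∧
      (∀ e, Sat M Φ e) ∧ MSat M.ord M.un Ψ (fun _ => ∅)} := by
  obtain ⟨Φ', hΦ⟩ := exists_trFm T Φ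
  obtain ⟨Ψ', hΨ⟩ := exists_trMso T (Mso.and (κ.mapU (fun P => P.elim)) Ψ)
  convert tame_sumGenerated Φ' Ψ' using 1
  ext n
  refine and_congr_right fun hn => ?_
  constructor
  · rintro ⟨M, h1, h2, h3⟩
    obtain ⟨⟨R, w, h4, h5⟩, h6⟩ := (hK n _ hn).1 h1
    refine ⟨⟨R, Sum.elim w M.un, M.bin⟩, h4, fun e => ?_, ?_⟩
    · rw [hΦ, ← h5]
      exact h2 e
    · show MSat R (Sum.elim w M.un) Ψ' (fun _ => ∅)
      rw [hΨ, ← h5]
      refine ⟨?_, h3⟩
      rw [msat_mapU, show (fun P : Empty => M.un P.elim) = fun P : Empty => P.elim from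
        funext fun P => P.elim]
      exact h6
  · rintro ⟨M, h1, h2, h3⟩
    let w : W → Fin n → Prop := fun P => M.un (Sum.inl P)
    let un : U → Fin n → Prop := fun P => M.un (Sum.inr P)
    have hun : Sum.elim w un = M.un := by
      funext P
      rcases P with P | P <;> rfl
    have hM : (⟨M.ord, Sum.elim w un, M.bin⟩ : Str Λ (W ⊕ U) V (Fin n)) = M := by
      rw [hun]
    have h3' : MSat M.ord (Sum.elim w un) Ψ' (fun _ => ∅) := by rw [hun]; exact h3
    rw [hΨ] at h3'
    obtain ⟨h4, h5⟩ := h3'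
    rw [msat_mapU] at h4
    refine ⟨⟨interp T M.ord w, un, M.bin⟩, (hK n _ hn).2 ⟨⟨M.ord, w, h1, rfl⟩, ?_⟩,
      fun e => ?_, h5⟩
    · rw [show (fun P : Empty => (P.elim : Fin n → Prop)) = fun P : Empty => un P.elim from
        funext fun P => P.elim]
      exact h4
    · rw [← hΦ, hM]
      exact h2 e

end Pool.Agent.Helper29.C2
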