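import Pool.Agent.Helper29.C2.Eq1
import Pool.Agent.Helper80.TE.Main

/-!
Two-variable logic with counting over `k` linear orders and `m` equivalence relations.
-/

set_option autoImplicit false

namespace Pool.Agent.Helper29.C2

open Pool.Agent.Helper20.Spectra Pool.Agent.Helper20 Pool.Agent.Helper29.Prefix
  Pool.Agent.Helper80.NF

/-- Reducts: the spectra over a class are spectra over a richer class. -/
theorem c2Spec_reduct {Λ Λ' : Type} (g : Λ → Λ') {bg : ∀ A : Type, (Λ → A → A → Prop) → Prop}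
    {bg' : ∀ A : Type, (Λ' → A → A → Prop) → Prop}
    (h1 : ∀ (n : ℕ) (o' : Λ' → Fin n → Fin n → Prop), 1 ≤ n → bg' (Fin n) o' →
      bg (Fin n) (fun l => o' (g l)))
    (h2 : ∀ (n : ℕ) (o : Λ → Fin n → Fin n → Prop), 1 ≤ n → bg (Fin n) o →
      ∃ o', bg' (Fin n) o' ∧ (fun l => o' (g l)) = o)
    {S : Set ℕ} (h : C2Spec bg S) : C2Spec bg' S := by
  obtain ⟨U, V, hU, hV, Φ, rfl⟩ := h
  refine ⟨U, V, hU, hV, Φ.map g, Set.ext fun n => and_congr_right fun hn => ?_⟩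
  constructor
  · rintro ⟨M, h3, h4⟩
    obtain ⟨o', h5, h6⟩ := h2 n M.ord hn h3
    refine ⟨⟨o', M.un, M.bin⟩, h5, fun e => ?_⟩
    rw [sat_map]
    show Sat ⟨fun l => o' (g l), M.un, M.bin⟩ Φ e
    rw [h6]
    exact h4 e
  · rintro ⟨M, h3, h4⟩
    exact ⟨⟨fun l => M.ord (g l), M.un, M.bin⟩, h1 n _ hn h3, fun e => (sat_map _ _ _ _).1 (h4 e)⟩

theorem univ3_KM (k m : ℕ) : Univ3 (KM k m) := by
  refine ⟨fun o e => (∀ i, ¬ o (Sum.inl i) 0 0 ∧ (o (Sum.inl i) 0 1 → o (Sum.inl i) 1 2 →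
      o (Sum.inl i) 0 2) ∧ (¬ e 0 1 → o (Sum.inl i) 0 1 ∨ o (Sum.inl i) 1 0)) ∧
    (∀ j, o (Sum.inr j) 0 0 ∧ (o (Sum.inr j) 0 1 → o (Sum.inr j) 1 0) ∧
      (o (Sum.inr j) 0 1 → o (Sum.inr j) 1 2 → o (Sum.inr j) 0 2)), fun A ord => ?_⟩
  constructor
  · rintro ⟨h1, h2⟩ v
    exact ⟨fun i => ⟨(h1 i).irr _, (h1 i).trans _ _ _, (h1 i).total _ _⟩,
      fun j => ⟨(h2 j).refl _, fun h => (h2 j).symm h, fun h h' => (h2 j).trans h h'⟩⟩
  · intro h
    refine ⟨fun i => ⟨fun x => ((h (fun _ => x)).1 i).1, fun x y z hxy hyz =>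
      ((h ![x, y, z]).1 i).2.1 hxy hyz, fun x y hxy => ((h ![x, y, x]).1 i).2.2 hxy⟩,
      fun j => ⟨fun x => ((h (fun _ => x)).2 j).1, fun {x y} hxy => ((h ![x, y, x]).2 j).2.1 hxy,
        fun {x y z} hxy hyz => ((h ![x, y, z]).2 j).2.2 hxy hyz⟩⟩

/-- More orders and equivalences. -/
theorem km_mono {k m k' m' : ℕ} (hk : k ≤ k') (hm : m ≤ m') {S : Set ℕ}
    (h : C2Spec (KM k m) S) : C2Spec (KM k' m') S := by
  refine c2Spec_reduct (Sum.map (Fin.castLE hk) (Fin.castLE hm)) ?_ ?_ h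
  · rintro n o' _ ⟨h1, h2⟩
    exact ⟨fun i => h1 _, fun j => h2 _⟩
  · rintro n o _ ⟨h1, h2⟩
    refine ⟨fun l => match l with
      | Sum.inl i => if hi : i.1 < k then o (Sum.inl ⟨i.1, hi⟩) else fun x y => x < y
      | Sum.inr j => if hj : j.1 < m then o (Sum.inr ⟨j.1, hj⟩) else fun x y => x = y,
      ⟨fun i => ?_, fun j => ?_⟩, ?_⟩
    · show IsLin (if hi : i.1 < k then o (Sum.inl ⟨i.1, hi⟩) else fun x y => x < y)
      split_ifs with hi
      · exact h1 _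
      · exact ⟨fun x => lt_irrefl x, fun x y z => lt_trans, fun x y hxy => lt_or_gt_of_ne hxy⟩
    · show Equivalence (if hj : j.1 < m then o (Sum.inr ⟨j.1, hj⟩) else fun x y => x = y)
      split_ifs with hj
      · exact h2 _
      · exact ⟨fun x => rfl, fun h => h.symm, fun h h' => h.trans h'⟩
    · funext l
      rcases l with i | j
      · show (if hi : (Fin.castLE hk i).1 < k then o (Sum.inl ⟨(Fin.castLE hk i).1, hi⟩)
          else fun x y => x < y) = _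
        rw [dif_pos (by simp)]
        rfl
      · show (if hj : (Fin.castLE hm j).1 < m then o (Sum.inr ⟨(Fin.castLE hm j).1, hj⟩)
          else fun x y => x = y) = _
        rw [dif_pos (by simp)]
        rfl

theorem ordSpectrum_of_km {k : ℕ} {S : Set ℕ} (h : C2Spec (KM k 0) S) : OrdSpectrum k S := by
  have h1 : C2Spec (fun A (R : Fin k → A → A → Prop) => ∀ i, IsLin (R i)) S := by
    refine c2Spec_reduct (Sum.elim id (fun j : Fin 0 => j.elim0)) ?_ ?_ h
    · intro n o' _ h1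
      exact ⟨fun i => h1 i, fun j => j.elim0⟩
    · rintro n o _ ⟨h1, h2⟩
      refine ⟨fun i => o (Sum.inl i), h1, ?_⟩
      funext l
      rcases l with i | j
      · rfl
      · exact j.elim0
  obtain ⟨U, V, hU, hV, Φ, rfl⟩ := h1
  exact ⟨U, V, hU, hV, Φ, fun n => Iff.rfl⟩

theorem eqSpectrum_of_km {m : ℕ} {S : Set ℕ} (h : C2Spec (KM 0 m) S) : EqSpectrum m S := by
  have h1 : C2Spec (fun A (R : Fin m → A → A → Prop) => ∀ i, Equivalence (R i)) S := by
    refine c2Spec_reduct (Sum.elim (fun j : Fin 0 => j.elim0) id) ?_ ?_ h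
    · intro n o' _ h1
      exact ⟨fun j => j.elim0, fun i => h1 i⟩
    · rintro n o _ ⟨h1, h2⟩
      refine ⟨fun i => o (Sum.inr i), h2, ?_⟩
      funext l
      rcases l with i | j
      · exact i.elim0
      · rfl
  obtain ⟨U, V, hU, hV, Φ, rfl⟩ := h1
  exact ⟨U, V, hU, hV, Φ, fun n => Iff.rfl⟩

theorem km_of_ordSpectrum {k m : ℕ} {S : Set ℕ} (h : OrdSpectrum k S) : C2Spec (KM k m) S := by
  obtain ⟨U, V, hU, hV, Φ, h⟩ := h
  have h1 : C2Spec (fun A (R : Fin k → A → A → Prop) => ∀ i, IsLin (R i)) S :=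
    ⟨U, V, hU, hV, Φ, Set.ext h⟩
  refine c2Spec_reduct Sum.inl ?_ ?_ h1
  · rintro n o' _ ⟨h2, _⟩
    exact h2
  · intro n o _ h2
    exact ⟨Sum.elim o (fun _ x y => x = y), ⟨h2, fun j => ⟨fun x => rfl, fun h => h.symm,
      fun h h' => h.trans h'⟩⟩, rfl⟩

/-- **At most one linear order or equivalence relation: ultimately periodic.** -/
theorem km_ultPeriodic {k m : ℕ} (hkm : k + m ≤ 1) {S : Set ℕ} (h : C2Spec (KM k m) S) :
    OP.UltPeriodic S := by
  rcases Nat.eq_zero_or_pos k with rfl | hk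
  · exact (eqSpectrum_of_km h).ultPeriodic (by omega)
  · obtain rfl : m = 0 := by omega
    exact (ordSpectrum_of_km h).ultPeriodic (by omega)

/-- Universality is monotone. -/
theorem univ_mono {C C' : Set ℕ → Prop} (h : ∀ S, C S → C' S) (hC : PV.Univ C) : PV.Univ C' := by
  intro Θ
  obtain ⟨p, S, hS, hp⟩ := hC Θ
  exact ⟨p, S, h S hS, hp⟩

/-- The mixed case. -/
def OneOne (A : Type) (R : Fin 2 → A → A → Prop) : Prop := IsLin (R 0) ∧ Equivalence (R 1)

theorem km_univ (h11 : PV.Univ (C2Spec OneOne)) {k m : ℕ} (hkm : 2 ≤ k + m) :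
    PV.Univ (C2Spec (KM k m)) := by
  by_cases hk : 2 ≤ k
  · exact univ_mono (fun S hS => km_of_ordSpectrum hS) (univ_orders hk)
  by_cases hk0 : k = 0
  · refine univ_mono (fun S hS => ?_) Pool.Agent.Helper80.TE.univ_twoEq
    subst hk0
    refine km_mono (k := 0) (m := 2) le_rfl (by omega) ?_
    refine c2Spec_reduct (fun i => Sum.inr i) ?_ ?_ hS
    · rintro n o' _ ⟨_, h2⟩
      exact ⟨h2 0, h2 1⟩
    · rintro n o _ ⟨h1, h2⟩
      refine ⟨Sum.elim (fun i => i.elim0) o, ⟨fun i => i.elim0, fun j => ?_⟩, rfl⟩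
      fin_cases j
      · exact h1
      · exact h2
  · obtain rfl : k = 1 := by omega
    refine univ_mono (fun S hS => ?_) h11
    refine km_mono (k := 1) (m := 1) le_rfl (by omega) ?_
    refine c2Spec_reduct (fun i => if i = 0 then Sum.inl 0 else Sum.inr 0) ?_ ?_ hS
    · rintro n o' _ ⟨h1, h2⟩
      exact ⟨h1 0, h2 0⟩
    · rintro n o _ ⟨h1, h2⟩
      refine ⟨Sum.elim (fun _ => o 0) (fun _ => o 1), ⟨fun _ => h1, fun _ => h2⟩, ?_⟩
      funext l
      fin_cases l <;> rfl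

end Pool.Agent.Helper29.C2
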