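import Pool.Agent.Helper38.EX.C2Clause

/-!
Two-variable logic with counting over finitely many relations of given kinds.
-/

set_option autoImplicit false

namespace Pool.Agent.Helper29.C2

open Pool.Agent.Helper20.Spectra Pool.Agent.Helper20 Pool.Agent.Helper80.NF

/-- Kinds of binary relations. -/
inductive Kind : Type
  /-- strict linear orders -/
  | linear
  /-- strict weak orders -/
  | weak
  /-- equivalence relations -/
  | equiv
  /-- forest orders: strict partial orders in which the elements below any element form a chain -/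
  | forest
  /-- strict partial orders without an induced `N` -/
  | nfree
  /-- strict partial orders of width at most `2` -/
  | width2
  /-- strict partial orders of height at most `3` -/
  | height3
  /-- strict partial orders -/
  | order
  /-- reflexive and transitive relations -/
  | preorder
  /-- transitive relations -/
  | transitive

/-- Strict weak orders. -/
structure WeakOrd {A : Type} (lt : A → A → Prop) : Prop where
  irr : ∀ x, ¬ lt x x
  trans : ∀ x y z, lt x y → lt y z → lt x z
  weak : ∀ x y z, lt x y → lt x z ∨ lt z y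

/-- Forest orders: strict partial orders in which the elements below any element form a chain. -/
structure ForestOrd {A : Type} (lt : A → A → Prop) : Prop where
  irr : ∀ x, ¬ lt x x
  trans : ∀ x y z, lt x y → lt y z → lt x z
  chain : ∀ x y z, lt x z → lt y z → x = y ∨ lt x y ∨ lt y x

/-- The relation `R` on `A` is of the given kind. -/
def Kind.Holds {A : Type} (R : A → A → Prop) : Kind → Prop
  | linear => IsLin R
  | weak => WeakOrd R
  | equiv => Equivalence R
  | forest => ForestOrd R
  | nfree => NFree R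
  | width2 => POrdW 2 A (fun _ => R)
  | height3 => POrdH 3 A (fun _ => R)
  | order => POrd A (fun _ => R)
  | preorder => (∀ x, R x x) ∧ ∀ x y z, R x y → R y z → R x z
  | transitive => ∀ x y z, R x y → R y z → R x z

/-- The first five kinds. -/
def Kind.IsTame : Kind → Prop
  | linear | weak | equiv | forest | nfree => True
  | width2 | height3 | order | preorder | transitive => False

/-- The background: for every `i` one relation `R i` of kind `κ i`. -/
def Background {ι : Type} (κ : ι → Kind) (A : Type) (R : ι → A → A → Prop) : Prop :=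
  ∀ i, (κ i).Holds (R i)

/-! ### Universal classes -/

variable {Λ : Type}

theorem UnivN.mono {r r' : ℕ} (h0 : 0 < r) (h : r ≤ r') {K : ∀ A : Type, (Λ → A → A → Prop) → Prop}
    (hK : UnivN r K) : UnivN r' K := by
  obtain ⟨B, hB⟩ := hK
  refine ⟨fun o e => B (fun l i j => o l (Fin.castLE h i) (Fin.castLE h j))
    (fun i j => e (Fin.castLE h i) (Fin.castLE h j)), fun A R => ?_⟩
  rw [hB]
  constructor
  · intro H v
    exact H (fun i => v (Fin.castLE h i))
  · intro H v
    have key : ∀ i : Fin r, (fun i : Fin r' => if hi : i.1 < r then v ⟨i.1, hi⟩ else v ⟨0, h0⟩)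
        (Fin.castLE h i) = v i := by
      intro i
      show (if hi : i.1 < r then v ⟨i.1, hi⟩ else v ⟨0, h0⟩) = v i
      rw [dif_pos i.2]
    have h1 := H (fun i => if hi : i.1 < r then v ⟨i.1, hi⟩ else v ⟨0, h0⟩)
    have e1 : (fun (l : Λ) (i j : Fin r) => R l
        ((fun i : Fin r' => if hi : i.1 < r then v ⟨i.1, hi⟩ else v ⟨0, h0⟩) (Fin.castLE h i))
        ((fun i : Fin r' => if hi : i.1 < r then v ⟨i.1, hi⟩ else v ⟨0, h0⟩) (Fin.castLE h j))) =
        fun l i j => R l (v i) (v j) := by
      funext l i j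
      rw [key, key]
    have e2 : (fun (i j : Fin r) =>
        ((fun i : Fin r' => if hi : i.1 < r then v ⟨i.1, hi⟩ else v ⟨0, h0⟩) (Fin.castLE h i)) =
        ((fun i : Fin r' => if hi : i.1 < r then v ⟨i.1, hi⟩ else v ⟨0, h0⟩) (Fin.castLE h j))) =
        fun i j => v i = v j := by
      funext i j
      rw [key, key]
    rw [← e1, ← e2]
    exact h1

/-- the class of the single relations of the given kind -/
def Kind.Cls (κ : Kind) (A : Type) (R : Unit → A → A → Prop) : Prop := κ.Holds (R ())

theorem Kind.univN : ∀ κ : Kind, UnivN 6 κ.Cls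
  | linear => by
    refine UnivN.mono (r := 3) (by omega) (by omega) ?_
    refine ⟨fun o e => ¬ o () 0 0 ∧ (o () 0 1 → o () 1 2 → o () 0 2) ∧ (¬ e 0 1 → o () 0 1 ∨ o () 1 0), fun A R => ?_⟩
    constructor
    · intro h v
      exact ⟨h.irr _, h.trans _ _ _, h.total _ _⟩
    · intro H
      exact ⟨fun x => (H fun _ => x).1, fun x y z => (H ![x, y, z]).2.1, fun x y => (H ![x, y, y]).2.2⟩
  | weak => by
    refine UnivN.mono (r := 3) (by omega) (by omega) ?_
    refine ⟨fun o _ => ¬ o () 0 0 ∧ (o () 0 1 → o () 1 2 → o () 0 2) ∧ (o () 0 1 → o () 0 2 ∨ o () 2 1), fun A R => ?_⟩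
    constructor
    · intro h v
      exact ⟨h.irr _, h.trans _ _ _, h.weak _ _ _⟩
    · intro H
      exact ⟨fun x => (H fun _ => x).1, fun x y z => (H ![x, y, z]).2.1, fun x y z => (H ![x, y, z]).2.2⟩
  | equiv => by
    refine UnivN.mono (r := 3) (by omega) (by omega) ?_
    refine ⟨fun o _ => o () 0 0 ∧ (o () 0 1 → o () 1 0) ∧ (o () 0 1 → o () 1 2 → o () 0 2), fun A R => ?_⟩
    constructor
    · intro h v
      exact ⟨h.refl _, h.symm, h.trans⟩
    · intro H
      exact ⟨fun x => (H fun _ => x).1, fun {x y} => (H ![x, y, y]).2.1, fun {x y z} => (H ![x, y, z]).2.2⟩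
  | forest => by
    refine UnivN.mono (r := 3) (by omega) (by omega) ?_
    refine ⟨fun o e => ¬ o () 0 0 ∧ (o () 0 1 → o () 1 2 → o () 0 2) ∧
      (o () 0 2 → o () 1 2 → e 0 1 ∨ o () 0 1 ∨ o () 1 0), fun A R => ?_⟩
    constructor
    · intro h v
      exact ⟨h.irr _, h.trans _ _ _, h.chain _ _ _⟩
    · intro H
      exact ⟨fun x => (H fun _ => x).1, fun x y z => (H ![x, y, z]).2.1, fun x y z => (H ![x, y, z]).2.2⟩
  | nfree => by
    refine UnivN.mono (r := 4) (by omega) (by omega) ?_
    refine ⟨fun o _ => ¬ o () 0 0 ∧ (o () 0 1 → o () 1 2 → o () 0 2) ∧ (o () 0 2 → o () 1 2 → o () 1 3 →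
      o () 0 1 ∨ o () 1 0 ∨ o () 0 3 ∨ o () 3 0 ∨ o () 2 3 ∨ o () 3 2), fun A R => ?_⟩
    constructor
    · intro h v
      exact ⟨h.irr _, h.trans _ _ _, h.nfree _ _ _ _⟩
    · intro H
      exact ⟨fun x => (H fun _ => x).1, fun x y z => (H ![x, y, z, z]).2.1,
        fun a b c d => (H ![a, b, c, d]).2.2⟩
  | width2 => by
    exact univN_pOrdW 2
  | height3 => by
    have h1 : UnivN 6 (POrdH 3) := by
      rw [← eq_of_iff (pOrdH_iff 3)]
      exact Pool.Agent.Helper80.PO.univN_pOrdH 3
    exact h1
  | order => by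
    refine UnivN.mono (r := 3) (by omega) (by omega) ?_
    refine ⟨fun o _ => ¬ o () 0 0 ∧ (o () 0 1 → o () 1 2 → o () 0 2), fun A R => ?_⟩
    constructor
    · intro h v
      exact ⟨h.irr _, h.trans _ _ _⟩
    · intro H
      exact ⟨fun x => (H fun _ => x).1, fun x y z => (H ![x, y, z]).2⟩
  | preorder => by
    refine UnivN.mono (r := 3) (by omega) (by omega) ?_
    refine ⟨fun o _ => o () 0 0 ∧ (o () 0 1 → o () 1 2 → o () 0 2), fun A R => ?_⟩
    constructor
    · intro h v
      exact ⟨h.1 _, h.2 _ _ _⟩
    · intro H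
      exact ⟨fun x => (H fun _ => x).1, fun x y z => (H ![x, y, z]).2⟩
  | transitive => by
    refine UnivN.mono (r := 3) (by omega) (by omega) ?_
    refine ⟨fun o _ => (o () 0 1 → o () 1 2 → o () 0 2), fun A R => ?_⟩
    constructor
    · intro h v
      exact h _ _ _
    · intro H
      exact fun x y z => (H ![x, y, z])

theorem univN_background {ι : Type} (κ : ι → Kind) : UnivN 6 (Background κ) := by
  choose B hB using fun i => (κ i).univN
  refine ⟨fun o e => ∀ i, B i (fun _ => o i) e, fun A R => ?_⟩
  constructor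
  · intro h v i
    exact (hB i A (fun _ => R i)).1 (h i) v
  · intro H i
    exact (hB i A (fun _ => R i)).2 fun v => H v i

end Pool.Agent.Helper29.C2
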