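import Pool.Agent.Helper29.C2.Kinds

/-!
Two-variable logic with counting over finitely many relations of given kinds: tame and wild lists.
-/

set_option autoImplicit false

namespace Pool.Agent.Helper29.C2

open Pool.Agent.Helper20.Spectra Pool.Agent.Helper20 Pool.Agent.Helper80.NF

variable {Λ Λ' : Type}

/-! ### Tame kinds -/

/-- Universal subclasses of tame classes are tame. -/
theorem Tame.inter_univN [Finite Λ] {K K' : ∀ A : Type, (Λ → A → A → Prop) → Prop} (h : Tame K) {r : ℕ}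
    (hK : UnivN r K') (hle : ∀ A R, K' A R → K A R) : Tame K' := by
  intro U V _ _ Φ Ψ
  obtain ⟨κ, hκ⟩ := exists_mso_univ (U := U) hK
  have h1 := h U V Φ (Mso.and κ Ψ)
  have e : {n | 1 ≤ n ∧ ∃ M : Str Λ U V (Fin n), K (Fin n) M.ord ∧ (∀ e, Sat M Φ e) ∧
      MSat M.ord M.un (Mso.and κ Ψ) (fun _ => ∅)} = {n | 1 ≤ n ∧ ∃ M : Str Λ U V (Fin n),
      K' (Fin n) M.ord ∧ (∀ e, Sat M Φ e) ∧ MSat M.ord M.un Ψ (fun _ => ∅)} := by
    ext n
    constructor
    · rintro ⟨hn, M, _, h3, h4, h5⟩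
      exact ⟨hn, M, (hκ _ _ _ _).1 h4, h3, h5⟩
    · rintro ⟨hn, M, h2, h3, h5⟩
      exact ⟨hn, M, hle _ _ h2, h3, (hκ _ _ _ _).2 h2, h5⟩
  rwa [e] at h1

theorem WeakOrd.nfree {A : Type} {R : A → A → Prop} (h : WeakOrd R) : NFree R where
  irr := h.irr
  trans := h.trans
  nfree a b c d h1 _ _ := by
    rcases h.weak a c d h1 with h2 | h2
    · exact Or.inr (Or.inr (Or.inl h2))
    · exact Or.inr (Or.inr (Or.inr (Or.inr (Or.inr h2))))

theorem ForestOrd.nfree {A : Type} {R : A → A → Prop} (h : ForestOrd R) : NFree R where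
  irr := h.irr
  trans := h.trans
  nfree a b c d h1 h2 h3 := by
    rcases h.chain a b c h1 h2 with rfl | h4 | h4
    · exact Or.inr (Or.inr (Or.inl h3))
    · exact Or.inl h4
    · exact Or.inr (Or.inl h4)

theorem Kind.IsTame.tame {κ : Kind} (h : κ.IsTame) : Tame κ.Cls := by
  cases κ with
  | linear =>
    refine (tame_km (k := 1) (m := 0) (by omega)).reduct (fun _ => Sum.inl 0) ?_ ?_
    · intro n o' _ h1
      exact h1.1 0
    · intro n o _ h1
      exact ⟨Sum.elim (fun _ => o ()) (fun j => j.elim0), ⟨fun _ => h1, fun j => j.elim0⟩, rfl⟩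
  | weak => exact tame_nfree.inter_univN (Kind.univN .weak) fun A R h => WeakOrd.nfree h
  | equiv =>
    refine (tame_km (k := 0) (m := 1) (by omega)).reduct (fun _ => Sum.inr 0) ?_ ?_
    · intro n o' _ h1
      exact h1.2 0
    · intro n o _ h1
      exact ⟨Sum.elim (fun j => j.elim0) (fun _ => o ()), ⟨fun j => j.elim0, fun _ => h1⟩, rfl⟩
  | forest => exact tame_nfree.inter_univN (Kind.univN .forest) fun A R h => ForestOrd.nfree h
  | nfree => exact tame_nfree
  | width2 => exact h.elim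
  | height3 => exact h.elim
  | order => exact h.elim
  | preorder => exact h.elim
  | transitive => exact h.elim

theorem tame_background {ι : Type} {κ : ι → Kind} (h : ∀ i j : ι, i = j) (h' : ∀ i, (κ i).IsTame) :
    Tame (Background κ) := by
  by_cases hi : Nonempty ι
  · obtain ⟨i⟩ := hi
    refine (h' i).tame.reduct (fun _ => ()) ?_ ?_
    · intro n o' _ h1 j
      rw [h j i]
      exact h1
    · intro n o _ h1
      refine ⟨fun _ => o i, h1 i, ?_⟩
      funext j
      rw [h j i]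
  · refine (tame_km (k := 0) (m := 0) (by omega)).reduct (fun i => (hi ⟨i⟩).elim) ?_ ?_
    · intro n o' _ _ j
      exact (hi ⟨j⟩).elim
    · intro n o _ _
      refine ⟨Sum.elim (fun j => j.elim0) (fun j => j.elim0), ⟨fun j => j.elim0, fun j => j.elim0⟩, ?_⟩
      funext j
      exact (hi ⟨j⟩).elim

/-! ### Wild lists -/

/-- Every kind contains a relation on every finite nonempty set. -/
theorem Kind.exists_holds (κ : Kind) (n : ℕ) : ∃ R : Fin n → Fin n → Prop, κ.Holds R := by
  have hlin : IsLin (fun x y : Fin n => x < y) :=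
    ⟨fun x => lt_irrefl x, fun x y z => lt_trans, fun x y hxy => lt_or_gt_of_ne hxy⟩
  cases κ with
  | linear => exact ⟨_, hlin⟩
  | weak => exact ⟨fun x y => x < y, hlin.irr, hlin.trans, fun x y z h => by
      rcases lt_or_ge x z with h1 | h1
      · exact Or.inl h1
      · exact Or.inr (lt_of_le_of_lt h1 h)⟩
  | equiv => exact ⟨fun x y => x = y, fun x => rfl, fun h => h.symm, fun h h' => h.trans h'⟩
  | forest => exact ⟨fun x y => x < y, hlin.irr, hlin.trans, fun x y z _ _ => by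
      rcases lt_trichotomy x y with h1 | h1 | h1
      · exact Or.inr (Or.inl h1)
      · exact Or.inl h1
      · exact Or.inr (Or.inr h1)⟩
  | nfree => exact ⟨fun x y => x < y, hlin.irr, hlin.trans, fun a b c d h1 _ _ => by
      rcases lt_or_ge a d with h2 | h2
      · exact Or.inr (Or.inr (Or.inl h2))
      · exact Or.inr (Or.inr (Or.inr (Or.inr (Or.inr (lt_of_le_of_lt h2 h1)))))⟩
  | width2 =>
    refine ⟨fun x y => x < y, ⟨hlin.irr, hlin.trans⟩, fun v hv => ?_⟩
    rcases lt_or_gt_of_ne (fun e : v 0 = v 1 => absurd (hv e) (by decide)) with h | h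
    · exact ⟨0, 1, h⟩
    · exact ⟨1, 0, h⟩
  | height3 =>
    exact ⟨fun _ _ => False, ⟨fun _ h => h, fun _ _ _ h _ => h⟩, fun v h => h 0 1 (by decide)⟩
  | order => exact ⟨fun x y => x < y, hlin.irr, hlin.trans⟩
  | preorder => exact ⟨fun x y => x = y, fun x => rfl, fun x y z h h' => h.trans h'⟩
  | transitive => exact ⟨fun x y => x < y, hlin.trans⟩

/-- Relativization to a subclass defined by a two-variable formula. -/
theorem c2_relativize {K K' : ∀ A : Type, (Λ → A → A → Prop) → Prop} (q : ∀ U V : Type, Fm Λ U V)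
    (hq : ∀ (U V : Type) (n : ℕ) (M : Str Λ U V (Fin n)), 1 ≤ n →
      (K (Fin n) M.ord ↔ (K' (Fin n) M.ord ∧ ∀ e, Sat M (q U V) e))) {S : Set ℕ}
    (h : C2Spectrum K S) : C2Spectrum K' S := by
  obtain ⟨U, V, hU, hV, Φ, rfl⟩ := h
  refine ⟨U, V, hU, hV, Fm.and (q U V) Φ, Set.ext fun n => and_congr_right fun hn => ?_⟩
  constructor
  · rintro ⟨M, h3, h4⟩
    obtain ⟨h5, h6⟩ := (hq U V n M hn).1 h3
    exact ⟨M, h5, fun e => ⟨h6 e, h4 e⟩⟩
  · rintro ⟨M, h3, h4⟩
    exact ⟨M, (hq U V n M hn).2 ⟨h3, fun e => (h4 e).1⟩, fun e => (h4 e).2⟩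

/-- formulas about the strict part of the background relations -/
def Fm.strict {U V : Type} : Fm Λ U V → Fm Λ U V
  | Fm.eq => Fm.eq
  | Fm.ord l v => Fm.and (Fm.ord l v) (Fm.neg Fm.eq)
  | Fm.un P v => Fm.un P v
  | Fm.bin E v w => Fm.bin E v w
  | Fm.neg φ => Fm.neg φ.strict
  | Fm.and φ ψ => Fm.and φ.strict ψ.strict
  | Fm.ex k v φ => Fm.ex k v φ.strict

theorem sat_strict {U V A : Type} (M : Str Λ U V A) (φ : Fm Λ U V) (e : Bool → A) :
    Sat M φ.strict e ↔ Sat ⟨fun l x y => M.ord l x y ∧ x ≠ y, M.un, M.bin⟩ φ e := by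
  induction φ generalizing e with
  | eq => exact Iff.rfl
  | ord l v =>
    show (M.ord l (e v) (e (!v)) ∧ ¬ e true = e false) ↔ (M.ord l (e v) (e (!v)) ∧ e v ≠ e (!v))
    refine and_congr_right fun _ => not_congr ?_
    cases v
    · exact eq_comm
    · exact Iff.rfl
  | un P v => exact Iff.rfl
  | bin E v w => exact Iff.rfl
  | neg φ ih => exact not_congr (ih e)
  | and φ ψ ih1 ih2 => exact and_congr (ih1 e) (ih2 e)
  | ex k v φ ih =>
    show k ≤ Nat.card {a : A // Sat M φ.strict (Function.update e v a)} ↔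
      k ≤ Nat.card {a : A // Sat ⟨fun l x y => M.ord l x y ∧ x ≠ y, M.un, M.bin⟩ φ (Function.update e v a)}
    have h1 : ∀ a, Sat M φ.strict (Function.update e v a) =
        Sat ⟨fun l x y => M.ord l x y ∧ x ≠ y, M.un, M.bin⟩ φ (Function.update e v a) :=
      fun a => propext (ih _)
    rw [show (fun a => Sat M φ.strict (Function.update e v a)) = _ from funext h1]

theorem univ_order : PV.Univ (C2Spectrum (Kind.Cls .order)) := by
  have h1 := Pool.Agent.Helper80.PO.univ_pOrd
  rw [eq_of_iff pOrd_iff] at h1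
  exact univ_mono (fun S hS => hS) h1

theorem univ_transitive : PV.Univ (C2Spectrum (Kind.Cls .transitive)) := by
  refine univ_mono (fun S hS => ?_) univ_order
  refine c2_relativize (fun U V => Fm.neg (Fm.and Fm.eq (Fm.ord () true))) (fun U V n M hn => ?_) hS
  constructor
  · intro h
    refine ⟨h.trans, ?_⟩
    rintro e ⟨h1, h2⟩
    have h1' : e true = e false := h1
    have h2' : M.ord () (e true) (e false) := h2
    rw [h1'] at h2'
    exact h.irr _ h2'
  · rintro ⟨h1, h2⟩
    exact ⟨fun x hx => h2 (fun _ => x) ⟨rfl, hx⟩, h1⟩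

theorem univ_preorder : PV.Univ (C2Spectrum (Kind.Cls .preorder)) := by
  refine univ_mono (fun S hS => ?_) univ_order
  obtain ⟨U, V, hU, hV, Φ, rfl⟩ := hS
  refine ⟨U, V, hU, hV, Fm.and (Fm.neg (Fm.and (Fm.neg Fm.eq) (Fm.and (Fm.ord () true) (Fm.ord () false))))
    Φ.strict, Set.ext fun n => and_congr_right fun hn => ?_⟩
  constructor
  · rintro ⟨M, h3, h4⟩
    refine ⟨⟨fun l x y => M.ord l x y ∨ x = y, M.un, M.bin⟩, ⟨fun x => Or.inr rfl, fun x y z h5 h6 => ?_⟩,
      fun e => ⟨?_, ?_⟩⟩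
    · rcases h5 with h5 | rfl
      · rcases h6 with h6 | rfl
        · exact Or.inl (h3.trans _ _ _ h5 h6)
        · exact Or.inl h5
      · exact h6
    · rintro ⟨h5, h6, h7⟩
      have h5' : ¬ e true = e false := h5
      have h6' : M.ord () (e true) (e false) ∨ e true = e false := h6
      have h7' : M.ord () (e false) (e true) ∨ e false = e true := h7
      rcases h6' with h6' | h6'
      · rcases h7' with h7' | h7'
        · exact h3.irr _ (h3.trans _ _ _ h6' h7')
        · exact h5' h7'.symm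
      · exact h5' h6'
    · rw [sat_strict]
      have e1 : (fun (l : Unit) (x y : Fin n) => (M.ord l x y ∨ x = y) ∧ x ≠ y) = M.ord := by
        funext l x y
        refine propext ⟨fun h => h.1.resolve_right h.2, fun h => ⟨Or.inl h, fun h5 => ?_⟩⟩
        subst h5
        exact h3.irr _ h
      show Sat ⟨fun (l : Unit) (x y : Fin n) => (M.ord l x y ∨ x = y) ∧ x ≠ y, M.un, M.bin⟩ Φ e
      rw [e1]
      exact h4 e
  · rintro ⟨M, h3, h4⟩
    have hanti : ∀ x y, x ≠ y → M.ord () x y → ¬ M.ord () y x := by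
      intro x y h5 h6 h7
      exact (h4 (fun b => if b then x else y)).1 ⟨h5, h6, h7⟩
    refine ⟨⟨fun l x y => M.ord l x y ∧ x ≠ y, M.un, M.bin⟩, ⟨fun x h => h.2 rfl, fun x y z h5 h6 =>
      ⟨h3.2 _ _ _ h5.1 h6.1, ?_⟩⟩, fun e => (sat_strict _ _ _).1 (h4 e).2⟩
    rintro rfl
    exact hanti _ _ h5.2 h5.1 h6.1

theorem univ_of_not_tame {κ : Kind} (h : ¬ κ.IsTame) : PV.Univ (C2Spectrum κ.Cls) := by
  cases κ with
  | linear => exact (h trivial).elim
  | weak => exact (h trivial).elim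
  | equiv => exact (h trivial).elim
  | forest => exact (h trivial).elim
  | nfree => exact (h trivial).elim
  | width2 =>
    refine univ_mono (fun S hS => hS) (Pool.Agent.Helper74.P2.univ_po (Kind.Cls .width2)
      (fun A R h => ⟨h.po.irr, h.po.trans⟩) (fun A R h => ⟨⟨h.po.irr, h.po.trans⟩, fun v hv => ?_⟩))
    have ne : ∀ i j : Fin 3, i ≠ j → v i ≠ v j := fun i j hij e => hij (hv e)
    rcases h.wid (v 0) (v 1) (v 2) (ne _ _ (by decide)) (ne _ _ (by decide)) (ne _ _ (by decide)) with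
      h1 | h1 | h1 | h1 | h1 | h1
    · exact ⟨0, 1, h1⟩
    · exact ⟨1, 0, h1⟩
    · exact ⟨1, 2, h1⟩
    · exact ⟨2, 1, h1⟩
    · exact ⟨0, 2, h1⟩
    · exact ⟨2, 0, h1⟩
  | height3 =>
    have h1 := Pool.Agent.Helper80.PO.univ_pOrdH (h := 3) le_rfl
    rw [eq_of_iff (pOrdH_iff 3)] at h1
    exact univ_mono (fun S hS => hS) h1
  | order => exact univ_order
  | preorder => exact univ_preorder
  | transitive => exact univ_transitive

end Pool.Agent.Helper29.C2
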