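import Pool.Agent.Helper29.C2.Kinds2
import Pool.Agent.Helper29.EX.Hier2

/-!
Two-variable logic with counting over finitely many relations of given kinds: the dichotomy.
-/

set_option autoImplicit false

namespace Pool.Agent.Helper29.C2

open Pool.Agent.Helper20.Spectra Pool.Agent.Helper20 Pool.Agent.Helper80.NF Pool.Agent.Helper38.EX

/-- two relations of given kinds -/
def PairK (a b : Kind) (A : Type) (R : Bool → A → A → Prop) : Prop := a.Holds (R true) ∧ b.Holds (R false)

theorem pairK_le {ι : Type} {κ : ι → Kind} {i j : ι} (hij : i ≠ j) {S : Set ℕ}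
    (h : C2Spectrum (PairK (κ i) (κ j)) S) : C2Spectrum (Background κ) S := by
  classical
  refine c2Spec_reduct (fun b => if b = true then i else j) ?_ ?_ h
  · intro n o' _ h1
    exact ⟨h1 i, h1 j⟩
  · rintro n o _ ⟨h1, h2⟩
    choose R hR using fun l => (κ l).exists_holds n
    refine ⟨fun l => if l = i then o true else if l = j then o false else R l, fun l => ?_, ?_⟩
    · by_cases hl : l = i
      · subst hl
        show (κ l).Holds (if l = l then o true else if l = j then o false else R l)
        rw [if_pos rfl]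
        exact h1
      · by_cases hl' : l = j
        · subst hl'
          show (κ l).Holds (if l = i then o true else if l = l then o false else R l)
          rw [if_neg hl, if_pos rfl]
          exact h2
        · show (κ l).Holds (if l = i then o true else if l = j then o false else R l)
          rw [if_neg hl, if_neg hl']
          exact hR l
    · funext b
      cases b
      · show (if j = i then o true else if j = j then o false else R j) = o false
        rw [if_neg hij.symm, if_pos rfl]
      · show (if i = i then o true else if i = j then o false else R i) = o true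
        rw [if_pos rfl]

theorem single_le {ι : Type} {κ : ι → Kind} (i : ι) {S : Set ℕ}
    (h : C2Spectrum (κ i).Cls S) : C2Spectrum (Background κ) S := by
  classical
  refine c2Spec_reduct (fun _ => i) ?_ ?_ h
  · intro n o' _ h1
    exact h1 i
  · intro n o _ h1
    choose R hR using fun l => (κ l).exists_holds n
    refine ⟨fun l => if l = i then o () else R l, fun l => ?_, ?_⟩
    · by_cases hl : l = i
      · subst hl
        show (κ l).Holds (if l = l then o () else R l)
        rw [if_pos rfl]
        exact h1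
      · show (κ l).Holds (if l = i then o () else R l)
        rw [if_neg hl]
        exact hR l
    · funext b
      show (if i = i then o () else R i) = o ()
      rw [if_pos rfl]

/-- linear orders and equivalence relations -/
def baseK (b : Bool) : Kind := if b then .linear else .equiv

theorem univ_base (a b : Bool) : PV.Univ (C2Spectrum (PairK (baseK a) (baseK b))) := by
  cases a <;> cases b
  · refine univ_mono (fun S hS => ?_) (km_univ univ_oneOne (k := 0) (m := 2) (by omega))
    refine c2Spec_reduct (Sum.elim (fun i => i.elim0) (fun j => decide (j = 0))) ?_ ?_ hS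
    · rintro n o' _ ⟨h1, h2⟩
      refine ⟨fun i => i.elim0, fun j => ?_⟩
      fin_cases j
      · exact h1
      · exact h2
    · rintro n o _ ⟨h1, h2⟩
      refine ⟨fun b => if b = true then o (Sum.inr 0) else o (Sum.inr 1), ⟨h2 0, h2 1⟩, ?_⟩
      funext l
      rcases l with i | j
      · exact i.elim0
      · fin_cases j <;> rfl
  · refine univ_mono (fun S hS => ?_) univ_oneOne
    refine c2Spec_reduct (fun j => decide (j = 1)) ?_ ?_ hS
    · rintro n o' _ ⟨h1, h2⟩
      exact ⟨h2, h1⟩
    · rintro n o _ ⟨h1, h2⟩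
      refine ⟨fun b => if b = true then o 1 else o 0, ⟨h2, h1⟩, ?_⟩
      funext j
      fin_cases j <;> rfl
  · refine univ_mono (fun S hS => ?_) univ_oneOne
    refine c2Spec_reduct (fun j => decide (j = 0)) ?_ ?_ hS
    · rintro n o' _ ⟨h1, h2⟩
      exact ⟨h1, h2⟩
    · rintro n o _ ⟨h1, h2⟩
      refine ⟨fun b => if b = true then o 0 else o 1, ⟨h1, h2⟩, ?_⟩
      funext j
      fin_cases j <;> rfl
  · refine univ_mono (fun S hS => ?_) (km_univ univ_oneOne (k := 2) (m := 0) (by omega))
    refine c2Spec_reduct (Sum.elim (fun j => decide (j = 0)) (fun i => i.elim0)) ?_ ?_ hS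
    · rintro n o' _ ⟨h1, h2⟩
      refine ⟨fun j => ?_, fun i => i.elim0⟩
      fin_cases j
      · exact h1
      · exact h2
    · rintro n o _ ⟨h1, h2⟩
      refine ⟨fun b => if b = true then o (Sum.inl 0) else o (Sum.inl 1), ⟨h1 0, h1 1⟩, ?_⟩
      funext l
      rcases l with j | i
      · fin_cases j <;> rfl
      · exact i.elim0

/-- every tame kind contains a base kind, defined by a formula -/
theorem exists_base {κ : Kind} (h : κ.IsTame) : ∃ b : Bool, ∀ (A : Type) (R : A → A → Prop),
    (baseK b).Holds R ↔ (κ.Holds R ∧ ∀ x y, b = true → x = y ∨ R x y ∨ R y x) := by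
  have tot : ∀ {A : Type} {R : A → A → Prop}, IsLin R → ∀ x y, x = y ∨ R x y ∨ R y x := by
    intro A R h1 x y
    by_cases hxy : x = y
    · exact Or.inl hxy
    · exact Or.inr (h1.total x y hxy)
  cases κ with
  | linear => exact ⟨true, fun A R => ⟨fun h1 => ⟨h1, fun x y _ => tot h1 x y⟩, fun h1 => h1.1⟩⟩
  | weak => exact ⟨true, fun A R => ⟨fun h1 => ⟨⟨h1.irr, h1.trans, fun x y z hxy => by
      rcases tot h1 x z with rfl | h2 | h2
      · exact Or.inr hxy
      · exact Or.inl h2
      · exact Or.inr (h1.trans _ _ _ h2 hxy)⟩, fun x y _ => tot h1 x y⟩, fun h1 =>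
        ⟨h1.1.irr, h1.1.trans, fun x y hxy => (h1.2 x y rfl).resolve_left hxy⟩⟩⟩
  | equiv => exact ⟨false, fun A R => ⟨fun h1 => ⟨h1, fun x y hb => by cases hb⟩, fun h1 => h1.1⟩⟩
  | forest => exact ⟨true, fun A R => ⟨fun h1 => ⟨⟨h1.irr, h1.trans, fun x y z _ _ => tot h1 x y⟩,
      fun x y _ => tot h1 x y⟩, fun h1 =>
        ⟨h1.1.irr, h1.1.trans, fun x y hxy => (h1.2 x y rfl).resolve_left hxy⟩⟩⟩
  | nfree => exact ⟨true, fun A R => ⟨fun h1 => ⟨⟨h1.irr, h1.trans, fun a b c d h2 _ _ => by
      rcases tot h1 a d with rfl | h3 | h3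
      · exact Or.inr (Or.inr (Or.inr (Or.inr (Or.inr h2))))
      · exact Or.inr (Or.inr (Or.inl h3))
      · exact Or.inr (Or.inr (Or.inr (Or.inl h3)))⟩, fun x y _ => tot h1 x y⟩, fun h1 =>
        ⟨h1.1.irr, h1.1.trans, fun x y hxy => (h1.2 x y rfl).resolve_left hxy⟩⟩⟩
  | width2 => exact h.elim
  | height3 => exact h.elim
  | order => exact h.elim
  | preorder => exact h.elim
  | transitive => exact h.elim

/-- the formula: if `b`, the two variables are equal or comparable in the relation `l` -/
def totF (b : Bool) (l : Bool) (U V : Type) : Fm Bool U V :=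
  if b then Fm.neg (Fm.and (Fm.neg Fm.eq) (Fm.and (Fm.neg (Fm.ord l true)) (Fm.neg (Fm.ord l false))))
  else Fm.neg (Fm.and Fm.eq (Fm.neg Fm.eq))

theorem sat_totF (b l : Bool) {U V A : Type} (M : Str Bool U V A) :
    (∀ e, Sat M (totF b l U V) e) ↔ ∀ x y, b = true → x = y ∨ M.ord l x y ∨ M.ord l y x := by
  cases b
  · exact ⟨fun _ x y h => absurd h (by decide), fun _ e h => h.2 h.1⟩
  · constructor
    · intro h x y _
      by_contra h1
      push Not at h1
      exact h (fun b => if b then x else y) ⟨h1.1, h1.2.1, h1.2.2⟩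
    · rintro h e ⟨h1, h2, h3⟩
      rcases h (e true) (e false) rfl with h4 | h4 | h4
      · exact h1 h4
      · exact h2 h4
      · exact h3 h4

theorem univ_pairK {κ κ' : Kind} (h : κ.IsTame) (h' : κ'.IsTame) : PV.Univ (C2Spectrum (PairK κ κ')) := by
  obtain ⟨b, hb⟩ := exists_base h
  obtain ⟨b', hb'⟩ := exists_base h'
  refine univ_mono (fun S hS => ?_) (univ_base b b')
  refine c2_relativize (fun U V => Fm.and (totF b true U V) (totF b' false U V)) (fun U V n M hn => ?_) hS
  have h1 : (∀ e, Sat M (Fm.and (totF b true U V) (totF b' false U V)) e) ↔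
      ((∀ e, Sat M (totF b true U V) e) ∧ ∀ e, Sat M (totF b' false U V) e) :=
    ⟨fun h => ⟨fun e => (h e).1, fun e => (h e).2⟩, fun h e => ⟨h.1 e, h.2 e⟩⟩
  rw [h1, sat_totF, sat_totF]
  show ((baseK b).Holds (M.ord true) ∧ (baseK b').Holds (M.ord false)) ↔
    (κ.Holds (M.ord true) ∧ κ'.Holds (M.ord false)) ∧ _
  rw [hb, hb']
  exact and_and_and_comm

/-- **Universality.** -/
theorem univ_background {ι : Type} {κ : ι → Kind} (h : ¬ ((∀ i j : ι, i = j) ∧ ∀ i, (κ i).IsTame)) :
    PV.Univ (C2Spectrum (Background κ)) := by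
  by_cases h1 : ∀ i, (κ i).IsTame
  · have h2 : ∃ i j : ι, i ≠ j := by
      by_contra h3
      push Not at h3
      exact h ⟨h3, h1⟩
    obtain ⟨i, j, hij⟩ := h2
    exact univ_mono (fun S hS => pairK_le hij hS) (univ_pairK (h1 i) (h1 j))
  · push Not at h1
    obtain ⟨i, hi⟩ := h1
    exact univ_mono (fun S hS => single_le i hS) (univ_of_not_tame hi)

/-- **The dichotomy.** -/
theorem kinds_main :
    (∀ (ι : Type) [Finite ι] (κ : ι → Kind),
      (((∀ i j : ι, i = j) ∧ ∀ i, (κ i).IsTame) → Tame (Background κ)) ∧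
      (¬ ((∀ i j : ι, i = j) ∧ ∀ i, (κ i).IsTame) → Wild (Background κ)) ∧
      ¬ ∀ A : Set ℕ, C2Spectrum (Background κ) A ↔ (IsRudimentary A ∧ 0 ∉ A)) ∧
    ∃ A : Set ℕ, IsSpectrum A ∧ ∀ (ι : Type) [Finite ι] (κ : ι → Kind), ¬ C2Spectrum (Background κ) A := by
  refine ⟨fun ι _ κ => ⟨fun h => tame_background h.1 h.2,
    fun h => Wild.of_univ (univN_background κ) (univ_background h), ?_⟩, ?_⟩
  · by_cases h : (∀ i j : ι, i = j) ∧ ∀ i, (κ i).IsTame
    · exact neRud_of_tame (tame_background h.1 h.2)
    · exact neRud_of_wild (defBg_of_univN (univN_background κ))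
        (Wild.of_univ (univN_background κ) (univ_background h))
  · obtain ⟨A, hA, hA'⟩ := Pool.Agent.Helper29.EX.exists_spectrum_not_powSq (max 6 3 + 2 + 1)
    exact ⟨A, hA, fun ι _ κ h => hA' (c2_br (defBg_of_univN (univN_background κ)) h).powSq⟩

end Pool.Agent.Helper29.C2
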