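import Mathlib

/-!
Kruskal's theorem for binary ordered trees with finitely many leaf labels and node labels in a
well-quasi-ordered set.
-/

set_option autoImplicit false

namespace Pool.Agent.Helper29.C2

/-- Binary ordered trees. -/
inductive Tr (α β : Type) : Type
  | leaf : α → Tr α β
  | node : β → Tr α β → Tr α β → Tr α β

namespace Tr

variable {α β : Type}

/-- The number of leaves. -/
def size : Tr α β → ℕ
  | leaf _ => 1
  | node _ a b => a.size + b.size

theorem size_pos (t : Tr α β) : 0 < t.size := by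
  induction t with
  | leaf _ => simp [size]
  | node _ a b iha ihb => simp only [size]; omega

end Tr

open Tr

variable {α β : Type}

/-- Homeomorphic embedding. -/
inductive Emb (r : β → β → Prop) : Tr α β → Tr α β → Prop
  | leaf (s : α) : Emb r (leaf s) (leaf s)
  | node {l l' : β} {a b a' b' : Tr α β} : r l l' → Emb r a a' → Emb r b b' →
      Emb r (node l a b) (node l' a' b')
  | left {l : β} {t a b : Tr α β} : Emb r t a → Emb r t (node l a b)
  | right {l : β} {t a b : Tr α β} : Emb r t b → Emb r t (node l a b)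

theorem Emb.refl' {r : β → β → Prop} (hr : ∀ x, r x x) (t : Tr α β) : Emb r t t := by
  induction t with
  | leaf s => exact Emb.leaf s
  | node l a b iha ihb => exact Emb.node (hr l) iha ihb

theorem Emb.trans' {r : β → β → Prop} (hr : ∀ x y z, r x y → r y z → r x z)
    {t u v : Tr α β} (h1 : Emb r t u) (h2 : Emb r u v) : Emb r t v := by
  induction h2 generalizing t with
  | leaf s => exact h1
  | node hl _ _ iha ihb =>
    cases h1 with
    | node hl' ha hb => exact Emb.node (hr _ _ _ hl' hl) (iha ha) (ihb hb)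
    | left h => exact Emb.left (iha h)
    | right h => exact Emb.right (ihb h)
  | left _ ih => exact Emb.left (ih h1)
  | right _ ih => exact Emb.right (ih h1)

instance {r : β → β → Prop} [IsPreorder β r] : IsPreorder (Tr α β) (Emb r) where
  refl := Emb.refl' (refl_of r)
  trans _ _ _ h1 h2 := Emb.trans' (r := r) (fun _ _ _ hx hy => trans_of r hx hy) h1 h2

/-- A sequence of children of a minimal bad sequence is good. -/
theorem children_wqo {r : β → β → Prop} {f : ℕ → Tr α β}
    (hbad : Set.PartiallyWellOrderedOn.IsBadSeq (Emb r) Set.univ f)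
    (hmin : ∀ n, Set.PartiallyWellOrderedOn.IsMinBadSeq (Emb r) Tr.size Set.univ n f)
    (c : ℕ → Tr α β) (k : ℕ → ℕ)
    (hc : ∀ i, ∃ l a b, f (k i) = Tr.node l a b ∧ (c i = a ∨ c i = b)) :
    ∃ m n, m < n ∧ Emb r (c m) (c n) := by
  by_contra hcon
  push Not at hcon
  -- the index with least `k`
  obtain ⟨i0, hi0⟩ : ∃ i0, ∀ i, k i0 ≤ k i :=
    ⟨Function.argmin k, fun i => Function.argmin_le k i⟩
  have hup : ∀ i t, Emb r t (c i) → Emb r t (f (k i)) := by
    intro i t h
    obtain ⟨l, a, b, e, h1 | h1⟩ := hc i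
    · rw [e]; rw [h1] at h; exact Emb.left h
    · rw [e]; rw [h1] at h; exact Emb.right h
  have hsz : (c i0).size < (f (k i0)).size := by
    obtain ⟨l, a, b, e, h1 | h1⟩ := hc i0
    · rw [e, h1]; have := b.size_pos; simp only [Tr.size]; omega
    · rw [e, h1]; have := a.size_pos; simp only [Tr.size]; omega
  -- the new sequence
  let g : ℕ → Tr α β := fun n => if n < k i0 then f n else c (i0 + (n - k i0))
  refine hmin (k i0) g (fun m hm => by simp [g, hm]) (by simpa [g] using hsz)
    ⟨fun _ => Set.mem_univ _, ?_⟩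
  intro m n hmn
  by_cases hm : m < k i0
  · by_cases hn : n < k i0
    · simpa [g, hm, hn] using hbad.2 m n hmn
    · simp only [g, hm, hn, if_true, if_false]
      intro h
      have h2 := hup _ _ h
      exact hbad.2 m _ (lt_of_lt_of_le hm (hi0 _)) h2
  · have hn : ¬ n < k i0 := by omega
    simp only [g, hm, hn, if_false]
    exact hcon _ _ (by omega)

/-- **Kruskal's theorem** for binary ordered trees. -/
theorem kruskal [Finite α] (r : β → β → Prop) [IsPreorder β r] (hr : WellQuasiOrdered r) :
    WellQuasiOrdered (Emb (α := α) r) := by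
  suffices h : (Set.univ : Set (Tr α β)).PartiallyWellOrderedOn (Emb r) by
    intro f
    obtain ⟨m, n, h1, h2⟩ := (Set.partiallyWellOrderedOn_iff_exists_lt.1 h) f
      (fun _ => Set.mem_univ _)
    exact ⟨m, n, h1, h2⟩
  rw [Set.PartiallyWellOrderedOn.iff_not_exists_isMinBadSeq Tr.size]
  rintro ⟨f, hbad, hmin⟩
  -- infinitely many nodes
  have hnode : ∃ φ : ℕ → ℕ, StrictMono φ ∧ ∀ i, ∃ l a b, f (φ i) = Tr.node l a b := by
    have hinf : {n | ∃ l a b, f n = Tr.node l a b}.Infinite := by
      intro hfin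
      -- all but finitely many are leaves
      obtain ⟨N, hN⟩ := hfin.bddAbove
      have hleaf : ∀ i, ∃ s, f (N + 1 + i) = Tr.leaf s := by
        intro i
        cases h : f (N + 1 + i) with
        | leaf s => exact ⟨s, rfl⟩
        | node l a b =>
          have := hN (show N + 1 + i ∈ {n | ∃ l a b, f n = Tr.node l a b} from ⟨l, a, b, h⟩)
          omega
      choose s hs using hleaf
      obtain ⟨m, n, hmn, he⟩ := Finite.exists_ne_map_eq_of_infinite s
      have key : ∀ m n, m < n → s m = s n → False := by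
        intro m n h1 h2
        refine hbad.2 (N + 1 + m) (N + 1 + n) (by omega) ?_
        rw [hs, hs, h2]
        exact Emb.leaf _
      rcases lt_or_gt_of_ne hmn with h | h
      · exact key m n h he
      · exact key n m h he.symm
    exact ⟨Nat.nth _, Nat.nth_strictMono hinf, fun i => Nat.nth_mem_of_infinite hinf i⟩
  obtain ⟨φ, hφ, hn⟩ := hnode
  choose l a b hf using hn
  -- monotone subsequence of the labels
  obtain ⟨g1, h1⟩ := hr.exists_monotone_subseq l
  have hchild : ∀ (c : ℕ → Tr α β) (k : ℕ → ℕ),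
      (∀ i, ∃ l a b, f (k i) = Tr.node l a b ∧ (c i = a ∨ c i = b)) →
      ∃ g : ℕ ↪o ℕ, ∀ m n, m ≤ n → Emb r (c (g m)) (c (g n)) := by
    intro c k hc
    obtain ⟨g, hg | hg⟩ := exists_increasing_or_nonincreasing_subseq (Emb (α := α) r) c
    · refine ⟨g, fun m n hle => ?_⟩
      obtain hlt | rfl := hle.lt_or_eq
      · exact hg m n hlt
      · exact Emb.refl' (refl_of r) _
    · obtain ⟨m, n, hlt, h⟩ := children_wqo hbad hmin (c ∘ g) (k ∘ g) (fun i => hc (g i))
      exact absurd h (hg m n hlt)
  obtain ⟨g2, h2⟩ := hchild (a ∘ g1) (φ ∘ g1) (fun i => ⟨_, _, _, hf (g1 i), Or.inl rfl⟩)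
  obtain ⟨m, n, hmn, h3⟩ := children_wqo hbad hmin (b ∘ g1 ∘ g2) (φ ∘ g1 ∘ g2)
    (fun i => ⟨_, _, _, hf (g1 (g2 i)), Or.inr rfl⟩)
  refine hbad.2 (φ (g1 (g2 m))) (φ (g1 (g2 n)))
    (hφ (g1.strictMono (g2.strictMono hmn))) ?_
  rw [hf, hf]
  exact Emb.node (h1 _ _ (g2.strictMono hmn).le) (h2 m n hmn.le) h3

end Pool.Agent.Helper29.C2
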