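import Pool.Agent.Helper29.C2.Df
import Pool.Agent.Helper20.OP.WildOf

/-!
Spectra of two-variable sentences with counting over structures with `k` linear orders are spectra.
-/

set_option autoImplicit false

namespace Pool.Agent.Helper29.C2

open FirstOrder FirstOrder.Language Pool.Agent.Helper20.Spectra Pool.Agent.Helper20

/-- `A` is the set of the sizes of the finite models of a two-variable sentence with counting
quantifiers, over structures with `k` linear orders and any unary and binary relations. -/
def OrdSpectrum (k : ℕ) (A : Set ℕ) : Prop :=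
  ∃ (U V : Type) (_ : Finite U) (_ : Finite V) (Φ : Fm (Fin k) U V), ∀ n, n ∈ A ↔
    (1 ≤ n ∧ ∃ M : Str (Fin k) U V (Fin n), (∀ i, IsLin (M.ord i)) ∧ ∀ e, Sat M Φ e)

/-- Satisfaction with tuples of witnesses. -/
def FSat {Λ U V A : Type} (M : Str Λ U V A) : Fm Λ U V → (Bool → A) → Prop
  | Fm.eq, e => e true = e false
  | Fm.ord l v, e => M.ord l (e v) (e (!v))
  | Fm.un P v, e => M.un P (e v)
  | Fm.bin E v w, e => M.bin E (e v) (e w)
  | Fm.neg φ, e => ¬ FSat M φ e
  | Fm.and φ ψ, e => FSat M φ e ∧ FSat M ψ e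
  | Fm.ex k v φ, e => ∃ w : Fin k → A, (∀ i j, w i = w j → i = j) ∧
      ∀ i, FSat M φ (Function.update e v (w i))

theorem le_card_iff {A : Type} [Finite A] (k : ℕ) (p : A → Prop) :
    k ≤ Nat.card {a // p a} ↔ ∃ w : Fin k → A, (∀ i j, w i = w j → i = j) ∧ ∀ i, p (w i) := by
  constructor
  · intro h
    have : Nonempty (Fin k ↪ {a // p a}) := by
      have := Fintype.ofFinite {a // p a}
      refine Function.Embedding.nonempty_of_card_le ?_
      rw [Fintype.card_fin, ← Nat.card_eq_fintype_card]
      exact h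
    obtain ⟨f⟩ := this
    exact ⟨fun i => (f i).1, fun i j e => f.injective (Subtype.ext e), fun i => (f i).2⟩
  · rintro ⟨w, h1, h2⟩
    have := Nat.card_le_card_of_injective (fun i : Fin k => (⟨w i, h2 i⟩ : {a // p a}))
      (fun i j e => h1 i j (congrArg Subtype.val e))
    simpa using this

theorem sat_iff_fSat {Λ U V A : Type} [Finite A] (M : Str Λ U V A) (φ : Fm Λ U V)
    (e : Bool → A) : Sat M φ e ↔ FSat M φ e := by
  induction φ generalizing e with
  | eq => exact Iff.rfl
  | ord l v => exact Iff.rfl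
  | un P v => exact Iff.rfl
  | bin E v w => exact Iff.rfl
  | neg φ ih => exact not_congr (ih e)
  | and φ ψ ih1 ih2 => exact and_congr (ih1 e) (ih2 e)
  | ex k v φ ih =>
    show k ≤ Nat.card {a : A // Sat M φ (Function.update e v a)} ↔ _
    simp only [ih]
    exact le_card_iff k _

/-- The structure coded by binary relations. -/
def decS {k b : ℕ} {U V : Type} (ι : Fin k ⊕ U ⊕ V → Fin b) {A : Type} (R : OP.Str b A) :
    Str (Fin k) U V A where
  ord i x y := R (ι (Sum.inl i)) x y
  un P x := R (ι (Sum.inr (Sum.inl P))) x x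
  bin E x y := R (ι (Sum.inr (Sum.inr E))) x y

theorem fSat_def {k b : ℕ} {U V : Type} (ι : Fin k ⊕ U ⊕ V → Fin b) (φ : Fm (Fin k) U V) :
    ∀ {r : ℕ} (g : Bool → Fin r), OP.Def b r (fun _ R v => FSat (decS ι R) φ (fun w => v (g w))) := by
  induction φ with
  | eq => intro r g; exact OP.Def.eq _ _
  | ord l v => intro r g; exact OP.Def.rel _ _ _
  | un P v => intro r g; exact OP.Def.rel _ _ _
  | bin E v w => intro r g; exact OP.Def.rel _ _ _
  | neg φ ih => intro r g; exact (ih g).not
  | and φ ψ ih1 ih2 => intro r g; exact (ih1 g).and (ih2 g)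
  | ex c v φ ih =>
    intro r g
    refine OP.Def.exTuple c ?_
    refine OP.Def.and ?_ ?_
    · refine (OP.Def.all_fin (γ := Fin c) (P := fun i V R v => ∀ j : Fin c,
        v (Fin.natAdd r i) = v (Fin.natAdd r j) → i = j) (fun i => OP.Def.all_fin (fun j =>
        (OP.Def.eq _ _).imp (OP.Def.const _)))).congr (fun V R v => ?_)
      exact Iff.rfl
    · refine OP.Def.all_fin (fun i => ?_)
      refine (ih (fun w => if w = v then Fin.natAdd r i else Fin.castAdd c (g w))).congr
        (fun V R x => ?_)
      have : (fun w => x (if w = v then Fin.natAdd r i else Fin.castAdd c (g w))) =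
          Function.update (fun w => x (Fin.castAdd c (g w))) v (x (Fin.natAdd r i)) := by
        funext w
        by_cases hw : w = v
        · subst hw; simp
        · simp [hw]
      rw [this]

theorem isLin_def {b : ℕ} (s : Fin b) : OP.Def0 b (fun _ R => IsLin (R s)) := by
  have h1 : OP.Def b 0 (fun _ R _ => ∀ x, ¬ R s x x) :=
    OP.Def.all (OP.Def.rel s _ _).not
  have h2 : OP.Def b 0 (fun _ R _ => ∀ x y z, R s x y → R s y z → R s x z) := by
    refine OP.Def.all (OP.Def.all (OP.Def.all ?_))
    exact (OP.Def.rel s _ _).imp ((OP.Def.rel s _ _).imp (OP.Def.rel s _ _))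
  have h3 : OP.Def b 0 (fun _ R _ => ∀ x y, x ≠ y → R s x y ∨ R s y x) := by
    refine OP.Def.all (OP.Def.all ?_)
    exact (OP.Def.eq _ _).not.imp ((OP.Def.rel s _ _).or (OP.Def.rel s _ _))
  refine ((h1.and (h2.and h3))).congr (fun V R v => ?_)
  constructor
  · intro h; exact ⟨h.irr, h.trans, h.total⟩
  · rintro ⟨a, b, c⟩; exact ⟨a, b, c⟩

theorem OrdSpectrum.isSpectrum {k : ℕ} {A : Set ℕ} (h : OrdSpectrum k A) : IsSpectrum A := by
  obtain ⟨U, V, _, _, Φ, hA⟩ := h
  have : Fintype (Fin k ⊕ U ⊕ V) := Fintype.ofFinite _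
  let b := Fintype.card (Fin k ⊕ U ⊕ V)
  let ι : Fin k ⊕ U ⊕ V ≃ Fin b := Fintype.equivFin _
  have hdef : OP.Def0 b (fun A R => (∀ i, IsLin ((decS ι R : Str (Fin k) U V A).ord i)) ∧
      ∀ x y, FSat (decS ι R) Φ (fun w => if w = true then x else y)) := by
    refine OP.Def.and ?_ ?_
    · exact OP.Def.all_fin (fun i => isLin_def _)
    · refine OP.Def.all (OP.Def.all ?_)
      refine (fSat_def ι Φ (fun w => if w = true then (0 : Fin 2) else 1)).congr
        (fun V R x => ?_)
      refine Iff.of_eq (congrArg _ ?_)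
      funext w
      cases w <;> rfl
  have hK : OP.SpecOver (b := b) (fun A R => (∀ i, IsLin ((decS ι R : Str (Fin k) U V A).ord i)) ∧
      ∀ x y, FSat (decS ι R) Φ (fun w => if w = true then x else y)) A := by
    refine ⟨⊤, ?_⟩
    ext n
    rw [hA n]
    unfold OP.sizes
    refine and_congr_right (fun hn => ?_)
    constructor
    · rintro ⟨M, h1, h2⟩
      let R : OP.Str b (Fin n) := fun s x y =>
        match ι.symm s with
        | Sum.inl i => M.ord i x y
        | Sum.inr (Sum.inl P) => M.un P x
        | Sum.inr (Sum.inr E) => M.bin E x y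
      have hM : decS ι R = M := by
        cases M with
        | mk o u c =>
          simp only [decS, R, Equiv.symm_apply_apply]
      refine ⟨R, ⟨?_, ?_⟩, ?_⟩
      · rw [hM]; exact h1
      · rw [hM]
        intro x y
        rw [← sat_iff_fSat]
        exact h2 _
      · show OP.Models R ⊤
        unfold OP.Models
        let _ := OP.toStr R
        simp [Sentence.Realize, Formula.Realize]
    · rintro ⟨R, ⟨h1, h2⟩, _⟩
      refine ⟨decS ι R, h1, fun e => ?_⟩
      rw [sat_iff_fSat]
      have h3 := h2 (e true) (e false)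
      have h4 : (fun w => if w = true then e true else e false) = e := by
        funext w
        cases w <;> simp
      rwa [h4] at h3
  exact hK.isSpectrum hdef

end Pool.Agent.Helper29.C2
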