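import Pool.Agent.Helper29.C2.Mso
import Pool.Agent.Helper29.C2.Spec
import Pool.Agent.Helper20.PV.Ex

/-!
Two-variable logic with counting over linear orders and sum-generated backgrounds: main theorem.
-/

set_option autoImplicit false

namespace Pool.Agent.Helper29.C2

open Pool.Agent.Helper20.Spectra Pool.Agent.Helper20 Pool.Agent.Helper29.Prefix

variable {Λ U V A B : Type}

/-! ### Isomorphic structures -/

/-- An isomorphism of structures. -/
structure SIso (M : Str Λ U V A) (M' : Str Λ U V B) (e : A ≃ B) : Prop where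
  ord : ∀ l x y, M.ord l x y ↔ M'.ord l (e x) (e y)
  un : ∀ P x, M.un P x ↔ M'.un P (e x)
  bin : ∀ E x y, M.bin E x y ↔ M'.bin E (e x) (e y)

theorem SIso.sat {M : Str Λ U V A} {M' : Str Λ U V B} {e : A ≃ B} (h : SIso M M' e)
    (φ : Fm Λ U V) (a : Bool → A) : Sat M φ a ↔ Sat M' φ (fun w => e (a w)) := by
  induction φ generalizing a with
  | eq => exact e.injective.eq_iff.symm
  | ord l v => exact h.ord l _ _
  | un P v => exact h.un P _
  | bin E v w => exact h.bin E _ _
  | neg φ ih => exact not_congr (ih a)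
  | and φ ψ ih1 ih2 => exact and_congr (ih1 a) (ih2 a)
  | ex k v φ ih =>
    show k ≤ Nat.card {x : A // Sat M φ (Function.update a v x)} ↔
      k ≤ Nat.card {y : B // Sat M' φ (Function.update (fun w => e (a w)) v y)}
    have hc : Nat.card {x : A // Sat M φ (Function.update a v x)} =
        Nat.card {y : B // Sat M' φ (Function.update (fun w => e (a w)) v y)} := by
      refine Nat.card_congr (e.subtypeEquiv fun x => ?_)
      rw [ih]
      refine Iff.of_eq (congrArg _ ?_)
      funext w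
      by_cases hw : w = v
      · subst hw; simp
      · simp [hw]
    rw [hc]

theorem MSat_iso {ord : Λ → A → A → Prop} {un : U → A → Prop} {ord' : Λ → B → B → Prop}
    {un' : U → B → Prop} (e : A ≃ B) (h1 : ∀ l x y, ord l x y ↔ ord' l (e x) (e y))
    (h2 : ∀ P x, un P x ↔ un' P (e x)) (φ : Mso Λ U) (X : ℕ → Set A) :
    MSat ord un φ X ↔ MSat ord' un' φ (fun i => {y | e.symm y ∈ X i}) := by
  induction φ generalizing X with
  | sub i j =>
    constructor
    · intro h y hy; exact h hy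
    · intro h x hx
      have h3 : e x ∈ {y | e.symm y ∈ X i} := by simpa using hx
      simpa using h h3
  | sing i =>
    constructor
    · rintro ⟨x, hx, hu⟩
      refine ⟨e x, by simpa using hx, fun y hy => ?_⟩
      have := hu (e.symm y) hy
      rw [← this]; simp
    · rintro ⟨y, hy, hu⟩
      refine ⟨e.symm y, hy, fun x hx => ?_⟩
      have := hu (e x) (by simpa using hx)
      rw [← this]; simp
  | un P i =>
    constructor
    · intro h y hy
      have := (h2 P (e.symm y)).1 (h _ hy)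
      simpa using this
    · intro h x hx
      exact (h2 P x).2 (h (e x) (by simpa using hx))
  | ord l i j =>
    constructor
    · rintro ⟨x, hx, y, hy, h⟩
      exact ⟨e x, by simpa using hx, e y, by simpa using hy, (h1 l x y).1 h⟩
    · rintro ⟨x, hx, y, hy, h⟩
      refine ⟨e.symm x, hx, e.symm y, hy, (h1 l _ _).2 ?_⟩
      simpa using h
  | neg φ ih => exact not_congr (ih X)
  | and φ ψ ih1 ih2 => exact and_congr (ih1 X) (ih2 X)
  | ex i φ ih =>
    constructor
    · rintro ⟨S, hS⟩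
      refine ⟨{y | e.symm y ∈ S}, ?_⟩
      have := (ih _).1 hS
      convert this using 1
      funext j
      by_cases hj : j = i
      · subst hj; simp
      · simp [hj]
    · rintro ⟨S, hS⟩
      refine ⟨{x | e x ∈ S}, (ih _).2 ?_⟩
      convert hS using 1
      funext j
      by_cases hj : j = i
      · subst hj; simp
      · simp [hj]

/-! ### Sum-generated backgrounds -/

/-- **Tame half**, for structures on `Fin n`. -/
theorem tame_sumGenerated [Finite Λ] [Finite U] [Finite V] (Φ : Fm Λ U V) (Ψ : Mso Λ U) :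
    OP.UltPeriodic {n | 1 ≤ n ∧ ∃ M : Str Λ U V (Fin n), SumGenerated M.ord ∧
      (∀ e, Sat M Φ e) ∧ MSat M.ord M.un Ψ (fun _ => ∅)} := by
  convert tame Φ Ψ using 1
  ext n
  constructor
  · rintro ⟨_, M, ⟨t, e, ht⟩, hsat, hmso⟩
    let M' : Str Λ U V t.El :=
      { ord := t.Rel
        un := fun P x => M.un P (e.symm x)
        bin := fun E x y => M.bin E (e.symm x) (e.symm y) }
    have hiso : SIso M M' e := ⟨ht, fun P x => by simp [M'], fun E x y => by simp [M']⟩
    refine ⟨t, M', rfl, fun a => ?_, ?_, ?_⟩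
    · have := (hiso.sat Φ (fun w => e.symm (a w))).1 (hsat _)
      simpa using this
    · have := (MSat_iso e hiso.ord hiso.un Ψ (fun _ => ∅)).1 hmso
      simpa using this
    · have h1 := Fintype.card_congr e
      rw [t.card_El, Fintype.card_fin] at h1
      exact h1.symm
  · rintro ⟨t, M, hord, hsat, hmso, rfl⟩
    have hcard : Fintype.card (Fin t.size) = Fintype.card t.El := by
      rw [t.card_El, Fintype.card_fin]
    let e : Fin t.size ≃ t.El := Fintype.equivOfCardEq hcard
    let M' : Str Λ U V (Fin t.size) :=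
      { ord := fun l x y => M.ord l (e x) (e y)
        un := fun P x => M.un P (e x)
        bin := fun E x y => M.bin E (e x) (e y) }
    have hiso : SIso M' M e := ⟨fun _ _ _ => Iff.rfl, fun _ _ => Iff.rfl, fun _ _ _ => Iff.rfl⟩
    refine ⟨?_, M', ⟨t, e, fun l x y => by show M.ord l _ _ ↔ _; rw [hord]⟩, fun a => ?_, ?_⟩
    · cases t with
      | pt => exact le_rfl
      | sum l a b =>
        show 1 ≤ a.size + b.size
        have : 1 ≤ a.size := by
          clear * -
          induction a with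
          | pt => exact le_rfl
          | sum l a b iha _ => show 1 ≤ a.size + b.size; omega
        omega
    · exact (hiso.sat Φ a).2 (hsat _)
    · refine (MSat_iso e hiso.ord hiso.un Ψ (fun _ => ∅)).2 ?_
      simpa using hmso

/-! ### Linear orders -/

theorem BT.rel_trans (t : BT (Fin 1)) (x y z : t.El) (h : t.Rel 0 x y) (h' : t.Rel 0 y z) :
    t.Rel 0 x z := by
  induction t with
  | pt => exact h.elim
  | sum l a b iha ihb =>
    have hl : l = 0 := Subsingleton.elim _ _
    rcases x with x | x <;> rcases y with y | y <;> rcases z with z | z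
    · exact iha _ _ _ h h'
    · exact hl
    · exact h'.elim
    · exact hl
    · exact h.elim
    · exact h.elim
    · exact h'.elim
    · exact ihb _ _ _ h h'

theorem BT.isLin (t : BT (Fin 1)) : IsLin (t.Rel 0) where
  irr := t.rel_irr 0
  trans := t.rel_trans
  total x y h := by
    obtain ⟨l, hl⟩ := t.rel_total h
    have : l = 0 := Subsingleton.elim _ _
    rwa [this] at hl

theorem exists_term (n : ℕ) : ∃ t : BT (Fin 1), t.size = n + 1 := by
  induction n with
  | zero => exact ⟨BT.pt, rfl⟩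
  | succ n ih =>
    obtain ⟨t, ht⟩ := ih
    exact ⟨BT.sum 0 t BT.pt, by show t.size + 1 = _; rw [ht]⟩

theorem iso_of_isLin {R : A → A → Prop} {R' : B → B → Prop} [Finite A] [Finite B]
    (h : IsLin R) (h' : IsLin R') (hc : Nat.card A = Nat.card B) :
    ∃ e : A ≃ B, ∀ x y, R x y ↔ R' (e x) (e y) := by
  obtain ⟨p, hp⟩ := exists_pos h
  obtain ⟨p', hp'⟩ := exists_pos h'
  have h1 : ∀ x, ∃ y, p' y = p x := fun x => hp'.surj _ (by rw [← hc]; exact hp.lt x)
  choose f hf using h1
  have hbij : Function.Bijective f := by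
    constructor
    · intro x y e
      refine hp.inj ?_
      rw [← hf, ← hf, e]
    · intro y
      obtain ⟨x, hx⟩ := hp.surj (p' y) (by rw [hc]; exact hp'.lt y)
      exact ⟨x, hp'.inj (by rw [hf, hx])⟩
  refine ⟨Equiv.ofBijective f hbij, fun x y => ?_⟩
  rw [hp.lt_iff, hp'.lt_iff]
  show _ ↔ p' (f x) < p' (f y)
  rw [hf, hf]

/-- **Linear orders are the sum-generated backgrounds with one colour.** -/
theorem sumGenerated_iff_isLin {n : ℕ} (hn : 1 ≤ n) (R : Fin 1 → Fin n → Fin n → Prop) :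
    SumGenerated R ↔ IsLin (R 0) := by
  constructor
  · rintro ⟨t, e, h⟩
    have ht := t.isLin
    refine ⟨fun x hx => ht.irr _ ((h 0 x x).1 hx), fun x y z h1 h2 => ?_, fun x y hxy => ?_⟩
    · exact (h 0 x z).2 (ht.trans _ _ _ ((h 0 x y).1 h1) ((h 0 y z).1 h2))
    · rcases ht.total (e x) (e y) (fun h3 => hxy (e.injective h3)) with h3 | h3
      · exact Or.inl ((h 0 x y).2 h3)
      · exact Or.inr ((h 0 y x).2 h3)
  · intro h
    obtain ⟨t, ht⟩ := exists_term (n - 1)
    obtain ⟨e, he⟩ := iso_of_isLin h t.isLin (by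
      rw [Nat.card_eq_fintype_card, Nat.card_eq_fintype_card, t.card_El, ht, Fintype.card_fin]
      omega)
    refine ⟨t, e, fun l x y => ?_⟩
    have : l = 0 := Subsingleton.elim _ _
    rw [this]
    exact he x y

/-- Rename the background relations. -/
def Fm.map {Λ' : Type} (g : Λ → Λ') : Fm Λ U V → Fm Λ' U V
  | Fm.eq => Fm.eq
  | Fm.ord l v => Fm.ord (g l) v
  | Fm.un P v => Fm.un P v
  | Fm.bin E v w => Fm.bin E v w
  | Fm.neg φ => Fm.neg (φ.map g)
  | Fm.and φ ψ => Fm.and (φ.map g) (ψ.map g)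
  | Fm.ex k v φ => Fm.ex k v (φ.map g)

theorem sat_map {Λ' : Type} (g : Λ → Λ') (M : Str Λ' U V A) (φ : Fm Λ U V) (e : Bool → A) :
    Sat M (φ.map g) e ↔ Sat ⟨fun l => M.ord (g l), M.un, M.bin⟩ φ e := by
  induction φ generalizing e with
  | eq => exact Iff.rfl
  | ord l v => exact Iff.rfl
  | un P v => exact Iff.rfl
  | bin E v w => exact Iff.rfl
  | neg φ ih => exact not_congr (ih e)
  | and φ ψ ih1 ih2 => exact and_congr (ih1 e) (ih2 e)
  | ex k v φ ih =>
    show k ≤ Nat.card {a : A // Sat M (φ.map g) (Function.update e v a)} ↔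
      k ≤ Nat.card {a : A // Sat _ φ (Function.update e v a)}
    simp only [ih]

theorem OrdSpectrum.mono {k k' : ℕ} (h : k ≤ k') {A : Set ℕ} (hA : OrdSpectrum k A) :
    OrdSpectrum k' A := by
  obtain ⟨U, V, hU, hV, Φ, hA⟩ := hA
  refine ⟨U, V, hU, hV, Φ.map (Fin.castLE h), fun n => ?_⟩
  rw [hA n]
  refine and_congr_right (fun _ => ?_)
  constructor
  · rintro ⟨M, h1, h2⟩
    let M' : Str (Fin k') U V (Fin n) :=
      { ord := fun i => if hi : i.1 < k then M.ord ⟨i.1, hi⟩ else fun x y => x < y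
        un := M.un
        bin := M.bin }
    refine ⟨M', fun i => ?_, fun e => ?_⟩
    · show IsLin (if hi : i.1 < k then M.ord ⟨i.1, hi⟩ else fun x y => x < y)
      split_ifs with hi
      · exact h1 _
      · exact ⟨fun x => lt_irrefl x, fun x y z => lt_trans, fun x y hxy => lt_or_gt_of_ne hxy⟩
    · rw [sat_map]
      have h3 : (⟨fun l => M'.ord (Fin.castLE h l), M'.un, M'.bin⟩ : Str (Fin k) U V (Fin n)) =
          M := by
        have h4 : (fun l => M'.ord (Fin.castLE h l)) = M.ord := by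
          funext l
          show (if hi : (Fin.castLE h l).1 < k then M.ord ⟨(Fin.castLE h l).1, hi⟩
            else fun x y => x < y) = M.ord l
          rw [dif_pos (by simp)]
          rfl
        rw [h4]
      rw [h3]
      exact h2 e
  · rintro ⟨M, h1, h2⟩
    exact ⟨⟨fun l => M.ord (Fin.castLE h l), M.un, M.bin⟩, fun i => h1 _, fun e =>
      (sat_map _ _ _ _).1 (h2 e)⟩

/-- **At most one linear order: ultimately periodic.** -/
theorem OrdSpectrum.ultPeriodic {k : ℕ} (hk : k ≤ 1) {A : Set ℕ} (hA : OrdSpectrum k A) :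
    OP.UltPeriodic A := by
  obtain ⟨U, V, hU, hV, Φ, hA⟩ := hA.mono hk
  convert tame_sumGenerated Φ (Mso.sub 0 0) using 1
  ext n
  rw [hA n]
  refine and_congr_right (fun hn => exists_congr (fun M => ?_))
  rw [sumGenerated_iff_isLin hn]
  constructor
  · rintro ⟨h1, h2⟩; exact ⟨h1 0, h2, fun x hx => hx⟩
  · rintro ⟨h1, h2, _⟩
    refine ⟨fun i => ?_, h2⟩
    have : i = 0 := Subsingleton.elim _ _
    rw [this]; exact h1

/-! ### Two linear orders -/

theorem tiles_map {Γ Γ' : Type} (W : Wang Γ) (e : Γ' ≃ Γ) (N : ℕ) :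
    Tiles (⟨fun a b => W.R (e a) (e b), fun a b => W.U (e a) (e b), fun a => W.l (e a),
      fun a => W.r (e a), fun a => W.b (e a), fun a => W.t (e a), fun a => W.c (e a)⟩ : Wang Γ') N
      ↔ Tiles W N := by
  constructor
  · rintro ⟨f, h1, h2, h3, h4, h5, h6, h7⟩
    exact ⟨fun x y => e (f x y), h1, h2, h3, h4, h5, h6, h7⟩
  · rintro ⟨f, h1, h2, h3, h4, h5, h6, h7⟩
    refine ⟨fun x y => e.symm (f x y), ?_, ?_, ?_, ?_, ?_, ?_, ?_⟩
    · intro x y hx hy; simpa using h1 x y hx hy
    · intro x y hx hy; simpa using h2 x y hx hy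
    · intro y hy; simpa using h3 y hy
    · intro y hy; simpa using h4 y hy
    · intro y hy; simpa using h5 y hy
    · intro y hy; simpa using h6 y hy
    · simpa using h7

theorem univ_orders {k : ℕ} (hk : 2 ≤ k) : PV.Univ (OrdSpectrum k) := by
  intro Θ
  let q := Fintype.card {θ : ℕ × ℕ × ℕ × ℕ // θ ∈ Θ}
  let ε : Fin q ≃ {θ : ℕ × ℕ × ℕ × ℕ // θ ∈ Θ} := (Fintype.equivFin _).symm
  let W0 := blockWang Θ
  let W : Wang (Fin q) := ⟨fun a b => W0.R (ε a) (ε b), fun a b => W0.U (ε a) (ε b),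
    fun a => W0.l (ε a), fun a => W0.r (ε a), fun a => W0.b (ε a), fun a => W0.t (ε a),
    fun a => W0.c (ε a)⟩
  have hW : ∀ N, Tiles W N ↔ Tiles W0 N := fun N => tiles_map W0 ε N
  let l1 : Fin k := ⟨0, by omega⟩
  let l2 : Fin k := ⟨1, by omega⟩
  have hne : l1 ≠ l2 := by simp [l1, l2]
  obtain ⟨Φ, hΦ⟩ := wAx_def W l1 l2
  refine ⟨2 * (Polynomial.X * (Polynomial.X + 1)),
    {n | 1 ≤ n ∧ ∃ M : Str (Fin k) (Lt q ⊕ Fin 3) (Fin 2) (Fin n), (∀ i, IsLin (M.ord i)) ∧
      ∀ e, Sat M Φ e}, ⟨Lt q ⊕ Fin 3, Fin 2, inferInstance, inferInstance, Φ, fun n => Iff.rfl⟩,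
    fun N hN => ?_⟩
  have hev : (2 * (Polynomial.X * (Polynomial.X + 1)) : Polynomial ℕ).eval N =
      2 * (N * (N + 1)) := by
    simp
  rw [mem_squareSizes_iff Θ hN, ← hW, hev]
  constructor
  · intro h
    have hpos : 1 ≤ 2 * (N * (N + 1)) := by
      have : 1 ≤ N * (N + 1) := Nat.mul_pos hN (by omega)
      omega
    refine ⟨hpos, ?_⟩
    obtain ⟨L, hL⟩ := exists_word hN h
    have htot : N + 1 + (N - 1) * (N + 1) = N * (N + 1) := by
      obtain ⟨N', rfl⟩ : ∃ N', N = N' + 1 := ⟨N - 1, by omega⟩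
      simp only [Nat.add_sub_cancel]
      ring
    obtain ⟨hl1, hl2, hax⟩ := hL.wAx
    rw [← htot]
    generalize (N - 1) * (N + 1) = k' at *
    let M : Str (Fin k) (Lt q ⊕ Fin 3) (Fin 2) (Fin (2 * (N + 1 + k'))) :=
      { ord := fun i x y => if i = l1 then ps (N + 1) k' x < ps (N + 1) k' y else x.1 < y.1
        un := fun P x => match P with
          | Sum.inl ℓ => L (x.1 / 2) = ℓ
          | Sum.inr 0 => x.1 % 2 = 0
          | Sum.inr 1 => ps (N + 1) k' x < N + 1
          | Sum.inr 2 => N + 1 ≤ ps (N + 1) k' x ∧ ps (N + 1) k' x < N + 1 + 2 * k'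
        bin := fun E x y => match E with
          | 0 => ps (N + 1) k' y = ps (N + 1) k' x + 1
          | 1 => y.1 = x.1 + 1 }
    refine ⟨M, fun i => ?_, (hΦ _ M).2 ?_⟩
    · by_cases hi : i = l1
      · have : M.ord i = fun x y => ps (N + 1) k' x.1 < ps (N + 1) k' y.1 := by
          funext x y
          exact if_pos hi
        rw [this]; exact hl1
      · have : M.ord i = fun x y => x.1 < y.1 := by
          funext x y
          exact if_neg hi
        rw [this]; exact hl2
    · have e1 : M.ord l1 = fun x y => ps (N + 1) k' x.1 < ps (N + 1) k' y.1 := by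
        funext x y
        exact if_pos (c := l1 = l1) (e := x.1 < y.1) rfl
      have e2 : M.ord l2 = fun x y => x.1 < y.1 := by
        funext x y
        exact if_neg (c := l2 = l1) (t := ps (N + 1) k' x.1 < ps (N + 1) k' y.1) hne.symm
      rw [e1, e2]
      exact hax
  · rintro ⟨hpos, M, h1, h2⟩
    have hax := (hΦ _ M).1 h2
    have : Nonempty (Fin (2 * (N * (N + 1)))) := ⟨⟨0, hpos⟩⟩
    obtain ⟨N', hN', hc, ht⟩ := hax.tiles (h1 l1) (h1 l2)
    rw [Nat.card_eq_fintype_card, Fintype.card_fin] at hc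
    have hNN : N * (N + 1) = N' * (N' + 1) := by omega
    have : N = N' := by
      rcases lt_trichotomy N N' with h3 | h3 | h3
      · have := Nat.mul_le_mul (show N + 1 ≤ N' from h3) (show N + 1 ≤ N' + 1 by omega)
        nlinarith
      · exact h3
      · have := Nat.mul_le_mul (show N' + 1 ≤ N from h3) (show N' + 1 ≤ N + 1 by omega)
        nlinarith
    rw [this]
    exact ht

/-- **Main theorem.** -/
theorem c2_main :
    (∀ (Λ U V : Type) [Finite Λ] [Finite U] [Finite V] (Φ : Fm Λ U V) (Ψ : Mso Λ U),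
      OP.UltPeriodic {n | 1 ≤ n ∧ ∃ M : Str Λ U V (Fin n), SumGenerated M.ord ∧
        (∀ e, Sat M Φ e) ∧ MSat M.ord M.un Ψ (fun _ => ∅)}) ∧
    (∀ (n : ℕ) (R : Fin 1 → Fin n → Fin n → Prop), 1 ≤ n → (SumGenerated R ↔ IsLin (R 0))) ∧
    (∀ k, k ≤ 1 → ∀ A, OrdSpectrum k A → OP.UltPeriodic A) ∧
    (∀ k, 2 ≤ k →
      (∃ S : Set ℕ, OrdSpectrum k S ∧ ∀ A : Set ℕ, IsSpectrum A ↔
        ∃ h : Polynomial ℕ, A = {n : ℕ | 1 ≤ n ∧ h.eval n ∈ S}) ∧
      ((∀ A : Set ℕ, OrdSpectrum k A → IsRudimentary A) ↔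
        ∀ A : Set ℕ, IsSpectrum A ↔ (IsRudimentary A ∧ 0 ∉ A))) :=
  ⟨fun _ _ _ _ _ _ Φ Ψ => tame_sumGenerated Φ Ψ, fun _ R hn => sumGenerated_iff_isLin hn R,
    fun _ hk _ hA => hA.ultPeriodic hk,
    fun _ hk => PV.wild_of_univ (univ_orders hk) (fun _ hA => hA.isSpectrum)⟩

end Pool.Agent.Helper29.C2
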