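import Pool.Agent.Helper29.C2.SynSys
import Pool.Agent.Helper29.C2.Defs

/-!
Monadic second-order conditions on the background and the unary relations are recognised by finite
tree automata on the terms.
-/

set_option autoImplicit false

namespace Pool.Agent.Helper29.C2

variable {Λ U V A : Type}

/-- A finite automaton recognises a property of terms with unary relations and set variables. -/
def Recog (p : ∀ t : BT Λ, (U → t.El → Prop) → (ℕ → Set t.El) → Prop) : Prop :=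
  ∃ (Z : Type) (_ : Finite Z) (δ : Λ → Z → Z → Z) (z0 : Set U × Set ℕ → Z) (acc : Z → Prop),
    ∀ (t : BT Λ) (un : U → t.El → Prop) (X : ℕ → Set t.El),
      acc (t.run δ z0 (fun x => ({P | un P x}, {i | x ∈ X i}))) ↔ p t un X

/-- A property is recognised if it is a function of a compositional finite invariant. -/
theorem recog_of_inv {p : ∀ t : BT Λ, (U → t.El → Prop) → (ℕ → Set t.El) → Prop}
    (Z : Type) [Finite Z] (δ : Λ → Z → Z → Z) (z0 : Set U × Set ℕ → Z) (acc : Z → Prop)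
    (ν : ∀ t : BT Λ, (U → t.El → Prop) → (ℕ → Set t.El) → Z)
    (h0 : ∀ (un : U → (BT.pt : BT Λ).El → Prop) (X : ℕ → Set (BT.pt : BT Λ).El),
      ν BT.pt un X = z0 ({P | un P ()}, {i | () ∈ X i}))
    (h1 : ∀ (l : Λ) (a b : BT Λ) (un : U → (BT.sum l a b).El → Prop)
      (X : ℕ → Set (BT.sum l a b).El), ν (BT.sum l a b) un X =
        δ l (ν a (fun P x => un P (Sum.inl x)) (fun i => {x | Sum.inl x ∈ X i}))
          (ν b (fun P x => un P (Sum.inr x)) (fun i => {x | Sum.inr x ∈ X i})))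
    (hacc : ∀ t un X, acc (ν t un X) ↔ p t un X) : Recog p := by
  refine ⟨Z, inferInstance, δ, z0, acc, fun t un X => ?_⟩
  rw [← hacc]
  suffices h : t.run δ z0 (fun x => ({P | un P x}, {i | x ∈ X i})) = ν t un X by rw [h]
  induction t with
  | pt => rw [h0]; rfl
  | sum l a b iha ihb =>
    rw [h1, ← iha, ← ihb]
    rfl

theorem recog_sub (i j : ℕ) :
    Recog (Λ := Λ) (U := U) (fun _ _ X => X i ⊆ X j) := by
  refine recog_of_inv Prop (fun _ a b => a ∧ b) (fun c => i ∈ c.2 → j ∈ c.2) id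
    (fun _ _ X => X i ⊆ X j) ?_ ?_ (fun _ _ _ => Iff.rfl)
  · intro un X
    refine propext ⟨fun h h' => h h', fun h x hx => ?_⟩
    cases x
    exact h hx
  · intro l a b un X
    refine propext ⟨fun h => ⟨fun x hx => h hx, fun x hx => h hx⟩, fun h x hx => ?_⟩
    rcases x with x | x
    · exact h.1 hx
    · exact h.2 hx

theorem recog_un (P : U) (i : ℕ) :
    Recog (Λ := Λ) (U := U) (fun _ un X => ∀ x ∈ X i, un P x) := by
  refine recog_of_inv Prop (fun _ a b => a ∧ b) (fun c => i ∈ c.2 → P ∈ c.1) id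
    (fun _ un X => ∀ x ∈ X i, un P x) ?_ ?_ (fun _ _ _ => Iff.rfl)
  · intro un X
    refine propext ⟨fun h h' => h () h', fun h x hx => ?_⟩
    cases x
    exact h hx
  · intro l a b un X
    refine propext ⟨fun h => ⟨fun x hx => h _ hx, fun x hx => h _ hx⟩, fun h x hx => ?_⟩
    rcases x with x | x
    · exact h.1 x hx
    · exact h.2 x hx

theorem recog_sing (i : ℕ) :
    Recog (Λ := Λ) (U := U) (fun _ _ X => ∃! x, x ∈ X i) := by
  refine recog_of_inv (Prop × Prop)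
    (fun _ a b => (a.1 ∨ b.1, a.2 ∧ b.2 ∧ ¬ (a.1 ∧ b.1))) (fun c => (i ∈ c.2, True))
    (fun z => z.1 ∧ z.2)
    (fun _ _ X => (∃ x, x ∈ X i, ∀ x y, x ∈ X i → y ∈ X i → x = y)) ?_ ?_ ?_
  · intro un X
    refine Prod.ext (propext ⟨?_, fun h => ⟨(), h⟩⟩) (propext ⟨fun _ => trivial, ?_⟩)
    · rintro ⟨⟨⟩, h⟩; exact h
    · rintro _ ⟨⟩ ⟨⟩ _ _; rfl
  · intro l a b un X
    refine Prod.ext (propext ⟨?_, ?_⟩) (propext ⟨?_, ?_⟩)
    · rintro ⟨x | x, h⟩
      · exact Or.inl ⟨x, h⟩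
      · exact Or.inr ⟨x, h⟩
    · rintro (⟨x, h⟩ | ⟨x, h⟩)
      · exact ⟨_, h⟩
      · exact ⟨_, h⟩
    · intro h
      refine ⟨fun x y hx hy => Sum.inl_injective (h _ _ hx hy),
        fun x y hx hy => Sum.inr_injective (h _ _ hx hy), ?_⟩
      rintro ⟨⟨x, hx⟩, ⟨y, hy⟩⟩
      exact Sum.inl_ne_inr (h _ _ hx hy)
    · rintro ⟨h1, h2, h3⟩ (x | x) (y | y) hx hy
      · exact congrArg _ (h1 x y hx hy)
      · exact absurd ⟨⟨x, hx⟩, ⟨y, hy⟩⟩ h3
      · exact absurd ⟨⟨y, hy⟩, ⟨x, hx⟩⟩ h3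
      · exact congrArg _ (h2 x y hx hy)
  · intro t un X
    constructor
    · rintro ⟨⟨x, hx⟩, h⟩
      exact ⟨x, hx, fun y hy => h y x hy hx⟩
    · rintro ⟨x, hx, h⟩
      exact ⟨⟨x, hx⟩, fun y z hy hz => (h y hy).trans (h z hz).symm⟩

theorem recog_ord (l : Λ) (i j : ℕ) :
    Recog (Λ := Λ) (U := U) (fun t _ X => ∃ x ∈ X i, ∃ y ∈ X j, t.Rel l x y) := by
  refine recog_of_inv (Prop × Prop × Prop)
    (fun m a b => (a.1 ∨ b.1, a.2.1 ∨ b.2.1, a.2.2 ∨ b.2.2 ∨ (m = l ∧ a.1 ∧ b.2.1)))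
    (fun c => (i ∈ c.2, j ∈ c.2, False))
    (fun z => z.2.2)
    (fun t _ X => (∃ x, x ∈ X i, ∃ x, x ∈ X j, ∃ x ∈ X i, ∃ y ∈ X j, t.Rel l x y)) ?_ ?_ ?_
  · intro un X
    refine Prod.ext (propext ⟨?_, fun h => ⟨(), h⟩⟩) (Prod.ext (propext ⟨?_, fun h => ⟨(), h⟩⟩)
      (propext ⟨?_, False.elim⟩))
    · rintro ⟨⟨⟩, h⟩; exact h
    · rintro ⟨⟨⟩, h⟩; exact h
    · rintro ⟨_, _, _, _, h⟩; exact h
  · intro m a b un X
    refine Prod.ext (propext ⟨?_, ?_⟩) (Prod.ext (propext ⟨?_, ?_⟩) (propext ⟨?_, ?_⟩))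
    · rintro ⟨x | x, h⟩
      · exact Or.inl ⟨x, h⟩
      · exact Or.inr ⟨x, h⟩
    · rintro (⟨x, h⟩ | ⟨x, h⟩)
      · exact ⟨_, h⟩
      · exact ⟨_, h⟩
    · rintro ⟨x | x, h⟩
      · exact Or.inl ⟨x, h⟩
      · exact Or.inr ⟨x, h⟩
    · rintro (⟨x, h⟩ | ⟨x, h⟩)
      · exact ⟨_, h⟩
      · exact ⟨_, h⟩
    · rintro ⟨x | x, hx, y | y, hy, h⟩
      · exact Or.inl ⟨x, hx, y, hy, h⟩
      · exact Or.inr (Or.inr ⟨h, ⟨x, hx⟩, ⟨y, hy⟩⟩)
      · exact h.elim
      · exact Or.inr (Or.inl ⟨x, hx, y, hy, h⟩)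
    · rintro (⟨x, hx, y, hy, h⟩ | ⟨x, hx, y, hy, h⟩ | ⟨h, ⟨x, hx⟩, ⟨y, hy⟩⟩)
      · exact ⟨_, hx, _, hy, h⟩
      · exact ⟨_, hx, _, hy, h⟩
      · exact ⟨_, hx, _, hy, h⟩
  · intro t un X
    exact Iff.rfl

theorem Recog.not {p : ∀ t : BT Λ, (U → t.El → Prop) → (ℕ → Set t.El) → Prop} (h : Recog p) :
    Recog (fun t un X => ¬ p t un X) := by
  obtain ⟨Z, hZ, δ, z0, acc, h⟩ := h
  exact ⟨Z, hZ, δ, z0, fun z => ¬ acc z, fun t un X => not_congr (h t un X)⟩

theorem Recog.and {p q : ∀ t : BT Λ, (U → t.El → Prop) → (ℕ → Set t.El) → Prop} (hp : Recog p)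
    (hq : Recog q) : Recog (fun t un X => p t un X ∧ q t un X) := by
  obtain ⟨Z, hZ, δ, z0, acc, hp⟩ := hp
  obtain ⟨Z', hZ', δ', z0', acc', hq⟩ := hq
  refine ⟨Z × Z', inferInstance, fun l a b => (δ l a.1 b.1, δ' l a.2 b.2), fun c => (z0 c, z0' c),
    fun z => acc z.1 ∧ acc' z.2, fun t un X => ?_⟩
  have h : ∀ (t : BT Λ) (c : t.El → Set U × Set ℕ),
      t.run (fun l (a b : Z × Z') => (δ l a.1 b.1, δ' l a.2 b.2)) (fun c => (z0 c, z0' c)) c =
        (t.run δ z0 c, t.run δ' z0' c) := by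
    intro t
    induction t with
    | pt => intro c; rfl
    | sum l a b iha ihb =>
      intro c
      show (_, _) = (_, _)
      rw [iha, ihb]
      rfl
  beta_reduce
  rw [h]
  exact and_congr (hp t un X) (hq t un X)

/-- Change the membership of `i` in a set of indices. -/
def upd (i : ℕ) (b : Prop) (s : Set ℕ) : Set ℕ := {j | (j ≠ i ∧ j ∈ s) ∨ (j = i ∧ b)}

theorem Recog.exSet {p : ∀ t : BT Λ, (U → t.El → Prop) → (ℕ → Set t.El) → Prop} (hp : Recog p)
    (i : ℕ) : Recog (fun t un X => ∃ S : Set t.El, p t un (Function.update X i S)) := by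
  classical
  obtain ⟨Z, hZ, δ, z0, acc, hp⟩ := hp
  have h : ∀ (t : BT Λ) (c : t.El → Set U × Set ℕ),
      t.run (fun l (A B : Set Z) => {z | ∃ a ∈ A, ∃ b ∈ B, z = δ l a b})
        (fun c => {z | ∃ b : Prop, z = z0 (c.1, upd i b c.2)}) c =
      {z | ∃ S : Set t.El, z = t.run δ z0 (fun x => ((c x).1, upd i (x ∈ S) (c x).2))} := by
    intro t
    induction t with
    | pt =>
      intro c
      ext z
      constructor
      · rintro ⟨b, h⟩
        exact ⟨{x | b}, h⟩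
      · rintro ⟨S, h⟩
        exact ⟨() ∈ S, h⟩
    | sum l a b iha ihb =>
      intro c
      show {z | ∃ a' ∈ BT.run _ _ a _, ∃ b' ∈ BT.run _ _ b _, z = δ l a' b'} = _
      rw [iha, ihb]
      ext z
      constructor
      · rintro ⟨_, ⟨S, rfl⟩, _, ⟨S', rfl⟩, rfl⟩
        exact ⟨{x | Sum.elim (fun y => y ∈ S) (fun y => y ∈ S') x}, rfl⟩
      · rintro ⟨S, rfl⟩
        exact ⟨_, ⟨{x | Sum.inl x ∈ S}, rfl⟩, _, ⟨{x | Sum.inr x ∈ S}, rfl⟩, rfl⟩
  have hu : ∀ (t : BT Λ) (X : ℕ → Set t.El) (S : Set t.El) (x : t.El),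
      {j | x ∈ Function.update X i S j} = upd i (x ∈ S) {j | x ∈ X j} := by
    intro t X S x
    ext j
    by_cases hj : j = i
    · subst hj
      simp [upd]
    · simp [upd, hj]
  refine ⟨Set Z, inferInstance, fun l (A B : Set Z) => {z | ∃ a ∈ A, ∃ b ∈ B, z = δ l a b},
    fun c => {z | ∃ b : Prop, z = z0 (c.1, upd i b c.2)}, fun A => ∃ z ∈ A, acc z,
    fun t un X => ?_⟩
  beta_reduce
  rw [h]
  constructor
  · rintro ⟨_, ⟨S, rfl⟩, hz⟩
    refine ⟨S, (hp t un _).1 ?_⟩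
    simp only [hu]
    exact hz
  · rintro ⟨S, hS⟩
    refine ⟨_, ⟨S, rfl⟩, ?_⟩
    have h2 := (hp t un _).2 hS
    simp only [hu] at h2
    exact h2

/-- **Monadic second-order properties are recognised by finite automata.** -/
theorem mso_recog (φ : Mso Λ U) : Recog (fun t un X => MSat t.Rel un φ X) := by
  induction φ with
  | sub i j => exact recog_sub i j
  | sing i => exact recog_sing i
  | un P i => exact recog_un P i
  | ord l i j => exact recog_ord l i j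
  | neg φ ih => exact ih.not
  | and φ ψ ih1 ih2 => exact ih1.and ih2
  | ex i φ ih => exact ih.exSet i

/-- **The tame half.** -/
theorem tame [Finite Λ] [Finite U] [Finite V] (Φ : Fm Λ U V) (Ψ : Mso Λ U) :
    Helper20.OP.UltPeriodic {n | ∃ (t : BT Λ) (M : Str Λ U V t.El), M.ord = t.Rel ∧
      (∀ e, Sat M Φ e) ∧ MSat M.ord M.un Ψ (fun _ => ∅) ∧ t.size = n} := by
  obtain ⟨Z, hZ, δ, z0, acc, h⟩ := mso_recog Ψ
  convert fm_sizes_ultPeriodic Φ δ (fun u => z0 (u, ∅)) acc using 1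
  ext n
  refine exists_congr fun t => exists_congr fun M => ?_
  constructor
  · rintro ⟨h1, h2, h3, h4⟩
    refine ⟨h1, h2, ?_, h4⟩
    rw [h1] at h3
    have h5 := (h t M.un _).2 h3
    convert h5 using 1
    have hrun : ∀ (t : BT Λ) (c : t.El → Set U), t.run δ (fun u => z0 (u, ∅)) c =
        t.run δ z0 (fun x => (c x, ∅)) := by
      intro t
      induction t with
      | pt => intro c; rfl
      | sum l a b iha ihb =>
        intro c
        show δ l _ _ = δ l _ _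
        rw [iha, ihb]
    rw [hrun]
    congr 1
  · rintro ⟨h1, h2, h3, h4⟩
    refine ⟨h1, h2, ?_, h4⟩
    rw [h1]
    refine (h t M.un _).1 ?_
    convert h3 using 1
    have hrun : ∀ (t : BT Λ) (c : t.El → Set U), t.run δ (fun u => z0 (u, ∅)) c =
        t.run δ z0 (fun x => (c x, ∅)) := by
      intro t
      induction t with
      | pt => intro c; rfl
      | sum l a b iha ihb =>
        intro c
        show δ l _ _ = δ l _ _
        rw [iha, ihb]
    rw [hrun]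
    congr 1

end Pool.Agent.Helper29.C2
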