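import Pool.Agent.Helper29.C2.Ind

/-!
Patterns of links between the two sides of a node.
-/

set_option autoImplicit false

namespace Pool.Agent.Helper29.C2

/-- A system: colours `Q`, facts `F` about ordered pairs, states `S`. `sil q q' f`: a pair `(x, y)` of
colours `q`, `q'` with fact `f` is silent for `x`. A state has a colour and, for every description
(colour of the partner, fact, two-way or not), a number of open links. -/
structure Sys (Q F S : Type) [Fintype Q] [Fintype F] where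
  inv : F → F
  inv_inv : ∀ f, inv (inv f) = f
  sil : Q → Q → F → Prop
  D : ℕ
  q : S → Q
  O : S → Q → F → Bool → ℕ
  inj : ∀ s s', q s = q s' → O s = O s' → s = s'
  bnd : ∀ s, ∑ q', ∑ f, ∑ t, O s q' f t ≤ D
  tu : ∀ s q', ∑ f, O s q' f true ≤ 1

variable {Q F S : Type} [Fintype Q] [Fintype F]

namespace Sys

variable (Y : Sys Q F S)

/-- The order of states: same colour, fewer open links. -/
def le (s s' : S) : Prop := Y.q s = Y.q s' ∧ ∀ q' f t, Y.O s q' f t ≤ Y.O s' q' f t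

/-- The strict order of states. -/
def lt (s s' : S) : Prop := Y.le s s' ∧ s ≠ s'

theorem le_refl (s : S) : Y.le s s := ⟨rfl, fun _ _ _ => Nat.le_refl _⟩

theorem le_trans {s s' s'' : S} (h : Y.le s s') (h' : Y.le s' s'') : Y.le s s'' :=
  ⟨h.1.trans h'.1, fun q f t => (h.2 q f t).trans (h'.2 q f t)⟩

theorem le_antisymm {s s' : S} (h : Y.le s s') (h' : Y.le s' s) : s = s' :=
  Y.inj _ _ h.1 (funext fun q => funext fun f => funext fun t =>
    Nat.le_antisymm (h.2 q f t) (h'.2 q f t))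

theorem lt_of_lt_of_le {s s' s'' : S} (h : Y.lt s s') (h' : Y.le s' s'') : Y.lt s s'' :=
  ⟨Y.le_trans h.1 h', fun e => h.2 (Y.le_antisymm h.1 (e ▸ h'))⟩

theorem lt_of_le_of_lt {s s' s'' : S} (h : Y.le s s') (h' : Y.lt s' s'') : Y.lt s s'' :=
  ⟨Y.le_trans h h'.1, fun e => h'.2 (Y.le_antisymm h'.1 (e ▸ h))⟩

/-- Pairs of colours `q`, `q'` at a node with permitted facts `P` can be silent for both. -/
def SA (P : F → Prop) (q q' : Q) : Prop :=
  ∃ f, P f ∧ Y.sil q q' f ∧ Y.sil q' q (Y.inv f)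

theorem SA_swap {P : F → Prop} {q q' : Q} (h : Y.SA P q q') :
    Y.SA (fun f => P (Y.inv f)) q' q := by
  obtain ⟨f, h1, h2, h3⟩ := h
  exact ⟨Y.inv f, by show P (Y.inv (Y.inv f)); rwa [Y.inv_inv], h3, by rwa [Y.inv_inv]⟩

end Sys

/-- A pattern of links at a node with sides `A` and `B` and permitted facts `P`. `mA a = (s, s')`: the
state of `a` before and after the node. `al a b`: `a` has an outgoing link to `b`; `be a b`: `b` has an
outgoing link to `a`. -/
structure Pat (Y : Sys Q F S) (P : F → Prop) (A B : Type) [Fintype A] [Fintype B] where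
  mA : A → S × S
  mB : B → S × S
  f : A → B → F
  al : A → B → Prop
  be : A → B → Prop
  hf : ∀ a b, P (f a b)
  qA : ∀ a, Y.q (mA a).2 = Y.q (mA a).1
  qB : ∀ b, Y.q (mB b).2 = Y.q (mB b).1
  oA : ∀ a q' φ t, Y.O (mA a).1 q' φ t = Y.O (mA a).2 q' φ t +
    ∑ b, ind (al a b ∧ Y.q (mB b).1 = q' ∧ f a b = φ ∧ (be a b ↔ t = true))
  oB : ∀ b q' φ t, Y.O (mB b).1 q' φ t = Y.O (mB b).2 q' φ t +
    ∑ a, ind (be a b ∧ Y.q (mA a).1 = q' ∧ Y.inv (f a b) = φ ∧ (al a b ↔ t = true))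
  sA : ∀ a b, ¬ al a b → Y.sil (Y.q (mA a).1) (Y.q (mB b).1) (f a b)
  sB : ∀ a b, ¬ be a b → Y.sil (Y.q (mB b).1) (Y.q (mA a).1) (Y.inv (f a b))

namespace Pat

variable {Y : Sys Q F S} {P : F → Prop} {A B : Type} [Fintype A] [Fintype B] (p : Pat Y P A B)

/-- The pattern seen from the other side. -/
def swap : Pat Y (fun f => P (Y.inv f)) B A where
  mA := p.mB
  mB := p.mA
  f b a := Y.inv (p.f a b)
  al b a := p.be a b
  be b a := p.al a b
  hf b a := by rw [Y.inv_inv]; exact p.hf a b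
  qA := p.qB
  qB := p.qA
  oA b q' φ t := p.oB b q' φ t
  oB a q' φ t := by simpa only [Y.inv_inv] using p.oA a q' φ t
  sA b a h := p.sB a b h
  sB b a h := by rw [Y.inv_inv]; exact p.sA a b h

theorem le_A (a : A) : Y.le (p.mA a).2 (p.mA a).1 :=
  ⟨p.qA a, fun q' φ t => by rw [p.oA a]; exact Nat.le_add_right _ _⟩

/-- The number of outgoing links of `a` to elements of colour `q'`. -/
theorem out_eq (a : A) (q' : Q) :
    ∑ φ, ∑ t, (Y.O (p.mA a).1 q' φ t - Y.O (p.mA a).2 q' φ t) =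
      ∑ b, ind (p.al a b ∧ Y.q (p.mB b).1 = q') := by
  have h1 : ∀ φ t, Y.O (p.mA a).1 q' φ t - Y.O (p.mA a).2 q' φ t =
      ∑ b, ind (p.al a b ∧ Y.q (p.mB b).1 = q' ∧ p.f a b = φ ∧ (p.be a b ↔ t = true)) := by
    intro φ t
    rw [p.oA a q' φ t]
    omega
  simp only [h1]
  rw [Finset.sum_congr rfl fun φ _ => Finset.sum_comm, Finset.sum_comm]
  refine Finset.sum_congr rfl fun b _ => ?_
  have h2 : ∀ φ, ∑ t, ind (p.al a b ∧ Y.q (p.mB b).1 = q' ∧ p.f a b = φ ∧ (p.be a b ↔ t = true)) =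
      ind ((p.al a b ∧ Y.q (p.mB b).1 = q') ∧ p.f a b = φ) := by
    intro φ
    rw [Fintype.sum_bool]
    rw [ind_split ((p.al a b ∧ Y.q (p.mB b).1 = q') ∧ p.f a b = φ) (p.be a b)]
    congr 1
    · exact ind_congr (by simp [and_assoc])
    · exact ind_congr (by simp [and_assoc])
  simp only [h2]
  exact sum_ind_and_eq (p.f a b) (fun _ => p.al a b ∧ Y.q (p.mB b).1 = q')

/-- The number of one-way outgoing links of `a` to elements of colour `q'`. -/
theorem out_one_eq (a : A) (q' : Q) :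
    ∑ φ, (Y.O (p.mA a).1 q' φ false - Y.O (p.mA a).2 q' φ false) =
      ∑ b, ind (p.al a b ∧ ¬ p.be a b ∧ Y.q (p.mB b).1 = q') := by
  have h1 : ∀ φ, Y.O (p.mA a).1 q' φ false - Y.O (p.mA a).2 q' φ false =
      ∑ b, ind ((p.al a b ∧ ¬ p.be a b ∧ Y.q (p.mB b).1 = q') ∧ p.f a b = φ) := by
    intro φ
    rw [p.oA a q' φ false, Nat.add_sub_cancel_left]
    refine Finset.sum_congr rfl fun b _ => ind_congr ?_
    simp only [Bool.false_eq_true, iff_false]
    tauto
  simp only [h1]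
  rw [Finset.sum_comm]
  refine Finset.sum_congr rfl fun b _ => ?_
  exact sum_ind_and_eq (p.f a b) (fun _ => p.al a b ∧ ¬ p.be a b ∧ Y.q (p.mB b).1 = q')

/-- The number of outgoing links is bounded. -/
theorem out_le (a : A) : ∑ b, ind (p.al a b) ≤ Y.D := by
  have h1 : ∑ b, ind (p.al a b) = ∑ q', ∑ b, ind (p.al a b ∧ Y.q (p.mB b).1 = q') := by
    rw [Finset.sum_comm]
    refine Finset.sum_congr rfl fun b _ => ?_
    exact (sum_ind_and_eq (Y.q (p.mB b).1) (fun _ => p.al a b)).symm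
  rw [h1]
  refine le_trans ?_ (Y.bnd (p.mA a).1)
  refine Finset.sum_le_sum fun q' _ => ?_
  rw [← p.out_eq]
  exact Finset.sum_le_sum fun φ _ => Finset.sum_le_sum fun t _ => Nat.sub_le _ _

/-- `b` has at most `D` outgoing links. -/
theorem in_le (b : B) : ∑ a, ind (p.be a b) ≤ Y.D := p.swap.out_le b

/-- **Forced decrease.** If `b` cannot be silent with elements of colour `q s`, then all but `D`
elements of state at most `s` decrease strictly below `s`. -/
theorem forced (b : B) (s : S) (h : ¬ Y.SA P (Y.q s) (Y.q (p.mB b).1)) :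
    ∑ a, ind (Y.le (p.mA a).1 s) ≤ ∑ a, ind (Y.lt (p.mA a).2 s) + Y.D := by
  refine le_trans ?_ (Nat.add_le_add_left (p.in_le b) _)
  rw [← Finset.sum_add_distrib]
  refine Finset.sum_le_sum fun a _ => ?_
  refine le_trans (ind_mono ?_) (ind_or_le _ _)
  intro hle
  by_cases hbe : p.be a b
  · exact Or.inr hbe
  left
  have hal : p.al a b := by
    by_contra hal
    refine h ⟨p.f a b, p.hf a b, ?_, ?_⟩
    · rw [← hle.1]; exact p.sA a b hal
    · rw [← hle.1]; exact p.sB a b hbe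
  refine Y.lt_of_lt_of_le ⟨p.le_A a, fun e => ?_⟩ hle
  have h1 := p.oA a (Y.q (p.mB b).1) (p.f a b) false
  rw [e] at h1
  have h2 : ∑ b', ind (p.al a b' ∧ Y.q (p.mB b').1 = Y.q (p.mB b).1 ∧ p.f a b' = p.f a b ∧
      (p.be a b' ↔ false = true)) = 0 := by omega
  have h3 := le_sum (fun b' => ind (p.al a b' ∧ Y.q (p.mB b').1 = Y.q (p.mB b).1 ∧
    p.f a b' = p.f a b ∧ (p.be a b' ↔ false = true))) b
  simp only [h2] at h3
  rw [ind_pos ⟨hal, trivial, trivial, by simpa using hbe⟩] at h3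
  omega

/-- Elements which are silent with the other side may be added. -/
noncomputable def addA (E : Type) [Fintype E] (m : E → S) (φ : E → B → F) (hP : ∀ e b, P (φ e b))
    (h1 : ∀ e b, Y.sil (Y.q (m e)) (Y.q (p.mB b).1) (φ e b))
    (h2 : ∀ e b, Y.sil (Y.q (p.mB b).1) (Y.q (m e)) (Y.inv (φ e b))) : Pat Y P (A ⊕ E) B where
  mA := Sum.elim p.mA (fun e => (m e, m e))
  mB := p.mB
  f := Sum.elim p.f φ
  al := Sum.elim p.al (fun _ _ => False)
  be := Sum.elim p.be (fun _ _ => False)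
  hf := by
    rintro (a | e) b
    · exact p.hf a b
    · exact hP e b
  qA := by
    rintro (a | e)
    · exact p.qA a
    · rfl
  qB := p.qB
  oA := by
    rintro (a | e) q' ψ t
    · exact p.oA a q' ψ t
    · simp
  oB := by
    intro b q' ψ t
    rw [Fintype.sum_sum_type]
    simpa using p.oB b q' ψ t
  sA := by
    rintro (a | e) b h
    · exact p.sA a b h
    · exact h1 e b
  sB := by
    rintro (a | e) b h
    · exact p.sB a b h
    · exact h2 e b

end Pat

/-- There is a pattern with the given distributions of moves. -/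
def PatOK (Y : Sys Q F S) (P : F → Prop) (FL FR : S × S → ℕ) : Prop :=
  ∃ (A B : Type) (_ : Fintype A) (_ : Fintype B) (p : Pat Y P A B),
    dist p.mA = FL ∧ dist p.mB = FR

theorem PatOK.swap {Y : Sys Q F S} {P : F → Prop} {FL FR : S × S → ℕ} (h : PatOK Y P FL FR) :
    PatOK Y (fun f => P (Y.inv f)) FR FL := by
  obtain ⟨A, B, _, _, p, h1, h2⟩ := h
  exact ⟨B, A, _, _, p.swap, h2, h1⟩

theorem PatOK.of_swap {Y : Sys Q F S} {P : F → Prop} {FL FR : S × S → ℕ}
    (h : PatOK Y (fun f => P (Y.inv f)) FR FL) : PatOK Y P FL FR := by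
  have := h.swap
  simpa only [Y.inv_inv] using this

section

variable [Fintype S] {Y : Sys Q F S} {P : F → Prop} {FL FR : S × S → ℕ}

/-- Extras which may be silent with the other side pass a node. -/
theorem PatOK.passA (h : PatOK Y P FL FR) (e : S → ℕ)
    (he : ∀ s, e s ≠ 0 → ∀ y, FR y ≠ 0 → Y.SA P (Y.q s) (Y.q y.1)) :
    PatOK Y P (fun x => FL x + ind (x.1 = x.2) * e x.1) FR := by
  obtain ⟨A, B, _, _, p, h1, h2⟩ := h
  have hex : ∀ (i : Σ s : S, Fin (e s)) (b : B), Y.SA P (Y.q i.1) (Y.q (p.mB b).1) := by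
    rintro ⟨s, i⟩ b
    refine he s (fun h0 => ?_) _ ?_
    · rw [h0] at i; exact i.elim0
    · rw [← h2]; exact dist_ne_zero _ b
  choose φ hφ using hex
  refine ⟨A ⊕ (Σ s : S, Fin (e s)), B, inferInstance, inferInstance,
    p.addA (Σ s : S, Fin (e s)) (fun i => i.1) φ (fun i b => (hφ i b).1) (fun i b => (hφ i b).2.1)
      (fun i b => (hφ i b).2.2), ?_, h2⟩
  funext x
  show dist (Sum.elim p.mA fun i : (Σ s : S, Fin (e s)) => (i.1, i.1)) x = _
  rw [dist_sum, h1]
  congr 1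
  obtain ⟨x1, x2⟩ := x
  have h3 : dist (fun i : (Σ s : S, Fin (e s)) => (i.1, i.1)) (x1, x2) =
      ind (x1 = x2) * dist (fun i : (Σ s : S, Fin (e s)) => i.1) x1 := by
    unfold dist
    rw [Finset.mul_sum]
    refine Finset.sum_congr rfl fun i _ => ?_
    rw [← ind_and]
    refine ind_congr ?_
    rw [Prod.mk.injEq]
    constructor
    · rintro ⟨rfl, rfl⟩; exact ⟨rfl, rfl⟩
    · rintro ⟨rfl, rfl⟩; exact ⟨rfl, rfl⟩
  rw [h3, dist_sigma_fst]

theorem PatOK.passB (h : PatOK Y P FL FR) (e : S → ℕ)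
    (he : ∀ s, e s ≠ 0 → ∀ x, FL x ≠ 0 → Y.SA P (Y.q x.1) (Y.q s)) :
    PatOK Y P FL (fun y => FR y + ind (y.1 = y.2) * e y.1) := by
  refine PatOK.of_swap ?_
  refine h.swap.passA e fun s hs x hx => ?_
  exact Y.SA_swap (he s hs x hx)

omit [Fintype S] in
/-- Moves only decrease the state. -/
theorem PatOK.le_A (h : PatOK Y P FL FR) {x : S × S} (hx : FL x ≠ 0) : Y.le x.2 x.1 := by
  obtain ⟨A, B, _, _, p, h1, h2⟩ := h
  rw [← h1] at hx
  obtain ⟨a, rfl⟩ := exists_of_dist hx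
  exact p.le_A a

omit [Fintype S] in
theorem PatOK.le_B (h : PatOK Y P FL FR) {x : S × S} (hx : FR x ≠ 0) : Y.le x.2 x.1 :=
  h.swap.le_A hx

/-- Forced decrease in terms of the distributions. -/
theorem PatOK.forcedA (h : PatOK Y P FL FR) {y : S × S} (hy : FR y ≠ 0) (s : S)
    (hs : ¬ Y.SA P (Y.q s) (Y.q y.1)) :
    ∑ x : S × S, FL x * ind (Y.le x.1 s) ≤ ∑ x : S × S, FL x * ind (Y.lt x.2 s) + Y.D := by
  obtain ⟨A, B, _, _, p, h1, h2⟩ := h
  rw [← h2] at hy
  obtain ⟨b, rfl⟩ := exists_of_dist hy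
  have := p.forced b s hs
  rw [← h1]
  rwa [sum_comp p.mA (fun x => ind (Y.le x.1 s)), sum_comp p.mA (fun x => ind (Y.lt x.2 s))] at this

theorem PatOK.forcedB (h : PatOK Y P FL FR) {x : S × S} (hx : FL x ≠ 0) (s : S)
    (hs : ¬ Y.SA P (Y.q x.1) (Y.q s)) :
    ∑ y : S × S, FR y * ind (Y.le y.1 s) ≤ ∑ y : S × S, FR y * ind (Y.lt y.2 s) + Y.D := by
  refine h.swap.forcedA hx s fun h => hs ?_
  have := Y.SA_swap h
  simpa only [Y.inv_inv] using this

end

end Pool.Agent.Helper29.C2
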