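import Pool.Agent.Helper29.C2.Tree

/-!
Amalgamation of annotated trees and the sizes of the valid trees.
-/

set_option autoImplicit false

namespace Pool.Agent.Helper29.C2

variable {Q F S α Lab Z : Type} [Fintype Q] [Fintype F] [Fintype S]

/-- Amalgamation of patterns in terms of the distributions. -/
theorem PatOK.amalg {Y : Sys Q F S} {P : F → Prop} {L0 R0 L1 R1 L2 R2 : S × S → ℕ} {T : ℕ}
    (hT : 2 * Y.D + 1 ≤ T) (h0 : PatOK Y P L0 R0) (h1 : PatOK Y P L1 R1) (h2 : PatOK Y P L2 R2)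
    (hL1 : LeF T L0 L1) (hL2 : LeF T L0 L2) (hR1 : LeF T R0 R1) (hR2 : LeF T R0 R2) :
    PatOK Y P (fun x => L1 x + (L2 x - L0 x)) (fun x => R1 x + (R2 x - R0 x)) := by
  obtain ⟨A0, B0, _, _, p0, rfl, rfl⟩ := h0
  obtain ⟨A1, B1, _, _, p1, rfl, rfl⟩ := h1
  obtain ⟨A2, B2, _, _, p2, rfl, rfl⟩ := h2
  exact Pat.amalg p0 p1 p2 hT hL1 hL2 hR1 hR2

theorem Le.mul_ind {T a b : ℕ} (h : Le T a b) (p : Prop) : Le T (a * ind p) (b * ind p) := by
  by_cases hp : p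
  · simpa [ind_pos hp] using h
  · simp [ind_neg hp, Le.refl]

theorem LeF.amalg {X : Type} {T : ℕ} {F G H : X → ℕ} (h1 : LeF T F G) (h2 : LeF T F H) :
    LeF T F (fun x => G x + (H x - F x)) := by
  intro x
  have h3 := h1 x
  have h4 := h2 x
  show Le T (F x) (G x + (H x - F x))
  unfold Le at *
  omega

theorem sum_amalg {X : Type} [Fintype X] {F G H : X → ℕ}
    (h2 : ∀ x, F x ≤ H x) (p : X → Prop) :
    ∑ x, (G x + (H x - F x)) * ind (p x) =
      ∑ x, G x * ind (p x) + (∑ x, H x * ind (p x) - ∑ x, F x * ind (p x)) := by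
  have h3 : ∑ x, (G x + (H x - F x)) * ind (p x) + ∑ x, F x * ind (p x) =
      ∑ x, G x * ind (p x) + ∑ x, H x * ind (p x) := by
    rw [← Finset.sum_add_distrib, ← Finset.sum_add_distrib]
    refine Finset.sum_congr rfl fun x _ => ?_
    have h4 := h2 x
    rw [← Nat.add_mul, ← Nat.add_mul]
    congr 1
    omega
  have h5 : ∑ x, F x * ind (p x) ≤ ∑ x, H x * ind (p x) :=
    Finset.sum_le_sum fun x _ => Nat.mul_le_mul_right _ (h2 x)
  omega

namespace TL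

variable (X : TL Q F S α Lab Z)

/-- The root stage: from trees matched at the root to full trees. -/
theorem amalg_lift {T : ℕ} (hT : 2 * X.Y.D + 1 ≤ T) {t t1 t2 t1' t2' t3 : Tr α (NL S Lab)}
    (hOK1 : X.OK t1) (hOK2 : X.OK t2) (h1 : X.rel T t t1) (h2 : X.rel T t t2)
    (hs1 : Sub t1' t1) (hs2 : Sub t2' t2)
    (hm1 : LeF T (X.ms t) (X.ms t1')) (hm2 : LeF T (X.ms t) (X.ms t2'))
    (hst1 : X.st t1' = X.st t) (hst2 : X.st t2' = X.st t) (hOK3 : X.OK t3)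
    (hst3 : X.st t3 = X.st t)
    (hms3 : ∀ s, X.ms t3 s = X.ms t1' s + (X.ms t2' s - X.ms t s))
    (hsz3 : t3.size + t.size = t1'.size + t2'.size) (hemb : Emb (nle T) t t3) :
    ∃ t4, X.OK t4 ∧ X.rel T t t4 ∧ (∀ s, X.ms t4 s = X.ms t1 s + (X.ms t2 s - X.ms t s)) ∧
      t4.size + t.size = t1.size + t2.size := by
  have hhigh : ∀ v : Tr α (NL S Lab), LeF T (X.ms t) (X.ms v) → ∀ s0,
      (∀ s, X.Y.lt s s0 → X.ms t s < T) →
      N (X.ms v) (fun s => X.Y.lt s s0) ≤ N (X.ms t) (fun s => X.Y.lt s s0) := by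
    intro v hv s0 hs0
    refine Finset.sum_le_sum fun s _ => ?_
    by_cases hs : X.Y.lt s s0
    · rw [(hv s).eq_of_lt (hs0 s hs)]
    · simp [ind_neg hs]
  obtain ⟨u1, a1, a2, a3, a4, a5⟩ := X.pass (m := X.ms t) (e := fun s => X.ms t2' s - X.ms t s)
    (T := T) (by omega) hs1 hOK1 (fun s => (hm1 s).le) (hhigh t1 h1.2.1)
    (fun s hs => (hm2 s).large (by omega)) hOK3 (hst3.trans hst1.symm) hms3
  obtain ⟨u2, b1, b2, b3, b4, b5⟩ := X.pass (m := X.ms t) (e := fun s => X.ms t1 s - X.ms t s)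
    (T := T) (by omega) hs2 hOK2 (fun s => (hm2 s).le) (hhigh t2 h2.2.1)
    (fun s hs => (h1.2.1 s).large (by omega)) a1
    (a2.trans (h1.2.2.symm.trans hst2.symm)) (fun s => by
      rw [a3 s]
      have c1 := (hm2 s).le
      have c2 := (h1.2.1 s).le
      omega)
  have hms : ∀ s, X.ms u2 s = X.ms t1 s + (X.ms t2 s - X.ms t s) := by
    intro s
    rw [b3 s]
    have c1 := (h1.2.1 s).le
    have c2 := (h2.2.1 s).le
    omega
  refine ⟨u2, b1, ⟨(a5.emb hemb |> b5.emb), ?_, h2.2.2.trans b2.symm⟩, hms, by omega⟩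
  have := LeF.amalg h1.2.1 h2.2.1
  rwa [show (fun x => X.ms t1 x + (X.ms t2 x - X.ms t x)) = X.ms u2 from
    (funext hms).symm] at this

/-- **Amalgamation.** -/
theorem amalg {T : ℕ} (hT : 2 * X.Y.D + 1 ≤ T) (t : Tr α (NL S Lab)) (hOK : X.OK t) :
    ∀ t1 t2, X.OK t1 → X.OK t2 → X.rel T t t1 → X.rel T t t2 →
    ∃ t4, X.OK t4 ∧ X.rel T t t4 ∧ (∀ s, X.ms t4 s = X.ms t1 s + (X.ms t2 s - X.ms t s)) ∧
      t4.size + t.size = t1.size + t2.size := by
  induction t with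
  | leaf α0 =>
    intro t1 t2 hOK1 hOK2 h1 h2
    obtain ⟨t1', hs1, hm1⟩ := h1.1.exists_matched
    obtain ⟨t2', hs2, hm2⟩ := h2.1.exists_matched
    have e1 : t1' = Tr.leaf α0 := hm1
    have e2 : t2' = Tr.leaf α0 := hm2
    subst e1 e2
    exact X.amalg_lift hT hOK1 hOK2 h1 h2 hs1 hs2 (fun s => Le.refl _ _) (fun s => Le.refl _ _)
      rfl rfl (t3 := Tr.leaf α0) trivial rfl (fun s => by omega) rfl (Emb.leaf _)
  | node l a b iha ihb =>
    intro t1 t2 hOK1 hOK2 h1 h2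
    obtain ⟨t1', hs1, hm1⟩ := h1.1.exists_matched
    obtain ⟨t2', hs2, hm2⟩ := h2.1.exists_matched
    obtain ⟨l1, a1, b1, rfl, hl1, ha1, hb1⟩ := hm1
    obtain ⟨l2, a2, b2, rfl, hl2, ha2, hb2⟩ := hm2
    have hO1 := X.OK_sub hs1 hOK1
    have hO2 := X.OK_sub hs2 hOK2
    obtain ⟨lab, L, R⟩ := l
    obtain ⟨lab1, L1, R1⟩ := l1
    obtain ⟨lab2, L2, R2⟩ := l2
    obtain ⟨e1, hL1, hR1⟩ := hl1
    obtain ⟨e2, hL2, hR2⟩ := hl2
    simp only at e1 hL1 hR1 e2 hL2 hR2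
    subst e1 e2
    obtain ⟨ka, kb, kp, kra, krb, kza, kzb⟩ := hOK
    obtain ⟨ka1, kb1, kp1, kra1, krb1, kza1, kzb1⟩ := hO1
    obtain ⟨ka2, kb2, kp2, kra2, krb2, kza2, kzb2⟩ := hO2
    simp only at kp kra krb kza kzb kp1 kra1 krb1 kza1 kzb1 kp2 kra2 krb2 kza2 kzb2
    have row : ∀ {u u' : Tr α (NL S Lab)} {G G' : S × S → ℕ},
        (∀ s, X.ms u s = ∑ x, G x * ind (x.1 = s)) → (∀ s, X.ms u' s = ∑ x, G' x * ind (x.1 = s)) →
        LeF T G G' → LeF T (X.ms u) (X.ms u') := by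
      intro u u' G G' h h' hG s
      rw [h s, h' s]
      exact Le.sum _ fun x => (hG x).mul_ind _
    obtain ⟨a3, oa3, ra3, ma3, sa3⟩ := iha ka a1 a2 ka1 ka2
      ⟨ha1, row kra kra1 hL1, kza.trans kza1.symm⟩ ⟨ha2, row kra kra2 hL2, kza.trans kza2.symm⟩
    obtain ⟨b3, ob3, rb3, mb3, sb3⟩ := ihb kb b1 b2 kb1 kb2
      ⟨hb1, row krb krb1 hR1, kzb.trans kzb1.symm⟩ ⟨hb2, row krb krb2 hR2, kzb.trans kzb2.symm⟩
    have hp3 := PatOK.amalg hT kp kp1 kp2 hL1 hL2 hR1 hR2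
    refine X.amalg_lift hT hOK1 hOK2 h1 h2 hs1 hs2 ?_ ?_ rfl rfl
      (t3 := Tr.node (lab, (fun x => L1 x + (L2 x - L x), fun x => R1 x + (R2 x - R x))) a3 b3)
      ⟨oa3, ob3, hp3, ?_, ?_, ?_, ?_⟩ rfl ?_ ?_ ?_
    · intro s
      exact (Le.sum _ fun x => (hL1 x).mul_ind _).add (Le.sum _ fun x => (hR1 x).mul_ind _)
    · intro s
      exact (Le.sum _ fun x => (hL2 x).mul_ind _).add (Le.sum _ fun x => (hR2 x).mul_ind _)
    · intro s
      rw [ma3 s, kra s, kra1 s, kra2 s]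
      exact (sum_amalg (fun x => (hL2 x).le) _).symm
    · intro s
      rw [mb3 s, krb s, krb1 s, krb2 s]
      exact (sum_amalg (fun x => (hR2 x).le) _).symm
    · exact ra3.2.2.symm.trans kza
    · exact rb3.2.2.symm.trans kzb
    · intro s
      show ∑ x, (L1 x + (L2 x - L x)) * ind (x.2 = s) + ∑ x, (R1 x + (R2 x - R x)) * ind (x.2 = s)
        = (∑ x, L1 x * ind (x.2 = s) + ∑ x, R1 x * ind (x.2 = s)) +
          ((∑ x, L2 x * ind (x.2 = s) + ∑ x, R2 x * ind (x.2 = s)) -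
          (∑ x, L x * ind (x.2 = s) + ∑ x, R x * ind (x.2 = s)))
      rw [sum_amalg (fun x => (hL2 x).le), sum_amalg (fun x => (hR2 x).le)]
      have c1 : ∑ x, L x * ind (x.2 = s) ≤ ∑ x, L2 x * ind (x.2 = s) :=
        Finset.sum_le_sum fun x _ => Nat.mul_le_mul_right _ (hL2 x).le
      have c2 : ∑ x, R x * ind (x.2 = s) ≤ ∑ x, R2 x * ind (x.2 = s) :=
        Finset.sum_le_sum fun x _ => Nat.mul_le_mul_right _ (hR2 x).le
      omega
    · simp only [Tr.size]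
      omega
    · exact Emb.node ⟨rfl, LeF.amalg hL1 hL2, LeF.amalg hR1 hR2⟩ ra3.1 rb3.1

/-- The valid trees which are accepted and closed. -/
def Good (acc : Z → Prop) (cl : S → Prop) (t : Tr α (NL S Lab)) : Prop :=
  X.OK t ∧ acc (X.st t) ∧ ∀ s, X.ms t s ≠ 0 → cl s

/-- **The sizes of the valid closed trees are ultimately periodic.** -/
theorem sizes_ultPeriodic [Finite α] [Finite Lab] [Finite Z] (acc : Z → Prop) (cl : S → Prop) :
    Helper20.OP.UltPeriodic {n | ∃ t, X.Good acc cl t ∧ t.size = n} := by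
  classical
  set T := 2 * X.Y.D + 1 with hTdef
  have hT : 2 * X.Y.D + 1 ≤ T := le_rfl
  -- finite basis
  obtain ⟨B, hB, hbasis⟩ : ∃ B : Finset (Tr α (NL S Lab)), (∀ b ∈ B, X.Good acc cl b) ∧
      ∀ t, X.Good acc cl t → ∃ b ∈ B, X.rel T b t := by
    by_contra hcon
    push Not at hcon
    obtain ⟨f, hf, hf'⟩ := exists_seq_of_forall_finset_exists (X.Good acc cl)
      (fun x y => ¬ X.rel T x y) (fun s hs => by
        obtain ⟨t, ht, ht'⟩ := hcon s hs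
        exact ⟨t, ht, ht'⟩)
    obtain ⟨m, n, hmn, h⟩ := X.rel_wqo T f
    exact hf' m n hmn h
  -- growth
  have hgrow : ∀ b ∈ B, ∃ m, 1 ≤ m ∧ ∀ t, X.Good acc cl t → X.rel T b t → b.size < t.size →
      ∃ t', X.Good acc cl t' ∧ X.rel T b t' ∧ t'.size = t.size + m := by
    intro b hb
    by_cases hex : ∃ t0, X.Good acc cl t0 ∧ X.rel T b t0 ∧ b.size < t0.size
    · obtain ⟨t0, ht0, hr0, hs0⟩ := hex
      refine ⟨t0.size - b.size, by omega, fun t ht hr hs => ?_⟩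
      obtain ⟨t4, h1, h2, h3, h4⟩ := X.amalg hT b (hB b hb).1 t t0 ht.1 ht0.1 hr hr0
      refine ⟨t4, ⟨h1, ?_, ?_⟩, h2, by omega⟩
      · rw [← h2.2.2]; exact (hB b hb).2.1
      · intro s hs'
        rw [h3 s] at hs'
        by_cases hts : X.ms t s = 0
        · exact ht0.2.2 s (by omega)
        · exact ht.2.2 s hts
    · exact ⟨1, le_rfl, fun t ht hr hs => absurd ⟨t, ht, hr, hs⟩ hex⟩
  choose! m hm1 hm2 using hgrow
  have hp : 1 ≤ ∏ b ∈ B, m b := Nat.one_le_iff_ne_zero.2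
    (Finset.prod_ne_zero_iff.2 fun b hb => by have := hm1 b hb; omega)
  refine Helper20.OP.ultPeriodic_of_add (p := ∏ b ∈ B, m b) (N := ∑ b ∈ B, b.size + 1) hp ?_
  rintro n hn ⟨t, ht, rfl⟩
  obtain ⟨b, hb, hr⟩ := hbasis t ht
  have hlt : b.size < t.size := by
    have := Finset.single_le_sum (f := fun b : Tr α (NL S Lab) => b.size)
      (fun _ _ => Nat.zero_le _) hb
    omega
  have hiter : ∀ k, ∃ t', X.Good acc cl t' ∧ X.rel T b t' ∧ b.size < t'.size ∧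
      t'.size = t.size + k * m b := by
    intro k
    induction k with
    | zero => exact ⟨t, ht, hr, hlt, by simp⟩
    | succ k ih =>
      obtain ⟨t', h1, h2, h3, h4⟩ := ih
      obtain ⟨t'', h5, h6, h7⟩ := hm2 b hb t' h1 h2 h3
      exact ⟨t'', h5, h6, by omega, by rw [h7, h4]; ring⟩
  obtain ⟨k, hk⟩ := Finset.dvd_prod_of_mem m hb
  obtain ⟨t', h1, _, _, h4⟩ := hiter k
  exact ⟨t', h1, by rw [h4, hk]; ring⟩

end TL

end Pool.Agent.Helper29.C2
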