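import Mathlib

/-!
Two-variable first-order logic with counting quantifiers, over structures with background relations
`ord l`, unary relations and binary relations.
-/

set_option autoImplicit false

namespace Pool.Agent.Helper29.C2

/-- Two-variable formulas with counting quantifiers. The two variables are `true` and `false`. -/
inductive Fm (Λ U V : Type) : Type
  /-- `x = y` -/
  | eq : Fm Λ U V
  /-- the background relation `l` holds from the variable `v` to the other variable -/
  | ord (l : Λ) (v : Bool) : Fm Λ U V
  /-- the variable `v` satisfies the unary relation `P` -/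
  | un (P : U) (v : Bool) : Fm Λ U V
  /-- the binary relation `E` holds from `v` to `w` -/
  | bin (E : V) (v w : Bool) : Fm Λ U V
  | neg (φ : Fm Λ U V) : Fm Λ U V
  | and (φ ψ : Fm Λ U V) : Fm Λ U V
  /-- there are at least `k` elements `v` which satisfy `φ` -/
  | ex (k : ℕ) (v : Bool) (φ : Fm Λ U V) : Fm Λ U V

/-- Structures: background relations, unary relations, binary relations. -/
structure Str (Λ U V A : Type) : Type where
  ord : Λ → A → A → Prop
  un : U → A → Prop
  bin : V → A → A → Prop

variable {Λ U V A : Type}

/-- Satisfaction; `e true`, `e false` are the values of the two variables. -/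
def Sat (M : Str Λ U V A) : Fm Λ U V → (Bool → A) → Prop
  | Fm.eq, e => e true = e false
  | Fm.ord l v, e => M.ord l (e v) (e (!v))
  | Fm.un P v, e => M.un P (e v)
  | Fm.bin E v w, e => M.bin E (e v) (e w)
  | Fm.neg φ, e => ¬ Sat M φ e
  | Fm.and φ ψ, e => Sat M φ e ∧ Sat M ψ e
  | Fm.ex k v φ, e => k ≤ Nat.card {a : A // Sat M φ (Function.update e v a)}

end Pool.Agent.Helper29.C2
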