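import Pool.Agent.Helper29.C2.FromModel
import Pool.Agent.Helper29.C2.Syn

/-!
From two-variable formulas with counting quantifiers to systems.
-/

set_option autoImplicit false

namespace Pool.Agent.Helper29.C2

variable {Λ U V : Type}

/-- The subformulas. -/
def subs : Fm Λ U V → Set (Fm Λ U V)
  | Fm.neg φ => insert (Fm.neg φ) (subs φ)
  | Fm.and φ ψ => insert (Fm.and φ ψ) (subs φ ∪ subs ψ)
  | Fm.ex k v φ => insert (Fm.ex k v φ) (subs φ)
  | φ => {φ}

theorem subs_finite (φ : Fm Λ U V) : (subs φ).Finite := by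
  induction φ with
  | eq => exact Set.finite_singleton _
  | ord l v => exact Set.finite_singleton _
  | un P v => exact Set.finite_singleton _
  | bin E v w => exact Set.finite_singleton _
  | neg φ ih => exact ih.insert _
  | and φ ψ ih1 ih2 => exact (ih1.union ih2).insert _
  | ex k v φ ih => exact ih.insert _

theorem self_mem_subs (φ : Fm Λ U V) : φ ∈ subs φ := by
  cases φ <;> simp [subs]

theorem subs_trans {φ ψ χ : Fm Λ U V} (h1 : χ ∈ subs ψ) (h2 : ψ ∈ subs φ) : χ ∈ subs φ := by
  induction φ with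
  | eq => obtain rfl := Set.mem_singleton_iff.1 h2; exact h1
  | ord l v => obtain rfl := Set.mem_singleton_iff.1 h2; exact h1
  | un P v => obtain rfl := Set.mem_singleton_iff.1 h2; exact h1
  | bin E v w => obtain rfl := Set.mem_singleton_iff.1 h2; exact h1
  | neg φ ih =>
    rcases h2 with rfl | h2
    · exact h1
    · exact Or.inr (ih h2)
  | and φ ψ' ih1 ih2 =>
    rcases h2 with rfl | h2 | h2
    · exact h1
    · exact Or.inr (Or.inl (ih1 h2))
    · exact Or.inr (Or.inr (ih2 h2))
  | ex k v φ ih =>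
    rcases h2 with rfl | h2
    · exact h1
    · exact Or.inr (ih h2)

theorem mem_subs_neg {φ : Fm Λ U V} : φ ∈ subs (Fm.neg φ) := Or.inr (self_mem_subs φ)

theorem mem_subs_and1 {φ ψ : Fm Λ U V} : φ ∈ subs (Fm.and φ ψ) := Or.inr (Or.inl (self_mem_subs φ))

theorem mem_subs_and2 {φ ψ : Fm Λ U V} : ψ ∈ subs (Fm.and φ ψ) := Or.inr (Or.inr (self_mem_subs ψ))

theorem mem_subs_ex {k : ℕ} {v : Bool} {φ : Fm Λ U V} : φ ∈ subs (Fm.ex k v φ) :=
  Or.inr (self_mem_subs φ)

/-- The largest number in a counting quantifier. -/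
def maxk : Fm Λ U V → ℕ
  | Fm.neg φ => maxk φ
  | Fm.and φ ψ => max (maxk φ) (maxk ψ)
  | Fm.ex k _ φ => max k (maxk φ)
  | _ => 0

theorem maxk_subs {φ ψ : Fm Λ U V} (h : ψ ∈ subs φ) : maxk ψ ≤ maxk φ := by
  induction φ with
  | eq => obtain rfl := Set.mem_singleton_iff.1 h; exact le_rfl
  | ord l v => obtain rfl := Set.mem_singleton_iff.1 h; exact le_rfl
  | un P v => obtain rfl := Set.mem_singleton_iff.1 h; exact le_rfl
  | bin E v w => obtain rfl := Set.mem_singleton_iff.1 h; exact le_rfl
  | neg φ ih =>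
    rcases h with rfl | h
    · exact le_rfl
    · exact ih h
  | and φ ψ' ih1 ih2 =>
    rcases h with rfl | h | h
    · exact le_rfl
    · exact (ih1 h).trans (le_max_left _ _)
    · exact (ih2 h).trans (le_max_right _ _)
  | ex k v φ ih =>
    rcases h with rfl | h
    · exact le_rfl
    · exact (ih h).trans (le_max_right _ _)

/-- Colours: unary relations, loops, and the truth values of the subformulas. -/
abbrev Cl (Φ : Fm Λ U V) : Type := Set U × Set V × Set {ψ // ψ ∈ subs Φ}

/-- Facts of a pair: background and binary relations in both directions. -/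
abbrev Fc (Λ V : Type) : Type := Set Λ × Set Λ × Set V × Set V

/-- The truth value of a subformula at an element. -/
def bit {Φ : Fm Λ U V} (ψ : Fm Λ U V) (c : Cl Φ) : Prop := ∃ h : ψ ∈ subs Φ, ⟨ψ, h⟩ ∈ c.2.2

/-- The truth value of a formula at a pair of distinct elements. -/
def ev {Φ : Fm Λ U V} : Fm Λ U V → (Bool → Cl Φ) → Fc Λ V → Prop
  | Fm.eq, _, _ => False
  | Fm.ord l true, _, f => l ∈ f.1
  | Fm.ord l false, _, f => l ∈ f.2.1
  | Fm.un P v, c, _ => P ∈ (c v).1
  | Fm.bin E true true, c, _ => E ∈ (c true).2.1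
  | Fm.bin E false false, c, _ => E ∈ (c false).2.1
  | Fm.bin E true false, _, f => E ∈ f.2.2.1
  | Fm.bin E false true, _, f => E ∈ f.2.2.2
  | Fm.neg φ, c, f => ¬ ev φ c f
  | Fm.and φ ψ, c, f => ev φ c f ∧ ev ψ c f
  | Fm.ex k v φ, c, _ => bit (Fm.ex k v φ) (c (!v))

/-- Exchange the elements of a pair. -/
def finv (f : Fc Λ V) : Fc Λ V := (f.2.1, f.1, f.2.2.2, f.2.2.1)

/-- The test of a quantified subformula: `c` is the colour of the free element, `c'` of the
quantified one. -/
def tst {Φ : Fm Λ U V} : Fm Λ U V → Cl Φ → Cl Φ → Fc Λ V → Prop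
  | Fm.ex _ true χ, c, c', f => ev χ (fun w => if w = true then c' else c) (finv f)
  | Fm.ex _ false χ, c, c', f => ev χ (fun w => if w = false then c' else c) f
  | _, _, _, _ => False

/-- Local consistency of a colour at a subformula, given the number of other witnesses. -/
def cons {Φ : Fm Λ U V} : Fm Λ U V → Cl Φ → ℕ → Prop
  | Fm.eq, c, _ => bit Fm.eq c
  | Fm.ord l v, c, _ => ¬ bit (Fm.ord l v) c
  | Fm.un P v, c, _ => (bit (Fm.un P v) c ↔ P ∈ c.1)
  | Fm.bin E v w, c, _ => (bit (Fm.bin E v w) c ↔ E ∈ c.2.1)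
  | Fm.neg φ, c, _ => (bit (Fm.neg φ) c ↔ ¬ bit φ c)
  | Fm.and φ ψ, c, _ => (bit (Fm.and φ ψ) c ↔ bit φ c ∧ bit ψ c)
  | Fm.ex k v φ, c, n => (bit (Fm.ex k v φ) c ↔ k ≤ n + ind (bit φ c))

/-- The system of a sentence. -/
def fsys (Φ : Fm Λ U V) : CSys Λ (Cl Φ) (Fc Λ V) (Option {ψ // ψ ∈ subs Φ}) where
  inv := finv
  inv_inv _ := rfl
  P l f := f.1 = {l} ∧ f.2.1 = ∅
  K := max 1 (maxk Φ)
  θ m c c' f := match m with
    | some ψ => tst ψ.1 c c' f
    | none => ¬ ev Φ (fun w => if w = true then c else c') f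
  ok c n := (∀ ψ : {ψ // ψ ∈ subs Φ}, cons ψ.1 c (n (some ψ))) ∧ bit Φ c ∧ n none = 0

/-- Compatibility of colours and facts with a structure. -/
structure Compat {Φ : Fm Λ U V} {A : Type} (M : Str Λ U V A) (c : A → Cl Φ)
    (f : A → A → Fc Λ V) : Prop where
  irr : ∀ l x, ¬ M.ord l x x
  un : ∀ P x, M.un P x ↔ P ∈ (c x).1
  loop : ∀ E x, M.bin E x x ↔ E ∈ (c x).2.1
  bin : ∀ E x y, x ≠ y → (M.bin E x y ↔ E ∈ (f x y).2.2.1)
  ord : ∀ l x y, x ≠ y → (M.ord l x y ↔ l ∈ (f x y).1)
  inv : ∀ x y, x ≠ y → f y x = finv (f x y)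

theorem Sat_update_indep {A : Type} (M : Str Λ U V A) (k : ℕ) (v : Bool) (φ : Fm Λ U V)
    (e : Bool → A) : Sat M (Fm.ex k v φ) e ↔ Sat M (Fm.ex k v φ) (fun _ => e (!v)) := by
  have h1 : ∀ a, Function.update e v a = Function.update (fun _ => e (!v)) v a := by
    intro a
    funext w
    cases v <;> cases w <;> rfl
  simp only [Sat, h1]

/-- Truth at pairs of distinct elements from truth at elements. -/
theorem ev_of_bits {Φ : Fm Λ U V} {A : Type} {M : Str Λ U V A} {c : A → Cl Φ}
    {f : A → A → Fc Λ V} (hc : Compat M c f) (χ : Fm Λ U V) (hχ : χ ∈ subs Φ)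
    (hbit : ∀ ψ ∈ subs χ, ∀ x, Sat M ψ (fun _ => x) ↔ bit ψ (c x)) (e : Bool → A)
    (he : e true ≠ e false) :
    Sat M χ e ↔ ev χ (fun w => c (e w)) (f (e true) (e false)) := by
  induction χ with
  | eq => simpa [Sat, ev] using he
  | ord l v =>
    cases v
    · have h1 := hc.ord l (e false) (e true) he.symm
      rw [hc.inv _ _ he] at h1
      exact h1
    · exact hc.ord l (e true) (e false) he
  | un P v => exact hc.un P (e v)
  | bin E v w =>
    cases v <;> cases w
    · exact hc.loop E (e false)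
    · have h1 := hc.bin E (e false) (e true) he.symm
      rw [hc.inv _ _ he] at h1
      exact h1
    · exact hc.bin E (e true) (e false) he
    · exact hc.loop E (e true)
  | neg φ ih =>
    have h1 := ih (subs_trans mem_subs_neg hχ)
      (fun ψ hψ => hbit ψ (Or.inr hψ))
    exact not_congr h1
  | and φ ψ ih1 ih2 =>
    have h1 := ih1 (subs_trans mem_subs_and1 hχ)
      (fun χ hχ => hbit χ (Or.inr (Or.inl hχ)))
    have h2 := ih2 (subs_trans mem_subs_and2 hχ)
      (fun χ hχ => hbit χ (Or.inr (Or.inr hχ)))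
    exact and_congr h1 h2
  | ex k v φ _ =>
    rw [Sat_update_indep]
    exact hbit (Fm.ex k v φ) (self_mem_subs _) (e (!v))

/-- The number of witnesses. -/
theorem card_witnesses {Φ : Fm Λ U V} {A : Type} [Fintype A] {M : Str Λ U V A} {c : A → Cl Φ}
    {f : A → A → Fc Λ V} (hc : Compat M c f) (k : ℕ) (v : Bool) (χ : Fm Λ U V)
    (hχ : Fm.ex k v χ ∈ subs Φ)
    (hbit : ∀ ψ ∈ subs χ, ∀ x, Sat M ψ (fun _ => x) ↔ bit ψ (c x)) (x : A) :
    Nat.card {a : A // Sat M χ (Function.update (fun _ => x) v a)} =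
      (∑ y, ind (y ≠ x ∧ tst (Fm.ex k v χ) (c x) (c y) (f x y))) + ind (bit χ (c x)) := by
  rw [← sum_ind_eq_card]
  have hsub : χ ∈ subs Φ := subs_trans mem_subs_ex hχ
  have h1 : ∀ a, ind (Sat M χ (Function.update (fun _ => x) v a)) =
      ind (a ≠ x ∧ tst (Fm.ex k v χ) (c x) (c a) (f x a)) + ind (x = a) * ind (bit χ (c x)) := by
    intro a
    by_cases ha : a = x
    · subst ha
      have h2 : Function.update (fun _ : Bool => a) v a = fun _ => a := by
        funext w
        by_cases hw : w = v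
        · subst hw; simp
        · simp [Function.update_of_ne hw]
      have h3 : ind (a ≠ a ∧ tst (Fm.ex k v χ) (c a) (c a) (f a a)) = 0 :=
        ind_neg (fun h => h.1 rfl)
      have h4 : ind (a = a) = 1 := ind_pos rfl
      rw [h2, h3, h4, one_mul, zero_add]
      exact ind_congr (hbit χ (self_mem_subs χ) a)
    · have ha' : x ≠ a := fun h => ha h.symm
      rw [ind_neg ha', zero_mul, add_zero]
      refine ind_congr ?_
      cases v
      · have h3 := ev_of_bits hc χ hsub hbit (Function.update (fun _ : Bool => x) false a)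
          (by simpa using ha')
        have e0 : (fun w => c (Function.update (fun _ : Bool => x) false a w)) =
            fun w => if w = false then c a else c x := by
          funext w
          cases w <;> simp
        have e1 : Function.update (fun _ : Bool => x) false a true = x := by simp
        have e2 : Function.update (fun _ : Bool => x) false a false = a := by simp
        rw [e0, e1, e2] at h3
        rw [h3]
        exact ⟨fun h4 => ⟨ha, h4⟩, fun h4 => h4.2⟩
      · have h3 := ev_of_bits hc χ hsub hbit (Function.update (fun _ : Bool => x) true a)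
          (by simpa using ha)
        have e0 : (fun w => c (Function.update (fun _ : Bool => x) true a w)) =
            fun w => if w = true then c a else c x := by
          funext w
          cases w <;> simp
        have e1 : Function.update (fun _ : Bool => x) true a true = a := by simp
        have e2 : Function.update (fun _ : Bool => x) true a false = x := by simp
        rw [e0, e1, e2, hc.inv x a ha'] at h3
        rw [h3]
        exact ⟨fun h4 => ⟨ha, h4⟩, fun h4 => h4.2⟩
  simp only [h1, Finset.sum_add_distrib]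
  rw [sum_ind_mul x (fun _ => ind (bit χ (c x)))]

/-- Bits of a model of the system are truth values. -/
theorem bits_of_model {Φ : Fm Λ U V} {A : Type} [Fintype A] {M : Str Λ U V A} {c : A → Cl Φ}
    {f : A → A → Fc Λ V} (hc : Compat M c f)
    (hok : ∀ x, (fsys Φ).ok (c x) ((fsys Φ).cnt c f x)) (χ : Fm Λ U V) :
    χ ∈ subs Φ → ∀ ψ ∈ subs χ, ∀ x, Sat M ψ (fun _ => x) ↔ bit ψ (c x) := by
  have hcons : ∀ ψ (h : ψ ∈ subs Φ) x, cons ψ (c x) ((fsys Φ).cnt c f x (some ⟨ψ, h⟩)) :=
    fun ψ h x => (hok x).1 ⟨ψ, h⟩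
  induction χ with
  | eq =>
    intro hχ ψ hψ x
    obtain rfl := Set.mem_singleton_iff.1 hψ
    have h1 : bit Fm.eq (c x) := hcons _ hχ x
    exact ⟨fun _ => h1, fun _ => rfl⟩
  | ord l v =>
    intro hχ ψ hψ x
    obtain rfl := Set.mem_singleton_iff.1 hψ
    have h1 : ¬ bit (Fm.ord l v) (c x) := hcons _ hχ x
    exact ⟨fun h => absurd h (hc.irr l x), fun h => absurd h h1⟩
  | un P v =>
    intro hχ ψ hψ x
    obtain rfl := Set.mem_singleton_iff.1 hψ
    have h1 : bit (Fm.un P v) (c x) ↔ P ∈ (c x).1 := hcons _ hχ x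
    exact (hc.un P x).trans h1.symm
  | bin E v w =>
    intro hχ ψ hψ x
    obtain rfl := Set.mem_singleton_iff.1 hψ
    have h1 : bit (Fm.bin E v w) (c x) ↔ E ∈ (c x).2.1 := hcons _ hχ x
    exact (hc.loop E x).trans h1.symm
  | neg φ ih =>
    intro hχ ψ hψ x
    have h0 := ih (subs_trans mem_subs_neg hχ)
    rcases hψ with rfl | hψ
    · have h1 : bit (Fm.neg φ) (c x) ↔ ¬ bit φ (c x) := hcons _ hχ x
      exact (not_congr (h0 φ (self_mem_subs φ) x)).trans h1.symm
    · exact h0 ψ hψ x
  | and φ φ' ih1 ih2 =>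
    intro hχ ψ hψ x
    have h1 := ih1 (subs_trans mem_subs_and1 hχ)
    have h2 := ih2 (subs_trans mem_subs_and2 hχ)
    rcases hψ with rfl | hψ | hψ
    · have h3 : bit (Fm.and φ φ') (c x) ↔ bit φ (c x) ∧ bit φ' (c x) := hcons _ hχ x
      exact (and_congr (h1 φ (self_mem_subs φ) x) (h2 φ' (self_mem_subs φ') x)).trans h3.symm
    · exact h1 ψ hψ x
    · exact h2 ψ hψ x
  | ex k v φ ih =>
    intro hχ ψ hψ x
    have h0 := ih (subs_trans mem_subs_ex hχ)
    rcases hψ with rfl | hψ
    · have h1 : bit (Fm.ex k v φ) (c x) ↔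
          k ≤ (fsys Φ).cnt c f x (some ⟨Fm.ex k v φ, hχ⟩) + ind (bit φ (c x)) := hcons _ hχ x
      rw [h1]
      show k ≤ Nat.card {a : A // Sat M φ (Function.update (fun _ => x) v a)} ↔ _
      rw [card_witnesses hc k v φ hχ h0 x]
      show _ ↔ k ≤ min (max 1 (maxk Φ)) (∑ y, ind (y ≠ x ∧ tst (Fm.ex k v φ) (c x) (c y) (f x y))) +
        ind (bit φ (c x))
      have h2 : k ≤ maxk Φ := (le_max_left k (maxk φ)).trans (maxk_subs hχ)
      omega
    · exact h0 ψ hψ x

/-- **A sentence holds iff the system is satisfied.** -/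
theorem sat_of_model {Φ : Fm Λ U V} {A : Type} [Fintype A] {M : Str Λ U V A} {c : A → Cl Φ}
    {f : A → A → Fc Λ V} (hc : Compat M c f)
    (hok : ∀ x, (fsys Φ).ok (c x) ((fsys Φ).cnt c f x)) (e : Bool → A) : Sat M Φ e := by
  have hbits := bits_of_model hc hok Φ (self_mem_subs Φ)
  by_cases he : e true = e false
  · have h1 : e = fun _ => e true := by
      funext w
      cases w
      · exact he.symm
      · rfl
    rw [h1]
    exact (hbits Φ (self_mem_subs Φ) _).2 (hok (e true)).2.1
  · refine (ev_of_bits hc Φ (self_mem_subs Φ) hbits e he).2 ?_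
    by_contra hcon
    have h1 : min (max 1 (maxk Φ)) (∑ y, ind (y ≠ e true ∧
        ¬ ev Φ (fun w => if w = true then c (e true) else c y) (f (e true) y))) = 0 :=
      (hok (e true)).2.2
    have h2 := le_sum (fun y => ind (y ≠ e true ∧
        ¬ ev Φ (fun w => if w = true then c (e true) else c y) (f (e true) y))) (e false)
    have h3 : (fun w => if w = true then c (e true) else c (e false)) = fun w => c (e w) := by
      funext w
      cases w <;> simp
    have h4 : ind (e false ≠ e true ∧
        ¬ ev Φ (fun w => if w = true then c (e true) else c (e false)) (f (e true) (e false)))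
        = 1 := ind_pos ⟨fun h => he h.symm, by rw [h3]; exact hcon⟩
    rw [h4] at h2
    omega

/-- The colours and facts of a structure. -/
def colOf (Φ : Fm Λ U V) {A : Type} (M : Str Λ U V A) (x : A) : Cl Φ :=
  ({P | M.un P x}, {E | M.bin E x x}, {ψ | Sat M ψ.1 (fun _ => x)})

def factOf {A : Type} (M : Str Λ U V A) (x y : A) : Fc Λ V :=
  ({l | M.ord l x y}, {l | M.ord l y x}, {E | M.bin E x y}, {E | M.bin E y x})

theorem compat_of {Φ : Fm Λ U V} {A : Type} (M : Str Λ U V A) (hirr : ∀ l x, ¬ M.ord l x x) :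
    Compat M (colOf Φ M) (factOf M) where
  irr := hirr
  un _ _ := Iff.rfl
  loop _ _ := Iff.rfl
  bin _ _ _ _ := Iff.rfl
  ord _ _ _ _ := Iff.rfl
  inv _ _ _ := rfl

theorem bit_colOf {Φ : Fm Λ U V} {A : Type} (M : Str Λ U V A) {ψ : Fm Λ U V} (h : ψ ∈ subs Φ)
    (x : A) : bit ψ (colOf Φ M x) ↔ Sat M ψ (fun _ => x) :=
  ⟨fun ⟨_, h2⟩ => h2, fun h2 => ⟨h, h2⟩⟩

/-- A structure satisfying the sentence gives a model of the system. -/
theorem ok_of_sat {Φ : Fm Λ U V} {A : Type} [Fintype A] (M : Str Λ U V A)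
    (hirr : ∀ l x, ¬ M.ord l x x) (hsat : ∀ e : Bool → A, Sat M Φ e) (x : A) :
    (fsys Φ).ok (colOf Φ M x) ((fsys Φ).cnt (colOf Φ M) (factOf M) x) := by
  have hc := compat_of (Φ := Φ) M hirr
  have hbits : ∀ ψ ∈ subs Φ, ∀ x, Sat M ψ (fun _ => x) ↔ bit ψ (colOf Φ M x) := fun ψ hψ x =>
    (bit_colOf M hψ x).symm
  refine ⟨?_, (bit_colOf M (self_mem_subs Φ) x).2 (hsat _), ?_⟩
  · rintro ⟨ψ, hψ⟩
    cases ψ with
    | eq => exact (bit_colOf M hψ x).2 rfl
    | ord l v => exact fun h => hirr l x ((bit_colOf M hψ x).1 h)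
    | un P v => exact bit_colOf M hψ x
    | bin E v w => exact bit_colOf M hψ x
    | neg φ =>
      exact (bit_colOf M hψ x).trans (not_congr (hbits φ (subs_trans mem_subs_neg hψ) x))
    | and φ φ' =>
      exact (bit_colOf M hψ x).trans (and_congr (hbits φ (subs_trans mem_subs_and1 hψ) x)
        (hbits φ' (subs_trans mem_subs_and2 hψ) x))
    | ex k v φ =>
      show bit (Fm.ex k v φ) (colOf Φ M x) ↔ k ≤ min (max 1 (maxk Φ))
        (∑ y, ind (y ≠ x ∧ tst (Fm.ex k v φ) (colOf Φ M x) (colOf Φ M y) (factOf M x y))) +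
        ind (bit φ (colOf Φ M x))
      rw [bit_colOf M hψ x]
      show k ≤ Nat.card {a : A // Sat M φ (Function.update (fun _ => x) v a)} ↔ _
      rw [card_witnesses hc k v φ hψ (fun ψ h => hbits ψ (subs_trans h
        (subs_trans mem_subs_ex hψ))) x]
      have h2 : k ≤ maxk Φ := (le_max_left k (maxk φ)).trans (maxk_subs hψ)
      omega
  · have h1 : ∑ y, ind (y ≠ x ∧
        ¬ ev Φ (fun w => if w = true then colOf Φ M x else colOf Φ M y) (factOf M x y)) = 0 := by
      refine Finset.sum_eq_zero fun y _ => ind_neg ?_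
      rintro ⟨h2, h3⟩
      refine h3 ?_
      have h4 := ev_of_bits hc Φ (self_mem_subs Φ) hbits (fun w => if w = true then x else y)
        (by simpa using h2.symm)
      have h5 : (fun w => colOf Φ M (if w = true then x else y)) =
          fun w => if w = true then colOf Φ M x else colOf Φ M y := by
        funext w
        cases w <;> simp
      rw [h5] at h4
      exact h4.1 (hsat _)
    show min (max 1 (maxk Φ)) (∑ y, ind (y ≠ x ∧
      ¬ ev Φ (fun w => if w = true then colOf Φ M x else colOf Φ M y) (factOf M x y))) = 0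
    rw [h1]
    simp

namespace BT

theorem rel_irr (t : BT Λ) (l : Λ) (x : t.El) : ¬ t.Rel l x x := by
  induction t with
  | pt => exact id
  | sum m a b iha ihb =>
    rcases x with x | x
    · exact iha x
    · exact ihb x

theorem rel_asymm (t : BT Λ) {l l' : Λ} {x y : t.El} (h : t.Rel l x y) : ¬ t.Rel l' y x := by
  induction t with
  | pt => exact h.elim
  | sum m a b iha ihb =>
    rcases x with x | x <;> rcases y with y | y
    · exact iha h
    · exact id
    · exact h.elim
    · exact ihb h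

theorem rel_total (t : BT Λ) {x y : t.El} (h : x ≠ y) : ∃ l, t.Rel l x y ∨ t.Rel l y x := by
  induction t with
  | pt => exact absurd rfl h
  | sum m a b iha ihb =>
    rcases x with x | x <;> rcases y with y | y
    · exact iha (fun e => h (by rw [e]))
    · exact ⟨m, Or.inl rfl⟩
    · exact ⟨m, Or.inr rfl⟩
    · exact ihb (fun e => h (by rw [e]))

theorem rel_unique (t : BT Λ) {l l' : Λ} {x y : t.El} (h : t.Rel l x y) (h' : t.Rel l' x y) :
    l = l' := by
  induction t with
  | pt => exact h.elim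
  | sum m a b iha ihb =>
    rcases x with x | x <;> rcases y with y | y
    · exact iha h h'
    · have h1 : m = l := h
      have h2 : m = l' := h'
      exact h1.symm.trans h2
    · exact h.elim
    · exact ihb h h'

end BT

/-- **C² spectra over sum-generated backgrounds with an automaton are ultimately periodic.** -/
theorem fm_sizes_ultPeriodic {Z : Type} [Finite Λ] [Finite U] [Finite V] [Finite Z]
    (Φ : Fm Λ U V) (δ : Λ → Z → Z → Z) (z0 : Set U → Z) (acc : Z → Prop) :
    Helper20.OP.UltPeriodic {n | ∃ (t : BT Λ) (M : Str Λ U V t.El), M.ord = t.Rel ∧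
      (∀ e, Sat M Φ e) ∧ acc (t.run δ z0 (fun x => {P | M.un P x})) ∧ t.size = n} := by
  classical
  have hfin : Finite {ψ // ψ ∈ subs Φ} := (subs_finite Φ).to_subtype
  have : Fintype {ψ // ψ ∈ subs Φ} := Fintype.ofFinite _
  have : Fintype (Fc Λ V) := Fintype.ofFinite _
  have key := (fsys Φ).sizes_ultPeriodic δ (fun c : Cl Φ => z0 c.1) acc
  have hrun : ∀ (t : BT Λ) (c : t.El → Cl Φ), t.run δ (fun c : Cl Φ => z0 c.1) c =
      t.run δ z0 (fun x => (c x).1) := by
    intro t
    induction t with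
    | pt => intro c; rfl
    | sum l a b iha ihb =>
      intro c
      show δ l _ _ = δ l _ _
      rw [iha, ihb]
  convert key using 1
  ext n
  constructor
  · rintro ⟨t, M, hM, hsat, hacc, rfl⟩
    have hirr : ∀ l x, ¬ M.ord l x x := by
      intro l x
      rw [hM]
      exact t.rel_irr l x
    refine ⟨t, colOf Φ M, factOf M, ⟨fun _ _ _ => rfl, ?_, ok_of_sat M hirr hsat⟩, ?_, rfl⟩
    · intro l x y h
      constructor
      · ext l'
        show M.ord l' x y ↔ l' = l
        rw [hM]
        exact ⟨fun h' => t.rel_unique h' h, fun e => e ▸ h⟩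
      · ext l'
        show M.ord l' y x ↔ False
        rw [hM]
        exact ⟨fun h' => t.rel_asymm h h', False.elim⟩
    · rw [hrun]
      exact hacc
  · rintro ⟨t, c, f, hm, hacc, rfl⟩
    let M : Str Λ U V t.El :=
      { ord := t.Rel
        un := fun P x => P ∈ (c x).1
        bin := fun E x y => (x = y ∧ E ∈ (c x).2.1) ∨ (x ≠ y ∧ E ∈ (f x y).2.2.1) }
    have hc : Compat M c f :=
      { irr := t.rel_irr
        un := fun _ _ => Iff.rfl
        loop := fun E x => by simp [M]
        bin := fun E x y h => by simp [M, h]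
        ord := fun l x y h => by
          show t.Rel l x y ↔ l ∈ (f x y).1
          constructor
          · intro h1
            have h2 := (hm.hP l x y h1).1
            rw [h2]; rfl
          · intro h1
            rcases t.rel_total h with ⟨m, h2 | h2⟩
            · have h3 := (hm.hP m x y h2).1
              rw [h3] at h1
              obtain rfl : l = m := h1
              exact h2
            · have h3 := (hm.hP m y x h2).2
              rw [hm.hinv x y h] at h3
              have h4 : (f x y).1 = ∅ := h3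
              rw [h4] at h1
              exact h1.elim
        inv := hm.hinv }
    refine ⟨t, M, rfl, sat_of_model hc hm.hok, ?_, rfl⟩
    rw [hrun] at hacc
    exact hacc

end Pool.Agent.Helper29.C2
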