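import Pool.Agent.Helper29.C2.Bg

/-!
From valid annotated trees to models.
-/

set_option autoImplicit false

namespace Pool.Agent.Helper29.C2

/-- Patterns are transported along equivalences. -/
def Pat.congr {Q F S : Type} [Fintype Q] [Fintype F] {Y : Sys Q F S} {P : F → Prop}
    {A B A' B' : Type} [Fintype A] [Fintype B] [Fintype A'] [Fintype B'] (p : Pat Y P A' B')
    (e : A ≃ A') (e' : B ≃ B') : Pat Y P A B where
  mA a := p.mA (e a)
  mB b := p.mB (e' b)
  f a b := p.f (e a) (e' b)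
  al a b := p.al (e a) (e' b)
  be a b := p.be (e a) (e' b)
  hf _ _ := p.hf _ _
  qA _ := p.qA _
  qB _ := p.qB _
  oA a q' φ t := by
    rw [p.oA (e a) q' φ t]
    congr 1
    exact (Equiv.sum_comp e' (fun b => ind (p.al (e a) b ∧ Y.q (p.mB b).1 = q' ∧ p.f (e a) b = φ ∧
      (p.be (e a) b ↔ t = true)))).symm
  oB b q' φ t := by
    rw [p.oB (e' b) q' φ t]
    congr 1
    exact (Equiv.sum_comp e (fun a => ind (p.be a (e' b) ∧ Y.q (p.mA a).1 = q' ∧
      Y.inv (p.f a (e' b)) = φ ∧ (p.al a (e' b) ↔ t = true)))).symm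
  sA _ _ h := p.sA _ _ h
  sB _ _ h := p.sB _ _ h

variable {Λ C F M Z : Type} [Finite C] [Fintype F] [Finite M]

/-- The relations of a sum. -/
def sumRel {A B : Type} (m : Λ) (RA : Λ → A → A → Prop) (RB : Λ → B → B → Prop) :
    Λ → A ⊕ B → A ⊕ B → Prop
  | l, Sum.inl x, Sum.inl y => RA l x y
  | l, Sum.inl _, Sum.inr _ => m = l
  | _, Sum.inr _, Sum.inl _ => False
  | l, Sum.inr x, Sum.inr y => RB l x y

/-- Structures with open links. -/
structure Open (G : CSys Λ C F M) (H D : ℕ) (A : Type) [Fintype A]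
    (Rel : Λ → A → A → Prop) where
  σ : A → {s : StT C F M G.K H D // G.valid s}
  τ : A → StT C F M G.K H D
  f : A → A → F
  out : A → A → Prop
  hinv : ∀ x y, x ≠ y → f y x = G.inv (f x y)
  hP : ∀ l x y, Rel l x y → G.P l (f x y)
  hq : ∀ x, (τ x).q = (σ x).1.q
  ho : ∀ x q' φ b, ((σ x).1.o q' φ b : ℕ) = (τ x).o q' φ b +
    ∑ y, ind (y ≠ x ∧ out x y ∧ (σ y).1.q = q' ∧ f x y = φ ∧ (out y x ↔ b = true))
  hsil : ∀ x y, y ≠ x → ¬ out x y → (G.sys H D).sil (σ x).1.q (σ y).1.q (f x y)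

/-- Gluing of two open structures along a pattern. -/
def Open.glue {G : CSys Λ C F M} {H D : ℕ} {A B : Type} [Fintype A] [Fintype B]
    {RA : Λ → A → A → Prop} {RB : Λ → B → B → Prop} (oa : Open G H D A RA)
    (ob : Open G H D B RB) (l : Λ) (p : Pat (G.sys H D) (G.P l) A B)
    (he : ∀ x, (p.mA x).1 = oa.τ x) (he' : ∀ x, (p.mB x).1 = ob.τ x) :
    Open G H D (A ⊕ B) (sumRel l RA RB) where
  σ := Sum.elim oa.σ ob.σ
  τ := Sum.elim (fun x => (p.mA x).2) (fun x => (p.mB x).2)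
  f := Sum.elim (fun x => Sum.elim (oa.f x) (p.f x))
    (fun x => Sum.elim (fun y => G.inv (p.f y x)) (ob.f x))
  out := Sum.elim (fun x => Sum.elim (oa.out x) (p.al x))
    (fun x => Sum.elim (fun y => p.be y x) (ob.out x))
  hinv := by
    rintro (x | x) (y | y) h
    · exact oa.hinv x y (fun h' => h (by rw [h']))
    · rfl
    · exact (G.inv_inv _).symm
    · exact ob.hinv x y (fun h' => h (by rw [h']))
  hP := by
    rintro m (x | x) (y | y) h
    · exact oa.hP m x y h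
    · obtain rfl : l = m := h
      exact p.hf x y
    · exact h.elim
    · exact ob.hP m x y h
  hq := by
    rintro (x | x)
    · exact (p.qA x).trans ((congrArg (fun s => s.q) (he x)).trans (oa.hq x))
    · exact (p.qB x).trans ((congrArg (fun s => s.q) (he' x)).trans (ob.hq x))
  ho := by
    rintro (x | x) q' φ b
    · rw [Fintype.sum_sum_type]
      have h1 := oa.ho x q' φ b
      have h2 : ((p.mA x).1.o q' φ b : ℕ) = (p.mA x).2.o q' φ b +
        ∑ y, ind (p.al x y ∧ (p.mB y).1.q = q' ∧ p.f x y = φ ∧ (p.be x y ↔ b = true)) :=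
        p.oA x q' φ b
      rw [he x] at h2
      show ((oa.σ x).1.o q' φ b : ℕ) = (p.mA x).2.o q' φ b + (
        ∑ y : A, ind ((Sum.inl y : A ⊕ B) ≠ Sum.inl x ∧ oa.out x y ∧ (oa.σ y).1.q = q' ∧
          oa.f x y = φ ∧ (oa.out y x ↔ b = true)) +
        ∑ y : B, ind ((Sum.inr y : A ⊕ B) ≠ Sum.inl x ∧ p.al x y ∧ (ob.σ y).1.q = q' ∧
          p.f x y = φ ∧ (p.be x y ↔ b = true)))
      rw [h1, h2]
      have h3 : ∀ y, ind ((Sum.inl y : A ⊕ B) ≠ Sum.inl x ∧ oa.out x y ∧ (oa.σ y).1.q = q' ∧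
          oa.f x y = φ ∧ (oa.out y x ↔ b = true)) =
          ind (y ≠ x ∧ oa.out x y ∧ (oa.σ y).1.q = q' ∧
          oa.f x y = φ ∧ (oa.out y x ↔ b = true)) := by
        intro y
        exact ind_congr (by simp)
      have h4 : ∀ y, ind ((Sum.inr y : A ⊕ B) ≠ Sum.inl x ∧ p.al x y ∧ (ob.σ y).1.q = q' ∧
          p.f x y = φ ∧ (p.be x y ↔ b = true)) =
          ind (p.al x y ∧ (p.mB y).1.q = q' ∧ p.f x y = φ ∧ (p.be x y ↔ b = true)) := by
        intro y
        rw [he' y, ob.hq y]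
        exact ind_congr (by simp)
      simp only [h3, h4]
      omega
    · rw [Fintype.sum_sum_type]
      have h1 := ob.ho x q' φ b
      have h2 : ((p.mB x).1.o q' φ b : ℕ) = (p.mB x).2.o q' φ b +
        ∑ y, ind (p.be y x ∧ (p.mA y).1.q = q' ∧ G.inv (p.f y x) = φ ∧ (p.al y x ↔ b = true)) :=
        p.oB x q' φ b
      rw [he' x] at h2
      show ((ob.σ x).1.o q' φ b : ℕ) = (p.mB x).2.o q' φ b + (
        ∑ y : A, ind ((Sum.inl y : A ⊕ B) ≠ Sum.inr x ∧ p.be y x ∧ (oa.σ y).1.q = q' ∧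
          G.inv (p.f y x) = φ ∧ (p.al y x ↔ b = true)) +
        ∑ y : B, ind ((Sum.inr y : A ⊕ B) ≠ Sum.inr x ∧ ob.out x y ∧ (ob.σ y).1.q = q' ∧
          ob.f x y = φ ∧ (ob.out y x ↔ b = true)))
      rw [h1, h2]
      have h3 : ∀ y, ind ((Sum.inr y : A ⊕ B) ≠ Sum.inr x ∧ ob.out x y ∧ (ob.σ y).1.q = q' ∧
          ob.f x y = φ ∧ (ob.out y x ↔ b = true)) =
          ind (y ≠ x ∧ ob.out x y ∧ (ob.σ y).1.q = q' ∧
          ob.f x y = φ ∧ (ob.out y x ↔ b = true)) := by
        intro y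
        exact ind_congr (by simp)
      have h4 : ∀ y, ind ((Sum.inl y : A ⊕ B) ≠ Sum.inr x ∧ p.be y x ∧ (oa.σ y).1.q = q' ∧
          G.inv (p.f y x) = φ ∧ (p.al y x ↔ b = true)) =
          ind (p.be y x ∧ (p.mA y).1.q = q' ∧ G.inv (p.f y x) = φ ∧ (p.al y x ↔ b = true)) := by
        intro y
        rw [he y, oa.hq y]
        exact ind_congr (by simp)
      simp only [h3, h4]
      omega
  hsil := by
    rintro (x | x) (y | y) hxy h
    · exact oa.hsil x y (fun h' => hxy (by rw [h'])) h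
    · have h1 : (G.sys H D).sil (p.mA x).1.q (p.mB y).1.q (p.f x y) := p.sA x y h
      rw [he x, he' y, oa.hq, ob.hq] at h1
      exact h1
    · have h1 : (G.sys H D).sil (p.mB x).1.q (p.mA y).1.q (G.inv (p.f y x)) := p.sB y x h
      rw [he y, he' x, oa.hq, ob.hq] at h1
      exact h1
    · exact ob.hsil x y (fun h' => hxy (by rw [h'])) h

/-- Weaken the background relations. -/
def Open.cast {G : CSys Λ C F M} {H D : ℕ} {A : Type} [Fintype A] {R R' : Λ → A → A → Prop}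
    (o : Open G H D A R) (h : ∀ l x y, R' l x y → R l x y) : Open G H D A R' where
  σ := o.σ
  τ := o.τ
  f := o.f
  out := o.out
  hinv := o.hinv
  hP l x y hr := o.hP l x y (h l x y hr)
  hq := o.hq
  ho := o.ho
  hsil := o.hsil

theorem sumRel_of_rel {m : Λ} {a b : BT Λ} (l : Λ) (x y : (BT.sum m a b).El)
    (h : (BT.sum m a b).Rel l x y) : sumRel m a.Rel b.Rel l x y := by
  rcases x with x | x <;> rcases y with y | y <;> exact h

/-- **From valid trees to open structures.** -/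
theorem exists_open [Nonempty F] (G : CSys Λ C F M) (H D : ℕ) (δ : Λ → Z → Z → Z) (z0 : C → Z)
    (u : Tr {s : StT C F M G.K H D // G.valid s} (NL (StT C F M G.K H D) (Λ × Z × Z)))
    (hu : (G.tl H D δ z0).OK u) :
    ∃ (t : BT Λ) (o : Open G H D t.El t.Rel), t.size = u.size ∧ dist o.τ = (G.tl H D δ z0).ms u ∧
      t.run δ z0 (fun x => (o.σ x).1.q.c) = (G.tl H D δ z0).st u := by
  induction u with
  | leaf s =>
    let o : Open G H D Unit (BT.pt : BT Λ).Rel :=
      { σ := fun _ => s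
        τ := fun _ => s.1
        f := fun _ _ => Classical.arbitrary F
        out := fun _ _ => False
        hinv := fun x y h => absurd rfl h
        hP := fun l x y h => h.elim
        hq := fun _ => rfl
        ho := by
          intro x q' φ b
          simp
        hsil := fun x y h => absurd rfl h }
    refine ⟨BT.pt, o, rfl, ?_, rfl⟩
    funext s'
    show ∑ _x : Unit, ind (s.1 = s') = ind (s.1 = s')
    simp
  | node l a b iha ihb =>
    obtain ⟨ha, hb, ⟨A, B, _, _, p, hpL, hpR⟩, hra, hrb, hza, hzb⟩ := hu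
    obtain ⟨ta, oa, ea1, ea2, ea3⟩ := iha ha
    obtain ⟨tb, ob, eb1, eb2, eb3⟩ := ihb hb
    have hda : dist oa.τ = dist (fun i => (p.mA i).1) := by
      rw [ea2]
      funext s
      rw [hra s, ← hpL]
      exact (sum_comp p.mA (fun x => ind (x.1 = s))).symm
    have hdb : dist ob.τ = dist (fun i => (p.mB i).1) := by
      rw [eb2]
      funext s
      rw [hrb s, ← hpR]
      exact (sum_comp p.mB (fun x => ind (x.1 = s))).symm
    obtain ⟨e, he⟩ := exists_equiv_of_dist hda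
    obtain ⟨e', he'⟩ := exists_equiv_of_dist hdb
    let p' := p.congr e e'
    let o := (oa.glue ob l.1.1 p' he he').cast (R' := (BT.sum l.1.1 ta tb).Rel) sumRel_of_rel
    refine ⟨BT.sum l.1.1 ta tb, o, ?_, ?_, ?_⟩
    · simp only [BT.size, Tr.size, ea1, eb1]
    · funext s
      show dist (Sum.elim (fun x => (p'.mA x).2) (fun x => (p'.mB x).2)) s = _
      rw [dist_sum]
      show _ = (∑ x, l.2.1 x * ind (x.2 = s)) + ∑ x, l.2.2 x * ind (x.2 = s)
      rw [← hpL, ← hpR, ← sum_comp p.mA (fun x => ind (x.2 = s)),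
        ← sum_comp p.mB (fun x => ind (x.2 = s))]
      congr 1
      · exact Equiv.sum_comp e (fun a => ind ((p.mA a).2 = s))
      · exact Equiv.sum_comp e' (fun a => ind ((p.mB a).2 = s))
    · show δ l.1.1 (ta.run δ z0 _) (tb.run δ z0 _) = δ l.1.1 l.1.2.1 l.1.2.2
      have h1 : (G.tl H D δ z0).st a = l.1.2.1 := hza
      have h2 : (G.tl H D δ z0).st b = l.1.2.2 := hzb
      rw [← h1, ← h2, ← ea3, ← eb3]
      rfl

/-- Regroup the sum over the descriptions. -/
theorem sum_desc {A Q F : Type} [Fintype A] [Fintype Q] [Fintype F] (w : A → Prop) (κ : A → Q)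
    (g : A → F) (b : A → Prop) (h : Q → F → Prop) :
    ∑ q', ∑ φ, ∑ t : Bool, (∑ y, ind (w y ∧ κ y = q' ∧ g y = φ ∧ (b y ↔ t = true))) * ind (h q' φ) =
      ∑ y, ind (w y ∧ h (κ y) (g y)) := by
  have h1 : ∀ q' φ, ∑ t : Bool, (∑ y, ind (w y ∧ κ y = q' ∧ g y = φ ∧ (b y ↔ t = true))) *
      ind (h q' φ) = ∑ y, ind (((w y ∧ h q' φ) ∧ κ y = q') ∧ g y = φ) := by
    intro q' φ
    rw [Fintype.sum_bool, ← Nat.add_mul, ← Finset.sum_add_distrib, Finset.sum_mul]
    refine Finset.sum_congr rfl fun y _ => ?_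
    by_cases hw : w y <;> by_cases h1 : κ y = q' <;> by_cases h2 : g y = φ <;>
      by_cases h3 : b y <;> by_cases h4 : h q' φ <;> simp [ind, hw, h1, h2, h3, h4]
  simp only [h1]
  have h2 : ∀ q', ∑ φ, ∑ y, ind (((w y ∧ h q' φ) ∧ κ y = q') ∧ g y = φ) =
      ∑ y, ind ((w y ∧ h q' (g y)) ∧ κ y = q') := by
    intro q'
    rw [Finset.sum_comm]
    refine Finset.sum_congr rfl fun y _ => ?_
    exact sum_ind_and_eq (g y) (fun φ => (w y ∧ h q' φ) ∧ κ y = q')
  simp only [h2]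
  rw [Finset.sum_comm]
  refine Finset.sum_congr rfl fun y _ => ?_
  exact sum_ind_and_eq (κ y) (fun q' => w y ∧ h q' (g y))

/-- **Closed open structures are models.** -/
theorem Open.model {G : CSys Λ C F M} {H D : ℕ} {t : BT Λ} (o : Open G H D t.El t.Rel)
    (hcl : ∀ x q' φ b, ((o.τ x).o q' φ b : ℕ) = 0) :
    G.Model t (fun x => (o.σ x).1.q.c) o.f where
  hinv := o.hinv
  hP := o.hP
  hok := by
    intro x
    have hcnt : G.cnt (fun x => (o.σ x).1.q.c) o.f x = fun m => ((o.σ x).1.q.cap m : ℕ) := by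
      funext m
      have h1 := (o.σ x).2.2 m
      have h2 : ∑ q', ∑ f, ∑ b, ((o.σ x).1.o q' f b : ℕ) * ind (G.θ m (o.σ x).1.q.c q'.c f) =
          ∑ y, ind ((y ≠ x ∧ o.out x y) ∧ G.θ m (o.σ x).1.q.c (o.σ y).1.q.c (o.f x y)) := by
        rw [← sum_desc (fun y => y ≠ x ∧ o.out x y) (fun y => (o.σ y).1.q) (fun y => o.f x y)
          (fun y => o.out y x) (fun q' φ => G.θ m (o.σ x).1.q.c q'.c φ)]
        refine Finset.sum_congr rfl fun q' _ => Finset.sum_congr rfl fun φ _ =>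
          Finset.sum_congr rfl fun b _ => ?_
        rw [o.ho x q' φ b, hcl, zero_add]
        congr 1
        exact Finset.sum_congr rfl fun y _ => ind_congr (by tauto)
      rw [h2] at h1
      have h3 : ∑ y, ind ((y ≠ x ∧ o.out x y) ∧ G.θ m (o.σ x).1.q.c (o.σ y).1.q.c (o.f x y)) ≤
          ∑ y, ind (y ≠ x ∧ G.θ m (o.σ x).1.q.c (o.σ y).1.q.c (o.f x y)) :=
        Finset.sum_le_sum fun y _ => ind_mono fun h => ⟨h.1.1, h.2⟩
      show min G.K (∑ y, ind (y ≠ x ∧ G.θ m (o.σ x).1.q.c (o.σ y).1.q.c (o.f x y))) = _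
      by_cases hlt : ((o.σ x).1.q.cap m : ℕ) < G.K
      · have h4 : ∑ y, ind (y ≠ x ∧ G.θ m (o.σ x).1.q.c (o.σ y).1.q.c (o.f x y)) =
            ∑ y, ind ((y ≠ x ∧ o.out x y) ∧ G.θ m (o.σ x).1.q.c (o.σ y).1.q.c (o.f x y)) := by
          refine Finset.sum_congr rfl fun y _ => ind_congr ?_
          constructor
          · rintro ⟨h5, h6⟩
            refine ⟨⟨h5, ?_⟩, h6⟩
            by_contra hout
            exact o.hsil x y h5 hout m hlt h6
          · rintro ⟨⟨h5, _⟩, h6⟩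
            exact ⟨h5, h6⟩
        rw [h4]
        exact h1
      · have h4 : ((o.σ x).1.q.cap m : ℕ) ≤ G.K := Nat.lt_succ_iff.1 ((o.σ x).1.q.cap m).2
        omega
    rw [hcnt]
    exact (o.σ x).2.1

end Pool.Agent.Helper29.C2
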