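import Pool.Agent.Helper29.C2.Amal2
import Pool.Agent.Helper29.C2.Kruskal
import Pool.Agent.Helper20.OP.UltP

/-!
Annotated trees: passing of contexts, amalgamation, and the sizes of the valid trees.
-/

set_option autoImplicit false

namespace Pool.Agent.Helper29.C2

variable {Q F S α Lab Z : Type} [Fintype Q] [Fintype F] [Fintype S]

/-- Labels of the inner nodes: a label and the distributions of the moves of both sides. -/
abbrev NL (S Lab : Type) : Type := Lab × ((S × S → ℕ) × (S × S → ℕ))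

/-- The order of node labels. -/
def nle (T : ℕ) (l l' : NL S Lab) : Prop := l.1 = l'.1 ∧ (LeF T l.2.1 l'.2.1 ∧ LeF T l.2.2 l'.2.2)

instance (T : ℕ) : IsPreorder (NL S Lab) (nle T) where
  refl _ := ⟨rfl, refl_of (LeF T) _, refl_of (LeF T) _⟩
  trans _ _ _ h1 h2 := ⟨h1.1.trans h2.1, trans_of (LeF T) h1.2.1 h2.2.1,
    trans_of (LeF T) h1.2.2 h2.2.2⟩

theorem nle_wqo [Finite Lab] (T : ℕ) : WellQuasiOrdered (nle (S := S) (Lab := Lab) T) := by
  have h1 : WellQuasiOrdered (fun a b : (S × S → ℕ) × (S × S → ℕ) =>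
      LeF T a.1 b.1 ∧ LeF T a.2 b.2) := (leF_wqo T).prod (leF_wqo T)
  exact (Finite.wellQuasiOrdered (α := Lab) (· = ·)).prod h1

/-- A tree language: the system, the states of the leaves, and a finite automaton. -/
structure TL (Q F S α Lab Z : Type) [Fintype Q] [Fintype F] where
  Y : Sys Q F S
  P : Lab → F → Prop
  sl : α → S
  zl : α → Z
  zo : Lab → Z
  zL : Lab → Z
  zR : Lab → Z

namespace TL

variable (X : TL Q F S α Lab Z)

/-- The distribution of the states at the root. -/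
noncomputable def ms : Tr α (NL S Lab) → S → ℕ
  | Tr.leaf a => fun s => ind (X.sl a = s)
  | Tr.node l _ _ => fun s => ∑ x, l.2.1 x * ind (x.2 = s) + ∑ x, l.2.2 x * ind (x.2 = s)

/-- The automaton state at the root. -/
def st : Tr α (NL S Lab) → Z
  | Tr.leaf a => X.zl a
  | Tr.node l _ _ => X.zo l.1

/-- Valid trees. -/
def OK : Tr α (NL S Lab) → Prop
  | Tr.leaf _ => True
  | Tr.node l a b => OK a ∧ OK b ∧ PatOK X.Y (X.P l.1) l.2.1 l.2.2 ∧
      (∀ s, X.ms a s = ∑ x, l.2.1 x * ind (x.1 = s)) ∧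
      (∀ s, X.ms b s = ∑ x, l.2.2 x * ind (x.1 = s)) ∧ X.st a = X.zL l.1 ∧ X.st b = X.zR l.1

/-- The embedding order of annotated trees. -/
def rel (T : ℕ) (t t' : Tr α (NL S Lab)) : Prop :=
  Emb (nle T) t t' ∧ LeF T (X.ms t) (X.ms t') ∧ X.st t = X.st t'

instance (T : ℕ) : IsPreorder (Tr α (NL S Lab)) (X.rel T) where
  refl t := ⟨refl_of (Emb (nle T)) t, refl_of (LeF T) _, rfl⟩
  trans _ _ _ h1 h2 := ⟨trans_of (Emb (nle T)) h1.1 h2.1, trans_of (LeF T) h1.2.1 h2.2.1,
    h1.2.2.trans h2.2.2⟩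

theorem rel_wqo [Finite α] [Finite Lab] [Finite Z] (T : ℕ) : WellQuasiOrdered (X.rel T) := by
  intro f
  have h1 : WellQuasiOrdered (Emb (α := α) (nle (S := S) (Lab := Lab) T)) :=
    kruskal _ (nle_wqo T)
  have h2 : WellQuasiOrdered (fun a b : (S → ℕ) × Z => LeF T a.1 b.1 ∧ a.2 = b.2) :=
    (leF_wqo T).prod (Finite.wellQuasiOrdered (α := Z) (· = ·))
  obtain ⟨m, n, hmn, h⟩ := (h1.prod h2) (fun n => (f n, (X.ms (f n), X.st (f n))))
  exact ⟨m, n, hmn, h⟩

/-- The number of elements whose state satisfies `p`. -/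
noncomputable def N (f : S → ℕ) (p : S → Prop) : ℕ := ∑ s, f s * ind (p s)

end TL

theorem N_mono {f g : S → ℕ} (h : ∀ s, f s ≤ g s) (p : S → Prop) : TL.N f p ≤ TL.N g p :=
  Finset.sum_le_sum fun s _ => Nat.mul_le_mul_right _ (h s)

theorem N_sum_fst (L : S × S → ℕ) (p : S → Prop) :
    TL.N (fun s => ∑ x : S × S, L x * ind (x.1 = s)) p = ∑ x, L x * ind (p x.1) := by
  unfold TL.N
  simp only [Finset.sum_mul]
  rw [Finset.sum_comm]
  refine Finset.sum_congr rfl fun x _ => ?_
  have := sum_ind_mul x.1 (fun s => ind (p s))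
  rw [← this, Finset.mul_sum]
  refine Finset.sum_congr rfl fun s _ => ?_
  rw [mul_assoc]

theorem N_sum_snd (L : S × S → ℕ) (p : S → Prop) :
    TL.N (fun s => ∑ x : S × S, L x * ind (x.2 = s)) p = ∑ x, L x * ind (p x.2) := by
  unfold TL.N
  simp only [Finset.sum_mul]
  rw [Finset.sum_comm]
  refine Finset.sum_congr rfl fun x _ => ?_
  have := sum_ind_mul x.2 (fun s => ind (p s))
  rw [← this, Finset.mul_sum]
  refine Finset.sum_congr rfl fun s _ => ?_
  rw [mul_assoc]

theorem N_add (f g : S → ℕ) (p : S → Prop) :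
    TL.N (fun s => f s + g s) p = TL.N f p + TL.N g p := by
  unfold TL.N
  rw [← Finset.sum_add_distrib]
  exact Finset.sum_congr rfl fun s _ => Nat.add_mul _ _ _

/-- Subtrees. -/
inductive Sub {α β : Type} : Tr α β → Tr α β → Prop
  | refl (t : Tr α β) : Sub t t
  | left {l : β} {t a b : Tr α β} : Sub t a → Sub t (Tr.node l a b)
  | right {l : β} {t a b : Tr α β} : Sub t b → Sub t (Tr.node l a b)

theorem Sub.emb {α β : Type} {r : β → β → Prop} {t u v : Tr α β} (h : Emb r t u) (h' : Sub u v) :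
    Emb r t v := by
  induction h' with
  | refl _ => exact h
  | left _ ih => exact Emb.left (ih h)
  | right _ ih => exact Emb.right (ih h)

/-- Matched at the root. -/
def Matched {α β : Type} (r : β → β → Prop) : Tr α β → Tr α β → Prop
  | Tr.leaf s, t' => t' = Tr.leaf s
  | Tr.node l a b, t' => ∃ l' a' b', t' = Tr.node l' a' b' ∧ r l l' ∧ Emb r a a' ∧ Emb r b b'

theorem Emb.exists_matched {α β : Type} {r : β → β → Prop} {t u : Tr α β} (h : Emb r t u) :
    ∃ u', Sub u' u ∧ Matched r t u' := by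
  induction h with
  | leaf s => exact ⟨_, Sub.refl _, rfl⟩
  | node hl ha hb _ _ => exact ⟨_, Sub.refl _, _, _, _, rfl, hl, ha, hb⟩
  | left _ ih => obtain ⟨u', h1, h2⟩ := ih; exact ⟨u', Sub.left h1, h2⟩
  | right _ ih => obtain ⟨u', h1, h2⟩ := ih; exact ⟨u', Sub.right h1, h2⟩

namespace TL

variable (X : TL Q F S α Lab Z)

theorem OK_sub {t t' : Tr α (NL S Lab)} (h : Sub t t') (hOK : X.OK t') : X.OK t := by
  induction h with
  | refl _ => exact hOK
  | left _ ih => exact ih hOK.1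
  | right _ ih => exact ih hOK.2.1

/-- Down-closed counts grow towards the root. -/
theorem N_child {l : NL S Lab} {a b : Tr α (NL S Lab)} (hOK : X.OK (Tr.node l a b)) (p : S → Prop)
    (hp : ∀ s s', X.Y.le s s' → p s' → p s) :
    N (X.ms a) p + N (X.ms b) p ≤ N (X.ms (Tr.node l a b)) p := by
  obtain ⟨_, _, hpat, ha, hb, _, _⟩ := hOK
  have h1 : X.ms a = fun s => ∑ x, l.2.1 x * ind (x.1 = s) := funext ha
  have h2 : X.ms b = fun s => ∑ x, l.2.2 x * ind (x.1 = s) := funext hb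
  have h3 : X.ms (Tr.node l a b) = fun s =>
    (∑ x, l.2.1 x * ind (x.2 = s)) + ∑ x, l.2.2 x * ind (x.2 = s) := rfl
  rw [h1, h2, h3, N_add, N_sum_fst, N_sum_fst, N_sum_snd, N_sum_snd]
  refine Nat.add_le_add (Finset.sum_le_sum fun x _ => ?_) (Finset.sum_le_sum fun x _ => ?_)
  · by_cases hx : l.2.1 x = 0
    · simp [hx]
    · exact Nat.mul_le_mul_left _ (ind_mono (hp _ _ (hpat.le_A hx)))
  · by_cases hx : l.2.2 x = 0
    · simp [hx]
    · exact Nat.mul_le_mul_left _ (ind_mono (hp _ _ (hpat.le_B hx)))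

theorem N_sub {t t' : Tr α (NL S Lab)} (h : Sub t t') (hOK : X.OK t') (p : S → Prop)
    (hp : ∀ s s', X.Y.le s s' → p s' → p s) : N (X.ms t) p ≤ N (X.ms t') p := by
  induction h with
  | refl _ => exact le_rfl
  | left _ ih =>
    refine (ih hOK.1).trans ?_
    have := X.N_child hOK p hp
    omega
  | right _ ih =>
    refine (ih hOK.2.1).trans ?_
    have := X.N_child hOK p hp
    omega

/-- A minimal large state below a large state. -/
theorem exists_min_large {m : S → ℕ} {T : ℕ} {s : S} (hs : T ≤ m s) :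
    ∃ s0, X.Y.le s0 s ∧ T ≤ m s0 ∧ ∀ s', X.Y.lt s' s0 → m s' < T := by
  classical
  have : IsTrans S X.Y.lt := ⟨fun a b c h1 h2 => X.Y.lt_of_lt_of_le h1 h2.1⟩
  have : Std.Irrefl X.Y.lt := ⟨fun s h => h.2 rfl⟩
  have hwf : WellFounded X.Y.lt := Finite.wellFounded_of_trans_of_irrefl _
  obtain ⟨s0, ⟨h1, h2⟩, h3⟩ := hwf.has_min {s' | X.Y.le s' s ∧ T ≤ m s'} ⟨s, X.Y.le_refl s, hs⟩
  refine ⟨s0, h1, h2, fun s' hs' => ?_⟩
  by_contra hc
  exact h3 s' ⟨X.Y.le_trans hs'.1 h1, by omega⟩ hs'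

theorem N_le_eq (f : S → ℕ) (s : S) :
    N f (fun s' => X.Y.le s' s) = N f (fun s' => X.Y.lt s' s) + f s := by
  classical
  unfold N
  have h1 : ∀ s', f s' * ind (X.Y.le s' s) = f s' * ind (X.Y.lt s' s) + f s' * ind (s = s') := by
    intro s'
    rw [← Nat.mul_add]
    congr 1
    rw [ind_split (X.Y.le s' s) (s' ≠ s)]
    congr 1
    refine ind_congr ?_
    constructor
    · rintro ⟨_, h⟩; exact (not_not.1 h).symm
    · rintro rfl; exact ⟨X.Y.le_refl _, by simp⟩
  simp only [h1, Finset.sum_add_distrib]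
  congr 1
  have := sum_ind_mul s f
  rw [← this]
  exact Finset.sum_congr rfl fun s' _ => Nat.mul_comm _ _

/-- If the extras cannot pass silently, there is a contradiction. -/
theorem pass_contra {m : S → ℕ} {T : ℕ} (hT : X.Y.D + 1 ≤ T) {w v : S → ℕ} {s0 : S}
    (hs0 : T ≤ m s0) (hlow : N m (fun s => X.Y.le s s0) ≤ N w (fun s => X.Y.le s s0))
    (hhigh : N v (fun s => X.Y.lt s s0) ≤ N m (fun s => X.Y.lt s s0))
    (hf : N w (fun s => X.Y.le s s0) ≤ N v (fun s => X.Y.lt s s0) + X.Y.D) : False := by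
  rw [X.N_le_eq m] at hlow
  omega

/-- **Extras pass a context.** -/
theorem pass {m e : S → ℕ} {T : ℕ} (hT : X.Y.D + 1 ≤ T) {t' v : Tr α (NL S Lab)} (hsub : Sub t' v)
    (hOK : X.OK v) (hlow : ∀ s, m s ≤ X.ms t' s)
    (hhigh : ∀ s0, (∀ s, X.Y.lt s s0 → m s < T) →
      N (X.ms v) (fun s => X.Y.lt s s0) ≤ N m (fun s => X.Y.lt s s0))
    (he : ∀ s, e s ≠ 0 → T ≤ m s) {u : Tr α (NL S Lab)} (hu : X.OK u) (hst : X.st u = X.st t')
    (hms : ∀ s, X.ms u s = X.ms t' s + e s) :
    ∃ u', X.OK u' ∧ X.st u' = X.st v ∧ (∀ s, X.ms u' s = X.ms v s + e s) ∧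
      u'.size + t'.size = v.size + u.size ∧ Sub u u' := by
  have hdown : ∀ s0 : S, ∀ s s', X.Y.le s s' → X.Y.lt s' s0 → X.Y.lt s s0 :=
    fun s0 s s' h1 h2 => X.Y.lt_of_le_of_lt h1 h2
  have hdown' : ∀ s0 : S, ∀ s s', X.Y.le s s' → X.Y.le s' s0 → X.Y.le s s0 :=
    fun s0 s s' h1 h2 => X.Y.le_trans h1 h2
  induction hsub with
  | refl _ => exact ⟨u, hu, hst, hms, by omega, Sub.refl _⟩
  | @left l t' a b hs ih =>
    obtain ⟨u', h1, h2, h3, h4, h5⟩ := ih hOK.1 hlow (fun s0 hs0 => by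
      have h6 := X.N_child hOK _ (hdown s0)
      have h7 := hhigh s0 hs0
      omega) hst hms
    have hOK' := hOK
    obtain ⟨_, hb, hpat, ha1, hb1, hza, hzb⟩ := hOK'
    have hSA : ∀ s, e s ≠ 0 → ∀ y, l.2.2 y ≠ 0 → X.Y.SA (X.P l.1) (X.Y.q s) (X.Y.q y.1) := by
      intro s hs' y hy
      by_contra hcon
      obtain ⟨s0, hle, hlarge, hmin⟩ := X.exists_min_large (he s hs')
      rw [← hle.1] at hcon
      have hf := hpat.forcedA hy s0 hcon
      refine X.pass_contra hT hlarge (w := X.ms a) (v := X.ms (Tr.node l a b)) ?_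
        (hhigh s0 hmin) ?_
      · exact (N_mono hlow _).trans (X.N_sub hs hOK.1 _ (hdown' s0))
      · rw [show X.ms a = fun s => ∑ x, l.2.1 x * ind (x.1 = s) from funext ha1, N_sum_fst]
        refine hf.trans (Nat.add_le_add_right ?_ _)
        rw [show X.ms (Tr.node l a b) = fun s =>
          (∑ x, l.2.1 x * ind (x.2 = s)) + ∑ x, l.2.2 x * ind (x.2 = s) from rfl, N_add,
          N_sum_snd]
        exact Nat.le_add_right _ _
    refine ⟨Tr.node (l.1, (fun x => l.2.1 x + ind (x.1 = x.2) * e x.1, l.2.2)) u' b,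
      ⟨h1, hb, hpat.passA e hSA, ?_, hb1, h2.trans hza, hzb⟩, rfl, ?_, ?_, Sub.left h5⟩
    · intro s
      rw [h3 s, ha1 s]
      simp only [Nat.add_mul, Finset.sum_add_distrib]
      congr 1
      rw [Fintype.sum_prod_type]
      have := sum_ind_mul s e
      rw [← this]
      refine Finset.sum_congr rfl fun x _ => ?_
      have h8 : ∀ y, ind (x = y) * e x * ind (x = s) = ind (x = y) * (ind (s = x) * e x) := by
        intro y
        rw [show ind (s = x) = ind (x = s) from ind_congr ⟨Eq.symm, Eq.symm⟩]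
        ring
      simp only [h8]
      rw [sum_ind_mul x (fun _ => ind (s = x) * e x)]
    · intro s
      show (∑ x, (l.2.1 x + ind (x.1 = x.2) * e x.1) * ind (x.2 = s)) +
        ∑ x, l.2.2 x * ind (x.2 = s) = (∑ x, l.2.1 x * ind (x.2 = s) +
        ∑ x, l.2.2 x * ind (x.2 = s)) + e s
      simp only [Nat.add_mul, Finset.sum_add_distrib]
      have h9 : ∑ x : S × S, ind (x.1 = x.2) * e x.1 * ind (x.2 = s) = e s := by
        rw [Fintype.sum_prod_type]
        have := sum_ind_mul s e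
        rw [← this]
        refine Finset.sum_congr rfl fun x _ => ?_
        have h8 : ∀ y, ind (x = y) * e x * ind (y = s) = ind (x = y) * (ind (y = s) * e x) := by
          intro y
          ring
        simp only [h8]
        rw [sum_ind_mul x (fun y => ind (y = s) * e x)]
        rw [show ind (s = x) = ind (x = s) from ind_congr ⟨Eq.symm, Eq.symm⟩]
      rw [h9]
      ring
    · simp only [Tr.size]
      omega
  | @right l t' a b hs ih =>
    obtain ⟨u', h1, h2, h3, h4, h5⟩ := ih hOK.2.1 hlow (fun s0 hs0 => by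
      have h6 := X.N_child hOK _ (hdown s0)
      have h7 := hhigh s0 hs0
      omega) hst hms
    have hOK' := hOK
    obtain ⟨ha, _, hpat, ha1, hb1, hza, hzb⟩ := hOK'
    have hSA : ∀ s, e s ≠ 0 → ∀ x, l.2.1 x ≠ 0 → X.Y.SA (X.P l.1) (X.Y.q x.1) (X.Y.q s) := by
      intro s hs' x hx
      by_contra hcon
      obtain ⟨s0, hle, hlarge, hmin⟩ := X.exists_min_large (he s hs')
      rw [← hle.1] at hcon
      have hf := hpat.forcedB hx s0 hcon
      refine X.pass_contra hT hlarge (w := X.ms b) (v := X.ms (Tr.node l a b)) ?_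
        (hhigh s0 hmin) ?_
      · exact (N_mono hlow _).trans (X.N_sub hs hOK.2.1 _ (hdown' s0))
      · rw [show X.ms b = fun s => ∑ x, l.2.2 x * ind (x.1 = s) from funext hb1, N_sum_fst]
        refine hf.trans (Nat.add_le_add_right ?_ _)
        rw [show X.ms (Tr.node l a b) = fun s =>
          (∑ x, l.2.1 x * ind (x.2 = s)) + ∑ x, l.2.2 x * ind (x.2 = s) from rfl, N_add,
          N_sum_snd, N_sum_snd]
        exact Nat.le_add_left _ _
    refine ⟨Tr.node (l.1, (l.2.1, fun x => l.2.2 x + ind (x.1 = x.2) * e x.1)) a u',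
      ⟨ha, h1, hpat.passB e hSA, ha1, ?_, hza, h2.trans hzb⟩, rfl, ?_, ?_, Sub.right h5⟩
    · intro s
      rw [h3 s, hb1 s]
      simp only [Nat.add_mul, Finset.sum_add_distrib]
      congr 1
      rw [Fintype.sum_prod_type]
      have := sum_ind_mul s e
      rw [← this]
      refine Finset.sum_congr rfl fun x _ => ?_
      have h8 : ∀ y, ind (x = y) * e x * ind (x = s) = ind (x = y) * (ind (s = x) * e x) := by
        intro y
        rw [show ind (s = x) = ind (x = s) from ind_congr ⟨Eq.symm, Eq.symm⟩]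
        ring
      simp only [h8]
      rw [sum_ind_mul x (fun _ => ind (s = x) * e x)]
    · intro s
      show (∑ x, l.2.1 x * ind (x.2 = s)) +
        ∑ x, (l.2.2 x + ind (x.1 = x.2) * e x.1) * ind (x.2 = s) = (∑ x, l.2.1 x * ind (x.2 = s) +
        ∑ x, l.2.2 x * ind (x.2 = s)) + e s
      simp only [Nat.add_mul, Finset.sum_add_distrib]
      have h9 : ∑ x : S × S, ind (x.1 = x.2) * e x.1 * ind (x.2 = s) = e s := by
        rw [Fintype.sum_prod_type]
        have := sum_ind_mul s e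
        rw [← this]
        refine Finset.sum_congr rfl fun x _ => ?_
        have h8 : ∀ y, ind (x = y) * e x * ind (y = s) = ind (x = y) * (ind (y = s) * e x) := by
          intro y
          ring
        simp only [h8]
        rw [sum_ind_mul x (fun y => ind (y = s) * e x)]
        rw [show ind (s = x) = ind (x = s) from ind_congr ⟨Eq.symm, Eq.symm⟩]
      rw [h9]
      ring
    · simp only [Tr.size]
      omega

end TL

end Pool.Agent.Helper29.C2
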