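import Pool.Agent.Helper29.Prefix.Wang

/-!
Square tilings written as words with a vertical rule at a fixed distance.
-/

set_option autoImplicit false

namespace Pool.Agent.Helper29.C2

open Pool.Agent.Helper29.Prefix

/-- Marks: left of, on, right of the diagonal. -/
inductive Mk : Type
  | B | D | A
  deriving DecidableEq

instance : Fintype Mk := ⟨{Mk.B, Mk.D, Mk.A}, by intro x; cases x <;> simp⟩

/-- Letters: a tile with a mark, or the separator. -/
abbrev Lt (q : ℕ) : Type := Option (Fin q × Mk)

/-- Marks of horizontal neighbours. -/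
def mh (m m' : Mk) : Prop := (m = Mk.B ∧ m' ≠ Mk.A) ∨ (m ≠ Mk.B ∧ m' = Mk.A)

/-- Marks of vertical neighbours. -/
def mv (m m' : Mk) : Prop := (m ≠ Mk.A ∧ m' = Mk.B) ∨ (m = Mk.A ∧ m' ≠ Mk.B)

variable {q : ℕ} (W : Wang (Fin q))

/-- The horizontal rule; `last` says that the letter is in the last row. -/
def hOK : Lt q → Lt q → Prop → Prop
  | some x, some y, _ => W.R x.1 y.1 ∧ mh x.2 y.2
  | some x, none, last => W.r x.1 ∧ (x.2 = Mk.D ↔ last)
  | none, some y, _ => W.l y.1 ∧ y.2 = Mk.B
  | none, none, _ => False

/-- The vertical rule. -/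
def vOK : Lt q → Lt q → Prop
  | some x, some y => W.U x.1 y.1 ∧ mv x.2 y.2
  | none, none => True
  | _, _ => False

/-- Words coding tilings; the length is `a + k`, the rows have length `a`. -/
structure Word (a k : ℕ) (L : ℕ → Lt q) : Prop where
  apos : 1 ≤ a
  first : ∃ γ, L 0 = some (γ, Mk.D) ∧ W.l γ ∧ W.c γ
  p1 : ∀ p, p + 1 < a → L p ≠ none
  p1' : L (a - 1) = none
  bot : ∀ p < a, ∀ x, L p = some x → W.b x.1
  top : ∀ p, k ≤ p → p < a + k → ∀ x, L p = some x → W.t x.1
  last : L (a + k - 1) = none
  hor : ∀ p, p + 1 < a + k → hOK W (L p) (L (p + 1)) (k ≤ p)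
  ver : ∀ p < k, vOK W (L p) (L (p + a))

variable {W}

theorem Word.tiles {a k : ℕ} {L : ℕ → Lt q} (h : Word W a k L) :
    ∃ N, 1 ≤ N ∧ a = N + 1 ∧ a + k = N * (N + 1) ∧ Tiles W N := by
  obtain ⟨γ0, hγ0, hl0, hc0⟩ := h.first
  have ha2 : 2 ≤ a := by
    by_contra hc
    have : a - 1 = 0 := by have := h.apos; omega
    have h1 := h.p1'
    rw [this, hγ0] at h1
    cases h1
  -- separators
  have hsep : ∀ p, p < a + k → (L p = none ↔ p % a = a - 1) := by
    intro p
    induction p using Nat.strong_induction_on with
    | _ p ih =>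
      intro hp
      by_cases hpa : p < a
      · rw [Nat.mod_eq_of_lt hpa]
        by_cases hp1 : p + 1 < a
        · have := h.p1 p hp1
          constructor
          · intro h'; exact absurd h' this
          · intro h'; omega
        · have : p = a - 1 := by omega
          rw [this]
          exact ⟨fun _ => rfl, fun _ => h.p1'⟩
      · have h1 := ih (p - a) (by omega) (by omega)
        have h2 := h.ver (p - a) (by omega)
        rw [show p - a + a = p by omega] at h2
        rw [Nat.mod_eq_sub_mod (by omega), ← h1]
        cases hx : L (p - a) with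
        | none =>
          cases hy : L p with
          | none => simp
          | some y => rw [hx, hy] at h2; exact h2.elim
        | some x =>
          cases hy : L p with
          | none => rw [hx, hy] at h2; exact h2.elim
          | some y => simp
  obtain ⟨R, hR⟩ : ∃ R, a + k = a * R := by
    have h1 := (hsep (a + k - 1) (by omega)).1 h.last
    have h2 : (a + k - 1 + 1) % a = 0 := by
      rw [Nat.add_mod, h1, Nat.mod_eq_of_lt (show 1 < a by omega), show a - 1 + 1 = a by omega,
        Nat.mod_self]
    rw [show a + k - 1 + 1 = a + k by omega] at h2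
    exact Nat.dvd_of_mod_eq_zero h2
  have hRpos : 1 ≤ R := by
    rcases Nat.eq_zero_or_pos R with h1 | h1
    · subst h1; omega
    · exact h1
  -- the letters in the cells
  have hcell : ∀ x y, x + 1 < a → y < R → ∃ z, L (y * a + x) = some z := by
    intro x y hx hy
    have h1 : y * a + x < a + k := by
      rw [hR]
      calc y * a + x < y * a + a := by omega
        _ = a * (y + 1) := by ring
        _ ≤ a * R := Nat.mul_le_mul_left _ hy
    cases h2 : L (y * a + x) with
    | none =>
      have h3 := (hsep _ h1).1 h2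
      rw [show y * a + x = x + a * y by ring, Nat.add_mul_mod_self_left,
        Nat.mod_eq_of_lt (by omega)] at h3
      omega
    | some z => exact ⟨z, rfl⟩
  have hlt : ∀ x y, x < a → y < R → y * a + x < a + k := by
    intro x y hx hy
    rw [hR]
    calc y * a + x < y * a + a := by omega
      _ = a * (y + 1) := by ring
      _ ≤ a * R := Nat.mul_le_mul_left _ hy
  have hsepc : ∀ y, y < R → L (y * a + (a - 1)) = none := by
    intro y hy
    refine (hsep _ (hlt _ _ (by omega) hy)).2 ?_
    rw [show y * a + (a - 1) = (a - 1) + a * y by ring, Nat.add_mul_mod_self_left,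
      Nat.mod_eq_of_lt (by omega)]
  -- the marks
  have hmark : ∀ y, y < R → ∀ x, x + 1 < a → ∀ z, L (y * a + x) = some z →
      (x < y → z.2 = Mk.B) ∧ (x = y → z.2 = Mk.D) ∧ (y < x → z.2 = Mk.A) := by
    intro y
    induction y with
    | zero =>
      intro hy x
      induction x with
      | zero =>
        intro _ z hz
        rw [show 0 * a + 0 = 0 by ring, hγ0] at hz
        obtain rfl := Option.some.inj hz
        simp
      | succ x ihx =>
        intro hx z hz
        obtain ⟨w, hw⟩ := hcell x 0 (by omega) hy
        have h1 := h.hor (0 * a + x) (by have := hlt (x + 1) 0 (by omega) hy; omega)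
        rw [show 0 * a + x + 1 = 0 * a + (x + 1) by ring, hw, hz] at h1
        have h2 := ihx (by omega) w hw
        refine ⟨by omega, by omega, fun _ => ?_⟩
        rcases h1.2 with ⟨h3, _⟩ | ⟨_, h3⟩
        · rcases Nat.eq_zero_or_pos x with hx0 | hx0
          · rw [h2.2.1 hx0] at h3; cases h3
          · rw [h2.2.2 hx0] at h3; cases h3
        · exact h3
    | succ y ihy =>
      intro hy x
      induction x with
      | zero =>
        intro _ z hz
        have h1 := h.hor (y * a + (a - 1)) (by
          have := hlt 0 (y + 1) (by omega) hy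
          rw [show (y + 1) * a + 0 = y * a + (a - 1) + 1 by
            rw [Nat.add_mul]; omega] at this
          exact this)
        rw [hsepc y (by omega), show y * a + (a - 1) + 1 = (y + 1) * a + 0 by
          rw [Nat.add_mul]; omega, hz] at h1
        exact ⟨fun _ => h1.2, by omega, by omega⟩
      | succ x ihx =>
        intro hx z hz
        obtain ⟨w, hw⟩ := hcell x (y + 1) (by omega) hy
        obtain ⟨v, hv⟩ := hcell (x + 1) y (by omega) (by omega)
        have h1 := h.hor ((y + 1) * a + x) (by have := hlt (x + 1) (y + 1) (by omega) hy; omega)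
        rw [show (y + 1) * a + x + 1 = (y + 1) * a + (x + 1) by ring, hw, hz] at h1
        have h2 := ihx (by omega) w hw
        have h3 := h.ver (y * a + (x + 1)) (by
          have := hlt (x + 1) (y + 1) (by omega) hy
          rw [Nat.add_mul] at this
          omega)
        rw [show y * a + (x + 1) + a = (y + 1) * a + (x + 1) by ring, hv, hz] at h3
        have h4 := ihy (by omega) (x + 1) (by omega) v hv
        refine ⟨fun hlt' => ?_, fun heq => ?_, fun hgt => ?_⟩
        · rcases h3.2 with ⟨_, h5⟩ | ⟨h5, _⟩
          · exact h5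
          · rcases Nat.lt_or_ge (x + 1) y with h6 | h6
            · rw [h4.1 h6] at h5; cases h5
            · rw [h4.2.1 (by omega)] at h5; cases h5
        · rcases h3.2 with ⟨h5, _⟩ | ⟨_, h5⟩
          · exact absurd (h4.2.2 (by omega)) h5
          · rcases h1.2 with ⟨_, h6⟩ | ⟨h6, _⟩
            · cases hz2 : z.2 with
              | B => exact absurd hz2 h5
              | D => rfl
              | A => exact absurd hz2 h6
            · exact absurd (h2.1 (by omega)) h6
        · rcases h1.2 with ⟨h5, _⟩ | ⟨_, h5⟩
          · rcases Nat.eq_or_lt_of_le (show y + 1 ≤ x by omega) with h6 | h6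
            · rw [h2.2.1 h6.symm] at h5; cases h5
            · rw [h2.2.2 h6] at h5; cases h5
          · exact h5
  -- squareness
  have hsq : R = a - 1 := by
    obtain ⟨z, hz⟩ := hcell (a - 2) (R - 1) (by omega) (by omega)
    have hend : ∀ y, y < R → ∀ z, L (y * a + (a - 2)) = some z → (z.2 = Mk.D ↔ y = R - 1) := by
      intro y hy z hz
      have h1 := h.hor (y * a + (a - 2)) (by have := hlt (a - 1) y (by omega) hy; omega)
      rw [show y * a + (a - 2) + 1 = y * a + (a - 1) by omega, hsepc y hy, hz] at h1
      rw [h1.2]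
      constructor
      · intro h2
        by_contra h3
        have h4 : (y + 1) * a ≤ (R - 1) * a := Nat.mul_le_mul_right _ (by omega)
        have h5 : a * R = (R - 1) * a + a := by
          obtain ⟨R', rfl⟩ : ∃ R', R = R' + 1 := ⟨R - 1, by omega⟩
          simp only [Nat.add_sub_cancel]
          ring
        rw [Nat.add_mul] at h4
        omega
      · intro h2
        have h5 : a * R = (R - 1) * a + a := by
          obtain ⟨R', rfl⟩ : ∃ R', R = R' + 1 := ⟨R - 1, by omega⟩
          simp only [Nat.add_sub_cancel]
          ring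
        rw [h2]
        omega
    have h1 := (hend (R - 1) (by omega) z hz).2 rfl
    have h2 := hmark (R - 1) (by omega) (a - 2) (by omega) z hz
    rcases lt_trichotomy (a - 2) (R - 1) with h3 | h3 | h3
    · rw [h2.1 h3] at h1; cases h1
    · omega
    · rw [h2.2.2 h3] at h1; cases h1
  refine ⟨a - 1, by omega, by omega, ?_, ?_⟩
  · rw [hR, hsq, show a - 1 + 1 = a by omega]; ring
  -- the tiling
  let f : ℕ → ℕ → Fin q := fun x y =>
    match L (y * a + x) with
    | some z => z.1
    | none => γ0
  have hf : ∀ x y z, L (y * a + x) = some z → f x y = z.1 := by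
    intro x y z hz
    simp only [f, hz]
  refine ⟨f, ?_, ?_, ?_, ?_, ?_, ?_, ?_⟩
  · intro x y hx hy
    obtain ⟨z, hz⟩ := hcell x y (by omega) (by omega)
    obtain ⟨w, hw⟩ := hcell (x + 1) y (by omega) (by omega)
    rw [hf x y z hz, hf (x + 1) y w hw]
    have h1 := h.hor (y * a + x) (by have := hlt (x + 1) y (by omega) (by omega); omega)
    rw [show y * a + x + 1 = y * a + (x + 1) by ring, hz, hw] at h1
    exact h1.1
  · intro x y hx hy
    obtain ⟨z, hz⟩ := hcell x y (by omega) (by omega)
    obtain ⟨w, hw⟩ := hcell x (y + 1) (by omega) (by omega)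
    rw [hf x y z hz, hf x (y + 1) w hw]
    have h1 := h.ver (y * a + x) (by
      have := hlt x (y + 1) (by omega) (by omega)
      rw [Nat.add_mul] at this
      omega)
    rw [show y * a + x + a = (y + 1) * a + x by ring, hz, hw] at h1
    exact h1.1
  · intro y hy
    cases y with
    | zero =>
      rw [hf 0 0 (γ0, Mk.D) (by rw [show 0 * a + 0 = 0 by ring]; exact hγ0)]
      exact hl0
    | succ y =>
      obtain ⟨z, hz⟩ := hcell 0 (y + 1) (by omega) (by omega)
      rw [hf 0 (y + 1) z hz]
      have h1 := h.hor (y * a + (a - 1)) (by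
        have := hlt 0 (y + 1) (by omega) (by omega)
        rw [show (y + 1) * a + 0 = y * a + (a - 1) + 1 by rw [Nat.add_mul]; omega] at this
        exact this)
      rw [hsepc y (by omega), show y * a + (a - 1) + 1 = (y + 1) * a + 0 by
        rw [Nat.add_mul]; omega, hz] at h1
      exact h1.1
  · intro y hy
    obtain ⟨z, hz⟩ := hcell (a - 1 - 1) y (by omega) (by omega)
    rw [hf (a - 1 - 1) y z hz]
    have h1 := h.hor (y * a + (a - 1 - 1)) (by
      have := hlt (a - 1) y (by omega) (by omega); omega)
    rw [show y * a + (a - 1 - 1) + 1 = y * a + (a - 1) by omega, hsepc y (by omega), hz] at h1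
    exact h1.1
  · intro x hx
    obtain ⟨z, hz⟩ := hcell x 0 (by omega) (by omega)
    rw [hf x 0 z hz]
    exact h.bot (0 * a + x) (by omega) z hz
  · intro x hx
    obtain ⟨z, hz⟩ := hcell x (a - 1 - 1) (by omega) (by omega)
    rw [hf x (a - 1 - 1) z hz]
    refine h.top _ ?_ (hlt _ _ (by omega) (by omega)) z hz
    have h5 : a * R = (a - 1 - 1) * a + a := by
      obtain ⟨R', rfl⟩ : ∃ R', R = R' + 1 := ⟨R - 1, by omega⟩
      rw [show a - 1 - 1 = R' by omega]
      ring
    omega
  · rw [hf 0 0 (γ0, Mk.D) (by rw [show 0 * a + 0 = 0 by ring]; exact hγ0)]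
    exact hc0

/-- The word of a tiling. -/
def wordOf {q : ℕ} (N : ℕ) (f : ℕ → ℕ → Fin q) (p : ℕ) : Lt q :=
  if p % (N + 1) = N then none
  else some (f (p % (N + 1)) (p / (N + 1)),
    if p % (N + 1) < p / (N + 1) then Mk.B else
      if p % (N + 1) = p / (N + 1) then Mk.D else Mk.A)

theorem wordOf_cell {q : ℕ} {N : ℕ} (f : ℕ → ℕ → Fin q) {x y : ℕ} (hx : x < N) :
    wordOf N f (y * (N + 1) + x) = some (f x y, if x < y then Mk.B else
      if x = y then Mk.D else Mk.A) := by
  have h1 : (y * (N + 1) + x) % (N + 1) = x := by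
    rw [show y * (N + 1) + x = x + (N + 1) * y by ring, Nat.add_mul_mod_self_left,
      Nat.mod_eq_of_lt (by omega)]
  have h2 : (y * (N + 1) + x) / (N + 1) = y := by
    rw [show y * (N + 1) + x = x + (N + 1) * y by ring, Nat.add_mul_div_left _ _ (by omega),
      Nat.div_eq_of_lt (by omega), zero_add]
  unfold wordOf
  rw [h1, h2, if_neg (by omega)]

theorem wordOf_sep {q : ℕ} {N : ℕ} (f : ℕ → ℕ → Fin q) {y : ℕ} :
    wordOf N f (y * (N + 1) + N) = none := by
  have h1 : (y * (N + 1) + N) % (N + 1) = N := by
    rw [show y * (N + 1) + N = N + (N + 1) * y by ring, Nat.add_mul_mod_self_left,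
      Nat.mod_eq_of_lt (by omega)]
  unfold wordOf
  rw [if_pos h1]

theorem exists_word {N : ℕ} (hN : 1 ≤ N) (h : Tiles W N) :
    ∃ L, Word W (N + 1) ((N - 1) * (N + 1)) L := by
  obtain ⟨f, hR, hU, hl, hr, hb, ht, hc⟩ := h
  have htot : N + 1 + (N - 1) * (N + 1) = N * (N + 1) := by
    obtain ⟨N', rfl⟩ : ∃ N', N = N' + 1 := ⟨N - 1, by omega⟩
    simp only [Nat.add_sub_cancel]
    ring
  have hdiv : ∀ p, ∃ x y, p = y * (N + 1) + x ∧ x ≤ N := by
    intro p
    refine ⟨p % (N + 1), p / (N + 1), ?_, ?_⟩
    · have := Nat.div_add_mod p (N + 1)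
      rw [mul_comm] at this
      exact this.symm
    · have := Nat.mod_lt p (show 0 < N + 1 by omega)
      omega
  have hyN : ∀ x y, y * (N + 1) + x < N * (N + 1) → y < N := by
    intro x y h1
    by_contra h2
    have : N * (N + 1) ≤ y * (N + 1) := Nat.mul_le_mul_right _ (by omega)
    omega
  refine ⟨wordOf N f, ⟨by omega, ⟨f 0 0, ?_, hl 0 (by omega), hc⟩, ?_, ?_, ?_, ?_, ?_, ?_, ?_⟩⟩
  · have := wordOf_cell (N := N) f (x := 0) (y := 0) (by omega)
    simpa using this
  · intro p hp
    have := wordOf_cell (N := N) f (x := p) (y := 0) (by omega)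
    rw [show 0 * (N + 1) + p = p by ring] at this
    rw [this]
    simp
  · have := wordOf_sep (N := N) f (y := 0)
    rw [show 0 * (N + 1) + N = N + 1 - 1 by omega] at this
    exact this
  · intro p hp z hz
    by_cases h1 : p = N
    · have h2 : wordOf N f p = none := by
        rw [h1]
        have := wordOf_sep (N := N) f (y := 0)
        rwa [show 0 * (N + 1) + N = N by ring] at this
      rw [hz] at h2
      cases h2
    · have := wordOf_cell (N := N) f (x := p) (y := 0) (by omega)
      rw [show 0 * (N + 1) + p = p by ring, hz] at this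
      obtain rfl := Option.some.inj this
      exact hb p (by omega)
  · intro p hp1 hp2 z hz
    obtain ⟨x, y, rfl, hx⟩ := hdiv p
    rw [htot] at hp2
    have h1 := hyN x y hp2
    have h2 : y = N - 1 := by
      by_contra h3
      have : (y + 1) * (N + 1) ≤ (N - 1) * (N + 1) := Nat.mul_le_mul_right _ (by omega)
      rw [Nat.add_mul] at this
      omega
    rcases Nat.eq_or_lt_of_le hx with h3 | h3
    · rw [h3, wordOf_sep] at hz; cases hz
    · rw [wordOf_cell f h3] at hz
      obtain rfl := Option.some.inj hz
      rw [h2]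
      exact ht x h3
  · rw [htot]
    have := wordOf_sep (N := N) f (y := N - 1)
    rw [show (N - 1) * (N + 1) + N = N * (N + 1) - 1 by omega] at this
    exact this
  · intro p hp
    rw [htot] at hp
    obtain ⟨x, y, rfl, hx⟩ := hdiv p
    have h1 := hyN x y (by omega)
    rcases Nat.eq_or_lt_of_le hx with h3 | h3
    · have h4 : y * (N + 1) + x + 1 = (y + 1) * (N + 1) + 0 := by rw [h3]; ring
      have e1 : wordOf N f (y * (N + 1) + x) = none := by rw [h3]; exact wordOf_sep f
      rw [e1, h4, wordOf_cell f (by omega)]
      rw [h4] at hp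
      have h5 := hyN 0 (y + 1) hp
      exact ⟨hl (y + 1) h5, by simp⟩
    · rcases Nat.eq_or_lt_of_le h3 with h4 | h4
      · have h5 : y * (N + 1) + x + 1 = y * (N + 1) + N := by omega
        rw [wordOf_cell f h3, h5, wordOf_sep]
        have hxN : x = N - 1 := by omega
        refine ⟨by rw [hxN]; exact hr y h1, ?_⟩
        have h6 : ((N - 1) * (N + 1) ≤ y * (N + 1) + x) ↔ y = N - 1 := by
          constructor
          · intro h7
            by_contra h8
            have : (y + 1) * (N + 1) ≤ (N - 1) * (N + 1) := Nat.mul_le_mul_right _ (by omega)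
            rw [Nat.add_mul] at this
            omega
          · intro h7
            rw [h7]
            exact Nat.le_add_right _ _
        rw [h6, hxN]
        show (if N - 1 < y then Mk.B else if N - 1 = y then Mk.D else Mk.A) = Mk.D ↔ y = N - 1
        rw [if_neg (by omega)]
        by_cases h7 : N - 1 = y
        · rw [if_pos h7]; exact ⟨fun _ => h7.symm, fun _ => rfl⟩
        · rw [if_neg h7]
          constructor
          · intro h8; cases h8
          · intro h8; exact absurd h8.symm h7
      · have h5 : y * (N + 1) + x + 1 = y * (N + 1) + (x + 1) := by ring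
        rw [wordOf_cell f h3, h5, wordOf_cell f h4]
        refine ⟨hR x y h4 h1, ?_⟩
        show mh (if x < y then Mk.B else if x = y then Mk.D else Mk.A)
          (if x + 1 < y then Mk.B else if x + 1 = y then Mk.D else Mk.A)
        unfold mh
        split_ifs <;> first | omega | simp
  · intro p hp
    obtain ⟨x, y, rfl, hx⟩ := hdiv p
    have h0 : y + 1 < N := by
      by_contra h2
      have : (N - 1) * (N + 1) ≤ y * (N + 1) := Nat.mul_le_mul_right _ (by omega)
      omega
    have h4 : y * (N + 1) + x + (N + 1) = (y + 1) * (N + 1) + x := by ring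
    rcases Nat.eq_or_lt_of_le hx with h3 | h3
    · rw [h4, h3, wordOf_sep, wordOf_sep]
      trivial
    · rw [h4, wordOf_cell f h3, wordOf_cell f h3]
      refine ⟨hU x y h3 h0, ?_⟩
      show mv (if x < y then Mk.B else if x = y then Mk.D else Mk.A)
        (if x < y + 1 then Mk.B else if x = y + 1 then Mk.D else Mk.A)
      unfold mv
      split_ifs <;> first | omega | simp

end Pool.Agent.Helper29.C2
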